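import Mathlib
set_option autoImplicit false
open Set
namespace MP_837341_an_797

noncomputable def Lr (a b α β : ℝ) : ℝ := ∫ x in a..b, Real.sqrt (1 + (2 * α * x + β) ^ 2)

noncomputable def al (t : ℝ) : ℝ := -2 / (1 + |t|) ^ 2
noncomputable def be (t : ℝ) : ℝ := 4 * t / (1 + |t|) ^ 2
noncomputable def ga (t : ℝ) : ℝ := 1 - 2 * t ^ 2 / (1 + |t|) ^ 2

lemma Lr_neg (a b α β : ℝ) : Lr a b (-α) (-β) = Lr a b α β := by
  unfold Lr; congr 1; ext x; congr 1; ring

lemma Lr_lt (a b α β α' β' : ℝ) (hab : a < b)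
    (hle : ∀ x ∈ Icc a b, |2 * α * x + β| ≤ |2 * α' * x + β'|)
    (hlt : ∃ x ∈ Icc a b, |2 * α * x + β| < |2 * α' * x + β'|) : Lr a b α β < Lr a b α' β' := by
  unfold Lr
  refine intervalIntegral.integral_lt_integral_of_continuousOn_of_le_of_exists_lt hab ?_ ?_ ?_ ?_
  · fun_prop
  · fun_prop
  · intro x hx
    apply Real.sqrt_le_sqrt
    have := sq_le_sq.mpr (hle x ⟨hx.1.le, hx.2⟩)
    linarith
  · obtain ⟨x, hx, h⟩ := hlt
    refine ⟨x, hx, ?_⟩
    apply Real.sqrt_lt_sqrt (by positivity)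
    have := sq_lt_sq.mpr h
    linarith

lemma Lr_scale (a b α β l : ℝ) (hab : a < b) (hl : 1 < l) (hne : α ≠ 0 ∨ β ≠ 0) :
    Lr a b α β < Lr a b (l * α) (l * β) := by
  have e : ∀ x, |2 * (l * α) * x + l * β| = l * |2 * α * x + β| := by
    intro x
    rw [show 2 * (l * α) * x + l * β = l * (2 * α * x + β) by ring, abs_mul, abs_of_pos (by linarith)]
  refine Lr_lt a b α β _ _ hab ?_ ?_
  · intro x _
    rw [e]
    nlinarith [abs_nonneg (2 * α * x + β)]
  · by_cases h : 2 * α * a + β = 0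
    · have h2 : 2 * α * b + β ≠ 0 := by
        intro h3
        have h4 : α * (b - a) = 0 := by linarith
        have h5 : α = 0 := (mul_eq_zero.mp h4).resolve_right (by linarith)
        rw [h5] at h
        rcases hne with h6 | h6
        · exact h6 h5
        · apply h6; linarith
      refine ⟨b, ⟨hab.le, le_rfl⟩, ?_⟩
      rw [e]
      have := abs_pos.mpr h2
      nlinarith
    · refine ⟨a, ⟨le_rfl, hab.le⟩, ?_⟩
      rw [e]
      have := abs_pos.mpr h
      nlinarith

lemma conv_pt (x p q : ℝ) (hp : 0 < p) (hq : 0 < q) (hpq : p + q = 1) :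
    Real.sqrt (1 + (2 * ((q - p) / 2) * x + 1) ^ 2) ≤
      p * Real.sqrt (1 + (2 * (-1/2) * x + 1) ^ 2) + q * Real.sqrt (1 + (2 * (1/2) * x + 1) ^ 2) ∧
    (x ≠ 0 → Real.sqrt (1 + (2 * ((q - p) / 2) * x + 1) ^ 2) <
      p * Real.sqrt (1 + (2 * (-1/2) * x + 1) ^ 2) + q * Real.sqrt (1 + (2 * (1/2) * x + 1) ^ 2)) := by
  set A := Real.sqrt (1 + (2 * (-1/2) * x + 1) ^ 2) with hA
  set B := Real.sqrt (1 + (2 * (1/2) * x + 1) ^ 2) with hB
  have hA2 : A ^ 2 = 1 + (1 - x) ^ 2 := by rw [hA, Real.sq_sqrt (by positivity)]; ring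
  have hB2 : B ^ 2 = 1 + (1 + x) ^ 2 := by rw [hB, Real.sq_sqrt (by positivity)]; ring
  have hA0 : 0 < A := Real.sqrt_pos.mpr (by positivity)
  have hB0 : 0 < B := Real.sqrt_pos.mpr (by positivity)
  have hAB2 : (A * B) ^ 2 = (2 - x ^ 2) ^ 2 + 4 * x ^ 2 := by rw [mul_pow, hA2, hB2]; ring
  have hABle : 2 - x ^ 2 ≤ A * B := by
    by_contra h
    push Not at h
    have h0 : 0 < A * B := by positivity
    have h1 : 0 < (2 - x ^ 2 - A * B) * (2 - x ^ 2 + A * B) := mul_pos (by linarith) (by linarith)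
    nlinarith [sq_nonneg x]
  have hkey : (p * A + q * B) ^ 2 - (1 + (2 * ((q - p) / 2) * x + 1) ^ 2) = 2 * (p * q) * (A * B - (2 - x ^ 2)) := by
    have hq' : q = 1 - p := by linarith
    have : (p * A + q * B) ^ 2 = p ^ 2 * A ^ 2 + q ^ 2 * B ^ 2 + 2 * (p * q) * (A * B) := by ring
    rw [this, hA2, hB2, hq']; ring
  have hpq0 : 0 < p * q := by positivity
  constructor
  · apply Real.sqrt_le_iff.mpr
    refine ⟨by positivity, ?_⟩
    nlinarith
  · intro hx
    have hABlt : 2 - x ^ 2 < A * B := by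
      by_contra h
      push Not at h
      have h1 : (A * B) ^ 2 ≤ (2 - x ^ 2) ^ 2 := by
        have : 0 < A * B := by positivity
        nlinarith
      rw [hAB2] at h1
      have : 0 < x ^ 2 := by positivity
      linarith
    rw [Real.sqrt_lt' (by positivity)]
    nlinarith

lemma conv_L (a b α : ℝ) (hab : a < b) (h1 : -1/2 < α) (h2 : α < 1/2) :
    Lr a b α 1 < max (Lr a b (-1/2) 1) (Lr a b (1/2) 1) := by
  set p := 1/2 - α with hp
  set q := 1/2 + α with hq
  have hp0 : 0 < p := by rw [hp]; linarith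
  have hq0 : 0 < q := by rw [hq]; linarith
  have hpq : p + q = 1 := by rw [hp, hq]; ring
  have hα : α = (q - p) / 2 := by rw [hp, hq]; ring
  have hlt : Lr a b α 1 < p * Lr a b (-1/2) 1 + q * Lr a b (1/2) 1 := by
    unfold Lr
    rw [← intervalIntegral.integral_const_mul, ← intervalIntegral.integral_const_mul,
      ← intervalIntegral.integral_add ((Continuous.intervalIntegrable (by fun_prop)) _ _)
        ((Continuous.intervalIntegrable (by fun_prop)) _ _)]
    refine intervalIntegral.integral_lt_integral_of_continuousOn_of_le_of_exists_lt hab ?_ ?_ ?_ ?_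
    · fun_prop
    · fun_prop
    · intro x _
      rw [hα]; exact (conv_pt x p q hp0 hq0 hpq).1
    · by_cases hb0 : b = 0
      · refine ⟨a, ⟨le_rfl, hab.le⟩, ?_⟩
        rw [hα]; exact (conv_pt a p q hp0 hq0 hpq).2 (by intro h; rw [h, hb0] at hab; exact lt_irrefl _ hab)
      · refine ⟨b, ⟨hab.le, le_rfl⟩, ?_⟩
        rw [hα]; exact (conv_pt b p q hp0 hq0 hpq).2 hb0
  refine lt_of_lt_of_le hlt ?_
  have m1 := le_max_left (Lr a b (-1/2) 1) (Lr a b (1/2) 1)
  have m2 := le_max_right (Lr a b (-1/2) 1) (Lr a b (1/2) 1)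
  calc p * Lr a b (-1/2) 1 + q * Lr a b (1/2) 1
      ≤ p * max (Lr a b (-1/2) 1) (Lr a b (1/2) 1) + q * max (Lr a b (-1/2) 1) (Lr a b (1/2) 1) :=
        add_le_add (mul_le_mul_of_nonneg_left m1 hp0.le) (mul_le_mul_of_nonneg_left m2 hq0.le)
    _ = max (Lr a b (-1/2) 1) (Lr a b (1/2) 1) := by rw [← add_mul, hpq, one_mul]

/-- interior vertex, opening downwards -/
lemma caseII (a b α β γ : ℝ) (hab : a < b) (hF : ∀ x ∈ Icc (-1:ℝ) 1, |α * x ^ 2 + β * x + γ| ≤ 1)
    (hmax : ∀ t ∈ Icc (-1:ℝ) 1, Lr a b (al t) (be t) ≤ Lr a b α β) (hα : α < 0) (hβ : |β| < -(2 * α)) :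
    ∃ t ∈ Icc (-1:ℝ) 1, α = al t ∧ β = be t ∧ γ = ga t := by
  set t := -β / (2 * α) with ht
  have hβt : β = -2 * α * t := by
    rw [ht]; have := hα.ne; field_simp
  have habs := abs_lt.mp hβ
  have ht1 : t < 1 := by
    rw [ht, div_lt_iff_of_neg (by linarith)]; linarith
  have ht2 : -1 < t := by
    rw [ht, lt_div_iff_of_neg (by linarith)]; linarith
  have hpos : 0 < 1 + |t| := by positivity
  have hup : γ - α * t ^ 2 ≤ 1 := by
    have := (abs_le.mp (hF t ⟨ht2.le, ht1.le⟩)).2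
    rw [hβt] at this; nlinarith
  have hlo : -1 ≤ γ + α * (1 + 2 * |t|) := by
    rcases le_total 0 t with h | h
    · rw [abs_of_nonneg h]
      have := (abs_le.mp (hF (-1) ⟨le_rfl, by norm_num⟩)).1
      rw [hβt] at this; nlinarith
    · rw [abs_of_nonpos h]
      have := (abs_le.mp (hF 1 ⟨by norm_num, le_rfl⟩)).1
      rw [hβt] at this; nlinarith
  have hsq : |t| ^ 2 = t ^ 2 := sq_abs t
  have hle : -α * (1 + |t|) ^ 2 ≤ 2 := by nlinarith
  rcases lt_or_eq_of_le hle with hlt | heq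
  · exfalso
    have hd : 0 < -α * (1 + |t|) ^ 2 := by
      have : 0 < -α := by linarith
      positivity
    have hs := Lr_scale a b α β (2 / (-α * (1 + |t|) ^ 2)) hab (by rw [one_lt_div hd]; exact hlt) (Or.inl hα.ne)
    have e1 : 2 / (-α * (1 + |t|) ^ 2) * α = al t := by
      unfold al; have := hα.ne; field_simp
    have e2 : 2 / (-α * (1 + |t|) ^ 2) * β = be t := by
      unfold be; rw [hβt]; have := hα.ne; field_simp; ring
    rw [e1, e2] at hs
    exact absurd (hmax t ⟨ht2.le, ht1.le⟩) (not_le.mpr hs)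
  · have hα' : α = al t := by
      unfold al; rw [eq_div_iff (by positivity)]; linarith
    have hβ' : β = be t := by
      rw [hβt, hα']; unfold al be; ring
    refine ⟨t, ⟨ht2.le, ht1.le⟩, hα', hβ', ?_⟩
    have hg : γ = 1 + α * t ^ 2 := by nlinarith
    rw [hg, hα']; unfold al ga; ring

lemma main (a b α β γ : ℝ) (hab : a < b) (hb : b ≤ 1)
    (hF : ∀ x ∈ Icc (-1:ℝ) 1, |α * x ^ 2 + β * x + γ| ≤ 1)
    (hmax : ∀ t ∈ Icc (-1:ℝ) 1, Lr a b (al t) (be t) ≤ Lr a b α β) :
    ∃ t ∈ Icc (-1:ℝ) 1, (α = al t ∧ β = be t ∧ γ = ga t) ∨ (α = -al t ∧ β = -be t ∧ γ = -ga t) := by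
  -- reduction to β ≥ 0 in the monotone case
  have hF' : ∀ x ∈ Icc (-1:ℝ) 1, |(-α) * x ^ 2 + (-β) * x + (-γ)| ≤ 1 := by
    intro x hx
    rw [show (-α) * x ^ 2 + (-β) * x + (-γ) = -(α * x ^ 2 + β * x + γ) by ring, abs_neg]
    exact hF x hx
  have hmax' : ∀ t ∈ Icc (-1:ℝ) 1, Lr a b (al t) (be t) ≤ Lr a b (-α) (-β) := by
    intro t ht; rw [Lr_neg]; exact hmax t ht
  have mono : ∀ α β γ : ℝ, (∀ x ∈ Icc (-1:ℝ) 1, |α * x ^ 2 + β * x + γ| ≤ 1) →
      (∀ t ∈ Icc (-1:ℝ) 1, Lr a b (al t) (be t) ≤ Lr a b α β) → 2 * |α| ≤ β →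
      ∃ t ∈ Icc (-1:ℝ) 1, (α = al t ∧ β = be t ∧ γ = ga t) ∨ (α = -al t ∧ β = -be t ∧ γ = -ga t) := by
    intro α β γ hF hmax hc
    have hp1 := abs_le.mp (hF 1 ⟨by norm_num, le_rfl⟩)
    have hm1 := abs_le.mp (hF (-1) ⟨le_rfl, by norm_num⟩)
    have hβ1 : β ≤ 1 := by linarith [hp1.2, hm1.1]
    have a1 : al 1 = -1/2 := by unfold al; norm_num
    have b1 : be 1 = 1 := by unfold be; norm_num
    have g1 : ga 1 = 1/2 := by unfold ga; norm_num
    have a2 : al (-1) = -1/2 := by unfold al; norm_num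
    have b2 : be (-1) = -1 := by unfold be; norm_num
    have g2 : ga (-1) = 1/2 := by unfold ga; norm_num
    have hm1' : Lr a b (-1/2) 1 ≤ Lr a b α β := by
      have := hmax 1 ⟨by norm_num, le_rfl⟩; rwa [a1, b1] at this
    have hm2' : Lr a b (1/2) 1 ≤ Lr a b α β := by
      have := hmax (-1) ⟨le_rfl, by norm_num⟩
      rw [a2, b2] at this
      have e := Lr_neg a b (1/2) 1
      rw [show -(1/2:ℝ) = -1/2 by ring] at e
      rwa [e] at this
    have hαβ := abs_le.mp (show |α| ≤ β / 2 by linarith)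
    have hβ0 : 0 ≤ β := by linarith [abs_nonneg α]
    rcases eq_or_lt_of_le hβ0 with h0 | h0
    · exfalso
      have hα0 : α = 0 := by
        have : |α| ≤ 0 := by linarith
        exact abs_nonpos_iff.mp this
      have : Lr a b α β < Lr a b (-1/2) 1 := by
        rw [hα0, ← h0]
        refine Lr_lt a b _ _ _ _ hab ?_ ?_
        · intro x _; simp
        · refine ⟨a, ⟨le_rfl, hab.le⟩, ?_⟩
          have : (2 * (-1/2) * a + 1 : ℝ) ≠ 0 := by
            intro h; linarith
          simpa using this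
      linarith
    · have key : ∀ α1, -1/2 ≤ α1 → α1 ≤ 1/2 → Lr a b α1 1 ≤ max (Lr a b (-1/2) 1) (Lr a b (1/2) 1) := by
        intro α1 h1 h2
        rcases eq_or_lt_of_le h1 with h | h
        · rw [← h]; exact le_max_left _ _
        rcases eq_or_lt_of_le h2 with h' | h'
        · rw [h']; exact le_max_right _ _
        exact (conv_L a b α1 hab h h').le
      rcases lt_or_eq_of_le hβ1 with hlt | heq
      · exfalso
        have hs := Lr_scale a b α β (1/β) hab (by rw [one_lt_div h0]; exact hlt) (Or.inr h0.ne')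
        have e : 1 / β * β = 1 := by field_simp
        rw [e] at hs
        have hk := key (1 / β * α) (by
          have : -1/2 = 1/β * (-(β/2)) := by field_simp
          rw [this]; exact mul_le_mul_of_nonneg_left hαβ.1 (by positivity)) (by
          have : (1/2 : ℝ) = 1/β * (β/2) := by field_simp
          rw [this]; exact mul_le_mul_of_nonneg_left hαβ.2 (by positivity))
        have := max_le hm1' hm2'
        linarith
      · subst heq
        rcases eq_or_lt_of_le hαβ.1 with h | h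
        · refine ⟨1, ⟨by norm_num, le_rfl⟩, Or.inl ⟨by rw [a1]; linarith, by rw [b1], ?_⟩⟩
          rw [g1]; linarith [hp1.2, hm1.1]
        rcases eq_or_lt_of_le hαβ.2 with h' | h'
        · refine ⟨-1, ⟨le_rfl, by norm_num⟩, Or.inr ⟨by rw [a2]; linarith, by rw [b2]; norm_num, ?_⟩⟩
          rw [g2]; linarith [hp1.2, hm1.1]
        exfalso
        have := conv_L a b α hab (by linarith) (by linarith)
        have := max_le hm1' hm2'
        linarith
  by_cases hc : |β| < 2 * |α|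
  · rcases lt_trichotomy α 0 with h | h | h
    · rw [abs_of_neg h] at hc
      obtain ⟨t, ht, h1⟩ := caseII a b α β γ hab hF hmax h (by linarith)
      exact ⟨t, ht, Or.inl h1⟩
    · rw [h] at hc; simp at hc; exact absurd hc (not_lt.mpr (abs_nonneg β))
    · rw [abs_of_pos h] at hc
      obtain ⟨t, ht, h1, h2, h3⟩ := caseII a b (-α) (-β) (-γ) hab hF' hmax' (by linarith) (by rw [abs_neg]; linarith)
      exact ⟨t, ht, Or.inr ⟨by linarith, by linarith, by linarith⟩⟩
  · push Not at hc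
    rcases le_total 0 β with h | h
    · rw [abs_of_nonneg h] at hc
      exact mono α β γ hF hmax hc
    · rw [abs_of_nonpos h] at hc
      obtain ⟨t, ht, h1 | h1⟩ := mono (-α) (-β) (-γ) hF' hmax' (by rw [abs_neg]; exact hc)
      · exact ⟨t, ht, Or.inr ⟨by linarith [h1.1], by linarith [h1.2.1], by linarith [h1.2.2]⟩⟩
      · exact ⟨t, ht, Or.inl ⟨by linarith [h1.1], by linarith [h1.2.1], by linarith [h1.2.2]⟩⟩

lemma der_s (s x : ℝ) (hs : 0 ≤ s) (hx : 0 ≤ x) : |2 * al (-s) * x + be (-s)| = 4 * (x + s) / (1 + s) ^ 2 := by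
  have : 2 * al (-s) * x + be (-s) = -(4 * (x + s) / (1 + s) ^ 2) := by
    unfold al be; rw [abs_neg, abs_of_nonneg hs]; ring
  rw [this, abs_neg, abs_of_nonneg (by positivity)]

lemma cmp (x s s' : ℝ) (hs : 0 ≤ s) (hs' : 0 ≤ s') (h : 0 ≤ (s - s') * (x * (2 + s + s') - (1 - s * s'))) :
    4 * (x + s) / (1 + s) ^ 2 ≤ 4 * (x + s') / (1 + s') ^ 2 := by
  rw [div_le_div_iff₀ (by positivity) (by positivity)]
  nlinarith

lemma cmp' (x s s' : ℝ) (hs : 0 ≤ s) (hs' : 0 ≤ s') (h : 0 < (s - s') * (x * (2 + s + s') - (1 - s * s'))) :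
    4 * (x + s) / (1 + s) ^ 2 < 4 * (x + s') / (1 + s') ^ 2 := by
  rw [div_lt_div_iff₀ (by positivity) (by positivity)]
  nlinarith

lemma signA (a b t : ℝ) (ha : 0 ≤ a) (hab : a < b) (h : 0 < t) :
    Lr a b (al t) (be t) < Lr a b (al (-t)) (be (-t)) := by
  have e : ∀ x, 2 * al t * x + be t = 4 * (t - x) / (1 + t) ^ 2 := by
    intro x; unfold al be; rw [abs_of_pos h]; ring
  refine Lr_lt a b _ _ _ _ hab ?_ ?_
  · intro x hx
    have hx0 : 0 ≤ x := ha.trans hx.1
    rw [e, der_s t x h.le hx0, abs_div, abs_of_nonneg (show 0 ≤ (1 + t) ^ 2 by positivity)]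
    apply div_le_div_of_nonneg_right _ (by positivity)
    rw [abs_le]; constructor <;> linarith
  · refine ⟨b, ⟨hab.le, le_rfl⟩, ?_⟩
    have hb0 : 0 < b := by linarith
    rw [e, der_s t b h.le hb0.le, abs_div, abs_of_nonneg (show 0 ≤ (1 + t) ^ 2 by positivity)]
    apply div_lt_div_of_pos_right _ (by positivity)
    rw [abs_lt]; constructor <;> linarith

lemma Lr_refl (a b α β : ℝ) : Lr (-b) (-a) α (-β) = Lr a b α β := by
  unfold Lr
  have h := intervalIntegral.integral_comp_neg (a := a) (b := b) (fun x => Real.sqrt (1 + (2 * α * x + -β) ^ 2))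
  rw [← h]
  congr 1; ext x; congr 1; ring

lemma al_neg (t : ℝ) : al (-t) = al t := by unfold al; rw [abs_neg]
lemma be_neg (t : ℝ) : be (-t) = -be t := by unfold be; rw [abs_neg]; ring

lemma Lr_reflE (a b t : ℝ) : Lr (-b) (-a) (al (-t)) (be (-t)) = Lr a b (al t) (be t) := by
  rw [al_neg, be_neg, Lr_refl]

lemma signB (a b t : ℝ) (hs : 0 < a + b) (hab : a < b) (h : 0 < t) :
    Lr a b (al t) (be t) < Lr a b (al (-t)) (be (-t)) := by
  by_cases ha : 0 ≤ a
  · exact signA a b t ha hab h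
  · push Not at ha
    have split : ∀ α β, Lr a b α β = Lr a (-a) α β + Lr (-a) b α β := by
      intro α β
      unfold Lr
      rw [intervalIntegral.integral_add_adjacent_intervals]
      · exact Continuous.intervalIntegrable (by fun_prop) _ _
      · exact Continuous.intervalIntegrable (by fun_prop) _ _
    have h1 : Lr a (-a) (al (-t)) (be (-t)) = Lr a (-a) (al t) (be t) := by
      have := Lr_reflE a (-a) t
      rwa [neg_neg] at this
    have h2 := signA (-a) b t (by linarith) (by linarith) h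
    rw [split, split, h1]; linarith

/-- localisation for `a ≥ 0` -/
lemma loc (a b t : ℝ) (ha : 0 ≤ a) (hab : a < b) (hb : b ≤ 1) (ht : t ∈ Icc (-1:ℝ) 1)
    (hmax : ∀ t' ∈ Icc (-1:ℝ) 1, Lr a b (al t') (be t') ≤ Lr a b (al t) (be t)) :
    t ≤ 0 ∧ 1 - 2 * b ≤ -t ∧ -t ≤ max 0 (1 - 2 * a) := by
  have h0 : t ≤ 0 := by
    by_contra h
    push Not at h
    have hlt : Lr a b (al t) (be t) < Lr a b (al (-t)) (be (-t)) := by
      have e : ∀ x, 2 * al t * x + be t = 4 * (t - x) / (1 + t) ^ 2 := by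
        intro x; unfold al be; rw [abs_of_pos h]; ring
      refine Lr_lt a b _ _ _ _ hab ?_ ?_
      · intro x hx
        have hx0 : 0 ≤ x := ha.trans hx.1
        rw [e, der_s t x h.le hx0, abs_div, abs_of_nonneg (show 0 ≤ (1 + t) ^ 2 by positivity)]
        apply div_le_div_of_nonneg_right _ (by positivity)
        rw [abs_le]; constructor <;> linarith
      · refine ⟨b, ⟨hab.le, le_rfl⟩, ?_⟩
        have hb0 : 0 < b := by linarith
        rw [e, der_s t b h.le hb0.le, abs_div, abs_of_nonneg (show 0 ≤ (1 + t) ^ 2 by positivity)]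
        apply div_lt_div_of_pos_right _ (by positivity)
        rw [abs_lt]; constructor <;> linarith
    have := hmax (-t) ⟨by linarith [ht.2], by linarith⟩
    linarith
  obtain ⟨s, rfl⟩ : ∃ s, t = -s := ⟨-t, by ring⟩
  have hs0 : 0 ≤ s := by linarith
  have hs1 : s ≤ 1 := by linarith [ht.1]
  refine ⟨h0, ?_, ?_⟩
  · by_contra h
    push Not at h
    rw [neg_neg] at h
    set s' := 1 - 2 * b with hs'
    have hs'0 : 0 ≤ s' := by linarith
    have hlt : Lr a b (al (-s)) (be (-s)) < Lr a b (al (-s')) (be (-s')) := by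
      refine Lr_lt a b _ _ _ _ hab ?_ ?_
      · intro x hx
        have hx0 : 0 ≤ x := ha.trans hx.1
        rw [der_s s x hs0 hx0, der_s s' x hs'0 hx0]
        apply cmp x s s' hs0 hs'0
        have hxb : x ≤ (1 - s') / 2 := by rw [hs']; linarith [hx.2]
        have h1 : x * (2 + s + s') ≤ (1 - s') / 2 * (2 + s + s') := mul_le_mul_of_nonneg_right hxb (by linarith)
        have h2 : x * (2 + s + s') - (1 - s * s') ≤ 0 := by nlinarith
        nlinarith
      · refine ⟨a, ⟨le_rfl, hab.le⟩, ?_⟩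
        rw [der_s s a hs0 ha, der_s s' a hs'0 ha]
        apply cmp' a s s' hs0 hs'0
        have hxb : a < (1 - s') / 2 := by rw [hs']; linarith
        have h1 : a * (2 + s + s') < (1 - s') / 2 * (2 + s + s') := mul_lt_mul_of_pos_right hxb (by linarith)
        have h2 : a * (2 + s + s') - (1 - s * s') < 0 := by nlinarith
        nlinarith
    have := hmax (-s') ⟨by rw [hs']; linarith, by linarith⟩
    linarith
  · by_contra h
    push Not at h
    rw [neg_neg] at h
    set s' := max 0 (1 - 2 * a) with hs'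
    have hs'0 : 0 ≤ s' := le_max_left _ _
    have hs'a : 1 - 2 * a ≤ s' := le_max_right _ _
    have hlt : Lr a b (al (-s)) (be (-s)) < Lr a b (al (-s')) (be (-s')) := by
      refine Lr_lt a b _ _ _ _ hab ?_ ?_
      · intro x hx
        have hx0 : 0 ≤ x := ha.trans hx.1
        rw [der_s s x hs0 hx0, der_s s' x hs'0 hx0]
        apply cmp x s s' hs0 hs'0
        have hxb : (1 - s') / 2 ≤ x := by linarith [hx.1]
        have h1 : (1 - s') / 2 * (2 + s + s') ≤ x * (2 + s + s') := mul_le_mul_of_nonneg_right hxb (by linarith)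
        have h2 : 0 ≤ x * (2 + s + s') - (1 - s * s') := by nlinarith
        nlinarith
      · refine ⟨b, ⟨hab.le, le_rfl⟩, ?_⟩
        rw [der_s s b hs0 (by linarith), der_s s' b hs'0 (by linarith)]
        apply cmp' b s s' hs0 hs'0
        have hxb : (1 - s') / 2 < b := by linarith
        have h1 : (1 - s') / 2 * (2 + s + s') < b * (2 + s + s') := mul_lt_mul_of_pos_right hxb (by linarith)
        have h2 : 0 < b * (2 + s + s') - (1 - s * s') := by nlinarith
        nlinarith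
    have := hmax (-s') ⟨by linarith, by linarith⟩
    linarith

end MP_837341_an_797
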