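import Pool.Agent.Helper797.BsInterp

set_option autoImplicit false

open Complex Filter Topology Metric Set

namespace Pool.Agent.Helper797.Bs

lemma qq_swap (g : ℂ → ℂ) (z w : ℝ) (s : ℂ) : qq g z w s = qq g w z s := by
  unfold qq
  rw [mul_comm (s ^ 2 - (z:ℂ) ^ 2)]

lemma int_pi_ne {z : ℝ} (h0 : 0 < z) (h1 : z < Real.pi) (k : ℤ) :
    ((k:ℂ) * Real.pi) ^ 2 - (z:ℂ) ^ 2 ≠ 0 := by
  intro h
  have h2 : (((k:ℝ) * Real.pi) ^ 2 - z ^ 2 : ℝ) = 0 := by exact_mod_cast h
  have h3 : z ^ 2 < Real.pi ^ 2 := by nlinarith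
  have hpi := Real.pi_pos
  by_cases hk : k = 0
  · rw [hk] at h2
    simp at h2
    linarith
  · have h4 : (1:ℝ) ≤ (k:ℝ) ^ 2 := by
      have : (1:ℤ) ≤ k ^ 2 := by
        have := Int.one_le_abs hk
        nlinarith [sq_abs k]
      exact_mod_cast this
    nlinarith [mul_pow (k:ℝ) Real.pi 2, sq_nonneg Real.pi]

lemma sin_ne {z : ℝ} (h0 : 0 < z) (h1 : z < Real.pi) : Complex.sin (z:ℂ) ≠ 0 := by
  rw [← Complex.ofReal_sin]
  exact_mod_cast (Real.sin_pos_of_pos_of_lt_pi h0 h1).ne'

theorem circle_eval {g : ℂ → ℂ} (hg : Differentiable ℂ g) (hev : ∀ s, g (-s) = g s) {z w : ℝ}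
    (hz0 : 0 < z) (hz1 : z < Real.pi) (hw0 : 0 < w) (hw1 : w < Real.pi) (hzw : z ≠ w)
    {N : ℕ} (hN : 1 ≤ N) :
    (∮ s in C(0, (N + 1 / 2) * Real.pi), qq g z w s)
      = 2 * Real.pi * I * (SN g z w N
        + (hfun g z - hfun g w) / ((z:ℂ) ^ 2 - (w:ℂ) ^ 2)) := by
  classical
  have hpi := Real.pi_pos
  have hN' : (1:ℝ) ≤ N := by exact_mod_cast hN
  set R : ℝ := (N + 1 / 2) * Real.pi with hR
  have hRpos : 0 < R := by positivity
  have hRpi : Real.pi < R := by rw [hR]; nlinarith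
  set A : ℂ := z * g z / (2 * Complex.sin z * ((z:ℂ) ^ 2 - (w:ℂ) ^ 2)) with hA
  set B : ℂ := w * g w / (2 * Complex.sin w * ((w:ℂ) ^ 2 - (z:ℂ) ^ 2)) with hB
  set Fm : ℂ → ℂ := fun p => p ^ 2 * g p /
    (Complex.cos p * ((p ^ 2 - (z:ℂ) ^ 2) * (p ^ 2 - (w:ℂ) ^ 2))) with hFm
  set c : ℂ → ℂ := fun p => if p ^ 2 = (z:ℂ) ^ 2 then A else if p ^ 2 = (w:ℂ) ^ 2 then B else Fm p
    with hc
  set ZN : Finset ℂ := (Finset.Icc (-(N:ℤ)) N).image (fun k : ℤ => (k:ℂ) * Real.pi) with hZN
  set Zp : Finset ℂ := {(z:ℂ), -(z:ℂ), (w:ℂ), -(w:ℂ)} with hZp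
  -- basic facts
  have hzc : (z:ℂ) ≠ 0 := by exact_mod_cast hz0.ne'
  have hwc : (w:ℂ) ≠ 0 := by exact_mod_cast hw0.ne'
  have hne2 : (z:ℂ) ^ 2 - (w:ℂ) ^ 2 ≠ 0 := by
    intro h
    have h2 : (z ^ 2 - w ^ 2 : ℝ) = 0 := by exact_mod_cast h
    apply hzw
    have h3 : (z - w) * (z + w) = 0 := by linear_combination h2
    rcases mul_eq_zero.mp h3 with h4 | h4
    · linarith
    · linarith
  have hne2' : (w:ℂ) ^ 2 - (z:ℂ) ^ 2 ≠ 0 := by
    intro h; apply hne2; linear_combination -h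
  have hne3 : (w:ℂ) ^ 2 ≠ (z:ℂ) ^ 2 := sub_ne_zero.mp hne2'
  have hsz := sin_ne hz0 hz1
  have hsw := sin_ne hw0 hw1
  have hnorm_int : ∀ k : ℤ, ‖(k:ℂ) * Real.pi‖ = |(k:ℝ)| * Real.pi := by
    intro k
    rw [norm_mul, Complex.norm_intCast, Complex.norm_real, Real.norm_eq_abs, abs_of_pos hpi]
  -- all poles inside
  have hZ : ∀ p ∈ ZN ∪ Zp, ‖p‖ < R := by
    intro p hp
    rcases Finset.mem_union.mp hp with h | h
    · obtain ⟨k, hk, rfl⟩ := Finset.mem_image.mp h
      rw [hnorm_int, hR]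
      rw [Finset.mem_Icc] at hk
      have : |(k:ℝ)| ≤ N := by
        rw [abs_le]; constructor
        · exact_mod_cast hk.1
        · exact_mod_cast hk.2
      apply mul_lt_mul_of_pos_right _ hpi
      linarith
    · rw [hZp] at h
      simp only [Finset.mem_insert, Finset.mem_singleton] at h
      rcases h with h | h | h | h <;> rw [h] <;>
        simp only [norm_neg, Complex.norm_real, Real.norm_eq_abs, abs_of_pos hz0, abs_of_pos hw0] <;>
        linarith
  -- differentiability off the poles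
  have hd : ∀ s, ‖s‖ ≤ R → s ∉ ZN ∪ Zp → DifferentiableAt ℂ (qq g z w) s := by
    intro s hs hsZ
    rw [Finset.mem_union, not_or] at hsZ
    obtain ⟨h1, h2⟩ := hsZ
    have hsin : Complex.sin s ≠ 0 := by
      intro h
      obtain ⟨k, hk⟩ := Complex.sin_eq_zero_iff.mp h
      apply h1
      rw [hZN, Finset.mem_image]
      refine ⟨k, ?_, hk.symm⟩
      rw [hk, hnorm_int, hR] at hs
      have h3 : |(k:ℝ)| ≤ N + 1 / 2 := le_of_mul_le_mul_right hs hpi
      have h4 : |(k:ℝ)| < N + 1 := by linarith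
      have h5 : |k| < N + 1 := by
        have : ((|k| : ℤ) : ℝ) < ((N + 1 : ℤ) : ℝ) := by push_cast; exact h4
        exact_mod_cast this
      rw [Finset.mem_Icc, ← abs_le]
      omega
    have hs1 : s ^ 2 - (z:ℂ) ^ 2 ≠ 0 := by
      intro h
      have h3 : (s - z) * (s + z) = 0 := by linear_combination h
      apply h2
      rw [hZp]
      simp only [Finset.mem_insert, Finset.mem_singleton]
      rcases mul_eq_zero.mp h3 with h4 | h4
      · left; linear_combination h4
      · right; left; linear_combination h4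
    have hs2 : s ^ 2 - (w:ℂ) ^ 2 ≠ 0 := by
      intro h
      have h3 : (s - w) * (s + w) = 0 := by linear_combination h
      apply h2
      rw [hZp]
      simp only [Finset.mem_insert, Finset.mem_singleton]
      rcases mul_eq_zero.mp h3 with h4 | h4
      · right; right; left; linear_combination h4
      · right; right; right; linear_combination h4
    have hgs := hg s
    unfold qq
    apply DifferentiableAt.div
    · exact (differentiableAt_id.pow 2).mul hgs
    · fun_prop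
    · exact mul_ne_zero hsin (mul_ne_zero hs1 hs2)
  -- residues
  have hAz : Tendsto (fun s => (s - (z:ℂ)) * qq g z w s) (𝓝[≠] (z:ℂ)) (𝓝 A) :=
    pole_z hg hzc hsz hne2
  have hBw : Tendsto (fun s => (s - (w:ℂ)) * qq g z w s) (𝓝[≠] (w:ℂ)) (𝓝 B) := by
    have h := pole_z (z := w) (w := z) hg hwc hsw hne2'
    refine h.congr' ?_
    filter_upwards with s
    rw [qq_swap]
  have hres : ∀ p ∈ ZN ∪ Zp, Tendsto (fun s => (s - p) * qq g z w s) (𝓝[≠] p) (𝓝 (c p)) := by
    intro p hp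
    rcases Finset.mem_union.mp hp with h | h
    · obtain ⟨k, hk, rfl⟩ := Finset.mem_image.mp h
      have h1 := int_pi_ne hz0 hz1 k
      have h2 := int_pi_ne hw0 hw1 k
      have := pole_int (z := z) (w := w) hg k h1 h2
      simp only [hc]
      rw [if_neg (sub_ne_zero.mp h1), if_neg (sub_ne_zero.mp h2)]
      exact this
    · rw [hZp] at h
      simp only [Finset.mem_insert, Finset.mem_singleton] at h
      rcases h with h | h | h | h
      · rw [h]; simp only [hc, if_true]; exact hAz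
      · rw [h]; simp only [hc, neg_sq, if_true]; exact pole_neg hev hAz
      · rw [h]; simp only [hc]; rw [if_neg hne3, if_pos trivial]; exact hBw
      · rw [h]; simp only [hc, neg_sq]; rw [if_neg hne3, if_pos trivial]; exact pole_neg hev hBw
  have hmain := residue_sum hRpos (ZN ∪ Zp) hZ c (qq g z w) hd hres
  rw [hmain]
  congr 1
  -- disjointness
  have hdisj : Disjoint ZN Zp := by
    rw [Finset.disjoint_left]
    intro p hp hp2
    obtain ⟨k, hk, rfl⟩ := Finset.mem_image.mp hp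
    have h1 := int_pi_ne hz0 hz1 k
    have h2 := int_pi_ne hw0 hw1 k
    rw [hZp] at hp2
    simp only [Finset.mem_insert, Finset.mem_singleton] at hp2
    rcases hp2 with h | h | h | h
    · apply h1; rw [h]; ring
    · apply h1; rw [h]; ring
    · apply h2; rw [h]; ring
    · apply h2; rw [h]; ring
  rw [Finset.sum_union hdisj]
  have hsum1 : ∑ p ∈ ZN, c p = SN g z w N := by
    rw [hZN, Finset.sum_image]
    · unfold SN
      apply Finset.sum_congr rfl
      intro k _
      have h1 := int_pi_ne hz0 hz1 k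
      have h2 := int_pi_ne hw0 hw1 k
      simp only [hc]
      rw [if_neg (sub_ne_zero.mp h1), if_neg (sub_ne_zero.mp h2)]
    · intro a _ b _ hab
      have hpc : (Real.pi : ℂ) ≠ 0 := by exact_mod_cast hpi.ne'
      have := mul_right_cancel₀ hpc hab
      exact_mod_cast this
  have hsum2 : ∑ p ∈ Zp, c p = (hfun g z - hfun g w) / ((z:ℂ) ^ 2 - (w:ℂ) ^ 2) := by
    have hwne : (w:ℂ) ≠ -(w:ℂ) := by
      intro h; apply hwc
      have : (2:ℂ) * w = 0 := by linear_combination h
      simpa using this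
    have hzne : (z:ℂ) ≠ -(z:ℂ) := by
      intro h; apply hzc
      have : (2:ℂ) * z = 0 := by linear_combination h
      simpa using this
    have d1 : (z:ℂ) ≠ w := by
      intro h; apply hne2; rw [h]; ring
    have d2 : (z:ℂ) ≠ -w := by
      intro h; apply hne2; rw [h]; ring
    have d3 : -(z:ℂ) ≠ w := by
      intro h; apply hne2; rw [← h]; ring
    have d4 : -(z:ℂ) ≠ -w := by
      intro h; apply d1; linear_combination -h
    rw [hZp, Finset.sum_insert (by simp [hzne, d1, d2]), Finset.sum_insert (by simp [d3, d4]),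
      Finset.sum_insert (by simp [hwne]), Finset.sum_singleton]
    simp only [hc, neg_sq, if_true]
    rw [if_neg hne3]
    rw [hA, hB]
    unfold hfun
    have e : (w:ℂ) ^ 2 - (z:ℂ) ^ 2 = -((z:ℂ) ^ 2 - (w:ℂ) ^ 2) := by ring
    rw [e]
    field_simp
    ring
  rw [hsum1, hsum2]

end Pool.Agent.Helper797.Bs
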