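import Pool.Agent.Helper797.BsUineq

set_option autoImplicit false

open Complex Filter Topology Metric Set

namespace Pool.Agent.Helper797.Bs

lemma sq_sqrt (w : ℂ) : (Complex.sqrt w) ^ 2 = w := by
  have := Complex.cpow_nat_inv_pow w (n := 2) two_ne_zero
  unfold Complex.sqrt
  exact_mod_cast this

/-- an even function as a function of the square -/
noncomputable def ev (f : ℂ → ℂ) (w : ℂ) : ℂ := f (Complex.sqrt w)

lemma ev_eq {f : ℂ → ℂ} (hev : ∀ s, f (-s) = f s) {z w : ℂ} (h : z ^ 2 = w) : ev f w = f z := by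
  unfold ev
  have h1 := sq_sqrt w
  have h2 : (Complex.sqrt w - z) * (Complex.sqrt w + z) = 0 := by
    linear_combination h1 - h
  rcases mul_eq_zero.mp h2 with h3 | h3
  · rw [sub_eq_zero.mp h3]
  · rw [eq_neg_of_add_eq_zero_left h3, hev]

lemma norm_sqrt_sq (w : ℂ) : ‖Complex.sqrt w‖ ^ 2 = ‖w‖ := by
  rw [← norm_pow, sq_sqrt]

lemma ev_differentiable {f : ℂ → ℂ} (hf : Differentiable ℂ f) (hev : ∀ s, f (-s) = f s) :
    Differentiable ℂ (ev f) := by
  have hne : ∀ w : ℂ, w ≠ 0 → DifferentiableAt ℂ (ev f) w := by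
    intro w hw
    by_cases hs : w ∈ slitPlane
    · unfold ev
      exact (hf _).comp w (Complex.differentiableAt_sqrt hs)
    · have hs' : -w ∈ slitPlane := by
        rw [Complex.mem_slitPlane_iff] at hs ⊢
        push Not at hs
        left
        simp only [neg_re, Left.neg_pos_iff]
        rcases lt_or_eq_of_le hs.1 with h | h
        · exact h
        · exfalso; apply hw
          exact Complex.ext h hs.2
      have e : ev f = fun u => f (I * Complex.sqrt (-u)) := by
        ext u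
        apply ev_eq hev
        rw [mul_pow, sq_sqrt, I_sq]; ring
      rw [e]
      have h1 : DifferentiableAt ℂ (fun u : ℂ => Complex.sqrt (-u)) w := by
        have h2 : DifferentiableAt ℂ Complex.sqrt (-w) := Complex.differentiableAt_sqrt hs'
        exact h2.comp w (by fun_prop)
      exact (hf _).comp w (h1.const_mul I)
  intro w
  by_cases hw : w = 0
  · rw [hw]
    apply AnalyticAt.differentiableAt
    apply analyticAt_of_differentiable_on_punctured_nhds_of_continuousAt
    · filter_upwards [self_mem_nhdsWithin] with z hz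
      exact hne z hz
    · have hc : ContinuousAt Complex.sqrt (0:ℂ) := by
        rw [ContinuousAt, Complex.sqrt_zero, tendsto_zero_iff_norm_tendsto_zero]
        have h1 : (fun w : ℂ => ‖Complex.sqrt w‖) = fun w => Real.sqrt ‖w‖ := by
          ext w
          rw [← norm_sqrt_sq w, Real.sqrt_sq (norm_nonneg _)]
        rw [h1]
        have h2 : Tendsto (fun w : ℂ => Real.sqrt ‖w‖) (𝓝 0) (𝓝 (Real.sqrt ‖(0:ℂ)‖)) :=
          (Real.continuous_sqrt.comp continuous_norm).tendsto 0
        simpa using h2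
      have hfc : ContinuousAt f (Complex.sqrt 0) := hf.continuous.continuousAt
      exact hfc.comp hc
  · exact hne w hw

lemma two_im_sq (z : ℂ) : 2 * z.im ^ 2 = ‖z ^ 2‖ - (z ^ 2).re := by
  rw [norm_pow, Complex.sq_norm, Complex.normSq_apply]
  have : (z ^ 2).re = z.re * z.re - z.im * z.im := by rw [sq, Complex.mul_re]
  rw [this]; ring

lemma im_le_of_sub {z s : ℂ} {a : ℝ} (h : z ^ 2 = s ^ 2 - (a:ℂ) ^ 2) :
    |z.im| ≤ |s.im| + |a| := by
  have h1 := two_im_sq z
  have h2 := two_im_sq s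
  have h3 : ‖z ^ 2‖ ≤ ‖s ^ 2‖ + a ^ 2 := by
    rw [h]
    refine (norm_sub_le _ _).trans ?_
    rw [norm_pow (a:ℂ), Complex.norm_real, Real.norm_eq_abs, sq_abs]
  have h4 : (z ^ 2).re = (s ^ 2).re - a ^ 2 := by
    rw [h, Complex.sub_re, ← Complex.ofReal_pow, Complex.ofReal_re]
  have h5 : z.im ^ 2 ≤ s.im ^ 2 + a ^ 2 := by linarith
  apply abs_le_of_sq_le_sq _ (by positivity)
  have e1 := sq_abs s.im
  have e2 := sq_abs a
  have := mul_nonneg (abs_nonneg s.im) (abs_nonneg a)
  nlinarith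

lemma im_le_of_add {z s : ℂ} {a : ℝ} (h : s ^ 2 = z ^ 2 + (a:ℂ) ^ 2) : |s.im| ≤ |z.im| := by
  have h1 := two_im_sq z
  have h2 := two_im_sq s
  have h3 : ‖s ^ 2‖ ≤ ‖z ^ 2‖ + a ^ 2 := by
    rw [h]
    refine (norm_add_le _ _).trans ?_
    rw [norm_pow (a:ℂ), Complex.norm_real, Real.norm_eq_abs, sq_abs]
  have h4 : (s ^ 2).re = (z ^ 2).re + a ^ 2 := by
    rw [h, Complex.add_re, ← Complex.ofReal_pow, Complex.ofReal_re]
  have h5 : s.im ^ 2 ≤ z.im ^ 2 := by linarith
  apply sq_le_sq.mp h5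

/-- Phragmen-Lindelof bound -/
lemma pl_upper {F : ℂ → ℂ} (hF : Differentiable ℂ F) {τ C M : ℝ} (hτ : 0 ≤ τ)
    (hexp : ∀ z, ‖F z‖ ≤ C * Real.exp (τ * ‖z‖)) (hM : ∀ x : ℝ, ‖F x‖ ≤ M) {z : ℂ}
    (hz : 0 ≤ z.im) : ‖F z‖ ≤ M * Real.exp (τ * z.im) := by
  set G : ℂ → ℂ := fun u => F (I * u) * Complex.exp (-(τ * u)) with hG
  have hGd : Differentiable ℂ G := by
    apply Differentiable.mul
    · exact hF.comp (by fun_prop)
    · fun_prop
  have hC : 0 ≤ C := by
    have := hexp 0
    rw [norm_zero, mul_zero, Real.exp_zero, mul_one] at this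
    exact (norm_nonneg _).trans this
  have hnorm : ∀ u, ‖G u‖ = ‖F (I * u)‖ * Real.exp (-(τ * u.re)) := by
    intro u
    simp only [hG]
    rw [norm_mul, Complex.norm_exp]
    congr 2
    simp
  have hkey : ∀ u : ℂ, 0 ≤ u.re → ‖G u‖ ≤ M := by
    intro u hu
    apply PhragmenLindelof.right_half_plane_of_bounded_on_real (f := G) (C := M)
    · exact hGd.diffContOnCl
    · refine ⟨1, by norm_num, 2 * τ, ?_⟩
      apply Asymptotics.IsBigO.of_bound C
      filter_upwards with u
      rw [hnorm, Real.norm_eq_abs, abs_of_pos (Real.exp_pos _), Real.rpow_one]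
      have h1 := hexp (I * u)
      rw [norm_mul, Complex.norm_I, one_mul] at h1
      have h2 : -(τ * u.re) ≤ τ * ‖u‖ := by
        have := (abs_le.mp (Complex.abs_re_le_norm u)).1
        nlinarith
      calc ‖F (I * u)‖ * Real.exp (-(τ * u.re)) ≤ C * Real.exp (τ * ‖u‖) * Real.exp (τ * ‖u‖) := by
            gcongr
        _ = C * Real.exp (2 * τ * ‖u‖) := by
            rw [mul_assoc, ← Real.exp_add]; ring_nf
    · refine ⟨C, ?_⟩
      simp only [Filter.eventually_map]
      filter_upwards [eventually_ge_atTop 0] with x hx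
      rw [hnorm]
      have h1 := hexp (I * (x:ℂ))
      rw [norm_mul, Complex.norm_I, one_mul, Complex.norm_real, Real.norm_eq_abs, abs_of_nonneg hx] at h1
      rw [Complex.ofReal_re]
      calc ‖F (I * x)‖ * Real.exp (-(τ * x)) ≤ C * Real.exp (τ * x) * Real.exp (-(τ * x)) := by
            gcongr
        _ = C := by rw [mul_assoc, ← Real.exp_add, add_neg_cancel, Real.exp_zero, mul_one]
    · intro x
      rw [hnorm]
      have e : I * ((x:ℂ) * I) = ((-x : ℝ) : ℂ) := by
        push_cast; rw [mul_left_comm, I_mul_I]; ring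
      rw [e]
      simp only [mul_re, ofReal_re, I_re, mul_zero, ofReal_im, I_im, mul_one, sub_self,
        neg_zero, Real.exp_zero]
      exact hM _
    · exact hu
  have h := hkey (-I * z) (by simpa using hz)
  rw [hnorm] at h
  have e1 : I * (-I * z) = z := by
    rw [← mul_assoc, mul_neg, I_mul_I]; ring
  have e2 : (-I * z).re = z.im := by simp
  rw [e1, e2] at h
  calc ‖F z‖ = (‖F z‖ * Real.exp (-(τ * z.im))) * Real.exp (τ * z.im) := by
        rw [mul_assoc, ← Real.exp_add, neg_add_cancel, Real.exp_zero, mul_one]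
    _ ≤ M * Real.exp (τ * z.im) := by gcongr

theorem pl_bound {F : ℂ → ℂ} (hF : Differentiable ℂ F) {σ M : ℝ} (hσ : 0 ≤ σ)
    (hexp : ∀ ε > 0, ∃ C : ℝ, ∀ z, ‖F z‖ ≤ C * Real.exp ((σ + ε) * ‖z‖))
    (hM : ∀ x : ℝ, ‖F x‖ ≤ M) (z : ℂ) : ‖F z‖ ≤ M * Real.exp (σ * |z.im|) := by
  have hε : ∀ ε > 0, ‖F z‖ ≤ M * Real.exp ((σ + ε) * |z.im|) := by
    intro ε hε
    obtain ⟨C, hC⟩ := hexp ε hε
    rcases le_total 0 z.im with h | h
    · rw [abs_of_nonneg h]
      exact pl_upper hF (by linarith) hC hM h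
    · rw [abs_of_nonpos h]
      have h1 := pl_upper (F := fun u => F (-u)) (hF.comp differentiable_neg) (τ := σ + ε) (C := C)
        (M := M) (by linarith) (fun u => by rw [← norm_neg u]; exact hC (-u))
        (fun x => by have := hM (-x); push_cast at this; exact this) (z := -z) (by simpa using h)
      simpa using h1
  have hcont : Tendsto (fun ε : ℝ => M * Real.exp ((σ + ε) * |z.im|)) (𝓝[>] 0)
      (𝓝 (M * Real.exp ((σ + 0) * |z.im|))) := by
    have : Continuous (fun ε : ℝ => M * Real.exp ((σ + ε) * |z.im|)) := by fun_prop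
    exact (this.tendsto 0).mono_left nhdsWithin_le_nhds
  rw [add_zero] at hcont
  refine ge_of_tendsto hcont ?_
  filter_upwards [self_mem_nhdsWithin] with ε hε'
  exact hε ε hε'

end Pool.Agent.Helper797.Bs
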