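import Pool.Agent.Helper797.BsU0

set_option autoImplicit false

open Complex Filter Topology Metric Set

namespace Pool.Agent.Helper797.Bs

lemma norm_sin_le (s : ℂ) : ‖Complex.sin s‖ ≤ Real.exp |s.im| := by
  rw [Complex.sin, norm_div, norm_mul, Complex.norm_I, mul_one]
  have h1 : ‖Complex.exp (s * I)‖ ≤ Real.exp |s.im| := by
    rw [Complex.norm_exp]
    apply Real.exp_le_exp.mpr
    simp only [mul_re, I_re, mul_zero, I_im, mul_one, zero_sub]
    exact neg_le_abs _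
  have h2 : ‖Complex.exp (-s * I)‖ ≤ Real.exp |s.im| := by
    rw [Complex.norm_exp]
    apply Real.exp_le_exp.mpr
    simp only [mul_re, neg_re, I_re, mul_zero, neg_im, I_im, mul_one, zero_sub, neg_neg]
    exact le_abs_self _
  have h3 := norm_sub_le (Complex.exp (-s * I)) (Complex.exp (s * I))
  have h4 : ‖(2:ℂ)‖ = 2 := by simp
  rw [h4, div_le_iff₀ (by norm_num)]
  linarith

noncomputable def snc : ℂ → ℂ := dslope Complex.sin 0

lemma snc_diff : Differentiable ℂ snc := by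
  have := (differentiableOn_dslope (f := Complex.sin) (s := univ) (c := (0:ℂ)) univ_mem).mpr
    Complex.differentiable_sin.differentiableOn
  exact differentiableOn_univ.mp this

lemma snc_ne {z : ℂ} (hz : z ≠ 0) : snc z = Complex.sin z / z := by
  unfold snc
  rw [dslope_of_ne _ hz, slope_def_field, Complex.sin_zero, sub_zero, sub_zero]

lemma snc_zero : snc 0 = 1 := by
  unfold snc
  rw [dslope_same, Complex.deriv_sin, Complex.cos_zero]

lemma snc_neg (z : ℂ) : snc (-z) = snc z := by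
  by_cases hz : z = 0
  · rw [hz, neg_zero]
  · rw [snc_ne hz, snc_ne (neg_ne_zero.mpr hz), Complex.sin_neg, neg_div_neg_eq]

lemma snc_bound : ∃ K : ℝ, 0 ≤ K ∧ ∀ z, ‖snc z‖ ≤ K * Real.exp |z.im| := by
  have hcomp : IsCompact (closedBall (0:ℂ) 1) := isCompact_closedBall 0 1
  obtain ⟨B, hB⟩ := hcomp.exists_bound_of_continuousOn snc_diff.continuous.continuousOn
  refine ⟨max 1 B, by positivity, ?_⟩
  intro z
  have hexp : 1 ≤ Real.exp |z.im| := Real.one_le_exp (abs_nonneg _)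
  rcases le_total ‖z‖ 1 with h | h
  · have h1 := hB z (by simpa using h)
    calc ‖snc z‖ ≤ max 1 B := h1.trans (le_max_right _ _)
      _ = max 1 B * 1 := (mul_one _).symm
      _ ≤ max 1 B * Real.exp |z.im| := by gcongr
  · have hz : z ≠ 0 := by
      intro h0; rw [h0, norm_zero] at h; linarith
    rw [snc_ne hz, norm_div]
    have h1 := norm_sin_le z
    calc ‖Complex.sin z‖ / ‖z‖ ≤ ‖Complex.sin z‖ / 1 := by gcongr
      _ = ‖Complex.sin z‖ := div_one _
      _ ≤ 1 * Real.exp |z.im| := by rw [one_mul]; exact h1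
      _ ≤ max 1 B * Real.exp |z.im| := by gcongr; exact le_max_left _ _

/-- the extremal functions -/
noncomputable def FE (b : ℝ) (z : ℂ) : ℂ :=
  ev Complex.cos (z ^ 2 + (b:ℂ) ^ 2) + I * b * ev snc (z ^ 2 + (b:ℂ) ^ 2)

lemma evcos_diff : Differentiable ℂ (ev Complex.cos) :=
  ev_differentiable Complex.differentiable_cos Complex.cos_neg

lemma evsnc_diff : Differentiable ℂ (ev snc) := ev_differentiable snc_diff snc_neg

lemma FE_diff (b : ℝ) : Differentiable ℂ (FE b) := by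
  unfold FE
  have h1 : Differentiable ℂ (fun z : ℂ => z ^ 2 + (b:ℂ) ^ 2) := by fun_prop
  exact (evcos_diff.comp h1).add ((evsnc_diff.comp h1).const_mul _)

lemma FE_bound (b : ℝ) : ∃ K : ℝ, 0 ≤ K ∧ ∀ z, ‖FE b z‖ ≤ K * Real.exp |z.im| := by
  obtain ⟨K, hK0, hK⟩ := snc_bound
  refine ⟨1 + |b| * K, by positivity, ?_⟩
  intro z
  set s := Complex.sqrt (z ^ 2 + (b:ℂ) ^ 2) with hs
  have him : |s.im| ≤ |z.im| := im_le_of_add (sq_sqrt _)
  have hexp : Real.exp |s.im| ≤ Real.exp |z.im| := Real.exp_le_exp.mpr him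
  have h1 : ‖Complex.cos s‖ ≤ Real.exp |z.im| := (norm_cos_le s).trans hexp
  have h2 : ‖snc s‖ ≤ K * Real.exp |z.im| := (hK s).trans (by gcongr)
  have h3 : FE b z = Complex.cos s + I * b * snc s := rfl
  rw [h3]
  refine (norm_add_le _ _).trans ?_
  rw [norm_mul, norm_mul, Complex.norm_I, one_mul, Complex.norm_real, Real.norm_eq_abs]
  have h4 : |b| * ‖snc s‖ ≤ |b| * (K * Real.exp |z.im|) := by gcongr
  linarith

lemma FE_real {b : ℝ} (hb : b ≠ 0) (x : ℝ) :
    FE b x = Complex.cos (Real.sqrt (x ^ 2 + b ^ 2) : ℝ)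
      + I * b * (Complex.sin (Real.sqrt (x ^ 2 + b ^ 2) : ℝ) / (Real.sqrt (x ^ 2 + b ^ 2) : ℝ)) := by
  have hpos : 0 < x ^ 2 + b ^ 2 := by positivity
  have hs : 0 < Real.sqrt (x ^ 2 + b ^ 2) := Real.sqrt_pos.mpr hpos
  have hsq : ((Real.sqrt (x ^ 2 + b ^ 2) : ℝ) : ℂ) ^ 2 = (x:ℂ) ^ 2 + (b:ℂ) ^ 2 := by
    rw [← Complex.ofReal_pow, Real.sq_sqrt hpos.le]; push_cast; rfl
  unfold FE
  rw [ev_eq Complex.cos_neg hsq, ev_eq snc_neg hsq, snc_ne (by exact_mod_cast hs.ne')]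

lemma FE_le_one {b : ℝ} (hb : b ≠ 0) (x : ℝ) : ‖FE b x‖ ≤ 1 := by
  rw [FE_real hb]
  have hpos : 0 < x ^ 2 + b ^ 2 := by positivity
  set s := Real.sqrt (x ^ 2 + b ^ 2) with hsdef
  have hs : 0 < s := Real.sqrt_pos.mpr hpos
  have hsq : s ^ 2 = x ^ 2 + b ^ 2 := Real.sq_sqrt hpos.le
  have e : Complex.cos (s:ℂ) + I * b * (Complex.sin (s:ℂ) / (s:ℂ))
      = ((Real.cos s : ℝ) : ℂ) + ((b * (Real.sin s / s) : ℝ) : ℂ) * I := by
    push_cast; ring
  rw [e]
  apply (sq_le_one_iff₀ (norm_nonneg _)).mp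
  rw [Complex.sq_norm, Complex.normSq_add_mul_I]
  have h1 := Real.sin_sq_add_cos_sq s
  have h2 : (b * (Real.sin s / s)) ^ 2 = (b ^ 2 / s ^ 2) * Real.sin s ^ 2 := by ring
  have h3 : b ^ 2 / s ^ 2 ≤ 1 := by
    rw [div_le_one (by positivity), hsq]; nlinarith [sq_nonneg x]
  rw [h2]
  nlinarith [sq_nonneg (Real.sin s)]

lemma ev_deriv {f : ℂ → ℂ} (hf : Differentiable ℂ f) (hev : ∀ s, f (-s) = f s) {b : ℂ} {f' : ℂ}
    (hb : b ≠ 0) (h : HasDerivAt f f' b) : deriv (ev f) (b ^ 2) = f' / (2 * b) := by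
  have hd := ev_differentiable hf hev
  have h1 : HasDerivAt (fun s : ℂ => s ^ 2) (2 * b) b := by simpa using hasDerivAt_pow 2 b
  have h2 : HasDerivAt (ev f) (deriv (ev f) (b ^ 2)) (b ^ 2) := (hd _).hasDerivAt
  have h3 := h2.comp b h1
  have h4 : (ev f) ∘ (fun s : ℂ => s ^ 2) = f := by ext s; exact ev_eq hev rfl
  rw [h4] at h3
  have h5 := h3.unique h
  rw [← h5]
  field_simp

lemma snc_deriv {b : ℂ} (hb : b ≠ 0) :
    HasDerivAt snc ((Complex.cos b * b - Complex.sin b) / b ^ 2) b := by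
  have h1 := (Complex.hasDerivAt_sin b).div (hasDerivAt_id b) hb
  rw [mul_one] at h1
  refine h1.congr_of_eventuallyEq ?_
  filter_upwards [isOpen_ne.mem_nhds hb] with z hz
  rw [snc_ne hz]; rfl

lemma FE_deriv2 {b : ℝ} (hb : b ≠ 0) :
    deriv (deriv (FE b)) 0 = -Complex.sin b / b
      + I * b * ((Complex.cos b * b - Complex.sin b) / (b:ℂ) ^ 2 / b) := by
  have hbc : (b:ℂ) ≠ 0 := by exact_mod_cast hb
  set G : ℂ → ℂ := fun w => ev Complex.cos (w + (b:ℂ) ^ 2) + I * b * ev snc (w + (b:ℂ) ^ 2) with hG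
  have hsh : Differentiable ℂ (fun w : ℂ => w + (b:ℂ) ^ 2) := by fun_prop
  have hGd : Differentiable ℂ G :=
    (evcos_diff.comp hsh).add ((evsnc_diff.comp hsh).const_mul _)
  have hdF : deriv (FE b) = fun z => 2 * z * deriv G (z ^ 2) := by
    ext z
    have h1 : HasDerivAt (fun s : ℂ => s ^ 2) (2 * z) z := by simpa using hasDerivAt_pow 2 z
    have h2 : HasDerivAt G (deriv G (z ^ 2)) (z ^ 2) := (hGd _).hasDerivAt
    have h3 := h2.comp z h1
    have h4 : G ∘ (fun s : ℂ => s ^ 2) = FE b := by ext s; rfl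
    rw [h4] at h3
    rw [h3.deriv]; ring
  have hG0 : deriv G 0 = deriv (ev Complex.cos) ((b:ℂ) ^ 2) + I * b * deriv (ev snc) ((b:ℂ) ^ 2) := by
    have a1 : HasDerivAt (fun w : ℂ => w + (b:ℂ) ^ 2) 1 0 := (hasDerivAt_id (0:ℂ)).add_const _
    have a2 : HasDerivAt (ev Complex.cos) (deriv (ev Complex.cos) ((b:ℂ) ^ 2)) (0 + (b:ℂ) ^ 2) := by
      rw [zero_add]; exact (evcos_diff _).hasDerivAt
    have a3 : HasDerivAt (ev snc) (deriv (ev snc) ((b:ℂ) ^ 2)) (0 + (b:ℂ) ^ 2) := by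
      rw [zero_add]; exact (evsnc_diff _).hasDerivAt
    have a4 := HasDerivAt.comp (0:ℂ) a2 a1
    have a5 := (HasDerivAt.comp (0:ℂ) a3 a1).const_mul (I * b)
    have a6 := (a4.add a5).deriv
    rw [mul_one, mul_one] at a6
    exact a6
  rw [hdF]
  have hGd2 : Differentiable ℂ (deriv G) := hGd.deriv
  have h1 : HasDerivAt (fun z : ℂ => 2 * z) 2 (0:ℂ) := by
    simpa using (hasDerivAt_id (0:ℂ)).const_mul 2
  have h2 : DifferentiableAt ℂ (fun z : ℂ => deriv G (z ^ 2)) 0 :=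
    (hGd2.comp (by fun_prop)) 0
  have h3 := h1.mul h2.hasDerivAt
  have h4 := h3.deriv
  have e : ((fun z : ℂ => 2 * z) * fun z => deriv G (z ^ 2)) = fun z => 2 * z * deriv G (z ^ 2) := rfl
  rw [e] at h4
  rw [h4]
  have h5 := ev_deriv Complex.differentiable_cos Complex.cos_neg hbc (Complex.hasDerivAt_cos (b:ℂ))
  have h6 := ev_deriv snc_diff snc_neg hbc (snc_deriv hbc)
  simp only [mul_zero, zero_mul, add_zero]
  rw [zero_pow two_ne_zero, hG0, h5, h6]
  field_simp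

/-- value of the functional on the extremal function -/
lemma FE_value {b r : ℝ} (hb : b ≠ 0) (hs : Real.sin b ≠ 0) :
    -deriv (deriv (FE b)) 0 + (r * Complex.exp (-(b * I)) - (kap b : ℝ)) * FE b 0
      = ((r + rho b : ℝ) : ℂ) := by
  have hbc : (b:ℂ) ≠ 0 := by exact_mod_cast hb
  have hsc : Complex.sin (b:ℂ) ≠ 0 := by
    rw [← Complex.ofReal_sin]; exact_mod_cast hs
  have h0 : FE b 0 = Complex.cos b + I * Complex.sin b := by
    unfold FE
    rw [ev_eq Complex.cos_neg (z := (b:ℂ)) (by ring), ev_eq snc_neg (z := (b:ℂ)) (by ring), snc_ne hbc]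
    field_simp
  have hexp : Complex.exp (-(b * I)) = Complex.cos b - Complex.sin b * I := by
    rw [← neg_mul, Complex.exp_mul_I, Complex.cos_neg, Complex.sin_neg]; ring
  rw [FE_deriv2 hb, h0, hexp]
  unfold kap rho
  push_cast
  have h1 := Complex.sin_sq_add_cos_sq (b:ℂ)
  have h2 : (I:ℂ) ^ 2 = -1 := I_sq
  field_simp
  linear_combination (r * (b:ℂ) ^ 2 * Complex.sin b + b) * h1
    - (r * (b:ℂ) ^ 2 * Complex.sin b * Complex.sin b ^ 2) * h2

end Pool.Agent.Helper797.Bs
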