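import Pool.Agent.Helper797.BsRoot

set_option autoImplicit false

open Filter Topology Set Complex

namespace Pool.Agent.Helper797.Bs

/-- the growth condition -/
def GR (σ : ℝ) (F : ℂ → ℂ) : Prop :=
  ∀ ε : ℝ, 0 < ε → ∃ C : ℝ, ∀ z : ℂ, ‖F z‖ ≤ C * Real.exp ((σ + ε) * ‖z‖)

lemma real_deriv {F : ℂ → ℂ} (hF : Differentiable ℂ F) {f : ℝ → ℂ} (h : ∀ x : ℝ, f x = F x) :
    deriv f = fun x : ℝ => deriv F x := by
  have e : f = fun x : ℝ => F x := funext h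
  rw [e]
  ext x
  exact ((hF x).hasDerivAt.comp_ofReal).deriv

lemma real_deriv2 {F : ℂ → ℂ} (hF : Differentiable ℂ F) {f : ℝ → ℂ} (h : ∀ x : ℝ, f x = F x) :
    deriv (deriv f) = fun x : ℝ => deriv (deriv F) x :=
  real_deriv hF.deriv (fun x => by rw [real_deriv hF h])

lemma deriv_growth {F : ℂ → ℂ} (hF : Differentiable ℂ F) {σ M : ℝ} (hσ : 0 ≤ σ) (hM : 0 ≤ M)
    (hb : ∀ z, ‖F z‖ ≤ M * Real.exp (σ * |z.im|)) (z : ℂ) :
    ‖deriv F z‖ ≤ (M * Real.exp σ) * Real.exp (σ * |z.im|) := by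
  have h := Complex.norm_deriv_le_of_forall_mem_sphere_norm_le (c := z) (R := 1)
    (C := (M * Real.exp σ) * Real.exp (σ * |z.im|)) (f := F) one_pos hF.diffContOnCl ?_
  · rwa [div_one] at h
  · intro w hw
    refine (hb w).trans ?_
    rw [mul_assoc, ← Real.exp_add]
    apply mul_le_mul_of_nonneg_left _ hM
    apply Real.exp_le_exp.mpr
    have h1 : ‖w - z‖ = 1 := by simpa [dist_eq_norm] using hw
    have h2 : |w.im| ≤ 1 + |z.im| := by
      have h3 : |(w - z).im| ≤ 1 := h1 ▸ Complex.abs_im_le_norm (w - z)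
      rw [Complex.sub_im] at h3
      have h4 := abs_sub_abs_le_abs_sub w.im z.im
      linarith
    nlinarith

lemma deriv2_growth {F : ℂ → ℂ} (hF : Differentiable ℂ F) {σ M : ℝ} (hσ : 0 ≤ σ) (hM : 0 ≤ M)
    (hb : ∀ z, ‖F z‖ ≤ M * Real.exp (σ * |z.im|)) (z : ℂ) :
    ‖deriv (deriv F) z‖ ≤ (M * Real.exp σ * Real.exp σ) * Real.exp (σ * |z.im|) :=
  deriv_growth hF.deriv hσ (by positivity) (fun w => deriv_growth hF hσ hM hb w) z

lemma exp_im_le {σ ε : ℝ} (hσ : 0 ≤ σ) (hε : 0 < ε) (z : ℂ) :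
    Real.exp (σ * |z.im|) ≤ Real.exp ((σ + ε) * ‖z‖) := by
  apply Real.exp_le_exp.mpr
  have h1 := Complex.abs_im_le_norm z
  have h2 := norm_nonneg z
  nlinarith

/-- pointwise upper bound -/
lemma upper {F : ℂ → ℂ} (hF : Differentiable ℂ F) {σ M : ℝ} (hσ : 0 < σ) (hM : 0 ≤ M)
    (hb : ∀ z, ‖F z‖ ≤ M * Real.exp (σ * |z.im|)) (lam : ℂ) {a : ℝ} (ha0 : 0 < a)
    (ha1 : a < Real.pi) (x : ℝ) :
    ‖-deriv (deriv F) x + lam * F x‖
      ≤ (σ ^ 2 * rho a + ‖lam + (σ:ℂ) ^ 2 * (kap a : ℝ)‖) * M := by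
  have hσc : (σ:ℂ) ≠ 0 := by exact_mod_cast hσ.ne'
  set Φ : ℂ → ℂ := fun z => F (x + z / σ) with hΦ
  have hlin : ∀ z : ℂ, HasDerivAt (fun z : ℂ => (x:ℂ) + z / σ) (1 / σ) z := fun z =>
    ((hasDerivAt_id z).div_const (σ:ℂ)).const_add (x:ℂ)
  have hΦd : Differentiable ℂ Φ := hF.comp (fun z => (hlin z).differentiableAt)
  have hd1 : deriv Φ = fun z => deriv F (x + z / σ) * (1 / σ) := by
    ext z
    exact (HasDerivAt.comp z (hF _).hasDerivAt (hlin z)).deriv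
  have hd2 : deriv (deriv Φ) 0 = deriv (deriv F) x * (1 / σ) * (1 / σ) := by
    rw [hd1]
    have h1 : HasDerivAt (fun z : ℂ => deriv F (x + z / σ)) (deriv (deriv F) (x + 0 / σ) * (1 / σ)) 0 :=
      HasDerivAt.comp (0:ℂ) (hF.deriv _).hasDerivAt (hlin 0)
    have h2 := (h1.mul_const (1 / (σ:ℂ))).deriv
    rw [zero_div, add_zero] at h2
    exact h2
  have hΦ0 : Φ 0 = F x := by simp [hΦ]
  have hΦb : ∀ z, ‖Φ z‖ ≤ M * Real.exp |z.im| := by
    intro z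
    refine (hb _).trans (le_of_eq ?_)
    congr 2
    have e : ((x:ℂ) + z / σ).im = z.im / σ := by
      rw [Complex.add_im, Complex.ofReal_im, zero_add, Complex.div_ofReal_im]
    rw [e, abs_div, abs_of_pos hσ]
    field_simp
  have h := U0 hΦd hM hΦb ha0 ha1
  rw [hd2, hΦ0] at h
  have hF0 : ‖F x‖ ≤ M := by
    have := hb x
    simpa using this
  have e : -deriv (deriv F) x + lam * F x
      = -((σ:ℂ) ^ 2 * (deriv (deriv F) x * (1 / σ) * (1 / σ) + (kap a : ℝ) * F x))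
        + (lam + (σ:ℂ) ^ 2 * (kap a : ℝ)) * F x := by
    field_simp
    ring
  rw [e]
  refine (norm_add_le _ _).trans ?_
  rw [norm_neg, norm_mul, norm_mul, norm_pow, Complex.norm_real, Real.norm_eq_abs, abs_of_pos hσ]
  have h3 := mul_le_mul_of_nonneg_left h (sq_nonneg σ)
  have h4 := mul_le_mul_of_nonneg_left hF0 (norm_nonneg (lam + (σ:ℂ) ^ 2 * (kap a : ℝ)))
  linarith

lemma kap_neg (a : ℝ) : kap (-a) = kap a := by
  unfold kap
  rw [Real.cos_neg, Real.sin_neg, neg_sq, neg_mul_neg]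

lemma rho_neg (a : ℝ) : rho (-a) = rho a := by
  unfold rho
  rw [Real.cos_neg, Real.sin_neg, neg_sq, neg_mul, mul_neg]
  rw [show -a - -(Real.sin a * Real.cos a) = -(a - Real.sin a * Real.cos a) by ring, neg_div_neg_eq]

lemma rho_pos {a : ℝ} (ha0 : 0 < a) (ha1 : a < Real.pi) : 0 < rho a := by
  have hs : 0 < Real.sin a := Real.sin_pos_of_pos_of_lt_pi ha0 ha1
  unfold rho
  apply div_pos _ (by positivity)
  have h1 : Real.sin a < a := Real.sin_lt ha0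
  have h2 := Real.cos_le_one a
  have h3 : Real.sin a * Real.cos a ≤ Real.sin a * 1 := by gcongr
  linarith

/-- polar form of the parameter -/
lemma param {σ : ℝ} (hσ : 0 < σ) {lam : ℂ} {a : ℝ} (ha0 : 0 < a) (ha1 : a < Real.pi)
    (h : Psi (|lam.im| / σ ^ 2) a = lam.re / σ ^ 2) :
    ∃ b : ℝ, b ≠ 0 ∧ Real.sin b ≠ 0 ∧ kap b = kap a ∧ rho b = rho a ∧
      lam = (σ:ℂ) ^ 2 * (((|lam.im| / σ ^ 2 / Real.sin a : ℝ) : ℂ) * Complex.exp (-(b * I))
        - (kap b : ℝ)) := by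
  have hs : 0 < Real.sin a := Real.sin_pos_of_pos_of_lt_pi ha0 ha1
  rw [Psi_eq ha0.ne' hs.ne'] at h
  have hre : lam.re = |lam.im| * (Real.cos a / Real.sin a) - σ ^ 2 * kap a := by
    have h2 : σ ^ 2 ≠ 0 := by positivity
    field_simp at h ⊢
    linarith
  have hexp : ∀ b : ℝ, Complex.exp (-(b * I)) = ((Real.cos b : ℝ) : ℂ) - ((Real.sin b : ℝ) : ℂ) * I := by
    intro b
    rw [← neg_mul, Complex.exp_mul_I, Complex.cos_neg, Complex.sin_neg]; push_cast; ring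
  have hσ2 : σ ^ 2 ≠ 0 := by positivity
  rcases le_total lam.im 0 with him | him
  · refine ⟨a, ha0.ne', hs.ne', rfl, rfl, ?_⟩
    rw [hexp]
    have e : (σ:ℂ) ^ 2 * (((|lam.im| / σ ^ 2 / Real.sin a : ℝ) : ℂ) *
        (((Real.cos a : ℝ) : ℂ) - ((Real.sin a : ℝ) : ℂ) * I) - (kap a : ℝ))
        = ((|lam.im| * (Real.cos a / Real.sin a) - σ ^ 2 * kap a : ℝ) : ℂ)
          + ((-|lam.im| : ℝ) : ℂ) * I := by
      have hsc : ((Real.sin a : ℝ) : ℂ) ≠ 0 := by exact_mod_cast hs.ne'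
      have hσc : (σ:ℂ) ≠ 0 := by exact_mod_cast hσ.ne'
      push_cast at hsc ⊢
      field_simp
      ring
    rw [e, ← hre, abs_of_nonpos him, neg_neg]
    exact (Complex.re_add_im lam).symm
  · refine ⟨-a, neg_ne_zero.mpr ha0.ne', by rw [Real.sin_neg]; exact neg_ne_zero.mpr hs.ne',
      kap_neg a, rho_neg a, ?_⟩
    rw [hexp, kap_neg, Real.cos_neg, Real.sin_neg]
    have e : (σ:ℂ) ^ 2 * (((|lam.im| / σ ^ 2 / Real.sin a : ℝ) : ℂ) *
        (((Real.cos a : ℝ) : ℂ) - ((-Real.sin a : ℝ) : ℂ) * I) - (kap a : ℝ))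
        = ((|lam.im| * (Real.cos a / Real.sin a) - σ ^ 2 * kap a : ℝ) : ℂ)
          + ((|lam.im| : ℝ) : ℂ) * I := by
      have hsc : ((Real.sin a : ℝ) : ℂ) ≠ 0 := by exact_mod_cast hs.ne'
      have hσc : (σ:ℂ) ≠ 0 := by exact_mod_cast hσ.ne'
      push_cast at hsc ⊢
      field_simp
      ring
    rw [e, ← hre, abs_of_nonneg him]
    exact (Complex.re_add_im lam).symm

/-- at the root the upper bound takes the stated value -/
lemma norm_at_root {σ : ℝ} (hσ : 0 < σ) {lam : ℂ} {a : ℝ} (ha0 : 0 < a) (ha1 : a < Real.pi)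
    (h : Psi (|lam.im| / σ ^ 2) a = lam.re / σ ^ 2) :
    ‖lam + (σ:ℂ) ^ 2 * (kap a : ℝ)‖ = |lam.im| / Real.sin a := by
  have hs : 0 < Real.sin a := Real.sin_pos_of_pos_of_lt_pi ha0 ha1
  obtain ⟨b, -, -, hk, -, hl⟩ := param hσ ha0 ha1 h
  have e : lam + (σ:ℂ) ^ 2 * (kap a : ℝ)
      = (σ:ℂ) ^ 2 * (((|lam.im| / σ ^ 2 / Real.sin a : ℝ) : ℂ) * Complex.exp (-(b * I))) := by
    conv_lhs => rw [hl]
    rw [hk]; ring
  rw [e, norm_mul, norm_mul, norm_pow, Complex.norm_real, Complex.norm_real, Real.norm_eq_abs,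
    Real.norm_eq_abs, abs_of_pos hσ, abs_of_nonneg (by positivity)]
  have h1 : ‖Complex.exp (-(b * I))‖ = 1 := by
    rw [← neg_mul, ← Complex.ofReal_neg, Complex.norm_exp_ofReal_mul_I]
  rw [h1]
  have hσ2 : σ ≠ 0 := hσ.ne'
  field_simp

/-- scaling of the extremal function -/
lemma scaled {G : ℂ → ℂ} (hG : Differentiable ℂ G) (σ : ℝ) :
    Differentiable ℂ (fun z => G (σ * z)) ∧
      deriv (deriv (fun z => G (σ * z))) 0 = (σ:ℂ) ^ 2 * deriv (deriv G) 0 := by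
  have hlin : ∀ z : ℂ, HasDerivAt (fun z : ℂ => (σ:ℂ) * z) σ z := fun z => by
    simpa using (hasDerivAt_id z).const_mul (σ:ℂ)
  refine ⟨hG.comp (fun z => (hlin z).differentiableAt), ?_⟩
  have hd1 : deriv (fun z => G (σ * z)) = fun z => deriv G (σ * z) * σ := by
    ext z
    exact (HasDerivAt.comp z (hG _).hasDerivAt (hlin z)).deriv
  rw [hd1]
  have h1 : HasDerivAt (fun z : ℂ => deriv G (σ * z)) (deriv (deriv G) (σ * 0) * σ) 0 :=
    HasDerivAt.comp (0:ℂ) (hG.deriv _).hasDerivAt (hlin 0)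
  have h2 := (h1.mul_const (σ:ℂ)).deriv
  rw [mul_zero] at h2
  rw [h2]; ring

/-- the extremal function in the generic case -/
lemma lower {σ : ℝ} (hσ : 0 < σ) {lam : ℂ} {a : ℝ} (ha0 : 0 < a) (ha1 : a < Real.pi)
    (h : Psi (|lam.im| / σ ^ 2) a = lam.re / σ ^ 2) :
    ∃ F : ℂ → ℂ, Differentiable ℂ F ∧ (∃ K : ℝ, 0 ≤ K ∧ ∀ z, ‖F z‖ ≤ K * Real.exp (σ * |z.im|)) ∧
      (∀ x : ℝ, ‖F x‖ ≤ 1) ∧
      -deriv (deriv F) 0 + lam * F 0
        = ((|lam.im| / Real.sin a + σ ^ 2 * rho a : ℝ) : ℂ) := by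
  have hs : 0 < Real.sin a := Real.sin_pos_of_pos_of_lt_pi ha0 ha1
  obtain ⟨b, hb, hsb, hk, hr, hl⟩ := param hσ ha0 ha1 h
  obtain ⟨hd, hd2⟩ := scaled (FE_diff b) σ
  refine ⟨fun z => FE b (σ * z), hd, ?_, ?_, ?_⟩
  · obtain ⟨K, hK0, hK⟩ := FE_bound b
    refine ⟨K, hK0, fun z => (hK _).trans (le_of_eq ?_)⟩
    congr 2
    rw [Complex.im_ofReal_mul, abs_mul, abs_of_pos hσ]
  · intro x
    have := FE_le_one hb (σ * x)
    push_cast at this
    exact this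
  · rw [hd2]
    have hv := FE_value (r := |lam.im| / σ ^ 2 / Real.sin a) hb hsb
    set w : ℂ := ((|lam.im| / σ ^ 2 / Real.sin a : ℝ) : ℂ) * Complex.exp (-(b * I))
        - (kap b : ℝ) with hw
    calc -((σ:ℂ) ^ 2 * deriv (deriv (FE b)) 0) + lam * FE b (σ * 0)
        = -((σ:ℂ) ^ 2 * deriv (deriv (FE b)) 0) + ((σ:ℂ) ^ 2 * w) * FE b 0 := by
          rw [← hl, mul_zero]
      _ = (σ:ℂ) ^ 2 * (-deriv (deriv (FE b)) 0 + w * FE b 0) := by ring
      _ = (σ:ℂ) ^ 2 * ((|lam.im| / σ ^ 2 / Real.sin a + rho b : ℝ) : ℂ) := by rw [hv]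
      _ = ((|lam.im| / Real.sin a + σ ^ 2 * rho a : ℝ) : ℂ) := by
          rw [hr, ← Complex.ofReal_pow, ← Complex.ofReal_mul]
          congr 1
          have hσ2 : σ ≠ 0 := hσ.ne'
          field_simp

lemma lower_real {σ : ℝ} (hσ : 0 < σ) (lam : ℂ) :
    ∃ F : ℂ → ℂ, Differentiable ℂ F ∧ (∃ K : ℝ, 0 ≤ K ∧ ∀ z, ‖F z‖ ≤ K * Real.exp (σ * |z.im|)) ∧
      (∀ x : ℝ, ‖F x‖ ≤ 1) ∧
      -deriv (deriv F) 0 + lam * F 0 = lam + (σ:ℂ) ^ 2 := by
  obtain ⟨hd, hd2⟩ := scaled Complex.differentiable_cos σ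
  refine ⟨fun z => Complex.cos (σ * z), hd, ?_, ?_, ?_⟩
  · refine ⟨1, zero_le_one, fun z => ?_⟩
    rw [one_mul]
    refine (norm_cos_le _).trans (le_of_eq ?_)
    congr 1
    rw [Complex.im_ofReal_mul, abs_mul, abs_of_pos hσ]
  · intro x
    show ‖Complex.cos ((σ:ℂ) * (x:ℂ))‖ ≤ 1
    rw [← Complex.ofReal_mul, ← Complex.ofReal_cos, Complex.norm_real, Real.norm_eq_abs]
    exact Real.abs_cos_le_one _
  · rw [hd2]
    have h1 : deriv Complex.cos = fun z => -Complex.sin z := by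
      ext z; exact (Complex.hasDerivAt_cos z).deriv
    have h2 : deriv (deriv Complex.cos) 0 = -1 := by
      rw [h1]
      simp
    rw [h2]
    simp
    ring

/-- the symbol is bounded by `rho` -/
lemma symbol_le {a : ℝ} (ha0 : 0 < a) (ha1 : a < Real.pi) {ξ : ℝ} (hξ : |ξ| ≤ 1) :
    |ξ ^ 2 - kap a| ≤ rho a := by
  have hd : Differentiable ℂ (fun z : ℂ => Complex.exp (ξ * z * I)) := by fun_prop
  have hb : ∀ z : ℂ, ‖(fun z : ℂ => Complex.exp (ξ * z * I)) z‖ ≤ 1 * Real.exp |z.im| := by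
    intro z
    rw [one_mul, Complex.norm_exp]
    apply Real.exp_le_exp.mpr
    have e : (ξ * z * I).re = -(ξ * z.im) := by simp
    rw [e]
    calc -(ξ * z.im) ≤ |ξ * z.im| := neg_le_abs _
      _ = |ξ| * |z.im| := abs_mul _ _
      _ ≤ 1 * |z.im| := by gcongr
      _ = |z.im| := one_mul _
  have h := U0 hd zero_le_one hb ha0 ha1
  have hlin : ∀ z : ℂ, HasDerivAt (fun z : ℂ => (ξ:ℂ) * z * I) (ξ * I) z := fun z => by
    simpa using ((hasDerivAt_id z).const_mul (ξ:ℂ)).mul_const I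
  have h1 : deriv (fun z : ℂ => Complex.exp (ξ * z * I)) = fun z => Complex.exp (ξ * z * I) * (ξ * I) := by
    ext z; exact ((hlin z).cexp).deriv
  have h2 : deriv (deriv (fun z : ℂ => Complex.exp (ξ * z * I))) 0 = -((ξ ^ 2 : ℝ) : ℂ) := by
    rw [h1]
    have h3 := (((hlin 0).cexp).mul_const ((ξ:ℂ) * I)).deriv
    rw [h3]
    simp only [mul_zero, zero_mul, Complex.exp_zero, one_mul]
    push_cast
    linear_combination (ξ:ℂ) ^ 2 * Complex.I_sq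
  rw [h2] at h
  simp only [mul_zero, zero_mul, Complex.exp_zero, mul_one] at h
  have e : -((ξ ^ 2 : ℝ) : ℂ) + ((kap a : ℝ) : ℂ) = ((kap a - ξ ^ 2 : ℝ) : ℂ) := by push_cast; ring
  rw [e, Complex.norm_real, Real.norm_eq_abs, abs_sub_comm] at h
  exact h

/-- for non-real parameters the symbol stays strictly below the value -/
lemma symbol_lt {σ : ℝ} (hσ : 0 < σ) {lam : ℂ} {a : ℝ} (ha0 : 0 < a) (ha1 : a < Real.pi)
    (h : Psi (|lam.im| / σ ^ 2) a = lam.re / σ ^ 2) (him : lam.im ≠ 0) {ξ : ℝ} (hξ : |ξ| ≤ σ) :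
    ‖(ξ:ℂ) ^ 2 + lam‖ < |lam.im| / Real.sin a + σ ^ 2 * rho a := by
  have hs : 0 < Real.sin a := Real.sin_pos_of_pos_of_lt_pi ha0 ha1
  have hn := norm_at_root hσ ha0 ha1 h
  have hρ := rho_pos ha0 ha1
  have hw : |ξ ^ 2 - σ ^ 2 * kap a| ≤ σ ^ 2 * rho a := by
    have h1 : |ξ / σ| ≤ 1 := by
      rw [abs_div, abs_of_pos hσ]; exact (div_le_one hσ).mpr hξ
    have h2 := symbol_le ha0 ha1 h1
    have e : ξ ^ 2 - σ ^ 2 * kap a = σ ^ 2 * ((ξ / σ) ^ 2 - kap a) := by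
      field_simp
    rw [e, abs_mul, abs_of_pos (by positivity : 0 < σ ^ 2)]
    exact mul_le_mul_of_nonneg_left h2 (by positivity)
  set W : ℝ := ξ ^ 2 - σ ^ 2 * kap a with hWdef
  set u : ℂ := lam + (σ:ℂ) ^ 2 * (kap a : ℝ) with hu
  have hR0 : 0 < |lam.im| / Real.sin a := div_pos (abs_pos.mpr him) hs
  have hRU : 0 < σ ^ 2 * rho a := by positivity
  have e1 : (ξ:ℂ) ^ 2 + lam = u + (W : ℝ) := by
    rw [hu, hWdef]; push_cast; ring
  have huim : u.im = lam.im := by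
    rw [hu]
    have : (σ:ℂ) ^ 2 * (kap a : ℝ) = ((σ ^ 2 * kap a : ℝ) : ℂ) := by push_cast; ring
    rw [this, Complex.add_im, Complex.ofReal_im, add_zero]
  rw [e1, ← hn]
  apply lt_of_pow_lt_pow_left₀ 2 (by positivity)
  have hnu : ‖u‖ ^ 2 = u.re ^ 2 + u.im ^ 2 := by
    rw [Complex.sq_norm, Complex.normSq_apply]; ring
  have hnW : ‖u + (W:ℝ)‖ ^ 2 = (u.re + W) ^ 2 + u.im ^ 2 := by
    rw [Complex.sq_norm, Complex.normSq_apply]; simp; ring
  rw [hnW]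
  have hupos : 0 < ‖u‖ := by rw [hn]; exact hR0
  have hre : |u.re| < ‖u‖ := by
    have h3 : 0 < u.im ^ 2 := by
      rw [huim]; positivity
    apply lt_of_pow_lt_pow_left₀ 2 (norm_nonneg u)
    rw [sq_abs, hnu]; linarith
  have hW2 : W ^ 2 ≤ (σ ^ 2 * rho a) ^ 2 := by
    rw [← sq_abs W]
    exact pow_le_pow_left₀ (abs_nonneg _) hw 2
  have hcross : u.re * W ≤ |u.re| * (σ ^ 2 * rho a) := by
    calc u.re * W ≤ |u.re * W| := le_abs_self _
      _ = |u.re| * |W| := abs_mul _ _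
      _ ≤ |u.re| * (σ ^ 2 * rho a) := by gcongr
  have hcross2 : |u.re| * (σ ^ 2 * rho a) < ‖u‖ * (σ ^ 2 * rho a) := by gcongr
  nlinarith

end Pool.Agent.Helper797.Bs
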