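import Pool.Agent.Helper797.BsRes

set_option autoImplicit false

open Complex Filter Topology Metric Set

namespace Pool.Agent.Helper797.Bs

lemma norm_sin_sq (s : ℂ) :
    ‖Complex.sin s‖ ^ 2 = (Real.sin s.re * Real.cosh s.im) ^ 2 + (Real.cos s.re * Real.sinh s.im) ^ 2 := by
  rw [Complex.sin_eq, ← Complex.ofReal_sin, ← Complex.ofReal_cos, ← Complex.ofReal_cosh,
    ← Complex.ofReal_sinh, ← Complex.ofReal_mul, ← Complex.ofReal_mul, Complex.sq_norm,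
    Complex.normSq_add_mul_I]

lemma sin_sq_le_norm (s : ℂ) : |Real.sin s.re| ≤ ‖Complex.sin s‖ := by
  apply abs_le_of_sq_le_sq _ (norm_nonneg _)
  rw [norm_sin_sq]
  have h := Real.cosh_sq' s.im
  have h1 : 1 ≤ Real.cosh s.im ^ 2 := by rw [h]; nlinarith [sq_nonneg (Real.sinh s.im)]
  rw [mul_pow, mul_pow]
  nlinarith [sq_nonneg (Real.sin s.re), sq_nonneg (Real.cos s.re * Real.sinh s.im),
    mul_nonneg (sq_nonneg (Real.sin s.re)) (by linarith : (0:ℝ) ≤ Real.cosh s.im ^ 2 - 1)]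

lemma sinh_sq_le_norm (s : ℂ) : |Real.sinh s.im| ≤ ‖Complex.sin s‖ := by
  apply abs_le_of_sq_le_sq _ (norm_nonneg _)
  rw [norm_sin_sq]
  have h := Real.cosh_sq' s.im
  have h2 := Real.sin_sq_add_cos_sq s.re
  rw [mul_pow, mul_pow, h]
  have e : Real.sin s.re ^ 2 * (1 + Real.sinh s.im ^ 2) + Real.cos s.re ^ 2 * Real.sinh s.im ^ 2
      = Real.sin s.re ^ 2 + (Real.sin s.re ^ 2 + Real.cos s.re ^ 2) * Real.sinh s.im ^ 2 := by ring
  rw [e, h2]
  nlinarith [sq_nonneg (Real.sin s.re)]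

lemma sin_lower (N : ℕ) (s : ℂ) (hs : ‖s‖ = (N + 1 / 2) * Real.pi) :
    Real.exp |s.im| ≤ 8 * ‖Complex.sin s‖ := by
  have hpi := Real.pi_gt_three
  rcases le_or_gt 1 |s.im| with h | h
  · have h1 := sinh_sq_le_norm s
    have h2 : |Real.sinh s.im| = Real.sinh |s.im| := Real.abs_sinh s.im
    rw [h2, Real.sinh_eq] at h1
    have h3 : Real.exp (-|s.im|) ≤ 1 := by
      rw [Real.exp_le_one_iff]; linarith
    have h4 : 2 ≤ Real.exp |s.im| := by
      have := Real.add_one_le_exp |s.im|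
      linarith
    linarith
  · have h1 := sin_sq_le_norm s
    -- radius
    have hR : ‖s‖ ^ 2 = s.re ^ 2 + s.im ^ 2 := by
      rw [Complex.sq_norm, Complex.normSq_apply]; ring
    set R := ‖s‖ with hRdef
    have hR1 : 3 / 2 ≤ R := by
      rw [hs]
      have : (0:ℝ) ≤ N := Nat.cast_nonneg N
      nlinarith
    have hx0 := abs_nonneg s.re
    have hxsq : |s.re| ^ 2 = s.re ^ 2 := sq_abs _
    have hysq : s.im ^ 2 ≤ 1 := by
      rw [← sq_abs]; nlinarith [abs_nonneg s.im]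
    have hxR : |s.re| ≤ R := Complex.abs_re_le_norm s
    have hd : R - |s.re| ≤ 1 := by
      by_contra hcon
      push Not at hcon
      nlinarith
    have hcos : 1 / 2 ≤ |Real.cos (R - |s.re|)| := by
      have := Real.one_sub_sq_div_two_le_cos (x := R - |s.re|)
      have h5 : (R - |s.re|) ^ 2 ≤ 1 := by nlinarith
      exact le_trans (by linarith) (le_abs_self _)
    have hsin : |Real.sin s.re| = |Real.cos (R - |s.re|)| := by
      have e1 : |Real.sin s.re| = |Real.sin (|s.re|)| := by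
        rcases abs_cases s.re with ⟨h, _⟩ | ⟨h, _⟩
        · rw [h]
        · rw [h, Real.sin_neg, abs_neg]
      rw [e1]
      have e2 : |s.re| = (Real.pi / 2 - (R - |s.re|)) + N * Real.pi := by rw [hs]; ring
      have e3 : Real.sin |s.re| = (-1) ^ N * Real.sin (Real.pi / 2 - (R - |s.re|)) := by
        conv_lhs => rw [e2]
        exact Real.sin_add_nat_mul_pi _ N
      rw [e3, abs_mul, abs_pow, abs_neg, abs_one, one_pow, one_mul, Real.sin_pi_div_two_sub]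
    have hexp : Real.exp |s.im| ≤ 3 := by
      have h6 : Real.exp |s.im| ≤ Real.exp 1 := Real.exp_le_exp.mpr h.le
      have := Real.exp_one_lt_d9
      linarith
    rw [hsin] at h1
    linarith

lemma norm_cos_le (s : ℂ) : ‖Complex.cos s‖ ≤ Real.exp |s.im| := by
  rw [Complex.cos, norm_div]
  have h1 : ‖Complex.exp (s * I)‖ ≤ Real.exp |s.im| := by
    rw [Complex.norm_exp]
    apply Real.exp_le_exp.mpr
    simp only [mul_re, I_re, mul_zero, I_im, mul_one, zero_sub]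
    exact neg_le_abs _
  have h2 : ‖Complex.exp (-s * I)‖ ≤ Real.exp |s.im| := by
    rw [Complex.norm_exp]
    apply Real.exp_le_exp.mpr
    simp only [mul_re, neg_re, I_re, mul_zero, neg_im, I_im, mul_one, zero_sub, neg_neg]
    exact le_abs_self _
  have h3 := norm_add_le (Complex.exp (s * I)) (Complex.exp (-s * I))
  have h4 : ‖(2:ℂ)‖ = 2 := by simp
  rw [h4, div_le_iff₀ (by norm_num)]
  linarith

lemma norm_cos_int (k : ℤ) : ‖Complex.cos ((k : ℂ) * Real.pi)‖ = 1 := by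
  have h1 : Complex.sin ((k : ℂ) * Real.pi) = 0 := Complex.sin_eq_zero_iff.mpr ⟨k, rfl⟩
  have h2 := Complex.sin_sq_add_cos_sq ((k : ℂ) * Real.pi)
  rw [h1] at h2
  have h3 : Complex.cos ((k : ℂ) * Real.pi) ^ 2 = 1 := by linear_combination h2
  have h4 : ‖Complex.cos ((k : ℂ) * Real.pi)‖ ^ 2 = 1 := by rw [← norm_pow, h3, norm_one]
  have h5 := norm_nonneg (Complex.cos ((k : ℂ) * Real.pi))
  nlinarith

/-- the integrand -/
noncomputable def qq (g : ℂ → ℂ) (z w : ℝ) (s : ℂ) : ℂ :=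
  s ^ 2 * g s / (Complex.sin s * ((s ^ 2 - (z:ℂ) ^ 2) * (s ^ 2 - (w:ℂ) ^ 2)))

noncomputable def hfun (g : ℂ → ℂ) (z : ℂ) : ℂ := z * g z / Complex.sin z

noncomputable def SN (g : ℂ → ℂ) (z w : ℝ) (N : ℕ) : ℂ :=
  ∑ k ∈ Finset.Icc (-(N:ℤ)) N, ((k:ℂ) * Real.pi) ^ 2 * g ((k:ℂ) * Real.pi) /
    (Complex.cos ((k:ℂ) * Real.pi) *
      ((((k:ℂ) * Real.pi) ^ 2 - (z:ℂ) ^ 2) * (((k:ℂ) * Real.pi) ^ 2 - (w:ℂ) ^ 2)))

lemma pole_int {g : ℂ → ℂ} (hg : Differentiable ℂ g) {z w : ℝ} (k : ℤ)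
    (h1 : ((k:ℂ) * Real.pi) ^ 2 - (z:ℂ) ^ 2 ≠ 0) (h2 : ((k:ℂ) * Real.pi) ^ 2 - (w:ℂ) ^ 2 ≠ 0) :
    Tendsto (fun s => (s - (k:ℂ) * Real.pi) * qq g z w s) (𝓝[≠] ((k:ℂ) * Real.pi))
      (𝓝 (((k:ℂ) * Real.pi) ^ 2 * g ((k:ℂ) * Real.pi) /
    (Complex.cos ((k:ℂ) * Real.pi) *
      ((((k:ℂ) * Real.pi) ^ 2 - (z:ℂ) ^ 2) * (((k:ℂ) * Real.pi) ^ 2 - (w:ℂ) ^ 2))))) := by
  set p : ℂ := (k:ℂ) * Real.pi with hp
  have hsin : Complex.sin p = 0 := Complex.sin_eq_zero_iff.mpr ⟨k, rfl⟩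
  have hcos : Complex.cos p ≠ 0 := by
    intro h
    have := norm_cos_int k
    rw [← hp, h, norm_zero] at this
    norm_num at this
  have hslope : Tendsto (fun s => Complex.sin s / (s - p)) (𝓝[≠] p) (𝓝 (Complex.cos p)) := by
    have h := (Complex.hasDerivAt_sin p).tendsto_slope
    refine h.congr' ?_
    filter_upwards with s
    rw [slope_def_field, hsin, sub_zero]
  have hgc : Tendsto g (𝓝[≠] p) (𝓝 (g p)) := hg.continuous.continuousAt.tendsto.mono_left nhdsWithin_le_nhds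
  have hid : Tendsto (fun s : ℂ => s) (𝓝[≠] p) (𝓝 p) := nhdsWithin_le_nhds
  have hnum : Tendsto (fun s => s ^ 2 * g s) (𝓝[≠] p) (𝓝 (p ^ 2 * g p)) := (hid.pow 2).mul hgc
  have hden : Tendsto (fun s => Complex.sin s / (s - p) * ((s ^ 2 - (z:ℂ) ^ 2) * (s ^ 2 - (w:ℂ) ^ 2)))
      (𝓝[≠] p) (𝓝 (Complex.cos p * ((p ^ 2 - (z:ℂ) ^ 2) * (p ^ 2 - (w:ℂ) ^ 2)))) :=
    hslope.mul (((hid.pow 2).sub_const _).mul ((hid.pow 2).sub_const _))
  have := hnum.div hden (mul_ne_zero hcos (mul_ne_zero h1 h2))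
  refine this.congr' ?_
  filter_upwards [self_mem_nhdsWithin] with s hs
  have hs' : s - p ≠ 0 := sub_ne_zero.mpr hs
  unfold qq
  simp only [Pi.div_apply]
  rw [div_mul_eq_mul_div, div_div_eq_mul_div, mul_div_assoc']
  congr 1
  ring

lemma pole_z {g : ℂ → ℂ} (hg : Differentiable ℂ g) {z w : ℝ} (hz : (z:ℂ) ≠ 0)
    (hsz : Complex.sin z ≠ 0) (hzw : (z:ℂ) ^ 2 - (w:ℂ) ^ 2 ≠ 0) :
    Tendsto (fun s => (s - (z:ℂ)) * qq g z w s) (𝓝[≠] (z:ℂ))
      (𝓝 (z * g z / (2 * Complex.sin z * ((z:ℂ) ^ 2 - (w:ℂ) ^ 2)))) := by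
  have hc : ContinuousAt (fun s : ℂ => s ^ 2 * g s /
      (Complex.sin s * ((s + z) * (s ^ 2 - (w:ℂ) ^ 2)))) (z:ℂ) := by
    apply ContinuousAt.div
    · exact (continuousAt_id.pow 2).mul hg.continuous.continuousAt
    · fun_prop
    · apply mul_ne_zero hsz
      apply mul_ne_zero _ hzw
      intro h
      apply hz
      have : (2:ℂ) * z = 0 := by linear_combination h
      simpa using this
  have h := hc.tendsto.mono_left (nhdsWithin_le_nhds (s := {(z:ℂ)}ᶜ))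
  have e : (z:ℂ) ^ 2 * g z / (Complex.sin z * (((z:ℂ) + z) * ((z:ℂ) ^ 2 - (w:ℂ) ^ 2)))
      = z * g z / (2 * Complex.sin z * ((z:ℂ) ^ 2 - (w:ℂ) ^ 2)) := by
    field_simp
    ring
  rw [e] at h
  refine h.congr' ?_
  filter_upwards [self_mem_nhdsWithin] with s hs
  have hs' : s - (z:ℂ) ≠ 0 := sub_ne_zero.mpr hs
  unfold qq
  have e2 : s ^ 2 - (z:ℂ) ^ 2 = (s - z) * (s + z) := by ring
  rw [e2, mul_div_assoc']
  have e3 : Complex.sin s * ((s - (z:ℂ)) * (s + z) * (s ^ 2 - (w:ℂ) ^ 2))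
      = (s - z) * (Complex.sin s * ((s + z) * (s ^ 2 - (w:ℂ) ^ 2))) := by ring
  rw [e3, mul_div_mul_left _ _ hs']

lemma qq_neg {g : ℂ → ℂ} (hev : ∀ s, g (-s) = g s) (z w : ℝ) (s : ℂ) :
    qq g z w (-s) = -qq g z w s := by
  unfold qq
  rw [hev, Complex.sin_neg]
  rw [neg_sq, neg_mul, div_neg]

lemma pole_neg {g : ℂ → ℂ} (hev : ∀ s, g (-s) = g s) {z w : ℝ} {p c : ℂ}
    (h : Tendsto (fun s => (s - p) * qq g z w s) (𝓝[≠] p) (𝓝 c)) :
    Tendsto (fun s => (s - (-p)) * qq g z w s) (𝓝[≠] (-p)) (𝓝 c) := by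
  have hneg : Tendsto (fun s : ℂ => -s) (𝓝[≠] (-p)) (𝓝[≠] p) := by
    rw [tendsto_nhdsWithin_iff]
    constructor
    · have : Tendsto (fun s : ℂ => -s) (𝓝 (-p)) (𝓝 (- -p)) := (continuous_neg).tendsto (-p)
      rw [neg_neg] at this
      exact this.mono_left nhdsWithin_le_nhds
    · filter_upwards [self_mem_nhdsWithin] with s hs h2
      apply hs
      have h3 : -s = p := h2
      rw [mem_singleton_iff, ← h3, neg_neg]
  have := h.comp hneg
  refine this.congr' ?_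
  filter_upwards with s
  simp only [Function.comp]
  rw [qq_neg hev]; ring

end Pool.Agent.Helper797.Bs
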