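import Mathlib

set_option autoImplicit false

open Complex Filter Topology Metric Set

namespace Pool.Agent.Helper797.Bs

/-- residue theorem on a disc, simple poles -/
lemma residue_sum {R : ℝ} (hR : 0 < R) (Z : Finset ℂ) (hZ : ∀ p ∈ Z, ‖p‖ < R) (c : ℂ → ℂ)
    (q : ℂ → ℂ) (hd : ∀ s, ‖s‖ ≤ R → s ∉ Z → DifferentiableAt ℂ q s)
    (hc : ∀ p ∈ Z, Tendsto (fun s => (s - p) * q s) (𝓝[≠] p) (𝓝 (c p))) :
    (∮ s in C(0, R), q s) = 2 * Real.pi * I * ∑ p ∈ Z, c p := by
  classical
  induction Z using Finset.induction_on generalizing q with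
  | empty =>
    simp only [Finset.sum_empty, mul_zero]
    have hdo : DifferentiableOn ℂ q (closedBall 0 R) := by
      intro s hs
      exact (hd s (by simpa using hs) (by simp)).differentiableWithinAt
    have : DiffContOnCl ℂ q (ball 0 R) := by
      apply DifferentiableOn.diffContOnCl
      rwa [closure_ball 0 hR.ne']
    exact this.circleIntegral_eq_zero hR.le
  | insert p Z hp ih =>
    have hpR : ‖p‖ < R := hZ p (Finset.mem_insert_self _ _)
    set q1 : ℂ → ℂ := fun s => q s - c p / (s - p) with hq1
    set q2 : ℂ → ℂ := Function.update q1 p (limUnder (𝓝[≠] p) q1) with hq2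
    -- punctured differentiability of q1
    have hev : ∀ᶠ z in 𝓝[≠] p, DifferentiableAt ℂ q1 z := by
      have h1 : ∀ᶠ z in 𝓝 p, z ∉ Z := by
        have : (↑Z : Set ℂ)ᶜ ∈ 𝓝 p := (Z.finite_toSet.isClosed.isOpen_compl).mem_nhds (by simpa using hp)
        filter_upwards [this] with z hz
        simpa using hz
      have h2 : ∀ᶠ z in 𝓝 p, ‖z‖ < R :=
        (continuous_norm.tendsto p).eventually (gt_mem_nhds hpR)
      have h3 := (h1.and h2).filter_mono (nhdsWithin_le_nhds (s := {p}ᶜ))
      filter_upwards [h3, self_mem_nhdsWithin] with z hz hzp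
      have hzp' : z ≠ p := hzp
      have hd1 : DifferentiableAt ℂ q z := hd z hz.2.le (by simp [hzp', hz.1])
      have hsub : z - p ≠ 0 := sub_ne_zero.mpr hzp'
      exact hd1.sub (DifferentiableAt.div (by fun_prop) (by fun_prop) hsub)
    have hlim : Tendsto (fun s => (s - p) * q1 s) (𝓝[≠] p) (𝓝 0) := by
      have h1 := hc p (Finset.mem_insert_self _ _)
      have h2 : Tendsto (fun s => (s - p) * q s - c p) (𝓝[≠] p) (𝓝 (c p - c p)) :=
        h1.sub_const _
      rw [sub_self] at h2
      refine h2.congr' ?_
      filter_upwards [self_mem_nhdsWithin] with s hs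
      have hs' : s - p ≠ 0 := sub_ne_zero.mpr hs
      simp only [hq1]
      field_simp
    have ho : (fun z => q1 z - q1 p) =o[𝓝[≠] p] fun z => (z - p)⁻¹ := by
      refine (Asymptotics.isLittleO_iff_tendsto' ?_).mpr ?_
      · filter_upwards [self_mem_nhdsWithin] with z hz h0
        exact absurd (inv_eq_zero.mp h0) (sub_ne_zero.mpr hz)
      · have h1 : Tendsto (fun z => (z - p) * q1 z - (z - p) * q1 p) (𝓝[≠] p) (𝓝 (0 - 0 * q1 p)) := by
          apply hlim.sub
          apply Tendsto.mul_const
          have : Tendsto (fun z : ℂ => z - p) (𝓝 p) (𝓝 (p - p)) := by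
            exact (continuous_id.sub continuous_const).tendsto p
          rw [sub_self] at this
          exact this.mono_left nhdsWithin_le_nhds
        simp only [zero_mul, sub_zero] at h1
        refine h1.congr' ?_
        filter_upwards [self_mem_nhdsWithin] with z hz
        rw [div_inv_eq_mul]; ring
    have hev' := hev
    rw [eventually_nhdsWithin_iff] at hev'
    have hdp : DifferentiableAt ℂ q2 p := by
      have hdo : DifferentiableOn ℂ q1 ({z | z ≠ p → DifferentiableAt ℂ q1 z} \ {p}) := fun z hz =>
        (hz.1 hz.2).differentiableWithinAt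
      have H := differentiableOn_update_limUnder_of_isLittleO hev' hdo ho
      exact H.differentiableAt hev'
    have heq : ∀ s, s ≠ p → q2 =ᶠ[𝓝 s] q1 := by
      intro s hs
      filter_upwards [isOpen_ne.mem_nhds hs] with z hz
      rw [hq2, Function.update_of_ne hz]
    have hd2 : ∀ s, ‖s‖ ≤ R → s ∉ Z → DifferentiableAt ℂ q2 s := by
      intro s hs hsZ
      by_cases hsp : s = p
      · rw [hsp]; exact hdp
      · have h1 : DifferentiableAt ℂ q1 s := by
          have hsub : s - p ≠ 0 := sub_ne_zero.mpr hsp
          exact (hd s hs (by simp [hsp, hsZ])).sub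
            (DifferentiableAt.div (by fun_prop) (by fun_prop) hsub)
        exact (Filter.EventuallyEq.differentiableAt_iff (heq s hsp)).mpr h1
    have hc2 : ∀ p' ∈ Z, Tendsto (fun s => (s - p') * q2 s) (𝓝[≠] p') (𝓝 (c p')) := by
      intro p' hp'
      have hne : p' ≠ p := fun h => hp (h ▸ hp')
      have h1 := hc p' (Finset.mem_insert_of_mem hp')
      have h2 : Tendsto (fun s => (s - p') * (c p / (s - p))) (𝓝[≠] p') (𝓝 0) := by
        have hcont : ContinuousAt (fun s => (s - p') * (c p / (s - p))) p' := by
          apply ContinuousAt.mul (by fun_prop)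
          apply ContinuousAt.div (by fun_prop) (by fun_prop)
          exact sub_ne_zero.mpr hne
        have h3 := hcont.tendsto
        simp only [sub_self, zero_mul] at h3
        exact h3.mono_left nhdsWithin_le_nhds
      have h3 := h1.sub h2
      rw [sub_zero] at h3
      refine h3.congr' ?_
      have h4 := (heq p' hne).filter_mono (nhdsWithin_le_nhds (s := {p'}ᶜ))
      filter_upwards [h4] with s hs
      rw [hs]; simp only [hq1]; ring
    have hint := ih (fun p hp => hZ p (Finset.mem_insert_of_mem hp)) q2 hd2 hc2
    rw [Finset.sum_insert hp, mul_add, ← hint]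
    -- split the integral
    have hsph : ∀ s ∈ sphere (0:ℂ) R, s ≠ p := by
      intro s hs h
      rw [mem_sphere_zero_iff_norm] at hs
      rw [h] at hs; linarith
    have hcongr : (∮ s in C(0, R), q s) = ∮ s in C(0, R), (q2 s + c p / (s - p)) := by
      apply circleIntegral.integral_congr hR.le
      intro s hs
      have := hsph s hs
      simp only [hq2]
      rw [Function.update_of_ne this]
      simp only [hq1]; ring
    have hi2 : CircleIntegrable q2 0 R := by
      apply ContinuousOn.circleIntegrable hR.le
      intro s hs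
      by_cases hsZ : s ∈ Z
      · exfalso
        have := hZ s (Finset.mem_insert_of_mem hsZ)
        rw [mem_sphere_zero_iff_norm] at hs
        linarith
      · rw [mem_sphere_zero_iff_norm] at hs
        exact (hd2 s hs.le hsZ).continuousAt.continuousWithinAt
    have hi3 : CircleIntegrable (fun s => c p / (s - p)) 0 R := by
      apply ContinuousOn.circleIntegrable hR.le
      intro s hs
      have hsub : s - p ≠ 0 := sub_ne_zero.mpr (hsph s hs)
      have h5 : ContinuousAt (fun s => c p / (s - p)) s :=
        ContinuousAt.div continuousAt_const (by fun_prop) hsub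
      exact h5.continuousWithinAt
    rw [hcongr, circleIntegral.integral_add hi2 hi3]
    have hval : (∮ s in C(0, R), c p / (s - p)) = 2 * Real.pi * I * c p := by
      have : (fun s => c p / (s - p)) = fun s => c p * (s - p)⁻¹ := by
        ext s; rw [div_eq_mul_inv]
      rw [this, circleIntegral.integral_const_mul,
        circleIntegral.integral_sub_inv_of_mem_ball (by simpa using hpR)]
      ring
    rw [hval]; ring

end Pool.Agent.Helper797.Bs
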