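import Pool.Agent.Helper797.BsExt

set_option autoImplicit false

open Filter Topology Set

namespace Pool.Agent.Helper797.Bs

lemma pos_of_deriv {f f' : ℝ → ℝ} (hd : ∀ x, HasDerivAt f (f' x) x) (h0 : f 0 = 0)
    (hp : ∀ x, 0 < x → x < Real.pi → 0 < f' x) {x : ℝ} (hx0 : 0 < x) (hx1 : x < Real.pi) :
    0 < f x := by
  have hm : StrictMonoOn f (Icc 0 Real.pi) := by
    apply strictMonoOn_of_deriv_pos (convex_Icc 0 Real.pi)
    · intro y _
      exact (hd y).continuousAt.continuousWithinAt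
    · intro y hy
      rw [interior_Icc] at hy
      rw [(hd y).deriv]
      exact hp y hy.1 hy.2
  have := hm (⟨le_rfl, Real.pi_pos.le⟩ : (0:ℝ) ∈ Icc 0 Real.pi) (⟨hx0.le, hx1.le⟩ : x ∈ Icc 0 Real.pi) hx0
  rwa [h0] at this

lemma q_pos {a : ℝ} (ha0 : 0 < a) (ha1 : a < Real.pi) : 0 < Real.sin a - a * Real.cos a := by
  refine pos_of_deriv (f := fun a => Real.sin a - a * Real.cos a) (f' := fun a => a * Real.sin a)
    ?_ (by simp) ?_ ha0 ha1
  · intro x
    have h1 := (Real.hasDerivAt_sin x).sub ((hasDerivAt_id x).mul (Real.hasDerivAt_cos x))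
    have e : Real.cos x - (1 * Real.cos x + id x * -Real.sin x) = x * Real.sin x := by
      simp only [id]; ring
    rw [e] at h1
    exact h1
  · intro x h0 h1
    exact mul_pos h0 (Real.sin_pos_of_pos_of_lt_pi h0 h1)

lemma P_pos {a : ℝ} (ha0 : 0 < a) (ha1 : a < Real.pi) :
    0 < a ^ 2 + a * Real.sin a * Real.cos a - 2 * Real.sin a ^ 2 := by
  have hP' : ∀ x, 0 < x → x < Real.pi →
      0 < 2 * x - 3 * (Real.sin x * Real.cos x) + x * (Real.cos x ^ 2 - Real.sin x ^ 2) := by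
    intro x hx0 hx1
    refine pos_of_deriv (f := fun x => 2 * x - 3 * (Real.sin x * Real.cos x)
      + x * (Real.cos x ^ 2 - Real.sin x ^ 2))
      (f' := fun x => 4 * Real.sin x * (Real.sin x - x * Real.cos x)) ?_ (by simp) ?_ hx0 hx1
    · intro y
      have hs := Real.hasDerivAt_sin y
      have hc := Real.hasDerivAt_cos y
      have h1 := (((hasDerivAt_id y).const_mul 2).sub ((hs.mul hc).const_mul 3)).add
        ((hasDerivAt_id y).mul ((hc.pow 2).sub (hs.pow 2)))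
      refine h1.congr_deriv ?_
      simp only [id, Pi.sub_apply, Pi.pow_apply]
      have := Real.sin_sq_add_cos_sq y
      push_cast
      linear_combination (-2) * this
    · intro y h0 h1
      exact mul_pos (mul_pos (by norm_num) (Real.sin_pos_of_pos_of_lt_pi h0 h1)) (q_pos h0 h1)
  refine pos_of_deriv (f := fun a => a ^ 2 + a * Real.sin a * Real.cos a - 2 * Real.sin a ^ 2)
    (f' := fun x => 2 * x - 3 * (Real.sin x * Real.cos x) + x * (Real.cos x ^ 2 - Real.sin x ^ 2))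
    ?_ (by simp) hP' ha0 ha1
  intro y
  have hs := Real.hasDerivAt_sin y
  have hc := Real.hasDerivAt_cos y
  have h1 := (((hasDerivAt_id y).pow 2).add (((hasDerivAt_id y).mul hs).mul hc)).sub
    ((hs.pow 2).const_mul 2)
  refine h1.congr_deriv ?_
  simp only [id, Pi.mul_apply]
  push_cast
  ring

lemma kap_strictMono : StrictMonoOn kap (Ioo 0 Real.pi) := by
  have hd : ∀ a ∈ Ioo (0:ℝ) Real.pi, HasDerivAt kap
      ((a ^ 2 + a * Real.sin a * Real.cos a - 2 * Real.sin a ^ 2) / (a ^ 3 * Real.sin a ^ 2)) a := by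
    intro a ha
    have hs : 0 < Real.sin a := Real.sin_pos_of_pos_of_lt_pi ha.1 ha.2
    have ha0 : a ≠ 0 := ha.1.ne'
    have h1 : HasDerivAt (fun x : ℝ => 1 / x ^ 2) ((0 * a ^ 2 - 1 * (2 * a)) / (a ^ 2) ^ 2) a := by
      have hp : HasDerivAt (fun x : ℝ => x ^ 2) (2 * a) a := by simpa using hasDerivAt_pow 2 a
      exact (hasDerivAt_const a (1:ℝ)).div hp (by positivity)
    have h2 : HasDerivAt (fun x : ℝ => Real.cos x / (x * Real.sin x))
        ((-Real.sin a * (a * Real.sin a) - Real.cos a * (1 * Real.sin a + a * Real.cos a))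
          / (a * Real.sin a) ^ 2) a :=
      (Real.hasDerivAt_cos a).div ((hasDerivAt_id a).mul (Real.hasDerivAt_sin a)) (by positivity)
    refine (h1.sub h2).congr_deriv ?_
    have := Real.sin_sq_add_cos_sq a
    field_simp
    linear_combination (a ^ 2) * this
  apply strictMonoOn_of_deriv_pos (convex_Ioo 0 Real.pi)
  · intro a ha
    exact (hd a ha).continuousAt.continuousWithinAt
  · intro a ha
    rw [interior_Ioo] at ha
    rw [(hd a ha).deriv]
    have hs : 0 < Real.sin a := Real.sin_pos_of_pos_of_lt_pi ha.1 ha.2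
    have ha0 : 0 < a := ha.1
    exact div_pos (P_pos ha.1 ha.2) (by positivity)

lemma kap_cont : ContinuousOn kap (Ioo 0 Real.pi) := by
  intro a ha
  have hs : 0 < Real.sin a := Real.sin_pos_of_pos_of_lt_pi ha.1 ha.2
  have ha0 : a ≠ 0 := ha.1.ne'
  unfold kap
  apply ContinuousAt.continuousWithinAt
  apply ContinuousAt.sub
  · exact ContinuousAt.div continuousAt_const (by fun_prop) (by positivity)
  · exact ContinuousAt.div (by fun_prop) (by fun_prop) (by positivity)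

lemma kap_near {a : ℝ} (h0 : 0 < a) (h1 : a ≤ 1) : |kap a - 1 / 3| ≤ a := by
  have hs := Real.sin_bound (x := a) (by rw [abs_of_pos h0]; exact h1)
  have hc := Real.cos_bound (x := a) (by rw [abs_of_pos h0]; exact h1)
  rw [abs_of_pos h0] at hs hc
  have s1 := abs_le.mp hs
  have c1 := abs_le.mp hc
  have ha3 : 0 < a ^ 3 := by positivity
  have ha4 : a ^ 4 ≤ a ^ 3 := by
    calc a ^ 4 = a ^ 3 * a := by ring
      _ ≤ a ^ 3 * 1 := by gcongr
      _ = a ^ 3 := mul_one _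
  have ha31 : a ^ 3 ≤ a := by
    have : a ^ 2 ≤ 1 := by nlinarith
    calc a ^ 3 = a ^ 2 * a := by ring
      _ ≤ 1 * a := by gcongr
      _ = a := one_mul _
  have hsin : a / 2 ≤ Real.sin a := by nlinarith [s1.1]
  have hspos : 0 < Real.sin a := by linarith
  have e : kap a - 1 / 3 = (3 * (Real.sin a - a * Real.cos a) - a ^ 2 * Real.sin a)
      / (3 * a ^ 2 * Real.sin a) := by
    unfold kap; field_simp
  rw [e, abs_div, abs_of_pos (by positivity : 0 < 3 * a ^ 2 * Real.sin a), div_le_iff₀ (by positivity)]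
  have hden : 3 / 2 * a ^ 4 ≤ a * (3 * a ^ 2 * Real.sin a) := by
    calc 3 / 2 * a ^ 4 = a * (3 * a ^ 2 * (a / 2)) := by ring
      _ ≤ _ := by gcongr
  refine le_trans ?_ hden
  have ha5 : a ^ 5 ≤ a ^ 4 := by
    calc a ^ 5 = a ^ 4 * a := by ring
      _ ≤ a ^ 4 * 1 := by gcongr
      _ = a ^ 4 := mul_one _
  have ha6 : a ^ 6 ≤ a ^ 4 := by
    have : a ^ 2 ≤ 1 := by nlinarith
    calc a ^ 6 = a ^ 4 * a ^ 2 := by ring
      _ ≤ a ^ 4 * 1 := by gcongr
      _ = a ^ 4 := mul_one _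
  have t1 := mul_le_mul_of_nonneg_left c1.1 h0.le
  have t2 := mul_le_mul_of_nonneg_left c1.2 h0.le
  have t3 := mul_le_mul_of_nonneg_left s1.1 (sq_nonneg a)
  have t4 := mul_le_mul_of_nonneg_left s1.2 (sq_nonneg a)
  have ha50 : 0 ≤ a ^ 5 := by positivity
  rw [abs_le]
  constructor <;> nlinarith [s1.1, s1.2]

lemma rho_near {a : ℝ} (h0 : 0 < a) (h1 : a ≤ 1 / 2) : |rho a - 2 / 3| ≤ 2 * a := by
  have hs := Real.sin_bound (x := a) (by rw [abs_of_pos h0]; linarith)
  have hs2 := Real.sin_bound (x := 2 * a) (by rw [abs_of_pos (by linarith)]; linarith)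
  rw [abs_of_pos h0] at hs
  rw [abs_of_pos (by linarith : 0 < 2 * a)] at hs2
  have s1 := abs_le.mp hs
  have s2 := abs_le.mp hs2
  rw [Real.sin_two_mul] at s2
  have ha4 : a ^ 4 ≤ a ^ 3 := by
    calc a ^ 4 = a ^ 3 * a := by ring
      _ ≤ a ^ 3 * 1 := by gcongr; linarith
      _ = a ^ 3 := mul_one _
  have ha31 : a ^ 3 ≤ a := by
    have : a ^ 2 ≤ 1 := by nlinarith
    calc a ^ 3 = a ^ 2 * a := by ring
      _ ≤ 1 * a := by gcongr
      _ = a := one_mul _
  have hsin : a / 2 ≤ Real.sin a := by nlinarith [s1.1]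
  have hspos : 0 < Real.sin a := by linarith
  have e : rho a - 2 / 3 = (3 * (a - Real.sin a * Real.cos a) - 2 * (a ^ 2 * Real.sin a))
      / (3 * a ^ 2 * Real.sin a) := by
    unfold rho; field_simp
  rw [e, abs_div, abs_of_pos (by positivity : 0 < 3 * a ^ 2 * Real.sin a), div_le_iff₀ (by positivity)]
  have hden : 3 * a ^ 4 ≤ 2 * a * (3 * a ^ 2 * Real.sin a) := by
    calc 3 * a ^ 4 = 2 * a * (3 * a ^ 2 * (a / 2)) := by ring
      _ ≤ _ := by gcongr
  refine le_trans ?_ hden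
  have ha5 : a ^ 5 ≤ a ^ 4 := by
    calc a ^ 5 = a ^ 4 * a := by ring
      _ ≤ a ^ 4 * 1 := by gcongr; linarith
      _ = a ^ 4 := mul_one _
  have ha6 : a ^ 6 ≤ a ^ 4 := by
    have : a ^ 2 ≤ 1 := by nlinarith
    calc a ^ 6 = a ^ 4 * a ^ 2 := by ring
      _ ≤ a ^ 4 * 1 := by gcongr
      _ = a ^ 4 := mul_one _
  have t3 := mul_le_mul_of_nonneg_left s1.1 (sq_nonneg a)
  have t4 := mul_le_mul_of_nonneg_left s1.2 (sq_nonneg a)
  have ha50 : 0 ≤ a ^ 5 := by positivity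
  rw [abs_le]
  constructor <;> nlinarith [s2.1, s2.2]

lemma kap_tendsto : Tendsto kap (𝓝[>] 0) (𝓝 (1 / 3)) := by
  rw [tendsto_iff_dist_tendsto_zero]
  have h1 : Tendsto (fun a : ℝ => a) (𝓝[>] 0) (𝓝 0) := nhdsWithin_le_nhds
  refine squeeze_zero' (Eventually.of_forall fun _ => dist_nonneg) ?_ h1
  filter_upwards [Ioo_mem_nhdsGT (zero_lt_one' ℝ)] with a ha
  rw [Real.dist_eq]
  exact kap_near ha.1 ha.2.le

lemma rho_tendsto : Tendsto rho (𝓝[>] 0) (𝓝 (2 / 3)) := by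
  rw [tendsto_iff_dist_tendsto_zero]
  have h0 : Tendsto (fun a : ℝ => a) (𝓝[>] 0) (𝓝 0) := nhdsWithin_le_nhds
  have h1 := h0.const_mul 2
  rw [mul_zero] at h1
  refine squeeze_zero' (Eventually.of_forall fun _ => dist_nonneg) ?_ h1
  filter_upwards [Ioo_mem_nhdsGT (by norm_num : (0:ℝ) < 1 / 2)] with a ha
  rw [Real.dist_eq]
  exact rho_near ha.1 ha.2.le

/-- the defining function of the root -/
noncomputable def Psi (y a : ℝ) : ℝ := (y + 1 / a) * Real.cot a - 1 / a ^ 2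

lemma Psi_eq {y a : ℝ} (ha : a ≠ 0) (hs : Real.sin a ≠ 0) :
    Psi y a = y * (Real.cos a / Real.sin a) - kap a := by
  unfold Psi kap
  rw [Real.cot_eq_cos_div_sin]
  field_simp
  ring

lemma cot_anti {a b : ℝ} (ha : 0 < a) (hab : a < b) (hb : b < Real.pi) :
    Real.cos b / Real.sin b < Real.cos a / Real.sin a := by
  have hsa : 0 < Real.sin a := Real.sin_pos_of_pos_of_lt_pi ha (hab.trans hb)
  have hsb : 0 < Real.sin b := Real.sin_pos_of_pos_of_lt_pi (ha.trans hab) hb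
  rw [div_lt_div_iff₀ hsb hsa]
  have h := Real.sin_pos_of_pos_of_lt_pi (x := b - a) (by linarith) (by linarith)
  rw [Real.sin_sub] at h
  linarith

lemma Psi_anti {y : ℝ} (hy : 0 ≤ y) : StrictAntiOn (Psi y) (Ioo 0 Real.pi) := by
  intro a ha b hb hab
  have hsa : 0 < Real.sin a := Real.sin_pos_of_pos_of_lt_pi ha.1 ha.2
  have hsb : 0 < Real.sin b := Real.sin_pos_of_pos_of_lt_pi hb.1 hb.2
  rw [Psi_eq ha.1.ne' hsa.ne', Psi_eq hb.1.ne' hsb.ne']
  have h1 := cot_anti ha.1 hab hb.2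
  have h2 := kap_strictMono ha hb hab
  have h3 := mul_le_mul_of_nonneg_left h1.le hy
  linarith

lemma Psi_cont (y : ℝ) : ContinuousOn (Psi y) (Ioo 0 Real.pi) := by
  have h1 : ContinuousOn (fun a => y * (Real.cos a / Real.sin a) - kap a) (Ioo 0 Real.pi) := by
    apply ContinuousOn.sub _ kap_cont
    intro a ha
    have hs : 0 < Real.sin a := Real.sin_pos_of_pos_of_lt_pi ha.1 ha.2
    apply ContinuousAt.continuousWithinAt
    apply ContinuousAt.mul continuousAt_const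
    exact ContinuousAt.div (by fun_prop) (by fun_prop) hs.ne'
  refine h1.congr ?_
  intro a ha
  exact Psi_eq ha.1.ne' (Real.sin_pos_of_pos_of_lt_pi ha.1 ha.2).ne'

lemma exists_low {y : ℝ} (hy : 0 ≤ y) (x : ℝ) : ∃ a ∈ Ioo (0:ℝ) Real.pi, Psi y a < x := by
  have hpi := Real.pi_gt_three
  set δ : ℝ := 1 / (2 * Real.pi * (|x| + 1)) with hδ
  have hx0 := abs_nonneg x
  have hδ0 : 0 < δ := by positivity
  have hδ1 : δ ≤ 1 / 2 := by
    rw [hδ, div_le_div_iff₀ (by positivity) (by norm_num)]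
    nlinarith
  have hmem : Real.pi - δ ∈ Ioo (0:ℝ) Real.pi := ⟨by linarith, by linarith⟩
  refine ⟨Real.pi - δ, hmem, ?_⟩
  have hs : 0 < Real.sin (Real.pi - δ) := Real.sin_pos_of_pos_of_lt_pi hmem.1 hmem.2
  unfold Psi
  rw [Real.cot_eq_cos_div_sin, Real.sin_pi_sub, Real.cos_pi_sub]
  rw [Real.sin_pi_sub] at hs
  have hsle : Real.sin δ ≤ δ := Real.sin_le hδ0.le
  have hcos : 1 / 2 ≤ Real.cos δ := by
    have := Real.one_sub_sq_div_two_le_cos (x := δ)
    nlinarith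
  have hcot : 1 / (2 * δ) ≤ Real.cos δ / Real.sin δ := by
    rw [div_le_div_iff₀ (by positivity) hs]
    nlinarith
  have h1 : 1 / (2 * δ) = Real.pi * (|x| + 1) := by
    rw [hδ]; field_simp
  have hcpos : 0 ≤ Real.cos δ / Real.sin δ := by positivity
  have h2 : 1 / Real.pi ≤ y + 1 / (Real.pi - δ) := by
    have : 1 / Real.pi ≤ 1 / (Real.pi - δ) := by
      apply one_div_le_one_div_of_le hmem.1; linarith
    linarith
  have h3 : (1 / Real.pi) * (Real.pi * (|x| + 1)) ≤ (y + 1 / (Real.pi - δ)) * (Real.cos δ / Real.sin δ) := by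
    rw [← h1]
    apply mul_le_mul h2 hcot (by positivity) (by linarith [show (0:ℝ) < 1 / Real.pi by positivity])
  have h4 : (1 / Real.pi) * (Real.pi * (|x| + 1)) = |x| + 1 := by field_simp
  rw [h4] at h3
  have h5 : 0 < 1 / (Real.pi - δ) ^ 2 := by
    have := hmem.1
    positivity
  have h6 : (y + 1 / (Real.pi - δ)) * (-Real.cos δ / Real.sin δ)
      = -((y + 1 / (Real.pi - δ)) * (Real.cos δ / Real.sin δ)) := by ring
  rw [h6]
  have := neg_abs_le x
  linarith

lemma exists_high {y x : ℝ} (hy : 0 ≤ y) (h : ¬ (y = 0 ∧ -1 / 3 ≤ x)) :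
    ∃ a ∈ Ioo (0:ℝ) Real.pi, x < Psi y a := by
  have hpi := Real.pi_gt_three
  rcases lt_or_eq_of_le hy with hy' | hy'
  · -- y > 0
    set a : ℝ := min (1 / 2) (y / (2 * (|x| + 3))) with ha
    have hx0 := abs_nonneg x
    have ha0 : 0 < a := by rw [ha]; positivity
    have ha1 : a ≤ 1 / 2 := min_le_left _ _
    have ha2 : a ≤ y / (2 * (|x| + 3)) := min_le_right _ _
    have hmem : a ∈ Ioo (0:ℝ) Real.pi := ⟨ha0, by linarith⟩
    refine ⟨a, hmem, ?_⟩
    have hs : 0 < Real.sin a := Real.sin_pos_of_pos_of_lt_pi hmem.1 hmem.2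
    rw [Psi_eq ha0.ne' hs.ne']
    have hk := (abs_le.mp (kap_near ha0 (by linarith))).2
    have hsle : Real.sin a ≤ a := Real.sin_le ha0.le
    have hcos : 1 / 2 ≤ Real.cos a := by
      have := Real.one_sub_sq_div_two_le_cos (x := a)
      nlinarith
    have hcot : 1 / (2 * a) ≤ Real.cos a / Real.sin a := by
      rw [div_le_div_iff₀ (by positivity) hs]
      nlinarith
    have h1 : |x| + 3 ≤ y * (1 / (2 * a)) := by
      rw [mul_one_div, le_div_iff₀ (by positivity)]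
      rw [le_div_iff₀ (by positivity)] at ha2
      linarith
    have h2 : y * (1 / (2 * a)) ≤ y * (Real.cos a / Real.sin a) := by gcongr
    have := le_abs_self x
    linarith
  · -- y = 0
    have hx : x < -1 / 3 := by
      by_contra hcon
      exact h ⟨hy'.symm, not_lt.mp hcon⟩
    have hlt : (1:ℝ) / 3 < -x := by linarith
    have h1 := (kap_tendsto.eventually (gt_mem_nhds hlt)).and (Ioo_mem_nhdsGT (show (0:ℝ) < Real.pi by linarith))
    obtain ⟨a, ha1, ha2⟩ := h1.exists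
    refine ⟨a, ha2, ?_⟩
    have hs : 0 < Real.sin a := Real.sin_pos_of_pos_of_lt_pi ha2.1 ha2.2
    rw [Psi_eq ha2.1.ne' hs.ne', ← hy']
    linarith

theorem root_exists_unique {y x : ℝ} (hy : 0 ≤ y) (h : ¬ (y = 0 ∧ -1 / 3 ≤ x)) :
    ∃! a : ℝ, (0 < a ∧ a < Real.pi) ∧ Psi y a = x := by
  obtain ⟨a1, ha1, h1⟩ := exists_high hy h
  obtain ⟨a2, ha2, h2⟩ := exists_low hy x
  have hanti := Psi_anti hy
  have hlt : a1 < a2 := by
    by_contra hcon
    push Not at hcon
    have := hanti.antitoneOn ha2 ha1 hcon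
    linarith
  have hcont : ContinuousOn (Psi y) (Icc a1 a2) := by
    refine (Psi_cont y).mono ?_
    intro t ht
    exact ⟨lt_of_lt_of_le ha1.1 ht.1, lt_of_le_of_lt ht.2 ha2.2⟩
  obtain ⟨a, ha, hax⟩ := intermediate_value_Icc' hlt.le hcont (⟨h2.le, h1.le⟩ : x ∈ Icc (Psi y a2) (Psi y a1))
  have ham : a ∈ Ioo (0:ℝ) Real.pi := ⟨lt_of_lt_of_le ha1.1 ha.1, lt_of_le_of_lt ha.2 ha2.2⟩
  refine ⟨a, ⟨⟨ham.1, ham.2⟩, hax⟩, ?_⟩
  rintro b ⟨⟨hb0, hb1⟩, hbx⟩
  exact hanti.injOn ⟨hb0, hb1⟩ ham (by rw [hbx, hax])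

end Pool.Agent.Helper797.Bs
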