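import Pool.Agent.Helper797.BsEven

set_option autoImplicit false

open Complex Filter Topology Metric Set

namespace Pool.Agent.Helper797.Bs

noncomputable def kap (a : ℝ) : ℝ := 1 / a ^ 2 - Real.cos a / (a * Real.sin a)

noncomputable def rho (a : ℝ) : ℝ := (a - Real.sin a * Real.cos a) / (a ^ 2 * Real.sin a)

/-- derivative version of the comparison -/
theorem deriv_uineq {g : ℂ → ℂ} (hg : Differentiable ℂ g) (hev : ∀ s, g (-s) = g s) {C M : ℝ}
    (hC : 0 ≤ C) (hgC : ∀ s, ‖g s‖ ≤ C * Real.exp |s.im|) (hM : 0 ≤ M)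
    (hgM : ∀ k : ℤ, k ≠ 0 → ‖g ((k:ℂ) * Real.pi)‖ ≤ M) {a : ℝ}
    (ha0 : 0 < a) (ha1 : a < Real.pi) {H' H0' : ℂ}
    (h1 : HasDerivAt (fun x : ℝ => hfun g x) H' a)
    (h0 : HasDerivAt (fun x : ℝ => hfun Complex.cos x) H0' a) : ‖H'‖ ≤ M * ‖H0'‖ := by
  have t1 := (h1.tendsto_slope).norm
  have t0 := ((h0.tendsto_slope).norm).const_mul M
  refine le_of_tendsto_of_tendsto t1 t0 ?_
  have hev1 : ∀ᶠ x in 𝓝 a, 0 < x ∧ x < Real.pi := by
    have : Ioo (0:ℝ) Real.pi ∈ 𝓝 a := Ioo_mem_nhds ha0 ha1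
    filter_upwards [this] with x hx
    exact hx
  have hev2 := hev1.filter_mono (nhdsWithin_le_nhds (s := {a}ᶜ))
  filter_upwards [hev2, self_mem_nhdsWithin] with x hx hxa
  have hxa' : x ≠ a := hxa
  have h := uineq hg hev hC hgC hM hgM hx.1 hx.2 ha0 ha1 hxa'
  rw [slope_def_module, slope_def_module, norm_smul, norm_smul]
  have hn := norm_nonneg ((x - a)⁻¹ : ℝ)
  calc ‖(x - a)⁻¹‖ * ‖hfun g x - hfun g a‖
      ≤ ‖(x - a)⁻¹‖ * (M * ‖hfun Complex.cos x - hfun Complex.cos a‖) := by gcongr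
    _ = M * (‖(x - a)⁻¹‖ * ‖hfun Complex.cos x - hfun Complex.cos a‖) := by ring

lemma hasDeriv_hfun {g : ℂ → ℂ} {g' : ℂ} {a : ℝ} (hg : HasDerivAt g g' (a:ℂ))
    (hs : Complex.sin (a:ℂ) ≠ 0) :
    HasDerivAt (fun x : ℝ => hfun g x)
      (((g a + a * g') * Complex.sin a - a * g a * Complex.cos a) / Complex.sin a ^ 2) a := by
  have h1 : HasDerivAt (fun z : ℂ => z * g z) (1 * g a + a * g') (a:ℂ) :=
    (hasDerivAt_id (a:ℂ)).mul hg
  have h2 := h1.div (Complex.hasDerivAt_sin (a:ℂ)) hs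
  have h3 := h2.comp_ofReal
  rw [one_mul] at h3
  exact h3

theorem U0_even {F : ℂ → ℂ} (hF : Differentiable ℂ F) (hev : ∀ s, F (-s) = F s) {M : ℝ} (hM : 0 ≤ M)
    (hb : ∀ z, ‖F z‖ ≤ M * Real.exp |z.im|) {a : ℝ} (ha0 : 0 < a) (ha1 : a < Real.pi) :
    ‖deriv (deriv F) 0 + (kap a : ℂ) * F 0‖ ≤ rho a * M := by
  set G : ℂ → ℂ := ev F with hG
  have hGd : Differentiable ℂ G := ev_differentiable hF hev
  have hGF : ∀ z, G (z ^ 2) = F z := fun z => ev_eq hev rfl
  set g : ℂ → ℂ := fun s => G (s ^ 2 - (a:ℂ) ^ 2) with hg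
  have hgd : Differentiable ℂ g := hGd.comp (by fun_prop)
  have hgev : ∀ s, g (-s) = g s := by intro s; simp only [hg, neg_sq]
  have hgC : ∀ s, ‖g s‖ ≤ (M * Real.exp |a|) * Real.exp |s.im| := by
    intro s
    have h1 : g s = F (Complex.sqrt (s ^ 2 - (a:ℂ) ^ 2)) := rfl
    rw [h1]
    refine (hb _).trans ?_
    rw [mul_assoc, ← Real.exp_add]
    apply mul_le_mul_of_nonneg_left _ hM
    apply Real.exp_le_exp.mpr
    have := im_le_of_sub (sq_sqrt (s ^ 2 - (a:ℂ) ^ 2))
    linarith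
  have hgM : ∀ k : ℤ, k ≠ 0 → ‖g ((k:ℂ) * Real.pi)‖ ≤ M := by
    intro k hk
    have h4 : (1:ℝ) ≤ (k:ℝ) ^ 2 := by
      have : (1:ℤ) ≤ k ^ 2 := by
        have := Int.one_le_abs hk
        nlinarith [sq_abs k]
      exact_mod_cast this
    have h5 : a ^ 2 ≤ ((k:ℝ) * Real.pi) ^ 2 := by
      rw [mul_pow]; nlinarith [sq_nonneg Real.pi]
    have h6 : g ((k:ℂ) * Real.pi) = F ((Real.sqrt (((k:ℝ) * Real.pi) ^ 2 - a ^ 2) : ℝ) : ℂ) := by
      simp only [hg, hG]
      apply ev_eq hev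
      rw [← Complex.ofReal_pow, Real.sq_sqrt (by linarith)]
      push_cast; ring
    rw [h6]
    refine (hb _).trans ?_
    rw [Complex.ofReal_im, abs_zero, Real.exp_zero, mul_one]
  -- derivatives
  have hGa : HasDerivAt G (deriv G 0) 0 := (hGd 0).hasDerivAt
  have hga : HasDerivAt g (2 * a * deriv G 0) (a:ℂ) := by
    have h1 : HasDerivAt (fun s : ℂ => s ^ 2 - (a:ℂ) ^ 2) (2 * (a:ℂ)) (a:ℂ) := by
      have := ((hasDerivAt_id (a:ℂ)).pow 2).sub_const ((a:ℂ) ^ 2)
      simpa using this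
    have h2 : HasDerivAt G (deriv G 0) ((a:ℂ) ^ 2 - (a:ℂ) ^ 2) := by rw [sub_self]; exact hGa
    have h3 := h2.comp (a:ℂ) h1
    rw [mul_comm] at h3
    exact h3
  have hga0 : g a = F 0 := by
    simp only [hg]
    rw [sub_self, ← hGF 0]; norm_num
  have hF2 : deriv (deriv F) 0 = 2 * deriv G 0 := by
    have hdF : deriv F = fun z => 2 * z * deriv G (z ^ 2) := by
      ext z
      have h1 : HasDerivAt (fun s : ℂ => s ^ 2) (2 * z) z := by
        simpa using hasDerivAt_pow 2 z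
      have h2 : HasDerivAt G (deriv G (z ^ 2)) (z ^ 2) := (hGd _).hasDerivAt
      have h3 := h2.comp z h1
      have h4 : G ∘ (fun s : ℂ => s ^ 2) = F := by ext s; exact hGF s
      rw [h4] at h3
      rw [h3.deriv]; ring
    rw [hdF]
    have hGd2 : Differentiable ℂ (deriv G) := hGd.deriv
    have h1 : HasDerivAt (fun z : ℂ => 2 * z) 2 (0:ℂ) := by
      simpa using (hasDerivAt_id (0:ℂ)).const_mul 2
    have h2 : DifferentiableAt ℂ (fun z : ℂ => deriv G (z ^ 2)) 0 :=
      (hGd2.comp (by fun_prop)) 0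
    have h3 := h1.mul h2.hasDerivAt
    have h4 := h3.deriv
    have e : ((fun z : ℂ => 2 * z) * fun z => deriv G (z ^ 2)) = fun z => 2 * z * deriv G (z ^ 2) := rfl
    rw [e] at h4
    rw [h4]; norm_num
  have hs := sin_ne ha0 ha1
  have hsr : 0 < Real.sin a := Real.sin_pos_of_pos_of_lt_pi ha0 ha1
  have hH := hasDeriv_hfun hga hs
  have hH0 := hasDeriv_hfun (Complex.hasDerivAt_cos (a:ℂ)) hs
  have hmain := deriv_uineq hgd hgev (by positivity) hgC hM hgM ha0 ha1 hH hH0
  rw [hga0] at hmain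
  -- rewrite both sides
  have hac : (a:ℂ) ≠ 0 := by exact_mod_cast ha0.ne'
  have e1 : deriv (deriv F) 0 + (kap a : ℂ) * F 0
      = ((Complex.sin a) / (a:ℂ) ^ 2) * (((F 0 + a * (2 * a * deriv G 0)) * Complex.sin a
        - a * F 0 * Complex.cos a) / Complex.sin a ^ 2) := by
    rw [hF2]
    unfold kap
    push_cast
    field_simp
    ring
  have e2 : ‖((Complex.cos a + a * -Complex.sin a) * Complex.sin a
      - a * Complex.cos a * Complex.cos a) / Complex.sin a ^ 2‖
      = (a - Real.sin a * Real.cos a) / Real.sin a ^ 2 := by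
    have : ((Complex.cos a + a * -Complex.sin a) * Complex.sin a
      - a * Complex.cos a * Complex.cos a) / Complex.sin a ^ 2
      = ((-((a - Real.sin a * Real.cos a) / Real.sin a ^ 2) : ℝ) : ℂ) := by
      push_cast
      rw [← neg_div]
      congr 1
      have := Complex.sin_sq_add_cos_sq (a:ℂ)
      linear_combination (-(a:ℂ)) * this
    rw [this, Complex.norm_real, Real.norm_eq_abs, abs_neg, abs_of_nonneg]
    apply div_nonneg _ (sq_nonneg _)
    have h1 : Real.sin a * Real.cos a ≤ Real.sin a := by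
      nlinarith [Real.cos_le_one a]
    have h2 : Real.sin a ≤ a := Real.sin_le ha0.le
    linarith
  have e3 : ‖(Complex.sin a) / (a:ℂ) ^ 2‖ = Real.sin a / a ^ 2 := by
    have : (Complex.sin a) / (a:ℂ) ^ 2 = ((Real.sin a / a ^ 2 : ℝ) : ℂ) := by push_cast; rfl
    rw [this, Complex.norm_real, Real.norm_eq_abs, abs_of_pos (by positivity)]
  rw [e2] at hmain
  rw [e1, norm_mul, e3]
  calc Real.sin a / a ^ 2 * ‖((F 0 + a * (2 * a * deriv G 0)) * Complex.sin a
        - a * F 0 * Complex.cos a) / Complex.sin a ^ 2‖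
      ≤ Real.sin a / a ^ 2 * (M * ((a - Real.sin a * Real.cos a) / Real.sin a ^ 2)) := by
        gcongr
    _ = rho a * M := by unfold rho; field_simp

theorem U0 {F : ℂ → ℂ} (hF : Differentiable ℂ F) {M : ℝ} (hM : 0 ≤ M)
    (hb : ∀ z, ‖F z‖ ≤ M * Real.exp |z.im|) {a : ℝ} (ha0 : 0 < a) (ha1 : a < Real.pi) :
    ‖deriv (deriv F) 0 + (kap a : ℂ) * F 0‖ ≤ rho a * M := by
  set E : ℂ → ℂ := fun z => (F z + F (-z)) / 2 with hE
  have hFn : Differentiable ℂ (fun z => F (-z)) := hF.comp differentiable_neg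
  have hEd : Differentiable ℂ E := (hF.add hFn).div_const 2
  have hEev : ∀ s, E (-s) = E s := by intro s; simp only [hE, neg_neg]; ring
  have hEb : ∀ z, ‖E z‖ ≤ M * Real.exp |z.im| := by
    intro z
    simp only [hE]
    rw [norm_div]
    have h1 := norm_add_le (F z) (F (-z))
    have h2 := hb z
    have h3 := hb (-z)
    rw [Complex.neg_im, abs_neg] at h3
    have h4 : ‖(2:ℂ)‖ = 2 := by simp
    rw [h4, div_le_iff₀ (by norm_num)]
    linarith
  have h := U0_even hEd hEev hM hEb ha0 ha1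
  have hE0 : E 0 = F 0 := by simp only [hE, neg_zero]; ring
  have hE2 : deriv (deriv E) 0 = deriv (deriv F) 0 := by
    have h1 : deriv E = fun z => (deriv F z - deriv F (-z)) / 2 := by
      ext z
      have d1 : HasDerivAt F (deriv F z) z := (hF z).hasDerivAt
      have d2 : HasDerivAt (fun z => F (-z)) (-deriv F (-z)) z := by
        have d3 : HasDerivAt F (deriv F (-z)) (-z) := (hF (-z)).hasDerivAt
        have h := HasDerivAt.comp z d3 (hasDerivAt_neg z)
        rw [mul_neg_one] at h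
        exact h
      have := (d1.add d2).div_const 2
      have e := this.deriv
      have e2 : (fun z => (F + fun z => F (-z)) z / 2) = E := by ext z; rfl
      rw [e2] at e
      rw [e]; ring
    rw [h1]
    have hF' : Differentiable ℂ (deriv F) := hF.deriv
    have d1 : HasDerivAt (deriv F) (deriv (deriv F) 0) 0 := (hF' 0).hasDerivAt
    have d2 : HasDerivAt (fun z => deriv F (-z)) (-deriv (deriv F) 0) 0 := by
      have d3 : HasDerivAt (deriv F) (deriv (deriv F) 0) (-0) := by rw [neg_zero]; exact d1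
      have h := HasDerivAt.comp (0:ℂ) d3 (hasDerivAt_neg 0)
      rw [mul_neg_one] at h
      exact h
    have := (d1.sub d2).div_const 2
    have e := this.deriv
    have e2 : (fun z => (deriv F - fun z => deriv F (-z)) z / 2)
        = fun z => (deriv F z - deriv F (-z)) / 2 := by ext z; rfl
    rw [e2] at e
    rw [e]; ring
  rw [hE0, hE2] at h
  exact h

end Pool.Agent.Helper797.Bs
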