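import Pool.Agent.Helper797.BsCircle

set_option autoImplicit false

open Complex Filter Topology Metric Set

namespace Pool.Agent.Helper797.Bs

lemma circle_bound {g : ℂ → ℂ} {C : ℝ} (hC : 0 ≤ C) (hgC : ∀ s, ‖g s‖ ≤ C * Real.exp |s.im|)
    {z w : ℝ} (hz0 : 0 < z) (hz1 : z < Real.pi) (hw0 : 0 < w) (hw1 : w < Real.pi)
    {N : ℕ} (hN : 1 ≤ N) :
    ‖∮ s in C(0, (N + 1 / 2) * Real.pi), qq g z w s‖ ≤ 2 * Real.pi * (C * (9 / N)) := by
  have hpi := Real.pi_pos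
  have hpi3 := Real.pi_gt_three
  have hN' : (1:ℝ) ≤ N := by exact_mod_cast hN
  have hNpos : (0:ℝ) < N := by linarith
  set R : ℝ := (N + 1 / 2) * Real.pi with hR
  have hRpos : 0 < R := by positivity
  have hR32 : 3 / 2 * Real.pi ≤ R := by rw [hR]; nlinarith
  have hRN : 3 * N ≤ R := by rw [hR]; nlinarith
  have hRsq : 5 / 9 * R ^ 2 ≤ R ^ 2 - Real.pi ^ 2 := by nlinarith
  have hkey : ∀ s ∈ sphere (0:ℂ) R, ‖qq g z w s‖ ≤ C * (27 / R ^ 2) := by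
    intro s hs
    rw [mem_sphere_zero_iff_norm] at hs
    have h1 := sin_lower N s hs
    have h2 := hgC s
    have hexp := Real.exp_pos |s.im|
    have hd1 : ∀ t : ℝ, 0 < t → t < Real.pi → 5 / 9 * R ^ 2 ≤ ‖s ^ 2 - (t:ℂ) ^ 2‖ := by
      intro t h0 h3
      have h4 := norm_sub_norm_le (s ^ 2) ((t:ℂ) ^ 2)
      rw [norm_pow, norm_pow, hs, Complex.norm_real, Real.norm_eq_abs, abs_of_pos h0] at h4
      have h5 : t ^ 2 ≤ Real.pi ^ 2 := by nlinarith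
      linarith
    have h3 := hd1 z hz0 hz1
    have h4 := hd1 w hw0 hw1
    have hR2 : 0 < 5 / 9 * R ^ 2 := by positivity
    unfold qq
    rw [norm_div, norm_mul, norm_mul, norm_mul, norm_pow, hs]
    have hden : 0 < ‖Complex.sin s‖ * (‖s ^ 2 - (z:ℂ) ^ 2‖ * ‖s ^ 2 - (w:ℂ) ^ 2‖) := by
      apply mul_pos
      · linarith
      · exact mul_pos (by linarith) (by linarith)
    rw [div_le_iff₀ hden]
    have h5 : Real.exp |s.im| / 8 * ((5 / 9 * R ^ 2) * (5 / 9 * R ^ 2))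
        ≤ ‖Complex.sin s‖ * (‖s ^ 2 - (z:ℂ) ^ 2‖ * ‖s ^ 2 - (w:ℂ) ^ 2‖) := by
      gcongr
      linarith
    have h6 : C * (27 / R ^ 2) * (Real.exp |s.im| / 8 * ((5 / 9 * R ^ 2) * (5 / 9 * R ^ 2)))
        ≤ C * (27 / R ^ 2) *
          (‖Complex.sin s‖ * (‖s ^ 2 - (z:ℂ) ^ 2‖ * ‖s ^ 2 - (w:ℂ) ^ 2‖)) := by
      gcongr
    have h7 : C * (27 / R ^ 2) * (Real.exp |s.im| / 8 * ((5 / 9 * R ^ 2) * (5 / 9 * R ^ 2)))
        = (27 * 25 / 648) * (R ^ 2 * (C * Real.exp |s.im|)) := by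
      field_simp
      ring
    have h8 : 0 ≤ R ^ 2 * (C * Real.exp |s.im|) := by positivity
    calc R ^ 2 * ‖g s‖ ≤ R ^ 2 * (C * Real.exp |s.im|) := by gcongr
      _ ≤ (27 * 25 / 648) * (R ^ 2 * (C * Real.exp |s.im|)) := by linarith
      _ ≤ _ := by rw [← h7]; exact h6
  have h := circleIntegral.norm_integral_le_of_norm_le_const hRpos.le hkey
  refine h.trans ?_
  have e : 2 * Real.pi * R * (C * (27 / R ^ 2)) = 2 * Real.pi * (C * (27 / R)) := by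
    field_simp
  rw [e]
  have : 27 / R ≤ 9 / N := by
    rw [div_le_div_iff₀ hRpos hNpos]
    linarith
  gcongr

theorem uineq {g : ℂ → ℂ} (hg : Differentiable ℂ g) (hev : ∀ s, g (-s) = g s) {C M : ℝ}
    (hC : 0 ≤ C) (hgC : ∀ s, ‖g s‖ ≤ C * Real.exp |s.im|) (hM : 0 ≤ M)
    (hgM : ∀ k : ℤ, k ≠ 0 → ‖g ((k:ℂ) * Real.pi)‖ ≤ M) {z w : ℝ}
    (hz0 : 0 < z) (hz1 : z < Real.pi) (hw0 : 0 < w) (hw1 : w < Real.pi) (hzw : z ≠ w) :
    ‖hfun g z - hfun g w‖ ≤ M * ‖hfun Complex.cos z - hfun Complex.cos w‖ := by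
  have hpi := Real.pi_pos
  have hne2 : (z:ℂ) ^ 2 - (w:ℂ) ^ 2 ≠ 0 := by
    intro h
    have h2 : (z ^ 2 - w ^ 2 : ℝ) = 0 := by exact_mod_cast h
    apply hzw
    have h3 : (z - w) * (z + w) = 0 := by linear_combination h2
    rcases mul_eq_zero.mp h3 with h4 | h4
    · linarith
    · linarith
  set D : ℂ := (hfun g z - hfun g w) / ((z:ℂ) ^ 2 - (w:ℂ) ^ 2) with hD
  set D0 : ℂ := (hfun Complex.cos z - hfun Complex.cos w) / ((z:ℂ) ^ 2 - (w:ℂ) ^ 2) with hD0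
  have gen : ∀ (g : ℂ → ℂ) (C : ℝ), Differentiable ℂ g → (∀ s, g (-s) = g s) → 0 ≤ C →
      (∀ s, ‖g s‖ ≤ C * Real.exp |s.im|) → ∀ N : ℕ, 1 ≤ N →
      ‖SN g z w N + (hfun g z - hfun g w) / ((z:ℂ) ^ 2 - (w:ℂ) ^ 2)‖ ≤ C * (9 / N) := by
    intro g C hg hev hC hgC N hN
    have h1 := circle_bound hC hgC hz0 hz1 hw0 hw1 hN
    rw [circle_eval hg hev hz0 hz1 hw0 hw1 hzw hN, norm_mul] at h1
    have h2 : ‖(2 * Real.pi * I : ℂ)‖ = 2 * Real.pi := by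
      rw [norm_mul, norm_mul, Complex.norm_I, Complex.norm_real, Real.norm_eq_abs, abs_of_pos hpi]
      simp
    rw [h2] at h1
    exact le_of_mul_le_mul_left h1 (by positivity)
  have hcosC : ∀ s, ‖Complex.cos s‖ ≤ 1 * Real.exp |s.im| := by
    intro s; rw [one_mul]; exact norm_cos_le s
  -- comparison of the sums
  have hterm : ∀ k : ℤ, 0 ≤ ((k:ℝ) * Real.pi) ^ 2 /
      ((((k:ℝ) * Real.pi) ^ 2 - z ^ 2) * (((k:ℝ) * Real.pi) ^ 2 - w ^ 2)) := by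
    intro k
    by_cases hk : k = 0
    · rw [hk]; simp
    · have h4 : (1:ℝ) ≤ (k:ℝ) ^ 2 := by
        have : (1:ℤ) ≤ k ^ 2 := by
          have := Int.one_le_abs hk
          nlinarith [sq_abs k]
        exact_mod_cast this
      have h5 : Real.pi ^ 2 ≤ ((k:ℝ) * Real.pi) ^ 2 := by
        rw [mul_pow]; nlinarith [sq_nonneg Real.pi]
      have h6 : z ^ 2 < Real.pi ^ 2 := by nlinarith
      have h7 : w ^ 2 < Real.pi ^ 2 := by nlinarith
      apply div_nonneg (sq_nonneg _)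
      apply mul_nonneg <;> linarith
  have hcosSN : ∀ N : ℕ, SN Complex.cos z w N = ((∑ k ∈ Finset.Icc (-(N:ℤ)) N,
      ((k:ℝ) * Real.pi) ^ 2 /
      ((((k:ℝ) * Real.pi) ^ 2 - z ^ 2) * (((k:ℝ) * Real.pi) ^ 2 - w ^ 2)) : ℝ) : ℂ) := by
    intro N
    unfold SN
    push_cast
    apply Finset.sum_congr rfl
    intro k _
    have hc : Complex.cos ((k:ℂ) * Real.pi) ≠ 0 := by
      intro h
      have := norm_cos_int k
      rw [h, norm_zero] at this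
      norm_num at this
    have h1 := int_pi_ne hz0 hz1 k
    have h2 := int_pi_ne hw0 hw1 k
    field_simp
  have hSNg : ∀ N : ℕ, ‖SN g z w N‖ ≤ M * ‖SN Complex.cos z w N‖ := by
    intro N
    rw [hcosSN, Complex.norm_real, Real.norm_eq_abs, abs_of_nonneg (Finset.sum_nonneg fun k _ => hterm k),
      Finset.mul_sum]
    unfold SN
    refine (norm_sum_le _ _).trans ?_
    apply Finset.sum_le_sum
    intro k _
    rw [norm_div, norm_mul, norm_mul, norm_cos_int, one_mul]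
    have e1 : ‖((k:ℂ) * Real.pi) ^ 2‖ = ((k:ℝ) * Real.pi) ^ 2 := by
      have : ((k:ℂ) * Real.pi) ^ 2 = ((((k:ℝ) * Real.pi) ^ 2 : ℝ) : ℂ) := by push_cast; ring
      rw [this, Complex.norm_real, Real.norm_eq_abs, abs_of_nonneg (sq_nonneg _)]
    have e2 : ‖(((k:ℂ) * Real.pi) ^ 2 - (z:ℂ) ^ 2) * (((k:ℂ) * Real.pi) ^ 2 - (w:ℂ) ^ 2)‖
        = |(((k:ℝ) * Real.pi) ^ 2 - z ^ 2) * (((k:ℝ) * Real.pi) ^ 2 - w ^ 2)| := by
      have : (((k:ℂ) * Real.pi) ^ 2 - (z:ℂ) ^ 2) * (((k:ℂ) * Real.pi) ^ 2 - (w:ℂ) ^ 2)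
          = (((((k:ℝ) * Real.pi) ^ 2 - z ^ 2) * (((k:ℝ) * Real.pi) ^ 2 - w ^ 2) : ℝ) : ℂ) := by
        push_cast; ring
      rw [this, Complex.norm_real, Real.norm_eq_abs]
    rw [e1, e2]
    by_cases hk : k = 0
    · rw [hk]; simp
    · have h3 := hgM k hk
      have h4 := hterm k
      have h5 : ((k:ℝ) * Real.pi) ^ 2 * ‖g ((k:ℂ) * Real.pi)‖ /
          |(((k:ℝ) * Real.pi) ^ 2 - z ^ 2) * (((k:ℝ) * Real.pi) ^ 2 - w ^ 2)|
          = ‖g ((k:ℂ) * Real.pi)‖ * |((k:ℝ) * Real.pi) ^ 2 /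
            ((((k:ℝ) * Real.pi) ^ 2 - z ^ 2) * (((k:ℝ) * Real.pi) ^ 2 - w ^ 2))| := by
        rw [abs_div, abs_of_nonneg (sq_nonneg ((k:ℝ) * Real.pi))]; ring
      rw [h5, abs_of_nonneg h4]
      exact mul_le_mul_of_nonneg_right h3 h4
  -- the inequality with an error
  have hfin : ∀ N : ℕ, 1 ≤ N → ‖D‖ ≤ M * ‖D0‖ + (M + C) * (9 / N) := by
    intro N hN
    have h1 := gen g C hg hev hC hgC N hN
    have h2 := gen Complex.cos 1 Complex.differentiable_cos Complex.cos_neg zero_le_one hcosC N hN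
    rw [← hD] at h1
    rw [← hD0, one_mul] at h2
    have h3 : ‖D‖ ≤ ‖SN g z w N + D‖ + ‖SN g z w N‖ := by
      have : D = (SN g z w N + D) - SN g z w N := by ring
      calc ‖D‖ = ‖(SN g z w N + D) - SN g z w N‖ := by rw [← this]
        _ ≤ _ := norm_sub_le _ _
    have h4 : ‖SN Complex.cos z w N‖ ≤ ‖SN Complex.cos z w N + D0‖ + ‖D0‖ := by
      have : SN Complex.cos z w N = (SN Complex.cos z w N + D0) - D0 := by ring
      calc ‖SN Complex.cos z w N‖ = ‖(SN Complex.cos z w N + D0) - D0‖ := by rw [← this]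
        _ ≤ _ := norm_sub_le _ _
    have h5 := hSNg N
    have h6 : M * ‖SN Complex.cos z w N‖ ≤ M * (9 / N + ‖D0‖) := by
      gcongr
      linarith
    linarith
  have hlim : ‖D‖ ≤ M * ‖D0‖ := by
    have ht : Tendsto (fun N : ℕ => M * ‖D0‖ + (M + C) * (9 / (N:ℝ))) atTop
        (𝓝 (M * ‖D0‖ + (M + C) * 0)) := by
      apply Tendsto.const_add
      apply Tendsto.const_mul
      exact tendsto_const_div_atTop_nhds_zero_nat 9
    rw [mul_zero, add_zero] at ht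
    refine ge_of_tendsto ht ?_
    filter_upwards [eventually_ge_atTop 1] with N hN
    exact hfin N hN
  have hpos : 0 < ‖(z:ℂ) ^ 2 - (w:ℂ) ^ 2‖ := norm_pos_iff.mpr hne2
  rw [hD, hD0, norm_div, norm_div, mul_div_assoc', div_le_div_iff_of_pos_right hpos] at hlim
  exact hlim

end Pool.Agent.Helper797.Bs
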