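import Pool.Agent.Helper797.KakeyaSeg

set_option autoImplicit false

open MeasureTheory Set

namespace Pool.Agent.Helper797.Kakeya

/-- half width (rescaled) of the spikes of the star, as a function of the radius -/
noncomputable def BB (r : ℝ) : ℝ :=
  (809 / 100000) * max 0 ((5333 / 6250) - r) +
  (109 / 6250) * max 0 ((78757 / 100000) - r) +
  (3403 / 100000) * max 0 ((75301 / 100000) - r) +
  (3063 / 100000) * max 0 ((13437 / 25000) - r) +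
  (997 / 100000) * max 0 ((25509 / 50000) - r) +
  (9 / 1000) * max 0 ((48113 / 100000) - r) +
  (649 / 50000) * max 0 ((22729 / 50000) - r) +
  (69 / 5000) * max 0 ((40921 / 100000) - r) +
  (1323 / 100000) * max 0 ((18533 / 50000) - r) +
  (41 / 3125) * max 0 ((16593 / 50000) - r) +
  (1313 / 100000) * max 0 ((14453 / 50000) - r) +
  (1179 / 100000) * max 0 ((3149 / 12500) - r) +
  (273 / 25000) * max 0 ((429 / 2000) - r) +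
  (1153 / 100000) * max 0 ((18027 / 100000) - r)

lemma hinge_facts (r : ℝ) :
    (0 ≤ max 0 ((5333 / 6250) - r) ∧ (5333 / 6250) - r ≤ max 0 ((5333 / 6250) - r)) ∧
    (0 ≤ max 0 ((78757 / 100000) - r) ∧ (78757 / 100000) - r ≤ max 0 ((78757 / 100000) - r)) ∧
    (0 ≤ max 0 ((75301 / 100000) - r) ∧ (75301 / 100000) - r ≤ max 0 ((75301 / 100000) - r)) ∧
    (0 ≤ max 0 ((13437 / 25000) - r) ∧ (13437 / 25000) - r ≤ max 0 ((13437 / 25000) - r)) ∧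
    (0 ≤ max 0 ((25509 / 50000) - r) ∧ (25509 / 50000) - r ≤ max 0 ((25509 / 50000) - r)) ∧
    (0 ≤ max 0 ((48113 / 100000) - r) ∧ (48113 / 100000) - r ≤ max 0 ((48113 / 100000) - r)) ∧
    (0 ≤ max 0 ((22729 / 50000) - r) ∧ (22729 / 50000) - r ≤ max 0 ((22729 / 50000) - r)) ∧
    (0 ≤ max 0 ((40921 / 100000) - r) ∧ (40921 / 100000) - r ≤ max 0 ((40921 / 100000) - r)) ∧
    (0 ≤ max 0 ((18533 / 50000) - r) ∧ (18533 / 50000) - r ≤ max 0 ((18533 / 50000) - r)) ∧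
    (0 ≤ max 0 ((16593 / 50000) - r) ∧ (16593 / 50000) - r ≤ max 0 ((16593 / 50000) - r)) ∧
    (0 ≤ max 0 ((14453 / 50000) - r) ∧ (14453 / 50000) - r ≤ max 0 ((14453 / 50000) - r)) ∧
    (0 ≤ max 0 ((3149 / 12500) - r) ∧ (3149 / 12500) - r ≤ max 0 ((3149 / 12500) - r)) ∧
    (0 ≤ max 0 ((429 / 2000) - r) ∧ (429 / 2000) - r ≤ max 0 ((429 / 2000) - r)) ∧
    (0 ≤ max 0 ((18027 / 100000) - r) ∧ (18027 / 100000) - r ≤ max 0 ((18027 / 100000) - r)) :=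
  ⟨⟨le_max_left _ _, le_max_right _ _⟩,
    ⟨le_max_left _ _, le_max_right _ _⟩,
    ⟨le_max_left _ _, le_max_right _ _⟩,
    ⟨le_max_left _ _, le_max_right _ _⟩,
    ⟨le_max_left _ _, le_max_right _ _⟩,
    ⟨le_max_left _ _, le_max_right _ _⟩,
    ⟨le_max_left _ _, le_max_right _ _⟩,
    ⟨le_max_left _ _, le_max_right _ _⟩,
    ⟨le_max_left _ _, le_max_right _ _⟩,
    ⟨le_max_left _ _, le_max_right _ _⟩,
    ⟨le_max_left _ _, le_max_right _ _⟩,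
    ⟨le_max_left _ _, le_max_right _ _⟩,
    ⟨le_max_left _ _, le_max_right _ _⟩,
    ⟨le_max_left _ _, le_max_right _ _⟩⟩

lemma BB_nonneg (r : ℝ) : 0 ≤ BB r := by
  unfold BB; positivity

lemma BB_antitone : Antitone BB := by
  intro x y hxy
  have h : ∀ c : ℝ, max 0 (c - y) ≤ max 0 (c - x) := fun c => max_le_max le_rfl (by linarith)
  unfold BB
  have h0 := h (5333 / 6250)
  have h1 := h (78757 / 100000)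
  have h2 := h (75301 / 100000)
  have h3 := h (13437 / 25000)
  have h4 := h (25509 / 50000)
  have h5 := h (48113 / 100000)
  have h6 := h (22729 / 50000)
  have h7 := h (40921 / 100000)
  have h8 := h (18533 / 50000)
  have h9 := h (16593 / 50000)
  have h10 := h (14453 / 50000)
  have h11 := h (3149 / 12500)
  have h12 := h (429 / 2000)
  have h13 := h (18027 / 100000)
  linarith

lemma BB_continuous : Continuous BB := by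
  unfold BB; fun_prop

lemma line_1 (r : ℝ) : (4314397 / 625000000) - (809 / 100000) * r ≤ BB r := by
  obtain ⟨⟨p0, q0⟩, ⟨p1, q1⟩, ⟨p2, q2⟩, ⟨p3, q3⟩, ⟨p4, q4⟩, ⟨p5, q5⟩, ⟨p6, q6⟩, ⟨p7, q7⟩, ⟨p8, q8⟩, ⟨p9, q9⟩, ⟨p10, q10⟩, ⟨p11, q11⟩, ⟨p12, q12⟩, ⟨p13, q13⟩⟩ := hinge_facts r
  unfold BB; linarith

lemma line_2 (r : ℝ) : (1289891 / 62500000) - (2553 / 100000) * r ≤ BB r := by
  obtain ⟨⟨p0, q0⟩, ⟨p1, q1⟩, ⟨p2, q2⟩, ⟨p3, q3⟩, ⟨p4, q4⟩, ⟨p5, q5⟩, ⟨p6, q6⟩, ⟨p7, q7⟩, ⟨p8, q8⟩, ⟨p9, q9⟩, ⟨p10, q10⟩, ⟨p11, q11⟩, ⟨p12, q12⟩, ⟨p13, q13⟩⟩ := hinge_facts r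
  unfold BB; linarith

lemma line_3 (r : ℝ) : (462631863 / 10000000000) - (1489 / 25000) * r ≤ BB r := by
  obtain ⟨⟨p0, q0⟩, ⟨p1, q1⟩, ⟨p2, q2⟩, ⟨p3, q3⟩, ⟨p4, q4⟩, ⟨p5, q5⟩, ⟨p6, q6⟩, ⟨p7, q7⟩, ⟨p8, q8⟩, ⟨p9, q9⟩, ⟨p10, q10⟩, ⟨p11, q11⟩, ⟨p12, q12⟩, ⟨p13, q13⟩⟩ := hinge_facts r
  unfold BB; linarith

lemma line_4 (r : ℝ) : (627261987 / 10000000000) - (9019 / 100000) * r ≤ BB r := by
  obtain ⟨⟨p0, q0⟩, ⟨p1, q1⟩, ⟨p2, q2⟩, ⟨p3, q3⟩, ⟨p4, q4⟩, ⟨p5, q5⟩, ⟨p6, q6⟩, ⟨p7, q7⟩, ⟨p8, q8⟩, ⟨p9, q9⟩, ⟨p10, q10⟩, ⟨p11, q11⟩, ⟨p12, q12⟩, ⟨p13, q13⟩⟩ := hinge_facts r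
  unfold BB; linarith

lemma line_5 (r : ℝ) : (678126933 / 10000000000) - (313 / 3125) * r ≤ BB r := by
  obtain ⟨⟨p0, q0⟩, ⟨p1, q1⟩, ⟨p2, q2⟩, ⟨p3, q3⟩, ⟨p4, q4⟩, ⟨p5, q5⟩, ⟨p6, q6⟩, ⟨p7, q7⟩, ⟨p8, q8⟩, ⟨p9, q9⟩, ⟨p10, q10⟩, ⟨p11, q11⟩, ⟨p12, q12⟩, ⟨p13, q13⟩⟩ := hinge_facts r
  unfold BB; linarith

lemma line_6 (r : ℝ) : (721428633 / 10000000000) - (2729 / 25000) * r ≤ BB r := by
  obtain ⟨⟨p0, q0⟩, ⟨p1, q1⟩, ⟨p2, q2⟩, ⟨p3, q3⟩, ⟨p4, q4⟩, ⟨p5, q5⟩, ⟨p6, q6⟩, ⟨p7, q7⟩, ⟨p8, q8⟩, ⟨p9, q9⟩, ⟨p10, q10⟩, ⟨p11, q11⟩, ⟨p12, q12⟩, ⟨p13, q13⟩⟩ := hinge_facts r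
  unfold BB; linarith

lemma line_7 (r : ℝ) : (780433117 / 10000000000) - (6107 / 50000) * r ≤ BB r := by
  obtain ⟨⟨p0, q0⟩, ⟨p1, q1⟩, ⟨p2, q2⟩, ⟨p3, q3⟩, ⟨p4, q4⟩, ⟨p5, q5⟩, ⟨p6, q6⟩, ⟨p7, q7⟩, ⟨p8, q8⟩, ⟨p9, q9⟩, ⟨p10, q10⟩, ⟨p11, q11⟩, ⟨p12, q12⟩, ⟨p13, q13⟩⟩ := hinge_facts r
  unfold BB; linarith

lemma line_8 (r : ℝ) : (836904097 / 10000000000) - (6797 / 50000) * r ≤ BB r := by
  obtain ⟨⟨p0, q0⟩, ⟨p1, q1⟩, ⟨p2, q2⟩, ⟨p3, q3⟩, ⟨p4, q4⟩, ⟨p5, q5⟩, ⟨p6, q6⟩, ⟨p7, q7⟩, ⟨p8, q8⟩, ⟨p9, q9⟩, ⟨p10, q10⟩, ⟨p11, q11⟩, ⟨p12, q12⟩, ⟨p13, q13⟩⟩ := hinge_facts r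
  unfold BB; linarith

lemma line_9 (r : ℝ) : (177188483 / 2000000000) - (14917 / 100000) * r ≤ BB r := by
  obtain ⟨⟨p0, q0⟩, ⟨p1, q1⟩, ⟨p2, q2⟩, ⟨p3, q3⟩, ⟨p4, q4⟩, ⟨p5, q5⟩, ⟨p6, q6⟩, ⟨p7, q7⟩, ⟨p8, q8⟩, ⟨p9, q9⟩, ⟨p10, q10⟩, ⟨p11, q11⟩, ⟨p12, q12⟩, ⟨p13, q13⟩⟩ := hinge_facts r
  unfold BB; linarith

lemma line_10 (r : ℝ) : (929482447 / 10000000000) - (16229 / 100000) * r ≤ BB r := by
  obtain ⟨⟨p0, q0⟩, ⟨p1, q1⟩, ⟨p2, q2⟩, ⟨p3, q3⟩, ⟨p4, q4⟩, ⟨p5, q5⟩, ⟨p6, q6⟩, ⟨p7, q7⟩, ⟨p8, q8⟩, ⟨p9, q9⟩, ⟨p10, q10⟩, ⟨p11, q11⟩, ⟨p12, q12⟩, ⟨p13, q13⟩⟩ := hinge_facts r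
  unfold BB; linarith

lemma line_11 (r : ℝ) : (38697441 / 400000000) - (8771 / 50000) * r ≤ BB r := by
  obtain ⟨⟨p0, q0⟩, ⟨p1, q1⟩, ⟨p2, q2⟩, ⟨p3, q3⟩, ⟨p4, q4⟩, ⟨p5, q5⟩, ⟨p6, q6⟩, ⟨p7, q7⟩, ⟨p8, q8⟩, ⟨p9, q9⟩, ⟨p10, q10⟩, ⟨p11, q11⟩, ⟨p12, q12⟩, ⟨p13, q13⟩⟩ := hinge_facts r
  unfold BB; linarith

lemma line_12 (r : ℝ) : (997137393 / 10000000000) - (18721 / 100000) * r ≤ BB r := by
  obtain ⟨⟨p0, q0⟩, ⟨p1, q1⟩, ⟨p2, q2⟩, ⟨p3, q3⟩, ⟨p4, q4⟩, ⟨p5, q5⟩, ⟨p6, q6⟩, ⟨p7, q7⟩, ⟨p8, q8⟩, ⟨p9, q9⟩, ⟨p10, q10⟩, ⟨p11, q11⟩, ⟨p12, q12⟩, ⟨p13, q13⟩⟩ := hinge_facts r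
  unfold BB; linarith

lemma line_13 (r : ℝ) : (1020560793 / 10000000000) - (19813 / 100000) * r ≤ BB r := by
  obtain ⟨⟨p0, q0⟩, ⟨p1, q1⟩, ⟨p2, q2⟩, ⟨p3, q3⟩, ⟨p4, q4⟩, ⟨p5, q5⟩, ⟨p6, q6⟩, ⟨p7, q7⟩, ⟨p8, q8⟩, ⟨p9, q9⟩, ⟨p10, q10⟩, ⟨p11, q11⟩, ⟨p12, q12⟩, ⟨p13, q13⟩⟩ := hinge_facts r
  unfold BB; linarith

lemma line_14 (r : ℝ) : (260336481 / 2500000000) - (10483 / 50000) * r ≤ BB r := by
  obtain ⟨⟨p0, q0⟩, ⟨p1, q1⟩, ⟨p2, q2⟩, ⟨p3, q3⟩, ⟨p4, q4⟩, ⟨p5, q5⟩, ⟨p6, q6⟩, ⟨p7, q7⟩, ⟨p8, q8⟩, ⟨p9, q9⟩, ⟨p10, q10⟩, ⟨p11, q11⟩, ⟨p12, q12⟩, ⟨p13, q13⟩⟩ := hinge_facts r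
  unfold BB; linarith

lemma node_0 : Node BB (14687 / 100000) (1 / 1000000000) 0 0 := by
  refine ⟨by norm_num, by norm_num, by norm_num, by norm_num, ?_⟩
  intro r _; have := BB_nonneg r; linarith

lemma node_1 : Node BB (14687 / 100000) (1 / 1000000000) (809 / 100000) (690303 / 100000000) := by
  refine ⟨by norm_num, by norm_num, by norm_num, by norm_num, ?_⟩
  intro r hr
  obtain ⟨⟨p0, q0⟩, ⟨p1, q1⟩, ⟨p2, q2⟩, ⟨p3, q3⟩, ⟨p4, q4⟩, ⟨p5, q5⟩, ⟨p6, q6⟩, ⟨p7, q7⟩, ⟨p8, q8⟩, ⟨p9, q9⟩, ⟨p10, q10⟩, ⟨p11, q11⟩, ⟨p12, q12⟩, ⟨p13, q13⟩⟩ := hinge_facts r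
  unfold BB; linarith

lemma node_2 : Node BB (14687 / 100000) (1 / 1000000000) (481 / 20000) (389453 / 20000000) := by
  refine ⟨by norm_num, by norm_num, by norm_num, by norm_num, ?_⟩
  intro r hr
  obtain ⟨⟨p0, q0⟩, ⟨p1, q1⟩, ⟨p2, q2⟩, ⟨p3, q3⟩, ⟨p4, q4⟩, ⟨p5, q5⟩, ⟨p6, q6⟩, ⟨p7, q7⟩, ⟨p8, q8⟩, ⟨p9, q9⟩, ⟨p10, q10⟩, ⟨p11, q11⟩, ⟨p12, q12⟩, ⟨p13, q13⟩⟩ := hinge_facts r
  unfold BB; linarith

lemma node_3 : Node BB (14687 / 100000) (1 / 1000000000) (2553 / 100000) (82553 / 4000000) := by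
  refine ⟨by norm_num, by norm_num, by norm_num, by norm_num, ?_⟩
  intro r hr
  obtain ⟨⟨p0, q0⟩, ⟨p1, q1⟩, ⟨p2, q2⟩, ⟨p3, q3⟩, ⟨p4, q4⟩, ⟨p5, q5⟩, ⟨p6, q6⟩, ⟨p7, q7⟩, ⟨p8, q8⟩, ⟨p9, q9⟩, ⟨p10, q10⟩, ⟨p11, q11⟩, ⟨p12, q12⟩, ⟨p13, q13⟩⟩ := hinge_facts r
  unfold BB; linarith

lemma node_4 : Node BB (14687 / 100000) (1 / 1000000000) (957 / 20000) (3744543 / 100000000) := by
  refine ⟨by norm_num, by norm_num, by norm_num, by norm_num, ?_⟩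
  intro r hr
  obtain ⟨⟨p0, q0⟩, ⟨p1, q1⟩, ⟨p2, q2⟩, ⟨p3, q3⟩, ⟨p4, q4⟩, ⟨p5, q5⟩, ⟨p6, q6⟩, ⟨p7, q7⟩, ⟨p8, q8⟩, ⟨p9, q9⟩, ⟨p10, q10⟩, ⟨p11, q11⟩, ⟨p12, q12⟩, ⟨p13, q13⟩⟩ := hinge_facts r
  unfold BB; linarith

lemma node_5 : Node BB (14687 / 100000) (1 / 1000000000) (563 / 10000) (4380837 / 100000000) := by
  refine ⟨by norm_num, by norm_num, by norm_num, by norm_num, ?_⟩
  intro r hr
  obtain ⟨⟨p0, q0⟩, ⟨p1, q1⟩, ⟨p2, q2⟩, ⟨p3, q3⟩, ⟨p4, q4⟩, ⟨p5, q5⟩, ⟨p6, q6⟩, ⟨p7, q7⟩, ⟨p8, q8⟩, ⟨p9, q9⟩, ⟨p10, q10⟩, ⟨p11, q11⟩, ⟨p12, q12⟩, ⟨p13, q13⟩⟩ := hinge_facts r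
  unfold BB; linarith

lemma node_6 : Node BB (14687 / 100000) (1 / 1000000000) (1489 / 25000) (2313159 / 50000000) := by
  refine ⟨by norm_num, by norm_num, by norm_num, by norm_num, ?_⟩
  intro r hr
  obtain ⟨⟨p0, q0⟩, ⟨p1, q1⟩, ⟨p2, q2⟩, ⟨p3, q3⟩, ⟨p4, q4⟩, ⟨p5, q5⟩, ⟨p6, q6⟩, ⟨p7, q7⟩, ⟨p8, q8⟩, ⟨p9, q9⟩, ⟨p10, q10⟩, ⟨p11, q11⟩, ⟨p12, q12⟩, ⟨p13, q13⟩⟩ := hinge_facts r
  unfold BB; linarith

lemma node_7 : Node BB (14687 / 100000) (1 / 1000000000) (727 / 10000) (5332567 / 100000000) := by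
  refine ⟨by norm_num, by norm_num, by norm_num, by norm_num, ?_⟩
  intro r hr
  obtain ⟨⟨p0, q0⟩, ⟨p1, q1⟩, ⟨p2, q2⟩, ⟨p3, q3⟩, ⟨p4, q4⟩, ⟨p5, q5⟩, ⟨p6, q6⟩, ⟨p7, q7⟩, ⟨p8, q8⟩, ⟨p9, q9⟩, ⟨p10, q10⟩, ⟨p11, q11⟩, ⟨p12, q12⟩, ⟨p13, q13⟩⟩ := hinge_facts r
  unfold BB; linarith

lemma node_8 : Node BB (14687 / 100000) (1 / 1000000000) (1499 / 20000) (10907 / 200000) := by
  refine ⟨by norm_num, by norm_num, by norm_num, by norm_num, ?_⟩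
  intro r hr
  obtain ⟨⟨p0, q0⟩, ⟨p1, q1⟩, ⟨p2, q2⟩, ⟨p3, q3⟩, ⟨p4, q4⟩, ⟨p5, q5⟩, ⟨p6, q6⟩, ⟨p7, q7⟩, ⟨p8, q8⟩, ⟨p9, q9⟩, ⟨p10, q10⟩, ⟨p11, q11⟩, ⟨p12, q12⟩, ⟨p13, q13⟩⟩ := hinge_facts r
  unfold BB; linarith

lemma node_9 : Node BB (14687 / 100000) (1 / 1000000000) (9019 / 100000) (6272619 / 100000000) := by
  refine ⟨by norm_num, by norm_num, by norm_num, by norm_num, ?_⟩
  intro r hr
  obtain ⟨⟨p0, q0⟩, ⟨p1, q1⟩, ⟨p2, q2⟩, ⟨p3, q3⟩, ⟨p4, q4⟩, ⟨p5, q5⟩, ⟨p6, q6⟩, ⟨p7, q7⟩, ⟨p8, q8⟩, ⟨p9, q9⟩, ⟨p10, q10⟩, ⟨p11, q11⟩, ⟨p12, q12⟩, ⟨p13, q13⟩⟩ := hinge_facts r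
  unfold BB; linarith

lemma node_10 : Node BB (14687 / 100000) (1 / 1000000000) (313 / 3125) (6781269 / 100000000) := by
  refine ⟨by norm_num, by norm_num, by norm_num, by norm_num, ?_⟩
  intro r hr
  obtain ⟨⟨p0, q0⟩, ⟨p1, q1⟩, ⟨p2, q2⟩, ⟨p3, q3⟩, ⟨p4, q4⟩, ⟨p5, q5⟩, ⟨p6, q6⟩, ⟨p7, q7⟩, ⟨p8, q8⟩, ⟨p9, q9⟩, ⟨p10, q10⟩, ⟨p11, q11⟩, ⟨p12, q12⟩, ⟨p13, q13⟩⟩ := hinge_facts r
  unfold BB; linarith

lemma node_11 : Node BB (14687 / 100000) (1 / 1000000000) (64 / 625) (3444521 / 50000000) := by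
  refine ⟨by norm_num, by norm_num, by norm_num, by norm_num, ?_⟩
  intro r hr
  obtain ⟨⟨p0, q0⟩, ⟨p1, q1⟩, ⟨p2, q2⟩, ⟨p3, q3⟩, ⟨p4, q4⟩, ⟨p5, q5⟩, ⟨p6, q6⟩, ⟨p7, q7⟩, ⟨p8, q8⟩, ⟨p9, q9⟩, ⟨p10, q10⟩, ⟨p11, q11⟩, ⟨p12, q12⟩, ⟨p13, q13⟩⟩ := hinge_facts r
  unfold BB; linarith

lemma node_12 : Node BB (14687 / 100000) (1 / 1000000000) (2729 / 25000) (3607143 / 50000000) := by
  refine ⟨by norm_num, by norm_num, by norm_num, by norm_num, ?_⟩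
  intro r hr
  obtain ⟨⟨p0, q0⟩, ⟨p1, q1⟩, ⟨p2, q2⟩, ⟨p3, q3⟩, ⟨p4, q4⟩, ⟨p5, q5⟩, ⟨p6, q6⟩, ⟨p7, q7⟩, ⟨p8, q8⟩, ⟨p9, q9⟩, ⟨p10, q10⟩, ⟨p11, q11⟩, ⟨p12, q12⟩, ⟨p13, q13⟩⟩ := hinge_facts r
  unfold BB; linarith

lemma node_13 : Node BB (14687 / 100000) (1 / 1000000000) (6107 / 50000) (7804331 / 100000000) := by
  refine ⟨by norm_num, by norm_num, by norm_num, by norm_num, ?_⟩
  intro r hr
  obtain ⟨⟨p0, q0⟩, ⟨p1, q1⟩, ⟨p2, q2⟩, ⟨p3, q3⟩, ⟨p4, q4⟩, ⟨p5, q5⟩, ⟨p6, q6⟩, ⟨p7, q7⟩, ⟨p8, q8⟩, ⟨p9, q9⟩, ⟨p10, q10⟩, ⟨p11, q11⟩, ⟨p12, q12⟩, ⟨p13, q13⟩⟩ := hinge_facts r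
  unfold BB; linarith

lemma node_14 : Node BB (14687 / 100000) (1 / 1000000000) (1333 / 10000) (8261009 / 100000000) := by
  refine ⟨by norm_num, by norm_num, by norm_num, by norm_num, ?_⟩
  intro r hr
  obtain ⟨⟨p0, q0⟩, ⟨p1, q1⟩, ⟨p2, q2⟩, ⟨p3, q3⟩, ⟨p4, q4⟩, ⟨p5, q5⟩, ⟨p6, q6⟩, ⟨p7, q7⟩, ⟨p8, q8⟩, ⟨p9, q9⟩, ⟨p10, q10⟩, ⟨p11, q11⟩, ⟨p12, q12⟩, ⟨p13, q13⟩⟩ := hinge_facts r
  unfold BB; linarith

lemma node_15 : Node BB (14687 / 100000) (1 / 1000000000) (6797 / 50000) (104613 / 1250000) := by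
  refine ⟨by norm_num, by norm_num, by norm_num, by norm_num, ?_⟩
  intro r hr
  obtain ⟨⟨p0, q0⟩, ⟨p1, q1⟩, ⟨p2, q2⟩, ⟨p3, q3⟩, ⟨p4, q4⟩, ⟨p5, q5⟩, ⟨p6, q6⟩, ⟨p7, q7⟩, ⟨p8, q8⟩, ⟨p9, q9⟩, ⟨p10, q10⟩, ⟨p11, q11⟩, ⟨p12, q12⟩, ⟨p13, q13⟩⟩ := hinge_facts r
  unfold BB; linarith

lemma node_16 : Node BB (14687 / 100000) (1 / 1000000000) (14917 / 100000) (276857 / 3125000) := by
  refine ⟨by norm_num, by norm_num, by norm_num, by norm_num, ?_⟩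
  intro r hr
  obtain ⟨⟨p0, q0⟩, ⟨p1, q1⟩, ⟨p2, q2⟩, ⟨p3, q3⟩, ⟨p4, q4⟩, ⟨p5, q5⟩, ⟨p6, q6⟩, ⟨p7, q7⟩, ⟨p8, q8⟩, ⟨p9, q9⟩, ⟨p10, q10⟩, ⟨p11, q11⟩, ⟨p12, q12⟩, ⟨p13, q13⟩⟩ := hinge_facts r
  unfold BB; linarith

lemma node_17 : Node BB (14687 / 100000) (1 / 1000000000) (643 / 4000) (4621859 / 50000000) := by
  refine ⟨by norm_num, by norm_num, by norm_num, by norm_num, ?_⟩
  intro r hr
  obtain ⟨⟨p0, q0⟩, ⟨p1, q1⟩, ⟨p2, q2⟩, ⟨p3, q3⟩, ⟨p4, q4⟩, ⟨p5, q5⟩, ⟨p6, q6⟩, ⟨p7, q7⟩, ⟨p8, q8⟩, ⟨p9, q9⟩, ⟨p10, q10⟩, ⟨p11, q11⟩, ⟨p12, q12⟩, ⟨p13, q13⟩⟩ := hinge_facts r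
  unfold BB; linarith

lemma node_18 : Node BB (14687 / 100000) (1 / 1000000000) (16229 / 100000) (1161853 / 12500000) := by
  refine ⟨by norm_num, by norm_num, by norm_num, by norm_num, ?_⟩
  intro r hr
  obtain ⟨⟨p0, q0⟩, ⟨p1, q1⟩, ⟨p2, q2⟩, ⟨p3, q3⟩, ⟨p4, q4⟩, ⟨p5, q5⟩, ⟨p6, q6⟩, ⟨p7, q7⟩, ⟨p8, q8⟩, ⟨p9, q9⟩, ⟨p10, q10⟩, ⟨p11, q11⟩, ⟨p12, q12⟩, ⟨p13, q13⟩⟩ := hinge_facts r
  unfold BB; linarith

lemma node_19 : Node BB (14687 / 100000) (1 / 1000000000) (8771 / 50000) (241859 / 2500000) := by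
  refine ⟨by norm_num, by norm_num, by norm_num, by norm_num, ?_⟩
  intro r hr
  obtain ⟨⟨p0, q0⟩, ⟨p1, q1⟩, ⟨p2, q2⟩, ⟨p3, q3⟩, ⟨p4, q4⟩, ⟨p5, q5⟩, ⟨p6, q6⟩, ⟨p7, q7⟩, ⟨p8, q8⟩, ⟨p9, q9⟩, ⟨p10, q10⟩, ⟨p11, q11⟩, ⟨p12, q12⟩, ⟨p13, q13⟩⟩ := hinge_facts r
  unfold BB; linarith

lemma node_20 : Node BB (14687 / 100000) (1 / 1000000000) (18721 / 100000) (9971373 / 100000000) := by
  refine ⟨by norm_num, by norm_num, by norm_num, by norm_num, ?_⟩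
  intro r hr
  obtain ⟨⟨p0, q0⟩, ⟨p1, q1⟩, ⟨p2, q2⟩, ⟨p3, q3⟩, ⟨p4, q4⟩, ⟨p5, q5⟩, ⟨p6, q6⟩, ⟨p7, q7⟩, ⟨p8, q8⟩, ⟨p9, q9⟩, ⟨p10, q10⟩, ⟨p11, q11⟩, ⟨p12, q12⟩, ⟨p13, q13⟩⟩ := hinge_facts r
  unfold BB; linarith

lemma node_21 : Node BB (14687 / 100000) (1 / 1000000000) (3751 / 20000) (4989333 / 50000000) := by
  refine ⟨by norm_num, by norm_num, by norm_num, by norm_num, ?_⟩
  intro r hr
  obtain ⟨⟨p0, q0⟩, ⟨p1, q1⟩, ⟨p2, q2⟩, ⟨p3, q3⟩, ⟨p4, q4⟩, ⟨p5, q5⟩, ⟨p6, q6⟩, ⟨p7, q7⟩, ⟨p8, q8⟩, ⟨p9, q9⟩, ⟨p10, q10⟩, ⟨p11, q11⟩, ⟨p12, q12⟩, ⟨p13, q13⟩⟩ := hinge_facts r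
  unfold BB; linarith

lemma node_22 : Node BB (14687 / 100000) (1 / 1000000000) (19813 / 100000) (10205607 / 100000000) := by
  refine ⟨by norm_num, by norm_num, by norm_num, by norm_num, ?_⟩
  intro r hr
  obtain ⟨⟨p0, q0⟩, ⟨p1, q1⟩, ⟨p2, q2⟩, ⟨p3, q3⟩, ⟨p4, q4⟩, ⟨p5, q5⟩, ⟨p6, q6⟩, ⟨p7, q7⟩, ⟨p8, q8⟩, ⟨p9, q9⟩, ⟨p10, q10⟩, ⟨p11, q11⟩, ⟨p12, q12⟩, ⟨p13, q13⟩⟩ := hinge_facts r
  unfold BB; linarith

lemma node_23 : Node BB (14687 / 100000) (1 / 1000000000) (10483 / 50000) (10413459 / 100000000) := by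
  refine ⟨by norm_num, by norm_num, by norm_num, by norm_num, ?_⟩
  intro r hr
  obtain ⟨⟨p0, q0⟩, ⟨p1, q1⟩, ⟨p2, q2⟩, ⟨p3, q3⟩, ⟨p4, q4⟩, ⟨p5, q5⟩, ⟨p6, q6⟩, ⟨p7, q7⟩, ⟨p8, q8⟩, ⟨p9, q9⟩, ⟨p10, q10⟩, ⟨p11, q11⟩, ⟨p12, q12⟩, ⟨p13, q13⟩⟩ := hinge_facts r
  unfold BB; linarith

lemma node_24 : Node BB (14687 / 100000) (1 / 1000000000) (437 / 2000) (2635823 / 25000000) := by
  refine ⟨by norm_num, by norm_num, by norm_num, by norm_num, ?_⟩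
  intro r hr
  obtain ⟨⟨p0, q0⟩, ⟨p1, q1⟩, ⟨p2, q2⟩, ⟨p3, q3⟩, ⟨p4, q4⟩, ⟨p5, q5⟩, ⟨p6, q6⟩, ⟨p7, q7⟩, ⟨p8, q8⟩, ⟨p9, q9⟩, ⟨p10, q10⟩, ⟨p11, q11⟩, ⟨p12, q12⟩, ⟨p13, q13⟩⟩ := hinge_facts r
  unfold BB; linarith

lemma node_25 : Node BB (14687 / 100000) (1 / 1000000000) (897 / 4000) (5313871 / 50000000) := by
  refine ⟨by norm_num, by norm_num, by norm_num, by norm_num, ?_⟩
  intro r hr
  obtain ⟨⟨p0, q0⟩, ⟨p1, q1⟩, ⟨p2, q2⟩, ⟨p3, q3⟩, ⟨p4, q4⟩, ⟨p5, q5⟩, ⟨p6, q6⟩, ⟨p7, q7⟩, ⟨p8, q8⟩, ⟨p9, q9⟩, ⟨p10, q10⟩, ⟨p11, q11⟩, ⟨p12, q12⟩, ⟨p13, q13⟩⟩ := hinge_facts r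
  unfold BB; linarith

lemma node_26 : Node BB (14687 / 100000) (1 / 1000000000) (4701 / 20000) (5393181 / 50000000) := by
  refine ⟨by norm_num, by norm_num, by norm_num, by norm_num, ?_⟩
  intro r hr
  obtain ⟨⟨p0, q0⟩, ⟨p1, q1⟩, ⟨p2, q2⟩, ⟨p3, q3⟩, ⟨p4, q4⟩, ⟨p5, q5⟩, ⟨p6, q6⟩, ⟨p7, q7⟩, ⟨p8, q8⟩, ⟨p9, q9⟩, ⟨p10, q10⟩, ⟨p11, q11⟩, ⟨p12, q12⟩, ⟨p13, q13⟩⟩ := hinge_facts r
  unfold BB; linarith

lemma node_27 : Node BB (14687 / 100000) (1 / 1000000000) (4957 / 20000) (2194871 / 20000000) := by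
  refine ⟨by norm_num, by norm_num, by norm_num, by norm_num, ?_⟩
  intro r hr
  obtain ⟨⟨p0, q0⟩, ⟨p1, q1⟩, ⟨p2, q2⟩, ⟨p3, q3⟩, ⟨p4, q4⟩, ⟨p5, q5⟩, ⟨p6, q6⟩, ⟨p7, q7⟩, ⟨p8, q8⟩, ⟨p9, q9⟩, ⟨p10, q10⟩, ⟨p11, q11⟩, ⟨p12, q12⟩, ⟨p13, q13⟩⟩ := hinge_facts r
  unfold BB; linarith

lemma node_28 : Node BB (14687 / 100000) (1 / 1000000000) (1 / 4) (2751483 / 25000000) := by
  refine ⟨by norm_num, by norm_num, by norm_num, by norm_num, ?_⟩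
  intro r hr
  obtain ⟨⟨p0, q0⟩, ⟨p1, q1⟩, ⟨p2, q2⟩, ⟨p3, q3⟩, ⟨p4, q4⟩, ⟨p5, q5⟩, ⟨p6, q6⟩, ⟨p7, q7⟩, ⟨p8, q8⟩, ⟨p9, q9⟩, ⟨p10, q10⟩, ⟨p11, q11⟩, ⟨p12, q12⟩, ⟨p13, q13⟩⟩ := hinge_facts r
  unfold BB; linarith

lemma chain : ∃ p0 b1 : ℝ, JoinedIn (Adm BB (14687 / 100000) (5333 / 6250) (1 / 100000000000) (1 / 1000000000)) (0, 0, p0) (1 / 4, b1, 1 / 2) := by
  have hP : ((5333 / 6250) : ℝ) ≤ 9 / 10 := by norm_num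
  have hτ : (0 : ℝ) ≤ (1 / 100000000000) := by norm_num
  have hP1 : (1 / 10 : ℝ) + (1 / 100000000000) ≤ 1 + 2 * (1 / 100000000000) - (5333 / 6250) := by norm_num
  have s0 : JoinedIn (Adm BB (14687 / 100000) (5333 / 6250) (1 / 100000000000) (1 / 1000000000)) (0, 0, (690303 / 809000) - (1 / 100000000000)) ((809 / 100000), (690303 / 100000000), (690303 / 809000) - (1 / 100000000000)) :=
    seg_first hP hτ hP1 BB_nonneg line_14 node_0 node_1 (by norm_num) (by norm_num) (by norm_num)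
      (by norm_num) (by norm_num)
  have s1 := seg (179 / 250) hP hτ hP1 line_1 line_14 node_1 node_2
    (by norm_num) (by norm_num) (by norm_num) (by norm_num) (by norm_num) (by norm_num)
    (by norm_num) (by norm_num)
  have s2 := seg (1 / 2) hP hτ hP1 line_1 line_13 node_2 node_3
    (by norm_num) (by norm_num) (by norm_num) (by norm_num) (by norm_num) (by norm_num)
    (by norm_num) (by norm_num)
  have s3 := seg (27 / 100) hP hτ hP1 line_1 line_13 node_3 node_4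
    (by norm_num) (by norm_num) (by norm_num) (by norm_num) (by norm_num) (by norm_num)
    (by norm_num) (by norm_num)
  have s4 := seg (1 / 2) hP hτ hP1 line_1 line_12 node_4 node_5
    (by norm_num) (by norm_num) (by norm_num) (by norm_num) (by norm_num) (by norm_num)
    (by norm_num) (by norm_num)
  have s5 := seg (1 / 2) hP hτ hP1 line_2 line_12 node_5 node_6
    (by norm_num) (by norm_num) (by norm_num) (by norm_num) (by norm_num) (by norm_num)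
    (by norm_num) (by norm_num)
  have s6 := seg (29 / 50) hP hτ hP1 line_2 line_12 node_6 node_7
    (by norm_num) (by norm_num) (by norm_num) (by norm_num) (by norm_num) (by norm_num)
    (by norm_num) (by norm_num)
  have s7 := seg (1 / 2) hP hτ hP1 line_3 line_12 node_7 node_8
    (by norm_num) (by norm_num) (by norm_num) (by norm_num) (by norm_num) (by norm_num)
    (by norm_num) (by norm_num)
  have s8 := seg (67 / 100) hP hτ hP1 line_3 line_11 node_8 node_9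
    (by norm_num) (by norm_num) (by norm_num) (by norm_num) (by norm_num) (by norm_num)
    (by norm_num) (by norm_num)
  have s9 := seg (1 / 2) hP hτ hP1 line_3 line_11 node_9 node_10
    (by norm_num) (by norm_num) (by norm_num) (by norm_num) (by norm_num) (by norm_num)
    (by norm_num) (by norm_num)
  have s10 := seg (1 / 2) hP hτ hP1 line_3 line_11 node_10 node_11
    (by norm_num) (by norm_num) (by norm_num) (by norm_num) (by norm_num) (by norm_num)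
    (by norm_num) (by norm_num)
  have s11 := seg (3 / 10) hP hτ hP1 line_3 line_10 node_11 node_12
    (by norm_num) (by norm_num) (by norm_num) (by norm_num) (by norm_num) (by norm_num)
    (by norm_num) (by norm_num)
  have s12 := seg (37 / 100) hP hτ hP1 line_3 line_10 node_12 node_13
    (by norm_num) (by norm_num) (by norm_num) (by norm_num) (by norm_num) (by norm_num)
    (by norm_num) (by norm_num)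
  have s13 := seg (73 / 100) hP hτ hP1 line_3 line_10 node_13 node_14
    (by norm_num) (by norm_num) (by norm_num) (by norm_num) (by norm_num) (by norm_num)
    (by norm_num) (by norm_num)
  have s14 := seg (1 / 2) hP hτ hP1 line_3 line_9 node_14 node_15
    (by norm_num) (by norm_num) (by norm_num) (by norm_num) (by norm_num) (by norm_num)
    (by norm_num) (by norm_num)
  have s15 := seg (12 / 25) hP hτ hP1 line_3 line_9 node_15 node_16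
    (by norm_num) (by norm_num) (by norm_num) (by norm_num) (by norm_num) (by norm_num)
    (by norm_num) (by norm_num)
  have s16 := seg (59 / 100) hP hτ hP1 line_3 line_9 node_16 node_17
    (by norm_num) (by norm_num) (by norm_num) (by norm_num) (by norm_num) (by norm_num)
    (by norm_num) (by norm_num)
  have s17 := seg (1 / 2) hP hτ hP1 line_3 line_8 node_17 node_18
    (by norm_num) (by norm_num) (by norm_num) (by norm_num) (by norm_num) (by norm_num)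
    (by norm_num) (by norm_num)
  have s18 := seg (51 / 100) hP hτ hP1 line_3 line_8 node_18 node_19
    (by norm_num) (by norm_num) (by norm_num) (by norm_num) (by norm_num) (by norm_num)
    (by norm_num) (by norm_num)
  have s19 := seg (11 / 20) hP hτ hP1 line_3 line_8 node_19 node_20
    (by norm_num) (by norm_num) (by norm_num) (by norm_num) (by norm_num) (by norm_num)
    (by norm_num) (by norm_num)
  have s20 := seg (1 / 2) hP hτ hP1 line_3 line_8 node_20 node_21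
    (by norm_num) (by norm_num) (by norm_num) (by norm_num) (by norm_num) (by norm_num)
    (by norm_num) (by norm_num)
  have s21 := seg (9 / 20) hP hτ hP1 line_3 line_7 node_21 node_22
    (by norm_num) (by norm_num) (by norm_num) (by norm_num) (by norm_num) (by norm_num)
    (by norm_num) (by norm_num)
  have s22 := seg (51 / 100) hP hτ hP1 line_3 line_7 node_22 node_23
    (by norm_num) (by norm_num) (by norm_num) (by norm_num) (by norm_num) (by norm_num)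
    (by norm_num) (by norm_num)
  have s23 := seg (16 / 25) hP hτ hP1 line_3 line_7 node_23 node_24
    (by norm_num) (by norm_num) (by norm_num) (by norm_num) (by norm_num) (by norm_num)
    (by norm_num) (by norm_num)
  have s24 := seg (29 / 100) hP hτ hP1 line_3 line_6 node_24 node_25
    (by norm_num) (by norm_num) (by norm_num) (by norm_num) (by norm_num) (by norm_num)
    (by norm_num) (by norm_num)
  have s25 := seg (1 / 2) hP hτ hP1 line_4 line_6 node_25 node_26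
    (by norm_num) (by norm_num) (by norm_num) (by norm_num) (by norm_num) (by norm_num)
    (by norm_num) (by norm_num)
  have s26 := seg (1 / 2) hP hτ hP1 line_4 line_5 node_26 node_27
    (by norm_num) (by norm_num) (by norm_num) (by norm_num) (by norm_num) (by norm_num)
    (by norm_num) (by norm_num)
  have s27 := seg (1 / 2) hP hτ hP1 line_5 line_5 node_27 node_28
    (by norm_num) (by norm_num) (by norm_num) (by norm_num) (by norm_num) (by norm_num)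
    (by norm_num) (by norm_num)
  have t0 := s0
  have t1 := glue BB_antitone t0 s1
  have t2 := glue BB_antitone t1 s2
  have t3 := glue BB_antitone t2 s3
  have t4 := glue BB_antitone t3 s4
  have t5 := glue BB_antitone t4 s5
  have t6 := glue BB_antitone t5 s6
  have t7 := glue BB_antitone t6 s7
  have t8 := glue BB_antitone t7 s8
  have t9 := glue BB_antitone t8 s9
  have t10 := glue BB_antitone t9 s10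
  have t11 := glue BB_antitone t10 s11
  have t12 := glue BB_antitone t11 s12
  have t13 := glue BB_antitone t12 s13
  have t14 := glue BB_antitone t13 s14
  have t15 := glue BB_antitone t14 s15
  have t16 := glue BB_antitone t15 s16
  have t17 := glue BB_antitone t16 s17
  have t18 := glue BB_antitone t17 s18
  have t19 := glue BB_antitone t18 s19
  have t20 := glue BB_antitone t19 s20
  have t21 := glue BB_antitone t20 s21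
  have t22 := glue BB_antitone t21 s22
  have t23 := glue BB_antitone t22 s23
  have t24 := glue BB_antitone t23 s24
  have t25 := glue BB_antitone t24 s25
  have t26 := glue BB_antitone t25 s26
  have t27 := glue BB_antitone t26 s27
  have e : ((1 / 4 : ℝ), ((2751483 / 25000000) : ℝ), (1 / 2 : ℝ)) ∈ Adm BB (14687 / 100000) (5333 / 6250) (1 / 100000000000) (1 / 1000000000) := by
    obtain ⟨a1, a2, a3, a4, a5⟩ := node_28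
    refine ⟨a1, a2, a3, a4, by norm_num, by norm_num, by norm_num, by norm_num, a5, ?_, ?_⟩
    · have := line_5 (1 / 2 + (1 / 100000000000))
      norm_num at this ⊢; linarith
    · have := line_5 (1 / 2 + (1 / 100000000000))
      norm_num at this ⊢; linarith
  exact ⟨_, _, glue BB_antitone t27 (JoinedIn.refl e)⟩

end Pool.Agent.Helper797.Kakeya
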