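import Pool.Agent.Helper797.KakeyaRegion

set_option autoImplicit false

open MeasureTheory Set

namespace Pool.Agent.Helper797.Kakeya

lemma polar_rep {σ h : ℝ} (hσ : 0 < σ) (hh : 0 ≤ h) :
    ∃ ρ α : ℝ, 0 < ρ ∧ 0 ≤ α ∧ ρ ^ 2 = σ ^ 2 + h ^ 2 ∧ ρ * Real.cos α = σ ∧ ρ * Real.sin α = h ∧
      h ≤ ρ * α ∧ σ * α ≤ h := by
  have hpos : 0 < σ ^ 2 + h ^ 2 := by positivity
  set ρ := Real.sqrt (σ ^ 2 + h ^ 2) with hρ
  have hρ0 : 0 < ρ := Real.sqrt_pos.mpr hpos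
  have hρ2 : ρ ^ 2 = σ ^ 2 + h ^ 2 := Real.sq_sqrt hpos.le
  set α := Real.arctan (h / σ) with hα
  have hα0 : 0 ≤ α := Real.arctan_nonneg.mpr (by positivity)
  have hα1 : α < Real.pi / 2 := Real.arctan_lt_pi_div_two _
  have hc : 0 < Real.cos α := Real.cos_arctan_pos _
  have hc2 : Real.cos α ^ 2 = 1 / (1 + (h / σ) ^ 2) := Real.cos_sq_arctan _
  have ht : Real.tan α = h / σ := Real.tan_arctan _
  have h1 : ρ * Real.cos α = σ := by
    have : (ρ * Real.cos α) ^ 2 = σ ^ 2 := by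
      rw [mul_pow, hρ2, hc2]; field_simp
    exact (pow_left_inj₀ (by positivity) hσ.le (by norm_num)).mp this
  have hs : Real.sin α = h / σ * Real.cos α := by
    rw [← ht, Real.tan_eq_sin_div_cos]; field_simp
  have h2 : ρ * Real.sin α = h := by
    rw [hs]
    have : ρ * (h / σ * Real.cos α) = h / σ * (ρ * Real.cos α) := by ring
    rw [this, h1]; field_simp
  refine ⟨ρ, α, hρ0, hα0, hρ2, h1, h2, ?_, ?_⟩
  · rw [← h2]
    exact mul_le_mul_of_nonneg_left (Real.sin_le hα0) hρ0.le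
  · have := Real.le_tan hα0 hα1
    rw [ht, le_div_iff₀ hσ] at this
    linarith

/-- Admissible needle positions in one eighth of the motion, in rescaled coordinates. -/
def Adm (B : ℝ → ℝ) (r0 P τ δ : ℝ) : Set (ℝ × ℝ × ℝ) :=
  {q | 0 ≤ q.1 ∧ q.1 ≤ 1 / 4 ∧ 0 ≤ q.2.1 ∧ q.2.1 ≤ 1 / 8 ∧ 1 / 10 ≤ q.2.2 ∧ q.2.2 ≤ 9 / 10 ∧
    q.2.2 + τ ≤ P ∧ 1 - q.2.2 + τ ≤ P ∧
    (∀ ρ, r0 ≤ ρ → (1 + δ) * q.2.1 ≤ q.1 * ρ + B ρ) ∧
    (q.2.2 + τ) * q.1 - q.2.1 ≤ B (q.2.2 + τ) ∧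
    (1 - q.2.2 + τ) * (1 / 2 - q.1) - q.2.1 ≤ B (1 - q.2.2 + τ)}

/-- one needle point -/
lemma point_mem {m : ℕ} {B : ℝ → ℝ} (hB : Antitone B) {r0 P τ δ : ℝ} (hr0 : 1 / 10 ≤ r0)
    (hτ : 0 ≤ τ) (hδ : 0 ≤ δ) {h : ℝ} (hh : 0 ≤ h) (hhr : h ≤ r0) (hh1 : h ^ 2 ≤ τ / 5)
    (hh2 : (1 + δ) ^ 2 * h ^ 2 ≤ δ / 50)
    {x b p : ℝ} (hA : (x, b, p) ∈ Adm B r0 P τ δ)
    (hhb : h = 2 * Real.pi / ((2 * m + 1 : ℕ) : ℝ) * b)
    {σ : ℝ} (hσ1 : p - 1 ≤ σ) (hσ2 : σ ≤ p) :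
    (σ * Real.cos (2 * Real.pi / ((2 * m + 1 : ℕ) : ℝ) * x)
        + h * Real.sin (2 * Real.pi / ((2 * m + 1 : ℕ) : ℝ) * x),
      σ * Real.sin (2 * Real.pi / ((2 * m + 1 : ℕ) : ℝ) * x)
        - h * Real.cos (2 * Real.pi / ((2 * m + 1 : ℕ) : ℝ) * x))
      ∈ Region (2 * m + 1) B r0 P := by
  obtain ⟨hx0, hx1, hb0, hb1, hp0, hp1, hpP, hqP, hb, h2, h3⟩ := hA
  simp only at hx0 hx1 hb0 hb1 hp0 hp1 hpP hqP hb h2 h3
  set N : ℝ := ((2 * m + 1 : ℕ) : ℝ) with hN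
  have hN' : N = 2 * m + 1 := by rw [hN]; push_cast; ring
  have hN0 : 0 < N := by rw [hN']; positivity
  have hpi := Real.pi_pos
  set θ := 2 * Real.pi / N * x with hθ
  -- common estimate on the polar radius
  have key : ∀ {σ' ρ α y L : ℝ}, 0 < σ' → 0 < ρ → 0 ≤ α → ρ ^ 2 = σ' ^ 2 + h ^ 2 → h ≤ ρ * α →
      σ' * α ≤ h → r0 < ρ → 1 / 10 ≤ L → σ' ≤ L → 0 ≤ y → x ≤ y →
      (L + τ) * y - b ≤ B (L + τ) →
      |ρ * y - N / (2 * Real.pi) * (ρ * α)| ≤ B ρ ∧ ρ ≤ L + τ := by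
    intro σ' ρ α y L hσ' hρ hα hρ2 hle hle2 hr hL hσL hy hxy hLB
    have hρL : ρ ≤ L + τ := by
      apply le_of_sq_le_sq _ (by linarith)
      rw [hρ2]
      nlinarith
    have hρσ : ρ ≤ (1 + δ) * σ' := by
      apply le_of_sq_le_sq _ (by positivity)
      have e : ((1 + δ) * σ') ^ 2 = (1 + δ) ^ 2 * ρ ^ 2 - (1 + δ) ^ 2 * h ^ 2 := by
        rw [hρ2]; ring
      have hρ1 : 1 / 100 ≤ ρ ^ 2 := by nlinarith
      nlinarith [mul_nonneg hδ (sub_nonneg.mpr hρ1), mul_nonneg (mul_nonneg hδ hδ) (sq_nonneg ρ)]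
    have hw1 : b ≤ N / (2 * Real.pi) * (ρ * α) := by
      have : b = N / (2 * Real.pi) * h := by rw [hhb]; field_simp
      rw [this]
      exact mul_le_mul_of_nonneg_left hle (by positivity)
    have hw2 : N / (2 * Real.pi) * (ρ * α) ≤ (1 + δ) * b := by
      have e : (1 + δ) * b = N / (2 * Real.pi) * ((1 + δ) * h) := by rw [hhb]; field_simp
      rw [e]
      apply mul_le_mul_of_nonneg_left _ (by positivity)
      calc ρ * α ≤ (1 + δ) * σ' * α := mul_le_mul_of_nonneg_right hρσ hα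
        _ = (1 + δ) * (σ' * α) := by ring
        _ ≤ (1 + δ) * h := mul_le_mul_of_nonneg_left hle2 (by positivity)
    refine ⟨?_, hρL⟩
    rw [abs_le]
    constructor
    · have h5 := hb ρ hr.le
      have : x * ρ ≤ ρ * y := by nlinarith
      linarith
    · have h6 : ρ * y ≤ (L + τ) * y := mul_le_mul_of_nonneg_right hρL hy
      have h7 : B (L + τ) ≤ B ρ := hB hρL
      linarith
  rcases lt_trichotomy σ 0 with hσ | hσ | hσ
  · -- negative side
    obtain ⟨ρ, α, hρ, hα, hρ2, hc, hs, hle, hle2⟩ := polar_rep (neg_pos.mpr hσ) hh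
    refine ⟨ρ, θ + Real.pi + α, hρ.le, ?_, ?_⟩
    · have e : θ + Real.pi + α = (θ + α) + Real.pi := by ring
      rw [e, Real.cos_add_pi, Real.sin_add_pi, Real.cos_add, Real.sin_add]
      ext
      · simp only
        have : ρ * -(Real.cos θ * Real.cos α - Real.sin θ * Real.sin α)
          = -(ρ * Real.cos α) * Real.cos θ + (ρ * Real.sin α) * Real.sin θ := by ring
        rw [this, hc, hs]; ring
      · simp only
        have : ρ * -(Real.sin θ * Real.cos α + Real.cos θ * Real.sin α)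
          = -(ρ * Real.cos α) * Real.sin θ - (ρ * Real.sin α) * Real.cos θ := by ring
        rw [this, hc, hs]; ring
    · by_cases hr : ρ ≤ r0
      · exact Or.inl hr
      · right
        push Not at hr
        obtain ⟨k1, k2⟩ := key (L := 1 - p) (y := 1 / 2 - x) (neg_pos.mpr hσ) hρ hα hρ2 hle hle2
          hr (by linarith) (by linarith) (by linarith) (by linarith) h3
        refine ⟨k2.trans (by linarith), (m : ℤ) + 1, ?_⟩
        have e : ρ * |N * (θ + Real.pi + α) / (2 * Real.pi) - (((m : ℤ) + 1 : ℤ) : ℝ)|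
            = |ρ * (1 / 2 - x) - N / (2 * Real.pi) * (ρ * α)| := by
          rw [← abs_of_pos hρ, ← abs_mul, abs_of_pos hρ, ← abs_neg]
          congr 1
          rw [hθ]
          push_cast
          field_simp
          rw [hN']
          ring
        rw [e]; exact k1
  · -- the foot point
    refine ⟨h, θ - Real.pi / 2, hh, ?_, Or.inl hhr⟩
    rw [Real.cos_sub_pi_div_two, Real.sin_sub_pi_div_two, hσ]
    ext <;> simp
  · obtain ⟨ρ, α, hρ, hα, hρ2, hc, hs, hle, hle2⟩ := polar_rep hσ hh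
    refine ⟨ρ, θ - α, hρ.le, ?_, ?_⟩
    · rw [Real.cos_sub, Real.sin_sub]
      ext
      · simp only
        have : ρ * (Real.cos θ * Real.cos α + Real.sin θ * Real.sin α)
          = (ρ * Real.cos α) * Real.cos θ + (ρ * Real.sin α) * Real.sin θ := by ring
        rw [this, hc, hs]
      · simp only
        have : ρ * (Real.sin θ * Real.cos α - Real.cos θ * Real.sin α)
          = (ρ * Real.cos α) * Real.sin θ - (ρ * Real.sin α) * Real.cos θ := by ring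
        rw [this, hc, hs]
    · by_cases hr : ρ ≤ r0
      · exact Or.inl hr
      · right
        push Not at hr
        obtain ⟨k1, k2⟩ := key (L := p) (y := x) hσ hρ hα hρ2 hle hle2
          hr (by linarith) (by linarith) (by linarith) (by linarith) h2
        refine ⟨k2.trans (by linarith), 0, ?_⟩
        have e : ρ * |N * (θ - α) / (2 * Real.pi) - ((0 : ℤ) : ℝ)|
            = |ρ * x - N / (2 * Real.pi) * (ρ * α)| := by
          rw [← abs_of_pos hρ, ← abs_mul, abs_of_pos hρ]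
          congr 1
          rw [hθ]
          push_cast
          field_simp
          ring
        rw [e]; exact k1

end Pool.Agent.Helper797.Kakeya
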