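import Pool.Agent.Helper797.KakeyaNeedle

set_option autoImplicit false

open MeasureTheory Set

namespace Pool.Agent.Helper797.Kakeya

/-- configurations (angle, midpoint) for which the unit needle lies in `R` -/
def Conf (R : Set (ℝ × ℝ)) : Set (ℝ × (ℝ × ℝ)) :=
  {q | ∀ s ∈ Icc (-1 / 2 : ℝ) (1 / 2), q.2 + s • (Real.cos q.1, Real.sin q.1) ∈ R}

/-- from rescaled coordinates to configurations -/
noncomputable def Psi (N : ℝ) (q : ℝ × ℝ × ℝ) : ℝ × (ℝ × ℝ) :=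
  (2 * Real.pi / N * q.1,
    ((q.2.2 - 1 / 2) * Real.cos (2 * Real.pi / N * q.1)
        + 2 * Real.pi / N * q.2.1 * Real.sin (2 * Real.pi / N * q.1),
      (q.2.2 - 1 / 2) * Real.sin (2 * Real.pi / N * q.1)
        - 2 * Real.pi / N * q.2.1 * Real.cos (2 * Real.pi / N * q.1)))

lemma continuous_Psi (N : ℝ) : Continuous (Psi N) := by
  unfold Psi
  fun_prop

lemma Psi_mem {m : ℕ} {B : ℝ → ℝ} (hB : Antitone B) {r0 P τ δ : ℝ} (hr0 : 1 / 10 ≤ r0)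
    (hτ : 0 ≤ τ) (hδ : 0 ≤ δ) (hc1 : 2 * Real.pi / ((2 * m + 1 : ℕ) : ℝ) * (1 / 8) ≤ r0)
    (hc2 : (2 * Real.pi / ((2 * m + 1 : ℕ) : ℝ) * (1 / 8)) ^ 2 ≤ τ / 5)
    (hc3 : (1 + δ) ^ 2 * (2 * Real.pi / ((2 * m + 1 : ℕ) : ℝ) * (1 / 8)) ^ 2 ≤ δ / 50)
    {q : ℝ × ℝ × ℝ} (hq : q ∈ Adm B r0 P τ δ) :
    Psi ((2 * m + 1 : ℕ) : ℝ) q ∈ Conf (Region (2 * m + 1) B r0 P) := by
  obtain ⟨x, b, p⟩ := q
  intro s hs
  have hpi := Real.pi_pos
  have hb0 : 0 ≤ b := hq.2.2.1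
  have hb1 : b ≤ 1 / 8 := hq.2.2.2.1
  have hN0 : (0 : ℝ) < ((2 * m + 1 : ℕ) : ℝ) := by positivity
  have hh0 : 0 ≤ 2 * Real.pi / ((2 * m + 1 : ℕ) : ℝ) * b := by positivity
  have hh1 : 2 * Real.pi / ((2 * m + 1 : ℕ) : ℝ) * b
      ≤ 2 * Real.pi / ((2 * m + 1 : ℕ) : ℝ) * (1 / 8) :=
    mul_le_mul_of_nonneg_left hb1 (by positivity)
  have hh2 : (2 * Real.pi / ((2 * m + 1 : ℕ) : ℝ) * b) ^ 2
      ≤ (2 * Real.pi / ((2 * m + 1 : ℕ) : ℝ) * (1 / 8)) ^ 2 := by gcongr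
  have h := point_mem hB hr0 hτ hδ hh0 (hh1.trans hc1) (hh2.trans hc2)
    ((mul_le_mul_of_nonneg_left hh2 (by positivity)).trans hc3) hq rfl
    (σ := p - 1 / 2 + s) (by linarith [hs.1]) (by linarith [hs.2])
  convert h using 1
  simp only [Psi]
  ext <;> simp <;> ring

/-- rotation -/
noncomputable def rot (ω : ℝ) (z : ℝ × ℝ) : ℝ × ℝ :=
  (z.1 * Real.cos ω - z.2 * Real.sin ω, z.1 * Real.sin ω + z.2 * Real.cos ω)

lemma rot_region {m : ℕ} {B : ℝ → ℝ} {r0 P : ℝ} {z : ℝ × ℝ}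
    (hz : z ∈ Region (2 * m + 1) B r0 P) :
    rot (Real.pi + Real.pi / ((2 * m + 1 : ℕ) : ℝ)) z ∈ Region (2 * m + 1) B r0 P := by
  obtain ⟨ρ, φ, hρ, hz, h⟩ := hz
  have hpi := Real.pi_pos
  set N : ℝ := ((2 * m + 1 : ℕ) : ℝ) with hN
  have hN' : N = 2 * m + 1 := by rw [hN]; push_cast; ring
  have hN0 : 0 < N := by rw [hN']; positivity
  refine ⟨ρ, φ + (Real.pi + Real.pi / N), hρ, ?_, ?_⟩
  · rw [hz, Real.cos_add φ, Real.sin_add φ]
    ext <;> simp only [rot] <;> ring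
  · rcases h with h | ⟨h1, k, hk⟩
    · exact Or.inl h
    · right
      refine ⟨h1, k + ((m : ℤ) + 1), ?_⟩
      have e : N * (φ + (Real.pi + Real.pi / N)) / (2 * Real.pi)
          - ((k + ((m : ℤ) + 1) : ℤ) : ℝ) = N * φ / (2 * Real.pi) - k := by
        push_cast
        field_simp
        rw [hN']
        ring
      rw [e]; exact hk

lemma conj_region {N : ℕ} {B : ℝ → ℝ} {r0 P : ℝ} {z : ℝ × ℝ}
    (hz : z ∈ Region N B r0 P) : (z.1, -z.2) ∈ Region N B r0 P := by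
  obtain ⟨ρ, φ, hρ, hz, h⟩ := hz
  refine ⟨ρ, -φ, hρ, ?_, ?_⟩
  · rw [hz]; simp
  · rcases h with h | ⟨h1, k, hk⟩
    · exact Or.inl h
    · right
      refine ⟨h1, -k, ?_⟩
      have e : (N : ℝ) * (-φ) / (2 * Real.pi) - ((-k : ℤ) : ℝ)
          = -((N : ℝ) * φ / (2 * Real.pi) - k) := by
        push_cast; ring
      rw [e, abs_neg]; exact hk

/-- the symmetry carrying one half period of the motion to the next one -/
noncomputable def Tm (N : ℝ) (q : ℝ × (ℝ × ℝ)) : ℝ × (ℝ × ℝ) :=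
  (q.1 + Real.pi / N, rot (Real.pi + Real.pi / N) q.2)

/-- reflection -/
def Mm (q : ℝ × (ℝ × ℝ)) : ℝ × (ℝ × ℝ) := (-q.1, (q.2.1, -q.2.2))

lemma continuous_Tm (N : ℝ) : Continuous (Tm N) := by
  unfold Tm rot
  fun_prop

lemma continuous_Mm : Continuous Mm := by
  unfold Mm
  fun_prop

lemma Tm_mem {m : ℕ} {B : ℝ → ℝ} {r0 P : ℝ} {q : ℝ × (ℝ × ℝ)}
    (hq : q ∈ Conf (Region (2 * m + 1) B r0 P)) :
    Tm ((2 * m + 1 : ℕ) : ℝ) q ∈ Conf (Region (2 * m + 1) B r0 P) := by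
  intro s hs
  have h := rot_region (hq (-s) ⟨by linarith [hs.2], by linarith [hs.1]⟩)
  convert h using 1
  simp only [Tm, rot, Prod.fst_add, Prod.snd_add, Prod.smul_fst, Prod.smul_snd, smul_eq_mul]
  have e : Real.pi + Real.pi / ((2 * m + 1 : ℕ) : ℝ) = Real.pi / ((2 * m + 1 : ℕ) : ℝ) + Real.pi := by
    ring
  rw [e, Real.cos_add_pi, Real.sin_add_pi]
  ext
  · simp only [Prod.fst_add, Prod.smul_fst, smul_eq_mul, Real.cos_add]
    ring
  · simp only [Prod.snd_add, Prod.smul_snd, smul_eq_mul, Real.sin_add]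
    ring

lemma Mm_mem {N : ℕ} {B : ℝ → ℝ} {r0 P : ℝ} {q : ℝ × (ℝ × ℝ)}
    (hq : q ∈ Conf (Region N B r0 P)) : Mm q ∈ Conf (Region N B r0 P) := by
  intro s hs
  have h := conj_region (hq s hs)
  convert h using 1
  simp only [Mm, Prod.snd_add, Prod.fst_add, Prod.smul_fst, Prod.smul_snd, smul_eq_mul,
    Real.cos_neg, Real.sin_neg]
  ext
  · simp
  · simp only [Prod.snd_add, Prod.smul_snd, smul_eq_mul]
    ring

lemma rot_rot (a b : ℝ) (z : ℝ × ℝ) : rot a (rot b z) = rot (a + b) z := by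
  simp only [rot, Real.cos_add, Real.sin_add]
  ext <;> simp only <;> ring

lemma Tm_iterate (N : ℝ) (n : ℕ) (q : ℝ × (ℝ × ℝ)) :
    (Tm N)^[n] q = (q.1 + n * (Real.pi / N), rot (n * (Real.pi + Real.pi / N)) q.2) := by
  induction n with
  | zero => simp [rot]
  | succ n ih =>
    rw [Function.iterate_succ_apply', ih]
    simp only [Tm, rot_rot]
    push_cast
    ext
    · simp only; ring
    · simp only; congr 2; ring
    · simp only; congr 2; ring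

theorem exists_needle {m : ℕ} {B : ℝ → ℝ} (hB : Antitone B) {r0 P τ δ : ℝ} (hr0 : 1 / 10 ≤ r0)
    (hτ : 0 ≤ τ) (hδ : 0 ≤ δ) (hc1 : 2 * Real.pi / ((2 * m + 1 : ℕ) : ℝ) * (1 / 8) ≤ r0)
    (hc2 : (2 * Real.pi / ((2 * m + 1 : ℕ) : ℝ) * (1 / 8)) ^ 2 ≤ τ / 5)
    (hc3 : (1 + δ) ^ 2 * (2 * Real.pi / ((2 * m + 1 : ℕ) : ℝ) * (1 / 8)) ^ 2 ≤ δ / 50)
    {p0 b1 : ℝ} (hJ : JoinedIn (Adm B r0 P τ δ) (0, 0, p0) (1 / 4, b1, 1 / 2)) :
    ∃ c : ℝ → ℝ × ℝ, ∃ θ : ℝ → ℝ, Continuous c ∧ Continuous θ ∧ c 1 = c 0 ∧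
      (∃ k : ℤ, θ 1 = θ 0 + (2 * (k : ℝ) + 1) * Real.pi) ∧
      ∀ t ∈ Icc (0 : ℝ) 1, ∀ s ∈ Icc (-1 / 2 : ℝ) (1 / 2),
        c t + s • (Real.cos (θ t), Real.sin (θ t)) ∈ Region (2 * m + 1) B r0 P := by
  set N : ℝ := ((2 * m + 1 : ℕ) : ℝ) with hN
  have hN' : N = 2 * m + 1 := by rw [hN]; push_cast; ring
  have hN0 : 0 < N := by rw [hN']; positivity
  set S := Conf (Region (2 * m + 1) B r0 P) with hS
  have hmap : ∀ {x y : ℝ × (ℝ × ℝ)} {F : ℝ × (ℝ × ℝ) → ℝ × (ℝ × ℝ)}, Continuous F →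
      (∀ q ∈ S, F q ∈ S) → JoinedIn S x y → JoinedIn S (F x) (F y) := by
    intro x y F hF hFS h
    exact (h.map hF).mono (by rintro _ ⟨q, hq, rfl⟩; exact hFS q hq)
  have h1 : JoinedIn S (Psi N (0, 0, p0)) (Psi N (1 / 4, b1, 1 / 2)) :=
    (hJ.map (continuous_Psi N)).mono (by
      rintro _ ⟨q, hq, rfl⟩
      exact Psi_mem hB hr0 hτ hδ hc1 hc2 hc3 hq)
  have h2 := hmap continuous_Mm (fun q hq => Mm_mem hq) h1
  have e1 : Mm (Psi N (0, 0, p0)) = Psi N (0, 0, p0) := by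
    simp [Mm, Psi]
  rw [e1] at h2
  set z0 := Mm (Psi N (1 / 4, b1, 1 / 2)) with hz0
  have e2 : Psi N (1 / 4, b1, 1 / 2) = Tm N z0 := by
    rw [hz0]
    simp only [Mm, Psi, Tm, rot]
    have e3 : Real.pi + Real.pi / N = Real.pi / N + Real.pi := by ring
    have e4 : Real.pi / N = 2 * Real.pi / N * (1 / 4) + 2 * Real.pi / N * (1 / 4) := by ring
    rw [e3, Real.cos_add_pi, Real.sin_add_pi]
    have hsc := Real.sin_sq_add_cos_sq (2 * Real.pi / N * (1 / 4))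
    ext
    · simp only; linarith
    · simp only
      rw [e4, Real.cos_add, Real.sin_add]
      linear_combination (-(2 * Real.pi / N * b1 * Real.sin (2 * Real.pi / N * (1 / 4)))) * hsc
    · simp only
      rw [e4, Real.cos_add, Real.sin_add]
      linear_combination ((2 * Real.pi / N * b1 * Real.cos (2 * Real.pi / N * (1 / 4)))) * hsc
  have h3 : JoinedIn S z0 (Tm N z0) := by
    rw [← e2]; exact h2.symm.trans h1
  have h4 : ∀ n : ℕ, JoinedIn S z0 ((Tm N)^[n] z0) := by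
    intro n
    induction n with
    | zero => exact JoinedIn.refl h3.mem.1
    | succ n ih =>
      rw [Function.iterate_succ_apply']
      exact h3.trans (hmap (continuous_Tm N) (fun q hq => Tm_mem hq) ih)
  have h5 := h4 (2 * m + 1)
  rw [Tm_iterate, ← hN] at h5
  have e6 : N * (Real.pi / N) = Real.pi := by field_simp
  have e7 : N * (Real.pi + Real.pi / N) = 0 + ((m + 1 : ℕ) : ℝ) * (2 * Real.pi) := by
    field_simp; rw [hN']; push_cast; ring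
  have e8 : rot (N * (Real.pi + Real.pi / N)) z0.2 = z0.2 := by
    rw [e7]
    simp only [rot, Real.cos_add_nat_mul_two_pi, Real.sin_add_nat_mul_two_pi, Real.cos_zero,
      Real.sin_zero]
    ext <;> simp
  rw [e6, e8] at h5
  set γ := h5.somePath with hγ
  refine ⟨fun t => (γ.extend t).2, fun t => (γ.extend t).1, ?_, ?_, ?_, ⟨0, ?_⟩, ?_⟩
  · exact continuous_snd.comp γ.continuous_extend
  · exact continuous_fst.comp γ.continuous_extend
  · simp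
  · simp
  · intro t ht s hs
    have hmem := h5.somePath_mem ⟨t, ht⟩ s hs
    rw [← hγ] at hmem
    have e9 : γ.extend t = γ ⟨t, ht⟩ := γ.extend_apply ht
    simp only [e9]
    exact hmem

end Pool.Agent.Helper797.Kakeya
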