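import Mathlib

set_option autoImplicit false

open MeasureTheory Set

namespace Pool.Agent.Helper797.Kakeya

/-- The star shaped region with `N`-fold rotational symmetry.  A point with polar coordinates
`(ρ, φ)` belongs to it when `ρ ≤ r0`, or when `ρ ≤ P` and the polar angle is within
`(2π/N) B(ρ)/ρ` of a multiple of `2π/N`. -/
def Region (N : ℕ) (B : ℝ → ℝ) (r0 P : ℝ) : Set (ℝ × ℝ) :=
  {z | ∃ ρ φ : ℝ, 0 ≤ ρ ∧ z = (ρ * Real.cos φ, ρ * Real.sin φ) ∧
      (ρ ≤ r0 ∨ (ρ ≤ P ∧ ∃ k : ℤ, ρ * |(N : ℝ) * φ / (2 * Real.pi) - k| ≤ B ρ))}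

lemma starConvex_region (N : ℕ) {B : ℝ → ℝ} (hB : Antitone B) {r0 : ℝ} (P : ℝ) :
    StarConvex ℝ (0 : ℝ × ℝ) (Region N B r0 P) := by
  intro z hz a b ha hb hab
  obtain ⟨ρ, φ, hρ, hz, h⟩ := hz
  have hb1 : b ≤ 1 := by linarith
  have hbρ : b * ρ ≤ ρ := by nlinarith
  refine ⟨b * ρ, φ, by positivity, ?_, ?_⟩
  · rw [hz]; ext <;> simp <;> ring
  · by_cases hle : b * ρ ≤ r0
    · exact Or.inl hle
    · right
      rcases h with h | ⟨h1, k, hk⟩
      · exact absurd (hbρ.trans h) hle
      · refine ⟨hbρ.trans h1, k, ?_⟩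
        calc b * ρ * |(N : ℝ) * φ / (2 * Real.pi) - k|
            ≤ ρ * |(N : ℝ) * φ / (2 * Real.pi) - k| :=
              mul_le_mul_of_nonneg_right hbρ (abs_nonneg _)
          _ ≤ B ρ := hk
          _ ≤ B (b * ρ) := hB hbρ

/-- Area (in polar coordinates) of a strip around a ray. -/
lemma lintegral_strip (a b c : ℝ) (κ : ℝ → ℝ) (hκ : Measurable κ) (ha : 0 ≤ a) :
    ∫⁻ p in {p : ℝ × ℝ | p.1 ∈ Icc a b ∧ |p.2 - c| ≤ κ p.1}, ENNReal.ofReal |p.1|
      ≤ ∫⁻ r in Icc a b, ENNReal.ofReal (2 * r * κ r) := by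
  have hS : MeasurableSet {p : ℝ × ℝ | p.1 ∈ Icc a b ∧ |p.2 - c| ≤ κ p.1} :=
    (measurable_fst measurableSet_Icc).inter
      (measurableSet_le (f := fun p : ℝ × ℝ => |p.2 - c|) (g := fun p : ℝ × ℝ => κ p.1)
        (by fun_prop) (hκ.comp measurable_fst))
  rw [← lintegral_indicator hS, Measure.volume_eq_prod, lintegral_prod]
  · rw [← lintegral_indicator measurableSet_Icc]
    apply lintegral_mono
    intro r
    by_cases hr : r ∈ Icc a b
    · have h1 : ∀ y : ℝ, ({p : ℝ × ℝ | p.1 ∈ Icc a b ∧ |p.2 - c| ≤ κ p.1}.indicator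
          (fun p : ℝ × ℝ => ENNReal.ofReal |p.1|)) (r, y)
          = (Icc (c - κ r) (c + κ r)).indicator (fun _ => ENNReal.ofReal |r|) y := by
        intro y
        by_cases hy : y ∈ Icc (c - κ r) (c + κ r)
        · rw [indicator_of_mem hy, indicator_of_mem]
          refine ⟨hr, ?_⟩
          rw [abs_le]; exact ⟨by linarith [hy.1], by linarith [hy.2]⟩
        · rw [indicator_of_notMem hy, indicator_of_notMem]
          rintro ⟨_, h⟩
          rw [abs_le] at h
          exact hy ⟨by simp at h; linarith [h.1], by simp at h; linarith [h.2]⟩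
      have hr0 : 0 ≤ r := ha.trans hr.1
      simp only [h1, indicator_of_mem hr]
      rw [lintegral_indicator measurableSet_Icc, lintegral_const]
      simp only [MeasurableSet.univ, Measure.restrict_apply, univ_inter, Real.volume_Icc]
      rw [← ENNReal.ofReal_mul (abs_nonneg _), abs_of_nonneg hr0]
      apply le_of_eq; congr 1; ring
    · have h1 : ∀ y : ℝ, ({p : ℝ × ℝ | p.1 ∈ Icc a b ∧ |p.2 - c| ≤ κ p.1}.indicator
          (fun p : ℝ × ℝ => ENNReal.ofReal |p.1|)) (r, y) = 0 := by
        intro y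
        rw [indicator_of_notMem]
        rintro ⟨h, _⟩
        exact hr h
      simp only [h1, indicator_of_notMem hr, lintegral_zero, le_refl]
  · apply Measurable.aemeasurable
    exact Measurable.indicator (by fun_prop) hS

/-- the polar map does not increase the polar area -/
lemma volume_polar_image_le (a b c : ℝ) (κ : ℝ → ℝ) (hκ : Measurable κ) (ha : 0 ≤ a) :
    volume (polarCoord.symm '' {p : ℝ × ℝ | p.1 ∈ Icc a b ∧ |p.2 - c| ≤ κ p.1})
      ≤ ∫⁻ r in Icc a b, ENNReal.ofReal (2 * r * κ r) := by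
  have hS : MeasurableSet {p : ℝ × ℝ | p.1 ∈ Icc a b ∧ |p.2 - c| ≤ κ p.1} :=
    (measurable_fst measurableSet_Icc).inter
      (measurableSet_le (f := fun p : ℝ × ℝ => |p.2 - c|) (g := fun p : ℝ × ℝ => κ p.1)
        (by fun_prop) (hκ.comp measurable_fst))
  have h := addHaar_image_le_lintegral_abs_det_fderiv (volume : Measure (ℝ × ℝ)) hS
    (fun p _ => (hasFDerivAt_polarCoord_symm p).hasFDerivWithinAt)
  refine h.trans ?_
  simp only [det_fderivPolarCoordSymm]
  exact lintegral_strip a b c κ hκ ha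

theorem volume_region_le {N : ℕ} (hN : 0 < N) {B : ℝ → ℝ} (hBc : Continuous B)
    (hB0 : ∀ r, 0 ≤ B r) {r0 P : ℝ} (h0 : 0 < r0) (hP : r0 ≤ P) :
    volume (Region N B r0 P)
      ≤ ENNReal.ofReal (Real.pi * r0 ^ 2 + 4 * Real.pi * ∫ r in r0..P, B r) := by
  have hNr : (0 : ℝ) < N := by exact_mod_cast hN
  have hpi := Real.pi_pos
  set D : Set (ℝ × ℝ) := {p : ℝ × ℝ | p.1 ∈ Icc 0 r0 ∧ |p.2 - Real.pi| ≤ (fun _ => Real.pi) p.1}
    with hD
  set S : Fin N → Set (ℝ × ℝ) := fun k => {p : ℝ × ℝ | p.1 ∈ Icc r0 P ∧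
    |p.2 - 2 * Real.pi * (k : ℕ) / N| ≤ (fun r => 2 * Real.pi / N * (B r / r)) p.1} with hS
  have hsub : Region N B r0 P ⊆ polarCoord.symm '' D ∪ ⋃ k : Fin N, polarCoord.symm '' S k := by
    rintro z ⟨ρ, φ, hρ, hz, h⟩
    by_cases hle : ρ ≤ r0
    · left
      set q : ℤ := ⌊φ / (2 * Real.pi)⌋ with hq
      have hq1 : (q : ℝ) ≤ φ / (2 * Real.pi) := Int.floor_le _
      have hq2 : φ / (2 * Real.pi) < q + 1 := Int.lt_floor_add_one _
      rw [le_div_iff₀ (by positivity)] at hq1
      rw [div_lt_iff₀ (by positivity)] at hq2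
      refine ⟨(ρ, φ - q * (2 * Real.pi)), ⟨⟨hρ, hle⟩, ?_⟩, ?_⟩
      · simp only
        rw [abs_le]; constructor <;> nlinarith
      · simp only [polarCoord_symm_apply]
        rw [hz, Real.cos_sub_int_mul_two_pi, Real.sin_sub_int_mul_two_pi]
    · right
      rcases h with h | ⟨h1, k, hk⟩
      · exact absurd h hle
      push Not at hle
      have hρ0 : 0 < ρ := h0.trans hle
      have hNz : (N : ℤ) ≠ 0 := by exact_mod_cast hN.ne'
      have hNp : (0 : ℤ) < N := by exact_mod_cast hN
      have hr1 := Int.emod_nonneg k hNz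
      have hr2 := Int.emod_lt_of_pos k hNp
      have hrq := Int.emod_add_mul_ediv k N
      set q : ℤ := k / N
      obtain ⟨m, hm⟩ := Int.eq_ofNat_of_zero_le hr1
      have hmN : m < N := by
        have : (m : ℤ) < N := by rw [← hm]; exact hr2
        exact_mod_cast this
      rw [mem_iUnion]
      refine ⟨⟨m, hmN⟩, (ρ, φ - q * (2 * Real.pi)), ⟨⟨hle.le, h1⟩, ?_⟩, ?_⟩
      · simp only
        have hkR : (k : ℝ) = m + N * q := by
          have : (k : ℤ) = m + N * q := by rw [← hm]; exact hrq.symm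
          exact_mod_cast this
        have e1 : φ - q * (2 * Real.pi) - 2 * Real.pi * m / N
            = (2 * Real.pi / N) * ((N : ℝ) * φ / (2 * Real.pi) - k) := by
          rw [hkR]; field_simp; ring
        rw [e1, abs_mul, abs_of_pos (by positivity)]
        apply mul_le_mul_of_nonneg_left _ (by positivity)
        rw [le_div_iff₀ hρ0, mul_comm]; exact hk
      · simp only [polarCoord_symm_apply]
        rw [hz, Real.cos_sub_int_mul_two_pi, Real.sin_sub_int_mul_two_pi]
  have hvD : volume (polarCoord.symm '' D) ≤ ENNReal.ofReal (Real.pi * r0 ^ 2) := by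
    refine (volume_polar_image_le 0 r0 Real.pi (fun _ => Real.pi) measurable_const le_rfl).trans ?_
    rw [← ofReal_integral_eq_lintegral_ofReal]
    · apply ENNReal.ofReal_le_ofReal
      rw [integral_Icc_eq_integral_Ioc, ← intervalIntegral.integral_of_le h0.le]
      have : (fun x : ℝ => 2 * x * Real.pi) = fun x => (2 * Real.pi) * x := by ext x; ring
      rw [this, intervalIntegral.integral_const_mul, integral_id]
      apply le_of_eq; ring
    · exact (Continuous.continuousOn (by fun_prop)).integrableOn_Icc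
    · rw [Filter.EventuallyLE, ae_restrict_iff' measurableSet_Icc]
      filter_upwards with x hx
      simp only [Pi.zero_apply]
      have := hx.1
      positivity
  have hvS : ∀ k : Fin N, volume (polarCoord.symm '' S k)
      ≤ ENNReal.ofReal ((4 * Real.pi / N) * ∫ r in r0..P, B r) := by
    intro k
    refine (volume_polar_image_le r0 P _ (fun r => 2 * Real.pi / N * (B r / r)) ?_ h0.le).trans ?_
    · exact ((hBc.measurable.div measurable_id).const_mul _)
    · have e : ∫⁻ r in Icc r0 P, ENNReal.ofReal (2 * r * (2 * Real.pi / N * (B r / r)))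
          = ∫⁻ r in Icc r0 P, ENNReal.ofReal ((4 * Real.pi / N) * B r) := by
        apply setLIntegral_congr_fun measurableSet_Icc
        intro r hr
        have hr0 : r ≠ 0 := (h0.trans_le hr.1).ne'
        simp only
        congr 1
        field_simp
        ring
      rw [e, ← ofReal_integral_eq_lintegral_ofReal]
      · apply ENNReal.ofReal_le_ofReal
        rw [integral_Icc_eq_integral_Ioc, ← intervalIntegral.integral_of_le hP,
          intervalIntegral.integral_const_mul]
      · exact (Continuous.continuousOn (by fun_prop)).integrableOn_Icc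
      · filter_upwards with x
        simp only [Pi.zero_apply]
        have := hB0 x
        positivity
  have hI : 0 ≤ ∫ r in r0..P, B r := intervalIntegral.integral_nonneg hP (fun x _ => hB0 x)
  calc volume (Region N B r0 P)
      ≤ volume (polarCoord.symm '' D ∪ ⋃ k : Fin N, polarCoord.symm '' S k) := measure_mono hsub
    _ ≤ volume (polarCoord.symm '' D) + volume (⋃ k : Fin N, polarCoord.symm '' S k) :=
        measure_union_le _ _
    _ ≤ ENNReal.ofReal (Real.pi * r0 ^ 2) + ∑ k : Fin N, volume (polarCoord.symm '' S k) :=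
        add_le_add hvD (measure_iUnion_fintype_le _ _)
    _ ≤ ENNReal.ofReal (Real.pi * r0 ^ 2)
        + ∑ _k : Fin N, ENNReal.ofReal ((4 * Real.pi / N) * ∫ r in r0..P, B r) := by
        gcongr with k _
        exact hvS k
    _ = ENNReal.ofReal (Real.pi * r0 ^ 2 + 4 * Real.pi * ∫ r in r0..P, B r) := by
        rw [Finset.sum_const, Finset.card_univ, Fintype.card_fin, nsmul_eq_mul,
          ← ENNReal.ofReal_natCast, ← ENNReal.ofReal_mul (by positivity),
          ← ENNReal.ofReal_add (by positivity) (by positivity)]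
        congr 1
        field_simp

end Pool.Agent.Helper797.Kakeya
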