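import Pool.Agent.Helper797.KakeyaPath

set_option autoImplicit false

open MeasureTheory Set

namespace Pool.Agent.Helper797.Kakeya

/-- needle lines that stay inside the region -/
def Node (B : ℝ → ℝ) (r0 δ x b : ℝ) : Prop :=
  0 ≤ x ∧ x ≤ 1 / 4 ∧ 0 ≤ b ∧ b ≤ 1 / 8 ∧ ∀ ρ, r0 ≤ ρ → (1 + δ) * b ≤ x * ρ + B ρ

lemma node_combo {B : ℝ → ℝ} {r0 δ x0 b0 x1 b1 t : ℝ} (h0 : Node B r0 δ x0 b0)
    (h1 : Node B r0 δ x1 b1) (ht0 : 0 ≤ t) (ht1 : t ≤ 1) :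
    Node B r0 δ (x0 + t * (x1 - x0)) (b0 + t * (b1 - b0)) := by
  obtain ⟨a1, a2, a3, a4, a5⟩ := h0
  obtain ⟨c1, c2, c3, c4, c5⟩ := h1
  refine ⟨by nlinarith, by nlinarith, by nlinarith, by nlinarith, ?_⟩
  intro ρ hρ
  have e1 := a5 ρ hρ
  have e2 := c5 ρ hρ
  have e3 := mul_le_mul_of_nonneg_left e1 (sub_nonneg.mpr ht1)
  have e4 := mul_le_mul_of_nonneg_left e2 ht0
  nlinarith

lemma mem_adm {B : ℝ → ℝ} {r0 P τ δ x b ξj βj ξk βk : ℝ} (hP : P ≤ 9 / 10) (hτ : 0 ≤ τ)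
    (hP1 : 1 / 10 + τ ≤ 1 + 2 * τ - P) (hj : ∀ r, βj - ξj * r ≤ B r)
    (hk : ∀ r, βk - ξk * r ≤ B r) (hn : Node B r0 δ x b) (hpos : 0 < x + ξj)
    (l : (1 + 2 * τ - P) * (x + ξj) ≤ b + βj) (u : b + βj ≤ P * (x + ξj))
    (F : 0 ≤ (b + βj) * (1 / 2 - x + ξk) + (b + βk) * (x + ξj)
      - (1 + 2 * τ) * (x + ξj) * (1 / 2 - x + ξk)) :
    (x, b, (b + βj) / (x + ξj) - τ) ∈ Adm B r0 P τ δ := by
  obtain ⟨a1, a2, a3, a4, a5⟩ := hn
  set p := (b + βj) / (x + ξj) with hp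
  have hpe : p * (x + ξj) = b + βj := by rw [hp]; field_simp
  have hp1 : 1 + 2 * τ - P ≤ p := by
    rw [hp, le_div_iff₀ hpos]; exact l
  have hp2 : p ≤ P := by
    rw [hp, div_le_iff₀ hpos]; exact u
  refine ⟨a1, a2, a3, a4, ?_, ?_, ?_, ?_, a5, ?_, ?_⟩
  · simp only; linarith
  · simp only; linarith
  · simp only; linarith
  · simp only; linarith
  · simp only
    have e : p - τ + τ = p := by ring
    rw [e]
    have := hj p
    nlinarith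
  · simp only
    have e : 1 - (p - τ) + τ = 1 + 2 * τ - p := by ring
    rw [e]
    have h1 := hk (1 + 2 * τ - p)
    have h2 : (1 + 2 * τ - p) * (1 / 2 - x + ξk) ≤ b + βk := by
      apply le_of_mul_le_mul_right _ hpos
      have : (1 + 2 * τ - p) * (1 / 2 - x + ξk) * (x + ξj)
        = (1 + 2 * τ) * (x + ξj) * (1 / 2 - x + ξk) - (p * (x + ξj)) * (1 / 2 - x + ξk) := by ring
      rw [this, hpe]
      linarith
    nlinarith

lemma seg {B : ℝ → ℝ} {r0 P τ δ x0 x1 b0 b1 ξj βj ξk βk : ℝ} (v : ℝ) (hP : P ≤ 9 / 10)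
    (hτ : 0 ≤ τ) (hP1 : 1 / 10 + τ ≤ 1 + 2 * τ - P) (hj : ∀ r, βj - ξj * r ≤ B r)
    (hk : ∀ r, βk - ξk * r ≤ B r) (hn0 : Node B r0 δ x0 b0) (hn1 : Node B r0 δ x1 b1)
    (hpos : 0 < x0 + ξj) (hx : x0 ≤ x1)
    (l0 : (1 + 2 * τ - P) * (x0 + ξj) ≤ b0 + βj) (u0 : b0 + βj ≤ P * (x0 + ξj))
    (l1 : (1 + 2 * τ - P) * (x1 + ξj) ≤ b1 + βj) (u1 : b1 + βj ≤ P * (x1 + ξj))
    (F0 : (1 + 2 * τ) * (x1 - x0) ^ 2 * v ^ 2 ≤
      (b0 + βj) * (1 / 2 - x0 + ξk) + (b0 + βk) * (x0 + ξj)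
      - (1 + 2 * τ) * (x0 + ξj) * (1 / 2 - x0 + ξk))
    (F1 : (1 + 2 * τ) * (x1 - x0) ^ 2 * (1 - v) ^ 2 ≤
      (b1 + βj) * (1 / 2 - x1 + ξk) + (b1 + βk) * (x1 + ξj)
      - (1 + 2 * τ) * (x1 + ξj) * (1 / 2 - x1 + ξk)) :
    JoinedIn (Adm B r0 P τ δ) (x0, b0, (b0 + βj) / (x0 + ξj) - τ)
      (x1, b1, (b1 + βj) / (x1 + ξj) - τ) := by
  have hpos' : ∀ t ∈ Icc (0 : ℝ) 1, 0 < x0 + t * (x1 - x0) + ξj := by
    intro t ht
    have := mul_nonneg ht.1 (sub_nonneg.mpr hx)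
    linarith
  refine JoinedIn.ofLine (f := fun t => (x0 + t * (x1 - x0), b0 + t * (b1 - b0),
    (b0 + t * (b1 - b0) + βj) / (x0 + t * (x1 - x0) + ξj) - τ)) ?_ ?_ ?_ ?_
  · apply ContinuousOn.prodMk
    · fun_prop
    · apply ContinuousOn.prodMk
      · fun_prop
      · apply ContinuousOn.sub _ continuousOn_const
        apply ContinuousOn.div
        · fun_prop
        · fun_prop
        · intro t ht
          exact (hpos' t ht).ne'
  · simp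
  · simp
  · rintro _ ⟨t, ht, rfl⟩
    have ht0 := ht.1
    have ht1 := ht.2
    apply mem_adm hP hτ hP1 hj hk (node_combo hn0 hn1 ht0 ht1) (hpos' t ht)
    · have e3 := mul_le_mul_of_nonneg_left l0 (sub_nonneg.mpr ht1)
      have e4 := mul_le_mul_of_nonneg_left l1 ht0
      nlinarith
    · have e3 := mul_le_mul_of_nonneg_left u0 (sub_nonneg.mpr ht1)
      have e4 := mul_le_mul_of_nonneg_left u1 ht0
      nlinarith
    · have e3 := mul_le_mul_of_nonneg_left F0 (sub_nonneg.mpr ht1)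
      have e4 := mul_le_mul_of_nonneg_left F1 ht0
      have e5 : 0 ≤ (1 + 2 * τ) * (x1 - x0) ^ 2 * (t - v) ^ 2 := by positivity
      linarith

/-- first segment -/
lemma seg_first {B : ℝ → ℝ} {r0 P τ δ x1 b1 p ξk βk : ℝ} (hP : P ≤ 9 / 10)
    (hτ : 0 ≤ τ) (hP1 : 1 / 10 + τ ≤ 1 + 2 * τ - P) (hB0 : ∀ r, 0 ≤ B r)
    (hk : ∀ r, βk - ξk * r ≤ B r) (hn0 : Node B r0 δ 0 0) (hn1 : Node B r0 δ x1 b1)
    (hp1 : 1 + 2 * τ - P ≤ p) (hp2 : p ≤ P) (hpb : p * x1 ≤ b1)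
    (c0 : (1 + 2 * τ - p) * (1 / 2 + ξk) ≤ βk)
    (c1 : (1 + 2 * τ - p) * (1 / 2 - x1 + ξk) ≤ b1 + βk) :
    JoinedIn (Adm B r0 P τ δ) (0, 0, p - τ) (x1, b1, p - τ) := by
  refine JoinedIn.ofLine (f := fun t => (t * x1, t * b1, p - τ)) ?_ ?_ ?_ ?_
  · exact Continuous.continuousOn (by fun_prop)
  · simp
  · simp
  · rintro _ ⟨t, ht, rfl⟩
    have ht0 := ht.1
    have ht1 := ht.2
    have hn := node_combo hn0 hn1 ht0 ht1
    simp only [sub_zero, zero_add] at hn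
    obtain ⟨a1, a2, a3, a4, a5⟩ := hn
    refine ⟨a1, a2, a3, a4, ?_, ?_, ?_, ?_, a5, ?_, ?_⟩
    · simp only; linarith
    · simp only; linarith
    · simp only; linarith
    · simp only; linarith
    · simp only
      have e : p - τ + τ = p := by ring
      rw [e]
      have := hB0 p
      nlinarith
    · simp only
      have e : 1 - (p - τ) + τ = 1 + 2 * τ - p := by ring
      rw [e]
      have h1 := hk (1 + 2 * τ - p)
      have e3 := mul_le_mul_of_nonneg_left c0 (sub_nonneg.mpr ht1)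
      have e4 := mul_le_mul_of_nonneg_left c1 ht0
      nlinarith

/-- sliding the needle along itself -/
lemma slide {B : ℝ → ℝ} {r0 P τ δ x b p p' : ℝ} (hB : Antitone B)
    (h : (x, b, p) ∈ Adm B r0 P τ δ) (h' : (x, b, p') ∈ Adm B r0 P τ δ) :
    JoinedIn (Adm B r0 P τ δ) (x, b, p) (x, b, p') := by
  refine JoinedIn.ofLine (f := fun t => (x, b, p + t * (p' - p))) ?_ ?_ ?_ ?_
  · exact Continuous.continuousOn (by fun_prop)
  · simp
  · simp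
  · rintro _ ⟨t, ht, rfl⟩
    have ht0 := ht.1
    have ht1 := ht.2
    obtain ⟨a1, a2, a3, a4, a5, a6, a7, a8, a9, a10, a11⟩ := h
    obtain ⟨-, -, -, -, c5, c6, c7, c8, -, c10, c11⟩ := h'
    simp only at a1 a2 a3 a4 a5 a6 a7 a8 a9 a10 a11 c5 c6 c7 c8 c10 c11
    have key2 : ∀ s s' : ℝ, s ≤ s' → (s' + τ) * x - b ≤ B (s' + τ) → (s + τ) * x - b ≤ B (s + τ) := by
      intro s s' hs h
      have h1 : B (s' + τ) ≤ B (s + τ) := hB (by linarith)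
      nlinarith
    have key3 : ∀ s s' : ℝ, s' ≤ s → (1 - s' + τ) * (1 / 2 - x) - b ≤ B (1 - s' + τ) →
        (1 - s + τ) * (1 / 2 - x) - b ≤ B (1 - s + τ) := by
      intro s s' hs h
      have h1 : B (1 - s' + τ) ≤ B (1 - s + τ) := hB (by linarith)
      nlinarith
    refine ⟨a1, a2, a3, a4, ?_, ?_, ?_, ?_, a9, ?_, ?_⟩
    · simp only; nlinarith
    · simp only; nlinarith
    · simp only; nlinarith
    · simp only; nlinarith
    · simp only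
      rcases le_total p p' with hpp | hpp
      · exact key2 _ p' (by nlinarith) c10
      · exact key2 _ p (by nlinarith) a10
    · simp only
      rcases le_total p p' with hpp | hpp
      · exact key3 _ p (by nlinarith) a11
      · exact key3 _ p' (by nlinarith) c11

lemma glue {B : ℝ → ℝ} {r0 P τ δ x b p p' : ℝ} {z w : ℝ × ℝ × ℝ} (hB : Antitone B)
    (h1 : JoinedIn (Adm B r0 P τ δ) z (x, b, p)) (h2 : JoinedIn (Adm B r0 P τ δ) (x, b, p') w) :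
    JoinedIn (Adm B r0 P τ δ) z w :=
  (h1.trans (slide hB h1.mem.2 h2.mem.1)).trans h2

end Pool.Agent.Helper797.Kakeya
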