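import Pool.Agent.Helper797.KakeyaCert

set_option autoImplicit false

open MeasureTheory Set

namespace Pool.Agent.Helper797.Kakeya

lemma int_hinge (a : ℝ) {c r0 P : ℝ} (h1 : r0 ≤ c) (h2 : c ≤ P) :
    ∫ r in r0..P, a * max 0 (c - r) = a * (c - r0) ^ 2 / 2 := by
  have hc : Continuous fun r : ℝ => a * max 0 (c - r) := by fun_prop
  rw [← intervalIntegral.integral_add_adjacent_intervals (hc.intervalIntegrable r0 c)
    (hc.intervalIntegrable c P)]
  have e1 : ∫ r in r0..c, a * max 0 (c - r) = ∫ r in r0..c, a * (c - r) := by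
    apply intervalIntegral.integral_congr
    intro r hr
    rw [uIcc_of_le h1] at hr
    simp only
    rw [max_eq_right (by linarith [hr.2])]
  have e2 : ∫ r in c..P, a * max 0 (c - r) = 0 := by
    rw [intervalIntegral.integral_congr (g := fun _ => (0 : ℝ))]
    · simp
    · intro r hr
      rw [uIcc_of_le h2] at hr
      simp only
      rw [max_eq_left (by linarith [hr.1])]; ring
  rw [e1, e2, intervalIntegral.integral_const_mul, intervalIntegral.integral_sub (by simp) (by simp)]
  simp
  ring

lemma int_BB : ∫ r in ((14687 / 100000) : ℝ)..(5333 / 6250), BB r = (17221288041263 / 1000000000000000) := by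
  unfold BB
  repeat rw [intervalIntegral.integral_add]
  · rw [int_hinge (809 / 100000) (c := (5333 / 6250)) (by norm_num) (by norm_num),
      int_hinge (109 / 6250) (c := (78757 / 100000)) (by norm_num) (by norm_num),
      int_hinge (3403 / 100000) (c := (75301 / 100000)) (by norm_num) (by norm_num),
      int_hinge (3063 / 100000) (c := (13437 / 25000)) (by norm_num) (by norm_num),
      int_hinge (997 / 100000) (c := (25509 / 50000)) (by norm_num) (by norm_num),
      int_hinge (9 / 1000) (c := (48113 / 100000)) (by norm_num) (by norm_num),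
      int_hinge (649 / 50000) (c := (22729 / 50000)) (by norm_num) (by norm_num),
      int_hinge (69 / 5000) (c := (40921 / 100000)) (by norm_num) (by norm_num),
      int_hinge (1323 / 100000) (c := (18533 / 50000)) (by norm_num) (by norm_num),
      int_hinge (41 / 3125) (c := (16593 / 50000)) (by norm_num) (by norm_num),
      int_hinge (1313 / 100000) (c := (14453 / 50000)) (by norm_num) (by norm_num),
      int_hinge (1179 / 100000) (c := (3149 / 12500)) (by norm_num) (by norm_num),
      int_hinge (273 / 25000) (c := (429 / 2000)) (by norm_num) (by norm_num),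
      int_hinge (1153 / 100000) (c := (18027 / 100000)) (by norm_num) (by norm_num)]
    norm_num
  all_goals exact Continuous.intervalIntegrable (by fun_prop) _ _

/-- The star shaped Kakeya region. -/
def Star : Set (ℝ × ℝ) := Region (2 * 1000000 + 1) BB (14687 / 100000) (5333 / 6250)

lemma Star_volume : volume Star ≤ ENNReal.ofReal ((22613987266263 / 250000000000000) * Real.pi) := by
  have h := volume_region_le (N := 2 * 1000000 + 1) (by norm_num) BB_continuous BB_nonneg
    (r0 := (14687 / 100000)) (P := (5333 / 6250)) (by norm_num) (by norm_num)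
  refine h.trans (ENNReal.ofReal_le_ofReal ?_)
  rw [int_BB]
  apply le_of_eq
  ring

lemma Star_kakeya : (∃ x : ℝ × ℝ, StarConvex ℝ x Star) ∧
    ∃ c : ℝ → ℝ × ℝ, ∃ θ : ℝ → ℝ, Continuous c ∧ Continuous θ ∧ c 1 = c 0 ∧
      (∃ k : ℤ, θ 1 = θ 0 + (2 * (k : ℝ) + 1) * Real.pi) ∧
      ∀ t ∈ Icc (0 : ℝ) 1, ∀ s ∈ Icc (-1 / 2 : ℝ) (1 / 2),
        c t + s • (Real.cos (θ t), Real.sin (θ t)) ∈ Star := by
  refine ⟨⟨0, starConvex_region _ BB_antitone _⟩, ?_⟩
  obtain ⟨p0, b1, hJ⟩ := chain
  have hpi := Real.pi_pos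
  have hpi2 := Real.pi_lt_d2
  have e0 : 2 * Real.pi / ((2 * 1000000 + 1 : ℕ) : ℝ) * (1 / 8) ≤ 4 / 10000000 := by
    push_cast
    rw [div_mul_eq_mul_div, div_le_iff₀ (by norm_num)]
    linarith
  have e1 : 0 ≤ 2 * Real.pi / ((2 * 1000000 + 1 : ℕ) : ℝ) * (1 / 8) := by positivity
  have e2 : (2 * Real.pi / ((2 * 1000000 + 1 : ℕ) : ℝ) * (1 / 8)) ^ 2 ≤ (4 / 10000000) ^ 2 := by
    gcongr
  refine exists_needle (m := 1000000) BB_antitone (by norm_num) (by norm_num) (by norm_num)
    (e0.trans (by norm_num)) (e2.trans (by norm_num)) ?_ hJ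
  calc _ ≤ (1 + (1 / 1000000000) : ℝ) ^ 2 * (4 / 10000000) ^ 2 := by gcongr
    _ ≤ _ := by norm_num

theorem Star_volume_lt :
    volume Star < ENNReal.ofReal ((5 - 2 * Real.sqrt 2) / 24 * Real.pi) := by
  refine Star_volume.trans_lt ?_
  have hpi := Real.pi_pos
  have hs : Real.sqrt 2 < 1.4143 := by
    rw [Real.sqrt_lt' (by norm_num)]
    norm_num
  have h : ((22613987266263 / 250000000000000) : ℝ) < (5 - 2 * Real.sqrt 2) / 24 := by
    norm_num at hs ⊢
    linarith
  rw [ENNReal.ofReal_lt_ofReal_iff (by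
    apply mul_pos _ hpi
    refine lt_trans ?_ h
    norm_num)]
  exact mul_lt_mul_of_pos_right h hpi

end Pool.Agent.Helper797.Kakeya

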