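import Pool.Agent.Helper797.RotG

set_option autoImplicit false

namespace Pool.Agent.Helper797.Rot

/-- ridge lemma: `ε = 10^-8`, `s0 = 1/20000`, `ℓ = 10^-6`. -/
lemma ridge {p2 p3 e1 e2 σ v : ℝ} (hσ : |σ| ≤ 1 / 20000) (hp2 : |p2| ≤ 10 / 10 ^ 6)
    (hp3 : |p3| ≤ 10 / 10 ^ 6) (he1 : |e1| ≤ 20 / 10 ^ 6) (he2 : |e2| ≤ 20 / 10 ^ 6) :
    (1 / 6) * (v - (p2 - p3)) ^ 2 + (1 / 10 ^ 8 / 16) * p3 ^ 2
      + (2 / 5) * ((1 - (1 + 1 / 10 ^ 8) * σ ^ 2) * p3 + σ * (1 + e2)) ^ 2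
    ≤ 1 / 10 ^ 8 * σ ^ 2 + ((1 - (1 + 1 / 10 ^ 8) * σ ^ 2) * p2 + σ * (1 + e1) - v) ^ 2
      + ((1 - (1 + 1 / 10 ^ 8) * σ ^ 2) * p3 + σ * (1 + e2)) ^ 2 := by
  set N := (1 - (1 + 1 / 10 ^ 8) * σ ^ 2) * p3 + σ * (1 + e2) with hN
  set W := (1 - (1 + 1 / 10 ^ 8) * σ ^ 2) * p2 + σ * (1 + e1) - v with hW
  have hσ2 : σ ^ 2 ≤ (1 / 20000) ^ 2 := by rw [← sq_abs]; gcongr
  -- remainder
  set ρ := -(1 + 1 / 10 ^ 8) * σ ^ 2 * (p2 - p3) + σ * (e1 - e2) with hρ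
  have hv : v - (p2 - p3) = -W + N + ρ := by rw [hW, hN, hρ]; ring
  have hρ2 : ρ ^ 2 ≤ (50 / 10 ^ 6) ^ 2 * σ ^ 2 := by
    have h1 : |ρ| ≤ (50 / 10 ^ 6) * |σ| := by
      rw [hρ]
      refine (abs_add_le _ _).trans ?_
      rw [abs_mul, abs_mul, abs_mul, abs_pow, sq_abs]
      have h2 : |p2 - p3| ≤ 20 / 10 ^ 6 := by
        refine (abs_sub _ _).trans ?_; linarith
      have h3 : |e1 - e2| ≤ 40 / 10 ^ 6 := by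
        refine (abs_sub _ _).trans ?_; linarith
      have h4 : |(-(1 + 1 / 10 ^ 8) : ℝ)| ≤ 2 := by
        rw [abs_neg, abs_of_pos (by norm_num)]; norm_num
      have h5 : σ ^ 2 = |σ| * |σ| := by rw [← sq_abs]; ring
      have h6 : |(-(1 + 1 / 10 ^ 8) : ℝ)| * σ ^ 2 * |p2 - p3| ≤ 2 * (|σ| * (1 / 20000)) * (20 / 10 ^ 6) := by
        rw [h5]; gcongr
      have h7 : |σ| * |e1 - e2| ≤ |σ| * (40 / 10 ^ 6) := by gcongr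
      have h8 := abs_nonneg σ
      nlinarith
    calc ρ ^ 2 = |ρ| ^ 2 := (sq_abs _).symm
      _ ≤ ((50 / 10 ^ 6) * |σ|) ^ 2 := by gcongr
      _ = (50 / 10 ^ 6) ^ 2 * σ ^ 2 := by rw [mul_pow, sq_abs]
  have hq : (v - (p2 - p3)) ^ 2 ≤ 3 * (W ^ 2 + N ^ 2 + ρ ^ 2) := by
    rw [hv]; nlinarith [sq_nonneg (W + N), sq_nonneg (W + ρ), sq_nonneg (N - ρ)]
  -- bound on p3
  have hp : p3 ^ 2 ≤ 3 * N ^ 2 + 4 * σ ^ 2 := by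
    have e : p3 = N - σ * (1 + e2) + (1 + 1 / 10 ^ 8) * σ ^ 2 * p3 := by rw [hN]; ring
    have h1 : (9 / 10) * |p3| ≤ |N| + (11 / 10) * |σ| := by
      have h2 : |p3| ≤ |N| + |σ| * |1 + e2| + (1 + 1 / 10 ^ 8) * σ ^ 2 * |p3| := by
        calc |p3| = |N - σ * (1 + e2) + (1 + 1 / 10 ^ 8) * σ ^ 2 * p3| := by rw [← e]
          _ ≤ |N - σ * (1 + e2)| + |(1 + 1 / 10 ^ 8) * σ ^ 2 * p3| := abs_add_le _ _
          _ ≤ (|N| + |σ * (1 + e2)|) + |(1 + 1 / 10 ^ 8) * σ ^ 2 * p3| := by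
              gcongr; exact abs_sub _ _
          _ = |N| + |σ| * |1 + e2| + (1 + 1 / 10 ^ 8) * σ ^ 2 * |p3| := by
              rw [abs_mul, abs_mul, abs_of_nonneg (by positivity : (0:ℝ) ≤ (1 + 1 / 10 ^ 8) * σ ^ 2)]
      have h3 : |1 + e2| ≤ 11 / 10 := by
        rw [abs_le] at he2 ⊢; constructor <;> linarith [he2.1, he2.2]
      have h4 : (1 + 1 / 10 ^ 8) * σ ^ 2 * |p3| ≤ (1 / 10) * |p3| := by
        gcongr; nlinarith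
      have h5 : |σ| * |1 + e2| ≤ |σ| * (11 / 10) := by gcongr
      linarith
    have h6 : ((9 / 10) * |p3|) ^ 2 ≤ (|N| + (11 / 10) * |σ|) ^ 2 := by
      gcongr
    have h7 : p3 ^ 2 = |p3| ^ 2 := (sq_abs _).symm
    have h8 : N ^ 2 = |N| ^ 2 := (sq_abs _).symm
    have h9 : σ ^ 2 = |σ| ^ 2 := (sq_abs _).symm
    rw [h7, h8, h9]
    nlinarith [sq_nonneg (|N| - (11 / 10) * |σ|), sq_nonneg (|σ|)]
  nlinarith [sq_nonneg W, sq_nonneg N, sq_nonneg σ]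

end Pool.Agent.Helper797.Rot
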