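import Pool.Agent.Helper797.RotPlace2

set_option autoImplicit false

namespace Pool.Agent.Helper797.Rot

noncomputable def gap (F : Frame) : ℝ := rr F + (1 - F.a1) + (1 - F.b2)

lemma a1_le (F : Frame) : F.a1 ≤ 1 := by
  nlinarith [F.haa, sq_nonneg F.a2, sq_nonneg F.a3, sq_nonneg (F.a1 - 1)]

lemma b2_le (F : Frame) : F.b2 ≤ 1 := by
  nlinarith [F.hbb, sq_nonneg F.b1, sq_nonneg F.b3, sq_nonneg (F.b2 - 1)]

lemma rr_nonneg (F : Frame) : 0 ≤ rr F := Real.sqrt_nonneg _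

lemma rr_sq (F : Frame) : rr F ^ 2 = F.a2 ^ 2 + (F.a3 ^ 2 + F.b3 ^ 2) :=
  Real.sq_sqrt (by positivity)

/-- smallness -/
structure Tiny (F : Frame) : Prop where
  near : Near F
  r : rr F ≤ 1 / 10 ^ 12
  a2 : |F.a2| ≤ rr F
  a3 : |F.a3| ≤ rr F
  b3 : |F.b3| ≤ rr F
  b1 : |F.b1| ≤ 3 * rr F
  a1 : |F.a1 - 1| ≤ rr F
  b2 : |F.b2 - 1| ≤ rr F
  c1 : |F.c1| ≤ 3 * rr F
  c2 : |F.c2| ≤ 3 * rr F
  g : gap F ≤ 101 / 100 * rr F

lemma tiny_of (F : Frame) (h : gap F < 1 / 10 ^ 12) : Tiny F := by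
  have h1 := a1_le F
  have h2 := b2_le F
  have h3 := rr_nonneg F
  have h4 := rr_sq F
  have hr : rr F ≤ 1 / 10 ^ 12 := by unfold gap at h; linarith
  have ha1 : 1 - 1 / 10 ^ 12 ≤ F.a1 := by unfold gap at h; linarith
  have hb2 : 1 - 1 / 10 ^ 12 ≤ F.b2 := by unfold gap at h; linarith
  have a2 : |F.a2| ≤ rr F := abs_le_of_sq h3 (by rw [h4]; nlinarith [sq_nonneg F.a3, sq_nonneg F.b3])
  have a3 : |F.a3| ≤ rr F := abs_le_of_sq h3 (by rw [h4]; nlinarith [sq_nonneg F.a2, sq_nonneg F.b3])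
  have b3 : |F.b3| ≤ rr F := abs_le_of_sq h3 (by rw [h4]; nlinarith [sq_nonneg F.a2, sq_nonneg F.a3])
  have gen : ∀ x y a b : ℝ, |x| ≤ a → |y| ≤ b → |x * y| ≤ a * b := by
    intro x y a b hx hy
    rw [abs_mul]
    have := abs_nonneg x
    have := abs_nonneg y
    gcongr
    linarith
  have ab2 : |F.b2| ≤ 1 := by rw [abs_le]; constructor <;> linarith
  have ab3 : |F.b3| ≤ 1 := by linarith
  have aa1 : |F.a1| ≤ 1 := by rw [abs_le]; constructor <;> linarith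
  have t1 := abs_le.mp (gen _ _ _ _ a2 ab2)
  have t2 := abs_le.mp (gen _ _ _ _ a3 ab3)
  have b1 : |F.b1| ≤ 3 * rr F := by
    have e : F.a1 * F.b1 = -(F.a2 * F.b2 + F.a3 * F.b3) := by linarith [F.hab]
    have e2 : |F.a1 * F.b1| ≤ 2 * rr F := by
      rw [e, abs_neg, abs_le]; constructor <;> linarith [t1.1, t1.2, t2.1, t2.2]
    rw [abs_mul, abs_of_pos (by linarith : 0 < F.a1)] at e2
    nlinarith [abs_nonneg F.b1]
  have ab1 : |F.b1| ≤ 1 := by linarith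
  have hrr : rr F ^ 2 ≤ 1 / 10 ^ 12 * rr F := by rw [sq]; gcongr
  have a1' : 1 - F.a1 ≤ rr F ^ 2 := by
    have := F.haa
    rw [h4]
    nlinarith [sq_nonneg F.b3]
  have sb1 : F.b1 ^ 2 ≤ 9 * rr F ^ 2 := by
    rw [← sq_abs]
    calc |F.b1| ^ 2 ≤ (3 * rr F) ^ 2 := by gcongr
      _ = _ := by ring
  have b2' : 1 - F.b2 ≤ 10 * rr F ^ 2 := by
    have e := F.hbb
    have : 1 - F.b2 ≤ F.b1 ^ 2 + F.b3 ^ 2 := by nlinarith
    nlinarith [sq_nonneg F.a2, sq_nonneg F.a3]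
  have a1 : |F.a1 - 1| ≤ rr F := by rw [abs_le]; constructor <;> linarith
  have b2 : |F.b2 - 1| ≤ rr F := by rw [abs_le]; constructor <;> linarith
  have c1 : |F.c1| ≤ 3 * rr F := by
    rw [F.hc1]
    have s1 := abs_le.mp (gen _ _ _ _ a2 ab3)
    have s2 := abs_le.mp (gen _ _ _ _ a3 ab2)
    rw [abs_le]; constructor <;> linarith [s1.1, s1.2, s2.1, s2.2]
  have c2 : |F.c2| ≤ 3 * rr F := by
    rw [F.hc2]
    have s1 := abs_le.mp (gen _ _ _ _ a3 ab1)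
    have s2 := abs_le.mp (gen _ _ _ _ aa1 b3)
    rw [abs_le]; constructor <;> linarith [s1.1, s1.2, s2.1, s2.2]
  have c3 : |F.c3 - 1| ≤ 4 * rr F := by
    rw [F.hc3]
    have e : F.a1 * F.b2 - F.a2 * F.b1 - 1
        = (F.a1 - 1) * F.b2 + (F.b2 - 1) - F.a2 * F.b1 := by ring
    rw [e]
    have s1 := abs_le.mp (gen _ _ _ _ a1 ab2)
    have s2 := abs_le.mp (gen _ _ _ _ a2 ab1)
    have s3 := abs_le.mp b2
    rw [abs_le]; constructor <;> linarith [s1.1, s1.2, s2.1, s2.2, s3.1, s3.2]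
  refine ⟨⟨?_, ?_, ?_, ?_, ?_, ?_, ?_, ?_, ?_⟩, hr, a2, a3, b3, b1, a1, b2, c1, c2, ?_⟩
  · linarith
  · linarith
  · linarith
  · linarith
  · linarith
  · linarith
  · linarith
  · linarith
  · linarith
  · unfold gap; linarith

/-- One sector: what the blocking inequality gives. -/
lemma sector {F : Frame} (hF : Tiny F) (x : Fin 3 → ℝ)
    (hx : ∀ (j : Fin 3) (σ : ℝ), |σ| ≤ 1 / 20000 → InK (img F j σ + x)) (i : Fin 3) :
    ∃ v g : ℝ, |v| ≤ 1 / 10 ^ 10 ∧ |g| ≤ 1 / 1000 ∧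
      |F.a2 - lam F i| - 1 / 1000 * rr F ≤ |v| ∧ |v| ≤ 21 / 10 * rr F ∧
      2 * (cu i * x 0 + su i * x 1) + 1 / 400 * (v * (g + x 2) - GG v) ^ 2
        ≤ 6 / 10 ^ 8 * (F.a3 ^ 2 + F.b3 ^ 2) + 4 / 10 ^ 10 * (|x 0| + |x 1|) := by
  obtain ⟨hN, hr, ha2, ha3, hb3, hb1, ha1, hb2, hc1, hc2, hg⟩ := hF
  obtain ⟨w1, w2, w3⟩ := W_facts hN
  have hr0 := rr_nonneg F
  have hrs := rr_sq F
  have gen : ∀ x y a b : ℝ, |x| ≤ a → |y| ≤ b → |x * y| ≤ a * b := by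
    intro x y a b hx hy
    rw [abs_mul]
    have := abs_nonneg x
    have := abs_nonneg y
    gcongr
    linarith
  have bc := cu_abs i
  have bs := su_abs i
  have hcs : |cu i * su i| ≤ 1 := by simpa using gen _ _ _ _ bc bs
  have hss : |su i * su i| ≤ 1 := by simpa using gen _ _ _ _ bs bs
  have hcc : |cu i * cu i| ≤ 1 := by simpa using gen _ _ _ _ bc bc
  set W2 := F.a3 ^ 2 + F.b3 ^ 2 with hW2
  have hW0 : 0 ≤ W2 := by positivity
  have hWr : W2 ≤ rr F ^ 2 := by rw [hrs]; linarith [sq_nonneg F.a2]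
  set w := Real.sqrt W2 with hw
  have hw0 : 0 ≤ w := Real.sqrt_nonneg _
  have hww : w ^ 2 = W2 := Real.sq_sqrt hW0
  have hwr : w ≤ rr F := by
    have : w ^ 2 ≤ rr F ^ 2 := by rw [hww]; exact hWr
    exact le_of_sq_le_sq this hr0
  have hll := lam_sq_le F i
  rw [← hW2] at hll
  have hl : |lam F i| ≤ w := by
    apply abs_le_of_sq hw0; rw [hww]; exact hll
  have hl0 := sq_nonneg (lam F i)
  have hσ : |-lam F i| ≤ 1 / 20000 := by rw [abs_neg]; linarith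
  set l := lam F i with hldef
  -- e2
  have he2 : |ee2 F i| ≤ 2 * w := by
    have e : ee2 F i = (-su i * F.a3 + cu i * F.b3) - (1 - F.c3) := by unfold ee2; ring
    rw [e]
    have s1 : |-su i * F.a3 + cu i * F.b3| ≤ w := by
      apply abs_le_of_sq hw0
      rw [hww, hW2]
      have e : (-su i * F.a3 + cu i * F.b3) ^ 2 + (cu i * F.a3 + su i * F.b3) ^ 2
          = F.a3 ^ 2 + F.b3 ^ 2 := by
        linear_combination (F.a3 ^ 2 + F.b3 ^ 2) * cs i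
      linarith [sq_nonneg (cu i * F.a3 + su i * F.b3)]
    have s2 : |1 - F.c3| ≤ w := by
      rw [abs_of_nonneg w2]
      have : W2 ≤ w := by
        rw [← hww, sq]; exact mul_le_of_le_one_left hw0 (by linarith)
      linarith
    refine (abs_sub _ _).trans ?_
    linarith
  -- e1
  have he1 : |ee1 F i| ≤ 20 * rr F := by
    have e : ee1 F i = su i * su i * (F.a1 - 1) - cu i * su i * F.b1 - su i * F.c1
        - cu i * su i * F.a2 + cu i * cu i * (F.b2 - 1) + cu i * F.c2 := by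
      unfold ee1
      linear_combination (1:ℝ) * cs i
    have X1 := abs_le.mp (gen _ _ _ _ hss ha1)
    have X2 := abs_le.mp (gen _ _ _ _ hcs hb1)
    have X3 := abs_le.mp (gen _ _ _ _ hcs ha2)
    have X4 := abs_le.mp (gen _ _ _ _ hcc hb2)
    have C1 := abs_le.mp (gen _ _ _ _ bs hc1)
    have C2 := abs_le.mp (gen _ _ _ _ bc hc2)
    rw [e, abs_le]
    constructor <;>
      linarith [X1.1, X1.2, X2.1, X2.2, X3.1, X3.2, X4.1, X4.2, C1.1, C1.2, C2.1, C2.2]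
  have hg2 : g2 F i (-l) = -(l * ((1 + 1 / 10 ^ 8) * l ^ 2 + ee2 F i)) := by
    rw [g2_eq, ← hldef]; ring
  have hl2w : l ^ 2 ≤ 1 / 10 ^ 12 * w := by
    calc l ^ 2 ≤ W2 := hll
      _ = w * w := by rw [← hww]; ring
      _ ≤ (1 / 10 ^ 12) * w := by gcongr; linarith
  have hin : |(1 + 1 / 10 ^ 8) * l ^ 2 + ee2 F i| ≤ 3 * w := by
    refine (abs_add_le _ _).trans ?_
    rw [abs_of_nonneg (by positivity : (0:ℝ) ≤ (1 + 1 / 10 ^ 8) * l ^ 2)]
    linarith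
  have hg2a : |g2 F i (-l)| ≤ 3 * w * |l| := by
    rw [hg2, abs_neg, abs_mul]
    calc |l| * |(1 + 1 / 10 ^ 8) * l ^ 2 + ee2 F i| ≤ |l| * (3 * w) := by gcongr
      _ = 3 * w * |l| := by ring
  have hg2s : g2 F i (-l) ^ 2 ≤ 1 / 10 ^ 8 * l ^ 2 := by
    rw [← sq_abs (g2 F i (-l))]
    calc |g2 F i (-l)| ^ 2 ≤ (3 * w * |l|) ^ 2 := by gcongr
      _ = 9 * w ^ 2 * l ^ 2 := by rw [mul_pow, mul_pow, sq_abs]; ring
      _ ≤ 1 / 10 ^ 8 * l ^ 2 := by
          have : 9 * w ^ 2 ≤ 1 / 10 ^ 8 := by rw [hww]; linarith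
          gcongr
  have hnsq := normsq F i (-l)
  have hLn := L_normsq F i i (-l)
  set A := L1 F i i (-l) with hA
  set B := L2 F i i (-l) with hB
  set G := g2 F i (-l) with hG
  have hl4 : l ^ 2 ≤ 1 / 10 ^ 11 := by linarith
  have hsum1 : A ^ 2 + B ^ 2 ≤ 1 := by
    have := normsq_le F i i hσ
    rw [← hA, ← hB, ← hG] at this
    linarith [sq_nonneg G, sq_nonneg (-l)]
  have hsum2 : 1 - 3 / 10 ^ 8 * l ^ 2 ≤ A ^ 2 + B ^ 2 := by
    have e : A ^ 2 + B ^ 2 + G ^ 2 = (1 - (1 + 1 / 10 ^ 8) * l ^ 2) ^ 2 + 2 * l ^ 2 := by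
      rw [hLn, hnsq]; ring
    have e' : (1 - (1 + 1 / 10 ^ 8) * l ^ 2) ^ 2
        = 1 - 2 * ((1 + 1 / 10 ^ 8) * l ^ 2) + ((1 + 1 / 10 ^ 8) * l ^ 2) ^ 2 := by ring
    rw [e'] at e
    linarith [sq_nonneg ((1 + 1 / 10 ^ 8) * l ^ 2)]
  set ρ := Real.sqrt (A ^ 2 + B ^ 2) with hρ
  have hρ0 : 0 ≤ ρ := Real.sqrt_nonneg _
  have hρρ : ρ ^ 2 = A ^ 2 + B ^ 2 := Real.sq_sqrt (by positivity)
  have hρ1 : ρ ≤ 1 := by rw [hρ]; exact Real.sqrt_le_one.mpr hsum1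
  have hρle : ρ ^ 2 ≤ ρ := by rw [sq]; exact mul_le_of_le_one_left hρ0 hρ1
  have hρ2 : 1 - ρ ≤ 3 / 10 ^ 8 * l ^ 2 := by linarith
  have hρ3 : 999 / 1000 ≤ ρ := by linarith
  have hρpos : 0 < ρ := by linarith
  -- B
  have hBe : B - (F.a2 - l) = (p2 F i - F.a2) - (1 + 1 / 10 ^ 8) * l ^ 2 * p2 F i
      - l * ee1 F i := by
    rw [hB, L2_eq]; ring
  obtain ⟨np, -, -, -⟩ := near_pe hN i
  have hp2 : |p2 F i - F.a2| ≤ W2 := by
    apply abs_le_of_sq hW0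
    refine (p2_sub F i).trans ?_
    gcongr
  have hW2r : W2 ≤ 1 / 10 ^ 12 * rr F := by
    calc W2 ≤ rr F ^ 2 := hWr
      _ = rr F * rr F := by ring
      _ ≤ _ := by gcongr
  have hBd : |B - (F.a2 - l)| ≤ 1 / 1000 * rr F := by
    rw [hBe]
    have s1 : |(1 + 1 / 10 ^ 8) * l ^ 2 * p2 F i| ≤ 2 * W2 := by
      rw [abs_mul, abs_of_nonneg (by positivity : (0:ℝ) ≤ (1 + 1 / 10 ^ 8) * l ^ 2)]
      calc (1 + 1 / 10 ^ 8) * l ^ 2 * |p2 F i| ≤ (1 + 1 / 10 ^ 8) * l ^ 2 * 1 := by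
            have : |p2 F i| ≤ 1 := by linarith
            gcongr
        _ ≤ 2 * W2 := by linarith
    have s2 : |l * ee1 F i| ≤ rr F * (20 * rr F) := gen _ _ _ _ (hl.trans hwr) he1
    have s3 : rr F * (20 * rr F) ≤ 20 / 10 ^ 12 * rr F := by
      calc rr F * (20 * rr F) ≤ (1 / 10 ^ 12) * (20 * rr F) := by gcongr
        _ = _ := by ring
    have t1 := abs_le.mp s1
    have t2 := abs_le.mp s2
    have t3 := abs_le.mp hp2
    rw [abs_le]; constructor <;> linarith [t1.1, t1.2, t2.1, t2.2, t3.1, t3.2]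
  have hB1 : |F.a2 - l| - 1 / 1000 * rr F ≤ |B| := by
    have : |F.a2 - l| ≤ |B| + |B - (F.a2 - l)| := by
      have e : F.a2 - l = B - (B - (F.a2 - l)) := by ring
      calc |F.a2 - l| = |B - (B - (F.a2 - l))| := by rw [← e]
        _ ≤ _ := abs_sub _ _
    linarith
  have hB2 : |B| ≤ 2001 / 1000 * rr F := by
    have e : |B| ≤ |F.a2 - l| + |B - (F.a2 - l)| := by
      have e : B = (F.a2 - l) + (B - (F.a2 - l)) := by ring
      calc |B| = |(F.a2 - l) + (B - (F.a2 - l))| := by rw [← e]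
        _ ≤ _ := abs_add_le _ _
    have e2 : |F.a2 - l| ≤ |F.a2| + |l| := abs_sub _ _
    linarith
  -- A > 0
  have hApos : 0 < A := by
    obtain ⟨m1, m2, -⟩ := near_img hN i hσ
    have k1 := abs_le.mp (gen _ _ _ _ bc m1)
    have k2 := abs_le.mp (gen _ _ _ _ bs m2)
    rw [hA]; unfold L1
    have e : cu i * g0 F i (-l) + su i * g1 F i (-l)
        = cu i * (g0 F i (-l) - cu i) + su i * (g1 F i (-l) - su i) + (cu i ^ 2 + su i ^ 2) := by ring
    rw [e, cs i]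
    linarith [k1.1, k1.2, k2.1, k2.2]
  have hvabs : |B / ρ| = |B| / ρ := by rw [abs_div, abs_of_pos hρpos]
  have hv1 : |B| ≤ |B / ρ| := by
    rw [hvabs, le_div_iff₀ hρpos]
    exact mul_le_of_le_one_right (abs_nonneg B) hρ1
  have hv2 : |B / ρ| ≤ 21 / 10 * rr F := by
    rw [hvabs, div_le_iff₀ hρpos]
    calc |B| ≤ 2001 / 1000 * rr F := hB2
      _ ≤ 21 / 10 * rr F * (999 / 1000) := by linarith
      _ ≤ 21 / 10 * rr F * ρ := by gcongr
  have hv3 : |B / ρ| ≤ 1 / 10 ^ 10 := by linarith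
  have hav : (A / ρ) ^ 2 + (B / ρ) ^ 2 = 1 := by
    rw [div_pow, div_pow, ← add_div, ← hρρ, div_self (by positivity)]
  have hcell := cell_of_inK F x i i (hx i (-l) hσ) hav (div_pos hApos hρpos) hv3
  unfold Cell at hcell
  rw [← hA, ← hB, ← hG] at hcell
  have hdot : A / ρ * A + B / ρ * B = ρ := by
    have : A / ρ * A + B / ρ * B = (A ^ 2 + B ^ 2) / ρ := by ring
    rw [this, ← hρρ]; field_simp
  rw [hdot] at hcell
  set v := B / ρ with hv
  set a := A / ρ with ha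
  have ha0 : 0 < a := div_pos hApos hρpos
  have hale : a ≤ 1 :=
    le_of_abs_le (abs_le_of_sq (by norm_num) (by linarith [sq_nonneg v] : a ^ 2 ≤ 1 ^ 2))
  have hage : 1 - a ≤ |v| := by
    have h0 : a ^ 2 ≤ a := by rw [sq]; exact mul_le_of_le_one_left ha0.le hale
    have h1 : 1 - a ≤ v ^ 2 := by linarith
    have h2 : v ^ 2 ≤ |v| := by
      rw [← sq_abs, sq]
      exact mul_le_of_le_one_left (abs_nonneg v) (by linarith)
    linarith
  have hS1 : |cu i * x 0 + su i * x 1| ≤ |x 0| + |x 1| := by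
    refine (abs_add_le _ _).trans ?_
    rw [abs_mul, abs_mul]
    calc |cu i| * |x 0| + |su i| * |x 1| ≤ 1 * |x 0| + 1 * |x 1| := by gcongr
      _ = _ := by ring
  have hS2 : |-su i * x 0 + cu i * x 1| ≤ |x 0| + |x 1| := by
    refine (abs_add_le _ _).trans ?_
    rw [abs_mul, abs_mul, abs_neg]
    calc |su i| * |x 0| + |cu i| * |x 1| ≤ 1 * |x 0| + 1 * |x 1| := by gcongr
      _ = _ := by ring
  have hS3 : |v * (-su i * x 0 + cu i * x 1)| ≤ 1 / 10 ^ 10 * (|x 0| + |x 1|) := gen _ _ _ _ hv3 hS2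
  have hS4 : |(1 - a) * (cu i * x 0 + su i * x 1)| ≤ 1 / 10 ^ 10 * (|x 0| + |x 1|) := by
    apply gen _ _ _ _ _ hS1
    rw [abs_of_nonneg (by linarith)]; linarith
  have u3 := abs_le.mp hS3
  have u4 := abs_le.mp hS4
  refine ⟨v, G, hv3, ?_, by linarith, hv2, ?_⟩
  · have := near_img hN i hσ
    exact this.2.2
  · have e : 2 * (a * (cu i * x 0 + su i * x 1) + v * (-su i * x 0 + cu i * x 1))
        = 2 * (cu i * x 0 + su i * x 1) - 2 * ((1 - a) * (cu i * x 0 + su i * x 1))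
          + 2 * (v * (-su i * x 0 + cu i * x 1)) := by ring
    rw [e] at hcell
    linarith [u3.1, u3.2, u4.1, u4.2]

/-- **Blocking lemma.** -/
theorem block {F : Frame} (h0 : 0 < gap F) (h1 : gap F < 1 / 10 ^ 12) (x : Fin 3 → ℝ)
    (hx : ∀ (j : Fin 3) (σ : ℝ), |σ| ≤ 1 / 20000 → InK (img F j σ + x)) :
    |x 2 - ff (gap F)| ≤ 1 / 4 := by
  have hT := tiny_of F h1
  have hg := hT.g
  have hr0 := rr_nonneg F
  have hrpos : 0 < rr F := by linarith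
  have hrs := rr_sq F
  have hrg : rr F ≤ gap F := by
    unfold gap; linarith [a1_le F, b2_le F]
  have hsec := sector hT x hx
  set W2 := F.a3 ^ 2 + F.b3 ^ 2 with hW2
  have hW0 : 0 ≤ W2 := by positivity
  have hWr : W2 ≤ rr F ^ 2 := by rw [hrs]; nlinarith [sq_nonneg F.a2]
  set S := |x 0| + |x 1| with hS
  have hS0 : 0 ≤ S := by positivity
  -- bound on S
  have hY : ∀ i, 2 * (cu i * x 0 + su i * x 1) ≤ 6 / 10 ^ 8 * W2 + 4 / 10 ^ 10 * S := by
    intro i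
    obtain ⟨v, g, -, -, -, -, h⟩ := hsec i
    have := sq_nonneg (v * (g + x 2) - GG v)
    linarith
  have y0 := hY 0
  have y1 := hY 1
  have y2 := hY 2
  have c0 : cu 0 = 1 := by simp [cu]
  have s0 : su 0 = 0 := by simp [su]
  have c1 : cu 1 = -3/5 := by simp [cu]
  have s1 : su 1 = 4/5 := by simp [su]
  have c2 : cu 2 = -5/13 := by simp [cu]
  have s2 : su 2 = -12/13 := by simp [su]
  rw [c0, s0] at y0
  rw [c1, s1] at y1
  rw [c2, s2] at y2
  have hx0 : |x 0| ≤ 6 / 10 ^ 8 * W2 + 4 / 10 ^ 10 * S := by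
    rw [abs_le]; constructor <;> linarith
  have hx1 : |x 1| ≤ 6 / 10 ^ 8 * W2 + 4 / 10 ^ 10 * S := by
    rw [abs_le]; constructor <;> linarith
  have hSb : S ≤ 13 / 10 ^ 8 * W2 := by linarith
  -- choose the sector
  have hk : ∃ k, 65 / 100 * rr F ≤ |F.a2 - lam F k| := by
    by_contra hcon
    push Not at hcon
    have hc : ∀ k, (F.a2 - lam F k) ^ 2 ≤ (65 / 100) ^ 2 * rr F ^ 2 := by
      intro k
      rw [← sq_abs]
      calc |F.a2 - lam F k| ^ 2 ≤ (65 / 100 * rr F) ^ 2 := by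
            have := (hcon k).le
            gcongr
        _ = _ := by ring
    have k0 := hc 0
    have k1 := hc 1
    have k2 := hc 2
    rw [lam0] at k0
    rw [lam1] at k1
    rw [lam2] at k2
    rw [hrs] at k0 k1 k2
    have hrp : 0 < F.a2 ^ 2 + (F.a3 ^ 2 + F.b3 ^ 2) := by rw [← hrs]; positivity
    nlinarith [sq_nonneg (F.a3 - F.b3), sq_nonneg (F.a3 + F.b3), sq_nonneg F.a3, sq_nonneg F.b3,
      sq_nonneg F.a2]
  obtain ⟨k, hk⟩ := hk
  obtain ⟨v, g, hv1, hg1, hv2, hv3, hX⟩ := hsec k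
  have hvr : 64 / 100 * rr F ≤ |v| := by linarith
  have hYk : |cu k * x 0 + su k * x 1| ≤ S := by
    have bc := cu_abs k
    have bs := su_abs k
    refine (abs_add_le _ _).trans ?_
    rw [abs_mul, abs_mul]
    calc |cu k| * |x 0| + |su k| * |x 1| ≤ 1 * |x 0| + 1 * |x 1| := by gcongr
      _ = _ := by ring
  have hYk' := abs_le.mp hYk
  have hX2 : (v * (g + x 2) - GG v) ^ 2 ≤ (12 / 1000 * rr F) ^ 2 := by
    have : (v * (g + x 2) - GG v) ^ 2 ≤ 14 / 10 ^ 5 * W2 := by nlinarith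
    nlinarith
  have hX3 : |v * (g + x 2) - GG v| ≤ 12 / 1000 * rr F := abs_le_of_sq (by positivity) hX2
  have hkey := GG_key (r := gap F) (t := v) h0.le (by linarith)
  have hd : |gap F - (|v|)| ≤ 5 * rr F := by
    have := abs_nonneg v
    rw [abs_le]; constructor <;> linarith
  have hkey2 : |v * ff (gap F) - GG v| ≤ 15 / 10 ^ 5 * rr F := by linarith
  have e : v * (g + x 2 - ff (gap F)) = (v * (g + x 2) - GG v) - (v * ff (gap F) - GG v) := by ring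
  have hfin : |v| * |g + x 2 - ff (gap F)| ≤ 13 / 1000 * rr F := by
    rw [← abs_mul, e]
    refine (abs_sub _ _).trans ?_
    linarith
  have hfin2 : |g + x 2 - ff (gap F)| ≤ 1 / 10 := by
    by_contra hcon
    push Not at hcon
    have : 64 / 100 * rr F * (1 / 10) ≤ |v| * |g + x 2 - ff (gap F)| := by
      gcongr
    nlinarith
  have e3 : x 2 - ff (gap F) = (g + x 2 - ff (gap F)) - g := by ring
  rw [e3]
  refine (abs_sub _ _).trans ?_
  linarith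

end Pool.Agent.Helper797.Rot
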