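import Pool.Agent.Helper797.RotG

set_option autoImplicit false

open Set

namespace Pool.Agent.Helper797.Rot

/-- `ff` takes every value `sin θ` at arbitrarily small positive numbers. -/
lemma exists_ff {c : ℝ} (hc : 0 < c) (θ : ℝ) : ∃ b, 0 < b ∧ b < c ∧ ff b = Real.sin θ := by
  obtain ⟨m, hm⟩ := exists_nat_gt ((10 ^ 5 * θ - Real.log c) / (10 ^ 5 * (2 * Real.pi)))
  refine ⟨Real.exp (10 ^ 5 * (θ - m * (2 * Real.pi))), Real.exp_pos _, ?_, ?_⟩
  · rw [← Real.lt_log_iff_exp_lt hc]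
    rw [div_lt_iff₀ (by positivity)] at hm
    linarith
  · unfold ff
    rw [Real.log_exp]
    have : (1 / 10 ^ 5 * (10 ^ 5 * (θ - m * (2 * Real.pi))) : ℝ) = θ - m * (2 * Real.pi) := by ring
    rw [this, Real.sin_sub_nat_mul_two_pi]

theorem topo (f z : unitInterval → ℝ) (hf : Continuous f) (hz : Continuous z)
    (f0 : f 0 = 0) (f1 : 0 < f 1) (hnn : ∀ t, 0 ≤ f t)
    (hb : ∀ t, 0 < f t → f t < 1 / 10 ^ 12 → |z t - ff (f t)| ≤ 1 / 4) : False := by
  -- extend to the real line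
  set F : ℝ → ℝ := fun s => f (projIcc 0 1 zero_le_one s) with hF
  set Z : ℝ → ℝ := fun s => z (projIcc 0 1 zero_le_one s) with hZ
  have hFc : Continuous F := hf.comp continuous_projIcc
  have hZc : Continuous Z := hz.comp continuous_projIcc
  have hF0 : F 0 = 0 := by
    simp only [hF]
    rw [projIcc_of_le_left _ le_rfl]; exact f0
  have hF1 : 0 < F 1 := by
    simp only [hF]
    rw [projIcc_of_right_le _ le_rfl]; exact f1
  have hFnn : ∀ s, 0 ≤ F s := fun s => hnn _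
  have hFb : ∀ s, 0 < F s → F s < 1 / 10 ^ 12 → |Z s - ff (F s)| ≤ 1 / 4 := fun s => hb _
  set A : Set ℝ := Icc 0 1 ∩ F ⁻¹' {0} with hA
  have hAc : IsCompact A := isCompact_Icc.inter_right (isClosed_singleton.preimage hFc)
  have hAne : A.Nonempty := ⟨0, ⟨le_rfl, zero_le_one⟩, hF0⟩
  set t0 := sSup A with ht0
  have ht0A : t0 ∈ A := hAc.sSup_mem hAne
  have hFt0 : F t0 = 0 := ht0A.2
  have ht01 : t0 < 1 := by
    rcases lt_or_eq_of_le ht0A.1.2 with h | h
    · exact h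
    · exfalso; rw [h] at hFt0; linarith
  have hpos : ∀ s, t0 < s → s ≤ 1 → 0 < F s := by
    intro s hs hs1
    rcases lt_or_eq_of_le (hFnn s) with h | h
    · exact h
    · exfalso
      have : s ∈ A := ⟨⟨ht0A.1.1.trans hs.le, hs1⟩, h.symm⟩
      have := le_csSup hAc.bddAbove this
      linarith
  obtain ⟨η, hη, hcont⟩ := Metric.continuous_iff.mp hZc t0 (1 / 4) (by norm_num)
  set s1 := min (t0 + η / 2) 1 with hs1
  have hs1t : t0 < s1 := by rw [hs1]; exact lt_min (by linarith) ht01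
  have hs1' : s1 ≤ 1 := min_le_right _ _
  have hs1'' : s1 ≤ t0 + η / 2 := min_le_left _ _
  have hFs1 := hpos s1 hs1t hs1'
  have key : ∀ θ : ℝ, |Z t0 - Real.sin θ| ≤ 1 / 2 := by
    intro θ
    obtain ⟨b, hb0, hbc, hfb⟩ := exists_ff (lt_min hFs1 (by norm_num : (0:ℝ) < 1 / 10 ^ 12)) θ
    have hb1 : b < F s1 := lt_of_lt_of_le hbc (min_le_left _ _)
    have hb2 : b < 1 / 10 ^ 12 := lt_of_lt_of_le hbc (min_le_right _ _)
    have hmem : b ∈ Icc (F t0) (F s1) := ⟨by rw [hFt0]; exact hb0.le, hb1.le⟩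
    obtain ⟨s, hs, hFs⟩ := intermediate_value_Icc hs1t.le hFc.continuousOn hmem
    have h1 := hFb s (by rw [hFs]; exact hb0) (by rw [hFs]; exact hb2)
    rw [hFs, hfb] at h1
    have h2 : dist s t0 < η := by
      rw [Real.dist_eq, abs_of_nonneg (by linarith [hs.1])]
      linarith [hs.2]
    have h3 := hcont s h2
    rw [Real.dist_eq] at h3
    have h1' := abs_le.mp h1
    have h3' := abs_lt.mp h3
    rw [abs_le]; constructor <;> linarith [h1'.1, h1'.2, h3'.1, h3'.2]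
  have k1 := abs_le.mp (key (Real.pi / 2))
  have k2 := abs_le.mp (key (-(Real.pi / 2)))
  rw [Real.sin_pi_div_two] at k1
  rw [Real.sin_neg, Real.sin_pi_div_two] at k2
  linarith [k1.1, k2.2]

end Pool.Agent.Helper797.Rot
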