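import Pool.Agent.Helper797.RotBlock
import Pool.Agent.Helper797.RotTopo

set_option autoImplicit false

open Set Matrix

namespace Pool.Agent.Helper797.Rot

/-- ridge points -/
noncomputable def hh (i : Fin 3) (σ : ℝ) : Fin 3 → ℝ :=
  ![(1 - (1 + 1 / 10 ^ 8) * σ ^ 2) * cu i - σ * su i,
    (1 - (1 + 1 / 10 ^ 8) * σ ^ 2) * su i + σ * cu i, σ]

def AA : Set (Fin 3 → ℝ) := {p | ∃ (i : Fin 3) (σ : ℝ), |σ| ≤ 1 / 20000 ∧ p = hh i σ}

def SS : Set (Fin 3 → ℝ) := closure (convexHull ℝ AA)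

def KK : Set (Fin 3 → ℝ) := {x | InK x}

lemma hh_abs (i : Fin 3) {σ : ℝ} (hσ : |σ| ≤ 1 / 20000) (k : Fin 3) : |hh i σ k| ≤ 3 := by
  have hσ2 : σ ^ 2 ≤ (1 / 20000) ^ 2 := by rw [← sq_abs]; gcongr
  have h0 := sq_nonneg σ
  have gen : ∀ x y a b : ℝ, |x| ≤ a → |y| ≤ b → |x * y| ≤ a * b := by
    intro x y a b hx hy
    rw [abs_mul]
    have := abs_nonneg x
    have := abs_nonneg y
    gcongr
    linarith
  have hT : |(1 - (1 + 1 / 10 ^ 8) * σ ^ 2)| ≤ 1 := by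
    rw [abs_le]; constructor <;> linarith
  have a1 := abs_le.mp (gen _ _ _ _ hT (cu_abs i))
  have a2 := abs_le.mp (gen _ _ _ _ hT (su_abs i))
  have a3 := abs_le.mp (gen _ _ _ _ hσ (cu_abs i))
  have a4 := abs_le.mp (gen _ _ _ _ hσ (su_abs i))
  have a5 := abs_le.mp hσ
  rw [abs_le]
  fin_cases k
  · simp only [hh]
    simp
    constructor <;> linarith [a1.1, a1.2, a4.1, a4.2]
  · simp only [hh]
    simp
    constructor <;> linarith [a2.1, a2.2, a3.1, a3.2]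
  · simp only [hh]
    simp
    constructor <;> linarith [a5.1, a5.2]

lemma AA_nonempty : AA.Nonempty := ⟨hh 0 0, 0, 0, by norm_num, rfl⟩

lemma SS_nonempty : SS.Nonempty :=
  (AA_nonempty.mono (subset_convexHull ℝ AA)).closure

lemma SS_convex : Convex ℝ SS := (convex_convexHull ℝ AA).closure

lemma SS_compact : IsCompact SS := by
  have hsub : SS ⊆ Icc (fun _ => (-3 : ℝ)) (fun _ => 3) := by
    apply closure_minimal _ isClosed_Icc
    apply convexHull_min _ (convex_Icc _ _)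
    rintro _ ⟨i, σ, hσ, rfl⟩
    exact ⟨fun k => (abs_le.mp (hh_abs i hσ k)).1, fun k => (abs_le.mp (hh_abs i hσ k)).2⟩
  exact isCompact_Icc.of_isClosed_subset isClosed_closure hsub

lemma KK_closed : IsClosed KK := by
  have e : KK = (⋂ k : Fin 3, {x : Fin 3 → ℝ | |x k| ≤ 3}) ∩
      ⋂ (i : Fin 3) (a : ℝ) (v : ℝ) (_ : a ^ 2 + v ^ 2 = 1) (_ : 0 < a) (_ : |v| ≤ 1 / 10 ^ 10),
        {x : Fin 3 → ℝ | a * (cu i * x 0 + su i * x 1) + v * (-su i * x 0 + cu i * x 1)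
          + 1 / 800 * (v * x 2 - GG v) ^ 2 ≤ 1} := by
    ext x
    simp only [KK, InK, mem_ofPred_eq, mem_inter_iff, mem_iInter]
  rw [e]
  apply IsClosed.inter
  · exact isClosed_iInter fun k => isClosed_le (by fun_prop) continuous_const
  · refine isClosed_iInter fun i => isClosed_iInter fun a => isClosed_iInter fun v =>
      isClosed_iInter fun _ => isClosed_iInter fun _ => isClosed_iInter fun _ =>
        isClosed_le (by fun_prop) continuous_const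

lemma KK_convex : Convex ℝ KK := by
  intro x hx y hy α β hα hβ hαβ
  obtain ⟨hx1, hx2⟩ := hx
  obtain ⟨hy1, hy2⟩ := hy
  refine ⟨?_, ?_⟩
  · intro k
    have a1 := abs_le.mp (hx1 k)
    have a2 := abs_le.mp (hy1 k)
    simp only [Pi.add_apply, Pi.smul_apply, smul_eq_mul]
    have h1 := mul_le_mul_of_nonneg_left a1.1 hα
    have h2 := mul_le_mul_of_nonneg_left a1.2 hα
    have h3 := mul_le_mul_of_nonneg_left a2.1 hβ
    have h4 := mul_le_mul_of_nonneg_left a2.2 hβ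
    rw [abs_le]; constructor <;> nlinarith
  · intro i a v hav ha hv
    have h1 := hx2 i a v hav ha hv
    have h2 := hy2 i a v hav ha hv
    simp only [Pi.add_apply, Pi.smul_apply, smul_eq_mul]
    have h3 := mul_le_mul_of_nonneg_left h1 hα
    have h4 := mul_le_mul_of_nonneg_left h2 hβ
    have e : β = 1 - α := by linarith
    have h5 : (v * (α * x 2 + β * y 2) - GG v) ^ 2
        ≤ α * (v * x 2 - GG v) ^ 2 + β * (v * y 2 - GG v) ^ 2 := by
      have h6 : α * (v * x 2 - GG v) ^ 2 + β * (v * y 2 - GG v) ^ 2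
          - (v * (α * x 2 + β * y 2) - GG v) ^ 2
          = α * β * ((v * x 2 - GG v) - (v * y 2 - GG v)) ^ 2 := by
        rw [e]; ring
      have h7 : 0 ≤ α * β * ((v * x 2 - GG v) - (v * y 2 - GG v)) ^ 2 := by positivity
      linarith
    have h8 : a * (cu i * (α * x 0 + β * y 0) + su i * (α * x 1 + β * y 1))
        + v * (-su i * (α * x 0 + β * y 0) + cu i * (α * x 1 + β * y 1))
        = α * (a * (cu i * x 0 + su i * x 1) + v * (-su i * x 0 + cu i * x 1))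
          + β * (a * (cu i * y 0 + su i * y 1) + v * (-su i * y 0 + cu i * y 1)) := by ring
    rw [h8]
    linarith

lemma KK_compact : IsCompact KK := by
  have hsub : KK ⊆ Icc (fun _ => (-3 : ℝ)) (fun _ => 3) := by
    intro x hx
    exact ⟨fun k => (abs_le.mp (hx.1 k)).1, fun k => (abs_le.mp (hx.1 k)).2⟩
  exact isCompact_Icc.of_isClosed_subset KK_closed hsub

/-- The frame of a rotation matrix. -/
lemma exists_frame (M : Matrix (Fin 3) (Fin 3) ℝ)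
    (hM : M ∈ Matrix.specialOrthogonalGroup (Fin 3) ℝ) :
    ∃ F : Frame, F.a1 = M 0 0 ∧ F.a2 = M 1 0 ∧ F.a3 = M 2 0 ∧ F.b1 = M 0 1 ∧ F.b2 = M 1 1 ∧
      F.b3 = M 2 1 ∧ F.c1 = M 0 2 ∧ F.c2 = M 1 2 ∧ F.c3 = M 2 2 := by
  rw [Matrix.mem_specialOrthogonalGroup_iff] at hM
  obtain ⟨hO, hdet⟩ := hM
  have hO1 := (Matrix.mem_orthogonalGroup_iff (Fin 3) ℝ).mp hO
  have hO2 := (Matrix.mem_orthogonalGroup_iff' (Fin 3) ℝ).mp hO
  rw [Matrix.det_fin_three] at hdet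
  have col : ∀ i j, ∑ k, M k i * M k j = (1 : Matrix (Fin 3) (Fin 3) ℝ) i j := by
    intro i j
    rw [← hO2, Matrix.mul_apply]; rfl
  have row : ∀ i j, ∑ k, M i k * M j k = (1 : Matrix (Fin 3) (Fin 3) ℝ) i j := by
    intro i j
    rw [← hO1, Matrix.mul_apply]; rfl
  have haa := col 0 0
  have hbb := col 1 1
  have hcc := col 2 2
  have hab := col 0 1
  have hac := col 0 2
  have hbc := col 1 2
  have hw := row 2 2
  simp [Fin.sum_univ_three] at haa hbb hcc hab hac hbc hw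
  generalize M 0 0 = a1 at *
  generalize M 1 0 = a2 at *
  generalize M 2 0 = a3 at *
  generalize M 0 1 = b1 at *
  generalize M 1 1 = b2 at *
  generalize M 2 1 = b3 at *
  generalize M 0 2 = c1 at *
  generalize M 1 2 = c2 at *
  generalize M 2 2 = c3 at *
  have cross : (c1 - (a2 * b3 - a3 * b2)) ^ 2 + (c2 - (a3 * b1 - a1 * b3)) ^ 2
      + (c3 - (a1 * b2 - a2 * b1)) ^ 2 = 0 := by
    linear_combination hcc - 2 * hdet + (b1 * b1 + b2 * b2 + b3 * b3) * haa + hbb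
      - (a1 * b1 + a2 * b2 + a3 * b3) * hab
  have q1 := sq_nonneg (c1 - (a2 * b3 - a3 * b2))
  have q2 := sq_nonneg (c2 - (a3 * b1 - a1 * b3))
  have q3 := sq_nonneg (c3 - (a1 * b2 - a2 * b1))
  have e1 : c1 = a2 * b3 - a3 * b2 := by
    have : (c1 - (a2 * b3 - a3 * b2)) ^ 2 = 0 := by linarith
    linarith [pow_eq_zero_iff (two_ne_zero) |>.mp this]
  have e2 : c2 = a3 * b1 - a1 * b3 := by
    have : (c2 - (a3 * b1 - a1 * b3)) ^ 2 = 0 := by linarith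
    linarith [pow_eq_zero_iff (two_ne_zero) |>.mp this]
  have e3 : c3 = a1 * b2 - a2 * b1 := by
    have : (c3 - (a1 * b2 - a2 * b1)) ^ 2 = 0 := by linarith
    linarith [pow_eq_zero_iff (two_ne_zero) |>.mp this]
  refine ⟨⟨a1, a2, a3, b1, b2, b3, c1, c2, c3, ?_, ?_, ?_, ?_, ?_, ?_, e1, e2, e3, ?_, ?_⟩,
    rfl, rfl, rfl, rfl, rfl, rfl, rfl, rfl, rfl⟩
  · linarith
  · linarith
  · linarith
  · linarith
  · linarith
  · linarith
  · linarith
  · have : (b1 + a2) ^ 2 + (b2 - a1) ^ 2 = (a1 * a1 + a2 * a2 + a3 * a3)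
        + (b1 * b1 + b2 * b2 + b3 * b3) - (a3 * a3 + b3 * b3 + c3 * c3) + c3 ^ 2
        - 2 * (a1 * b2 - a2 * b1) := by ring
    rw [this, haa, hbb, hw, ← e3]; ring

lemma mulVec_hh {M : Matrix (Fin 3) (Fin 3) ℝ} {F : Frame}
    (hF : F.a1 = M 0 0 ∧ F.a2 = M 1 0 ∧ F.a3 = M 2 0 ∧ F.b1 = M 0 1 ∧ F.b2 = M 1 1 ∧
      F.b3 = M 2 1 ∧ F.c1 = M 0 2 ∧ F.c2 = M 1 2 ∧ F.c3 = M 2 2) (j : Fin 3) (σ : ℝ) :
    M.mulVec (hh j σ) = img F j σ := by
  obtain ⟨h1, h2, h3, h4, h5, h6, h7, h8, h9⟩ := hF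
  ext k
  simp only [Matrix.mulVec, dotProduct, Fin.sum_univ_three]
  fin_cases k
  · simp [hh, img, g0, h1, h4, h7]; ring
  · simp [hh, img, g1, h2, h5, h8]; ring
  · simp [hh, img, g2, h3, h6, h9]; ring

/-- It is enough to place the ridge points. -/
lemma copy_of {M : Matrix (Fin 3) (Fin 3) ℝ} {x : Fin 3 → ℝ}
    (h : ∀ (j : Fin 3) (σ : ℝ), |σ| ≤ 1 / 20000 → M.mulVec (hh j σ) + x ∈ KK) :
    ∀ s ∈ SS, M.mulVec s + x ∈ KK := by
  have hcl : IsClosed {s : Fin 3 → ℝ | M.mulVec s + x ∈ KK} := by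
    apply KK_closed.preimage
    fun_prop
  have hcv : Convex ℝ {s : Fin 3 → ℝ | M.mulVec s + x ∈ KK} := by
    intro s hs t ht α β hα hβ hαβ
    have h1 := KK_convex hs ht hα hβ hαβ
    have e : M.mulVec (α • s + β • t) + x = α • (M.mulVec s + x) + β • (M.mulVec t + x) := by
      rw [Matrix.mulVec_add, Matrix.mulVec_smul, Matrix.mulVec_smul, smul_add, smul_add]
      have : x = α • x + β • x := by rw [← add_smul, hαβ, one_smul]
      nth_rewrite 1 [this]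
      abel
    simp only [mem_ofPred_eq]
    rw [e]; exact h1
  have hsub : SS ⊆ {s : Fin 3 → ℝ | M.mulVec s + x ∈ KK} := by
    apply closure_minimal _ hcl
    apply convexHull_min _ hcv
    rintro _ ⟨j, σ, hσ, rfl⟩
    exact h j σ hσ
  exact fun s hs => hsub hs

lemma hh_mem (j : Fin 3) {σ : ℝ} (hσ : |σ| ≤ 1 / 20000) : hh j σ ∈ SS :=
  subset_closure (subset_convexHull ℝ AA ⟨j, σ, hσ, rfl⟩)

theorem kakeya_KK (M : Matrix (Fin 3) (Fin 3) ℝ)
    (hM : M ∈ Matrix.specialOrthogonalGroup (Fin 3) ℝ) :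
    ∃ x : Fin 3 → ℝ, ∀ s ∈ SS, M.mulVec s + x ∈ KK := by
  obtain ⟨F, hF⟩ := exists_frame M hM
  obtain ⟨x, hx⟩ := kakeya F
  refine ⟨x, copy_of ?_⟩
  intro j σ hσ
  rw [mulVec_hh hF]
  exact hx j σ hσ

/-- the gap of a matrix -/
noncomputable def mgap (M : Matrix (Fin 3) (Fin 3) ℝ) : ℝ :=
  Real.sqrt (M 1 0 ^ 2 + (M 2 0 ^ 2 + M 2 1 ^ 2)) + (1 - M 0 0) + (1 - M 1 1)

lemma mgap_eq {M : Matrix (Fin 3) (Fin 3) ℝ} {F : Frame}
    (hF : F.a1 = M 0 0 ∧ F.a2 = M 1 0 ∧ F.a3 = M 2 0 ∧ F.b1 = M 0 1 ∧ F.b2 = M 1 1 ∧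
      F.b3 = M 2 1 ∧ F.c1 = M 0 2 ∧ F.c2 = M 1 2 ∧ F.c3 = M 2 2) : mgap M = gap F := by
  obtain ⟨h1, h2, h3, h4, h5, h6, h7, h8, h9⟩ := hF
  unfold mgap gap rr
  rw [h1, h2, h3, h5, h6]

lemma mgap_nonneg (M : Matrix (Fin 3) (Fin 3) ℝ)
    (hM : M ∈ Matrix.specialOrthogonalGroup (Fin 3) ℝ) : 0 ≤ mgap M := by
  obtain ⟨F, hF⟩ := exists_frame M hM
  rw [mgap_eq hF]
  unfold gap
  linarith [a1_le F, b2_le F, rr_nonneg F]

theorem block_KK (M : Matrix (Fin 3) (Fin 3) ℝ)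
    (hM : M ∈ Matrix.specialOrthogonalGroup (Fin 3) ℝ) (h0 : 0 < mgap M)
    (h1 : mgap M < 1 / 10 ^ 12) (x : Fin 3 → ℝ) (hx : ∀ s ∈ SS, M.mulVec s + x ∈ KK) :
    |x 2 - ff (mgap M)| ≤ 1 / 4 := by
  obtain ⟨F, hF⟩ := exists_frame M hM
  rw [mgap_eq hF] at h0 h1 ⊢
  apply block h0 h1
  intro j σ hσ
  have := hx _ (hh_mem j hσ)
  rw [mulVec_hh hF] at this
  exact this

/-- No continuous path of copies leads from the identity to a rotation with positive gap. -/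
theorem no_path (γ : unitInterval → Matrix (Fin 3) (Fin 3) ℝ) (δ : unitInterval → Fin 3 → ℝ)
    (hγ : Continuous γ) (hδ : Continuous δ)
    (hso : ∀ t, γ t ∈ Matrix.specialOrthogonalGroup (Fin 3) ℝ)
    (hcopy : ∀ t, ∀ s ∈ SS, (γ t).mulVec s + δ t ∈ KK)
    (h0 : γ 0 = 1) (h1 : 0 < mgap (γ 1)) : False := by
  have hent : ∀ i j, Continuous fun t => γ t i j := fun i j =>
    (continuous_apply j).comp ((continuous_apply i).comp hγ)
  have hf : Continuous fun t => mgap (γ t) := by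
    unfold mgap
    have e1 := hent 1 0
    have e2 := hent 2 0
    have e3 := hent 2 1
    have e4 := hent 0 0
    have e5 := hent 1 1
    fun_prop
  refine topo (fun t => mgap (γ t)) (fun t => δ t 2) hf (by fun_prop) ?_ h1
    (fun t => mgap_nonneg _ (hso t)) ?_
  · rw [h0]
    simp [mgap]
  · intro t ht1 ht2
    exact block_KK _ (hso t) ht1 ht2 _ (hcopy t)

end Pool.Agent.Helper797.Rot
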