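import Pool.Agent.Helper797.RotAlg

set_option autoImplicit false

namespace Pool.Agent.Helper797.Rot

noncomputable def cu : Fin 3 → ℝ := ![1, -3/5, -5/13]
noncomputable def su : Fin 3 → ℝ := ![0, 4/5, -12/13]

lemma cs (i : Fin 3) : cu i ^ 2 + su i ^ 2 = 1 := by
  fin_cases i <;> simp [cu, su] <;> norm_num

lemma cu_abs (i : Fin 3) : |cu i| ≤ 1 := by
  rw [abs_le]; constructor <;> nlinarith [cs i, sq_nonneg (su i)]

lemma su_abs (i : Fin 3) : |su i| ≤ 1 := by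
  rw [abs_le]; constructor <;> nlinarith [cs i, sq_nonneg (cu i)]

/-- columns `a, b, c` of a rotation matrix -/
structure Frame where
  a1 : ℝ
  a2 : ℝ
  a3 : ℝ
  b1 : ℝ
  b2 : ℝ
  b3 : ℝ
  c1 : ℝ
  c2 : ℝ
  c3 : ℝ
  haa : a1 ^ 2 + a2 ^ 2 + a3 ^ 2 = 1
  hbb : b1 ^ 2 + b2 ^ 2 + b3 ^ 2 = 1
  hcc : c1 ^ 2 + c2 ^ 2 + c3 ^ 2 = 1
  hab : a1 * b1 + a2 * b2 + a3 * b3 = 0
  hac : a1 * c1 + a2 * c2 + a3 * c3 = 0
  hbc : b1 * c1 + b2 * c2 + b3 * c3 = 0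
  hc1 : c1 = a2 * b3 - a3 * b2
  hc2 : c2 = a3 * b1 - a1 * b3
  hc3 : c3 = a1 * b2 - a2 * b1
  hw : a3 ^ 2 + b3 ^ 2 + c3 ^ 2 = 1
  hE : (b1 + a2) ^ 2 + (b2 - a1) ^ 2 = (1 - c3) ^ 2

/-- coordinates of the image of the ridge point -/
noncomputable def g0 (F : Frame) (j : Fin 3) (σ : ℝ) : ℝ :=
  (1 - (1 + 1 / 10 ^ 8) * σ ^ 2) * (cu j * F.a1 + su j * F.b1)
    + σ * (-su j * F.a1 + cu j * F.b1 + F.c1)

noncomputable def g1 (F : Frame) (j : Fin 3) (σ : ℝ) : ℝ :=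
  (1 - (1 + 1 / 10 ^ 8) * σ ^ 2) * (cu j * F.a2 + su j * F.b2)
    + σ * (-su j * F.a2 + cu j * F.b2 + F.c2)

noncomputable def g2 (F : Frame) (j : Fin 3) (σ : ℝ) : ℝ :=
  (1 - (1 + 1 / 10 ^ 8) * σ ^ 2) * (cu j * F.a3 + su j * F.b3)
    + σ * (-su j * F.a3 + cu j * F.b3 + F.c3)

noncomputable def L1 (F : Frame) (i j : Fin 3) (σ : ℝ) : ℝ :=
  cu i * g0 F j σ + su i * g1 F j σ

noncomputable def L2 (F : Frame) (i j : Fin 3) (σ : ℝ) : ℝ :=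
  -su i * g0 F j σ + cu i * g1 F j σ

lemma normsq (F : Frame) (j : Fin 3) (σ : ℝ) :
    g0 F j σ ^ 2 + g1 F j σ ^ 2 + g2 F j σ ^ 2
      = (1 - (1 + 1 / 10 ^ 8) * σ ^ 2) ^ 2 + 2 * σ ^ 2 := by
  unfold g0 g1 g2
  generalize (1 - (1 + 1 / 10 ^ 8) * σ ^ 2) = T
  have h := cs j
  generalize cu j = c at *
  generalize su j = s at *
  obtain ⟨a1, a2, a3, b1, b2, b3, c1, c2, c3, haa, hbb, hcc, hab, hac, hbc, -, -, -, -, -⟩ := F
  simp only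
  linear_combination (T * c - σ * s) ^ 2 * haa + (T * s + σ * c) ^ 2 * hbb + σ ^ 2 * hcc
    + 2 * (T * c - σ * s) * (T * s + σ * c) * hab + 2 * (T * c - σ * s) * σ * hac
    + 2 * (T * s + σ * c) * σ * hbc + (T ^ 2 + σ ^ 2) * h

lemma L_normsq (F : Frame) (i j : Fin 3) (σ : ℝ) :
    L1 F i j σ ^ 2 + L2 F i j σ ^ 2 = g0 F j σ ^ 2 + g1 F j σ ^ 2 := by
  unfold L1 L2
  have h := cs i
  generalize cu i = c at *
  generalize su i = s at *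
  linear_combination (g0 F j σ ^ 2 + g1 F j σ ^ 2) * h

lemma normsq_le (F : Frame) (i j : Fin 3) {σ : ℝ} (hσ : |σ| ≤ 1 / 20000) :
    L1 F i j σ ^ 2 + L2 F i j σ ^ 2 + g2 F j σ ^ 2 ≤ 1 - 1 / 10 ^ 8 * σ ^ 2 := by
  rw [L_normsq, normsq]
  have hσ2 : σ ^ 2 ≤ (1 / 20000) ^ 2 := by rw [← sq_abs]; gcongr
  nlinarith [sq_nonneg σ]

lemma two_sub (F : Frame) (i j : Fin 3) {σ a v : ℝ} (hσ : |σ| ≤ 1 / 20000)
    (hav : a ^ 2 + v ^ 2 = 1) :
    1 / 10 ^ 8 * σ ^ 2 + (L1 F i j σ - a) ^ 2 + (L2 F i j σ - v) ^ 2 + g2 F j σ ^ 2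
      ≤ 2 - 2 * (a * L1 F i j σ + v * L2 F i j σ) := by
  have h := normsq_le F i j hσ
  nlinarith

/-- the cell inequality -/
def Cell (F : Frame) (y1 y2 z : ℝ) (i j : Fin 3) (σ a v : ℝ) : Prop :=
  2 * (a * (cu i * y1 + su i * y2) + v * (-su i * y1 + cu i * y2))
    + 1 / 400 * (v * (g2 F j σ + z) - GG v) ^ 2
    ≤ 2 - 2 * (a * L1 F i j σ + v * L2 F i j σ)

def InK (x : Fin 3 → ℝ) : Prop :=
  (∀ k, |x k| ≤ 3) ∧ ∀ i : Fin 3, ∀ a v : ℝ, a ^ 2 + v ^ 2 = 1 → 0 < a → |v| ≤ 1 / 10 ^ 10 →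
    a * (cu i * x 0 + su i * x 1) + v * (-su i * x 0 + cu i * x 1)
      + 1 / 800 * (v * x 2 - GG v) ^ 2 ≤ 1

noncomputable def img (F : Frame) (j : Fin 3) (σ : ℝ) : Fin 3 → ℝ :=
  ![g0 F j σ, g1 F j σ, g2 F j σ]

lemma g_abs (F : Frame) (j : Fin 3) {σ : ℝ} (hσ : |σ| ≤ 1 / 20000) (k : Fin 3) :
    |img F j σ k| ≤ 1 := by
  have h := normsq F j σ
  have hσ2 : σ ^ 2 ≤ (1 / 20000) ^ 2 := by rw [← sq_abs]; gcongr
  have h1 : g0 F j σ ^ 2 + g1 F j σ ^ 2 + g2 F j σ ^ 2 ≤ 1 := by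
    rw [h]; nlinarith [sq_nonneg σ]
  rw [abs_le]
  fin_cases k <;> simp only [img] <;> simp <;> constructor <;>
    nlinarith [sq_nonneg (g0 F j σ), sq_nonneg (g1 F j σ), sq_nonneg (g2 F j σ)]

lemma inK_iff (F : Frame) (y1 y2 z : ℝ) (hy1 : |y1| ≤ 1) (hy2 : |y2| ≤ 1) (hz : |z| ≤ 1)
    (j : Fin 3) {σ : ℝ} (hσ : |σ| ≤ 1 / 20000)
    (h : ∀ i : Fin 3, ∀ a v : ℝ, a ^ 2 + v ^ 2 = 1 → 0 < a → |v| ≤ 1 / 10 ^ 10 →
      Cell F y1 y2 z i j σ a v) : InK (img F j σ + ![y1, y2, z]) := by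
  constructor
  · intro k
    have h1 := g_abs F j hσ k
    have h2 : |(![y1, y2, z] : Fin 3 → ℝ) k| ≤ 1 := by
      fin_cases k <;> simpa
    calc |(img F j σ + ![y1, y2, z]) k| ≤ |img F j σ k| + |(![y1, y2, z] : Fin 3 → ℝ) k| :=
          abs_add_le _ _
      _ ≤ 3 := by linarith
  · intro i a v hav ha hv
    have h1 := h i a v hav ha hv
    unfold Cell at h1
    have e0 : (img F j σ + ![y1, y2, z]) 0 = g0 F j σ + y1 := by simp [img]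
    have e1 : (img F j σ + ![y1, y2, z]) 1 = g1 F j σ + y2 := by simp [img]
    have e2 : (img F j σ + ![y1, y2, z]) 2 = g2 F j σ + z := by simp [img]
    rw [e0, e1, e2]
    unfold L1 L2 at h1
    nlinarith

lemma cell_of_inK (F : Frame) (x : Fin 3 → ℝ) (i j : Fin 3) {σ a v : ℝ}
    (h : InK (img F j σ + x)) (hav : a ^ 2 + v ^ 2 = 1) (ha : 0 < a) (hv : |v| ≤ 1 / 10 ^ 10) :
    Cell F (x 0) (x 1) (x 2) i j σ a v := by
  have h1 := h.2 i a v hav ha hv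
  have e0 : (img F j σ + x) 0 = g0 F j σ + x 0 := by simp [img]
  have e1 : (img F j σ + x) 1 = g1 F j σ + x 1 := by simp [img]
  have e2 : (img F j σ + x) 2 = g2 F j σ + x 2 := by simp [img]
  rw [e0, e1, e2] at h1
  unfold Cell L1 L2
  nlinarith

/-! ### safe case -/

def Safe (F : Frame) (k : Fin 3) : Prop :=
  ∀ (j : Fin 3) (σ a v : ℝ), |σ| ≤ 1 / 20000 → a ^ 2 + v ^ 2 = 1 → 0 < a → |v| ≤ 1 / 10 ^ 10 →
    6 / 10 ^ 22 ≤ 2 - 2 * (a * L1 F k j σ + v * L2 F k j σ)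

lemma dot_ne {i k : Fin 3} (h : i ≠ k) : cu i * cu k + su i * su k ≤ -5 / 13 := by
  revert h
  fin_cases i <;> fin_cases k <;> simp [cu, su] <;> norm_num

lemma vGG {v g : ℝ} (hv : |v| ≤ 1 / 10 ^ 10) (hg : |g| ≤ 1) :
    (v * g - GG v) ^ 2 ≤ 4 / 10 ^ 20 := by
  have h1 := GG_abs_le v
  have h2 : |v * g - GG v| ≤ 2 * (1 / 10 ^ 10) := by
    calc |v * g - GG v| ≤ |v * g| + |GG v| := abs_sub _ _
      _ = |v| * |g| + |GG v| := by rw [abs_mul]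
      _ ≤ |v| * 1 + |v| := by gcongr
      _ ≤ _ := by linarith
  calc (v * g - GG v) ^ 2 = |v * g - GG v| ^ 2 := (sq_abs _).symm
    _ ≤ (2 * (1 / 10 ^ 10)) ^ 2 := by gcongr
    _ = _ := by norm_num

lemma safe_place (F : Frame) (k : Fin 3) (hk : Safe F k) :
    ∃ x : Fin 3 → ℝ, ∀ (j : Fin 3) (σ : ℝ), |σ| ≤ 1 / 20000 → InK (img F j σ + x) := by
  have hcu := cu_abs k
  have hsu := su_abs k
  refine ⟨![25 / 10 ^ 23 * cu k, 25 / 10 ^ 23 * su k, 0], ?_⟩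
  intro j σ hσ
  apply inK_iff F _ _ _ _ _ _ j hσ
  · intro i a v hav ha hv
    have hg2 : |g2 F j σ| ≤ 1 := by have := g_abs F j hσ 2; simpa [img] using this
    have h0 : |v| ≤ 1 / 10 ^ 10 := hv
    have h1 := vGG hv hg2
    unfold Cell
    rw [add_zero]
    have ha1 : a ≤ 1 := by nlinarith [sq_nonneg v]
    have hv2 : v ^ 2 ≤ 1 / 10 ^ 20 := by
      rw [← sq_abs]
      calc |v| ^ 2 ≤ (1 / 10 ^ 10) ^ 2 := by gcongr
        _ = _ := by norm_num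
    by_cases hik : i = k
    · subst hik
      have h2 := hk j σ a v hσ hav ha hv
      have h3 : 2 * (a * (cu i * (25 / 10 ^ 23 * cu i) + su i * (25 / 10 ^ 23 * su i))
          + v * (-su i * (25 / 10 ^ 23 * cu i) + cu i * (25 / 10 ^ 23 * su i)))
          = 50 / 10 ^ 23 * a * (cu i ^ 2 + su i ^ 2) := by ring
      rw [h3, cs]
      nlinarith
    · have h2 := two_sub F i j (σ := σ) (a := a) (v := v) hσ hav
      have h4 := dot_ne hik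
      have h5 : |(-su i * cu k + cu i * su k)| ≤ 1 := by
        rw [abs_le]
        have e : (-su i * cu k + cu i * su k) ^ 2 + (cu i * cu k + su i * su k) ^ 2 = 1 := by
          have e1 := cs i
          have e2 := cs k
          calc _ = (cu i ^ 2 + su i ^ 2) * (cu k ^ 2 + su k ^ 2) := by ring
            _ = 1 := by rw [e1, e2]; norm_num
        constructor <;> nlinarith [sq_nonneg (cu i * cu k + su i * su k)]
      have h6 : v * (-su i * cu k + cu i * su k) ≤ 1 / 10 ^ 10 := by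
        calc v * (-su i * cu k + cu i * su k) ≤ |v * (-su i * cu k + cu i * su k)| := le_abs_self _
          _ = |v| * |(-su i * cu k + cu i * su k)| := abs_mul _ _
          _ ≤ (1 / 10 ^ 10) * 1 := by gcongr
          _ = _ := mul_one _
      have ha2 : 9 / 10 ≤ a := by nlinarith
      have h7 : a * (cu i * cu k + su i * su k) ≤ 9 / 10 * (-5 / 13) := by nlinarith
      have e3 : 2 * (a * (cu i * (25 / 10 ^ 23 * cu k) + su i * (25 / 10 ^ 23 * su k))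
          + v * (-su i * (25 / 10 ^ 23 * cu k) + cu i * (25 / 10 ^ 23 * su k)))
          = 50 / 10 ^ 23 * (a * (cu i * cu k + su i * su k)
            + v * (-su i * cu k + cu i * su k)) := by ring
      rw [e3]
      nlinarith [sq_nonneg σ, sq_nonneg (L1 F i j σ - a), sq_nonneg (L2 F i j σ - v),
        sq_nonneg (g2 F j σ)]
  · rw [abs_mul, abs_of_pos (by norm_num : (0:ℝ) < 25 / 10 ^ 23)]; nlinarith [abs_nonneg (cu k)]
  · rw [abs_mul, abs_of_pos (by norm_num : (0:ℝ) < 25 / 10 ^ 23)]; nlinarith [abs_nonneg (su k)]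
  · simp

end Pool.Agent.Helper797.Rot
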