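import Mathlib

set_option autoImplicit false

namespace Pool.Agent.Helper797.Rot

/-- slowly oscillating function -/
noncomputable def ff (v : ℝ) : ℝ := Real.sin (1 / 10 ^ 5 * Real.log v)

noncomputable def GG (v : ℝ) : ℝ := v * ff v

lemma ff_abs_le (v : ℝ) : |ff v| ≤ 1 := Real.abs_sin_le_one _

lemma ff_abs (v : ℝ) : ff |v| = ff v := by
  unfold ff; rw [Real.log_abs]

lemma GG_abs_le (v : ℝ) : |GG v| ≤ |v| := by
  unfold GG
  rw [abs_mul]
  calc |v| * |ff v| ≤ |v| * 1 := by gcongr; exact ff_abs_le v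
    _ = |v| := mul_one _

lemma GG_neg (v : ℝ) : GG (-v) = -GG v := by
  unfold GG ff; rw [Real.log_neg_eq_log]; ring

lemma ff_sub_le {a b : ℝ} : |ff a - ff b| ≤ 1 / 10 ^ 5 * |Real.log a - Real.log b| := by
  unfold ff
  refine (Real.abs_sin_sub_sin_le _ _).trans ?_
  rw [← mul_sub, abs_mul, abs_of_pos (by norm_num : (0:ℝ) < 1 / 10 ^ 5)]

lemma mul_log_sub {a b : ℝ} (ha : 0 < a) (hab : a ≤ b) :
    a * |Real.log a - Real.log b| ≤ b - a := by
  have hb : 0 < b := ha.trans_le hab
  have h1 : Real.log a ≤ Real.log b := Real.log_le_log ha hab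
  rw [abs_of_nonpos (by linarith), neg_sub, ← Real.log_div hb.ne' ha.ne']
  have h2 := Real.log_le_sub_one_of_pos (div_pos hb ha)
  have h3 := mul_le_mul_of_nonneg_left h2 ha.le
  have h4 : a * (b / a - 1) = b - a := by field_simp
  linarith

lemma GG_lip_pos {a b : ℝ} (ha : 0 < a) (hab : a ≤ b) : |GG a - GG b| ≤ 2 * |a - b| := by
  have h1 : GG a - GG b = (a - b) * ff b + a * (ff a - ff b) := by unfold GG; ring
  rw [h1]
  refine (abs_add_le _ _).trans ?_
  rw [abs_mul, abs_mul, abs_of_pos ha]
  have h2 : |a - b| * |ff b| ≤ |a - b| * 1 := by gcongr; exact ff_abs_le b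
  have h3 : a * |ff a - ff b| ≤ a * (1 / 10 ^ 5 * |Real.log a - Real.log b|) := by
    gcongr; exact ff_sub_le
  have h4 := mul_log_sub ha hab
  have h5 : |a - b| = b - a := by rw [abs_of_nonpos (by linarith)]; ring
  nlinarith

lemma GG_zero : GG 0 = 0 := by unfold GG; simp

lemma GG_lip (a b : ℝ) : |GG a - GG b| ≤ 2 * |a - b| := by
  -- wlog a ≤ b
  have key : ∀ a b : ℝ, a ≤ b → |GG a - GG b| ≤ 2 * |a - b| := by
    intro a b hab
    rcases lt_or_ge 0 a with ha | ha
    · exact GG_lip_pos ha hab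
    · rcases lt_or_ge b 0 with hb | hb
      · have h := GG_lip_pos (neg_pos.mpr hb) (neg_le_neg hab)
        rw [GG_neg, GG_neg] at h
        have e1 : |(-GG b) - (-GG a)| = |GG a - GG b| := by congr 1; ring
        have e2 : |(-b) - (-a)| = |a - b| := by congr 1; ring
        rw [e1, e2] at h; exact h
      · have h1 := GG_abs_le a
        have h2 := GG_abs_le b
        have h3 : |GG a - GG b| ≤ |GG a| + |GG b| := abs_sub _ _
        have h4 : |a| = -a := abs_of_nonpos ha
        have h5 : |b| = b := abs_of_nonneg hb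
        have h6 : |a - b| = b - a := by rw [abs_of_nonpos (by linarith)]; ring
        have h7 := abs_nonneg (a - b)
        linarith
  rcases le_total a b with h | h
  · exact key a b h
  · rw [abs_sub_comm, abs_sub_comm a b]; exact key b a h

/-- the key estimate -/
lemma GG_key {r t : ℝ} (hr : 0 ≤ r) (ht : |t| ≤ 3 * r) :
    |t * ff r - GG t| ≤ 3 / 10 ^ 5 * |r - (|t|)| := by
  by_cases h0 : t = 0
  · rw [h0, GG_zero]; simp
  · have htp : 0 < |t| := abs_pos.mpr h0
    have hrp : 0 < r := by linarith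
    have e : t * ff r - GG t = t * (ff r - ff (|t|)) := by rw [ff_abs]; unfold GG; ring
    rw [e, abs_mul]
    have h1 : |t| * |ff r - ff (|t|)| ≤ |t| * (1 / 10 ^ 5 * |Real.log r - Real.log (|t|)|) := by
      gcongr; exact ff_sub_le
    refine h1.trans ?_
    rcases le_total (|t|) r with h | h
    · have h2 := mul_log_sub htp h
      have h3 : |Real.log (|t|) - Real.log r| = |Real.log r - Real.log (|t|)| := abs_sub_comm _ _
      rw [h3] at h2
      have h4 : |r - (|t|)| = r - |t| := abs_of_nonneg (by linarith)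
      rw [h4]
      nlinarith
    · have h2 := mul_log_sub hrp h
      have h4 : |r - (|t|)| = |t| - r := by rw [abs_of_nonpos (by linarith)]; ring
      rw [h4]
      have h5 : |t| * |Real.log r - Real.log (|t|)| ≤ 3 * r * |Real.log r - Real.log (|t|)| := by
        gcongr
      nlinarith

end Pool.Agent.Helper797.Rot
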