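import Pool.Agent.Helper797.RotFrame

set_option autoImplicit false

namespace Pool.Agent.Helper797.Rot

/-- closeness to the identity -/
structure Near (F : Frame) : Prop where
  a1 : |F.a1 - 1| ≤ 1 / 10 ^ 6
  a2 : |F.a2| ≤ 1 / 10 ^ 6
  a3 : |F.a3| ≤ 1 / 10 ^ 6
  b1 : |F.b1| ≤ 2 / 10 ^ 6
  b2 : |F.b2 - 1| ≤ 2 / 10 ^ 6
  b3 : |F.b3| ≤ 2 / 10 ^ 6
  c1 : |F.c1| ≤ 4 / 10 ^ 6
  c2 : |F.c2| ≤ 4 / 10 ^ 6
  c3 : |F.c3 - 1| ≤ 4 / 10 ^ 6

lemma abs_le_of_sq {x y : ℝ} (hy : 0 ≤ y) (h : x ^ 2 ≤ y ^ 2) : |x| ≤ y :=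
  abs_le_of_sq_le_sq h hy

lemma unsafe_near (F : Frame) (k : Fin 3) (hk : ¬ Safe F k) :
    ∃ j : Fin 3, |cu j * F.a1 + su j * F.b1 - cu k| ≤ 1 / 10 ^ 6 ∧
      |cu j * F.a2 + su j * F.b2 - su k| ≤ 1 / 10 ^ 6 ∧
      |cu j * F.a3 + su j * F.b3| ≤ 1 / 10 ^ 6 := by
  unfold Safe at hk
  push Not at hk
  obtain ⟨j, σ, a, v, hσ, hav, ha, hv, h⟩ := hk
  refine ⟨j, ?_⟩
  have h1 := two_sub F k j (σ := σ) (a := a) (v := v) hσ hav
  have q1 := sq_nonneg σ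
  have q2 := sq_nonneg (L1 F k j σ - a)
  have q3 := sq_nonneg (L2 F k j σ - v)
  have q4 := sq_nonneg (g2 F j σ)
  have hσ' : |σ| ≤ 25 / 10 ^ 8 := by
    apply abs_le_of_sq (by norm_num)
    nlinarith
  have hl1 : |L1 F k j σ - a| ≤ 1 / 10 ^ 10 := by
    apply abs_le_of_sq (by norm_num)
    nlinarith
  have hl2 : |L2 F k j σ - v| ≤ 1 / 10 ^ 10 := by
    apply abs_le_of_sq (by norm_num)
    nlinarith
  have hg2 : |g2 F j σ| ≤ 1 / 10 ^ 10 := by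
    apply abs_le_of_sq (by norm_num)
    nlinarith
  have hσ2 : σ ^ 2 ≤ 1 / 10 ^ 12 := by
    rw [← sq_abs]
    calc |σ| ^ 2 ≤ (25 / 10 ^ 8) ^ 2 := by gcongr
      _ ≤ _ := by norm_num
  have ha1 : a ≤ 1 := by nlinarith [sq_nonneg v]
  have hv2 : v ^ 2 ≤ 1 / 10 ^ 20 := by
    rw [← sq_abs]
    calc |v| ^ 2 ≤ (1 / 10 ^ 10) ^ 2 := by gcongr
      _ = _ := by norm_num
  have ha2 : 1 - 1 / 10 ^ 20 ≤ a := by nlinarith
  -- p, q coordinates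
  set p1 := cu j * F.a1 + su j * F.b1 with hp1
  set p2 := cu j * F.a2 + su j * F.b2 with hp2
  set p3 := cu j * F.a3 + su j * F.b3 with hp3
  set q1' := -su j * F.a1 + cu j * F.b1 + F.c1 with hq1
  set q2' := -su j * F.a2 + cu j * F.b2 + F.c2 with hq2
  set q3' := -su j * F.a3 + cu j * F.b3 + F.c3 with hq3
  have hp : p1 ^ 2 + p2 ^ 2 + p3 ^ 2 = 1 := by
    rw [hp1, hp2, hp3]
    linear_combination cu j ^ 2 * F.haa + su j ^ 2 * F.hbb + 2 * cu j * su j * F.hab + cs j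
  have hq : q1' ^ 2 + q2' ^ 2 + q3' ^ 2 = 2 := by
    rw [hq1, hq2, hq3]
    linear_combination su j ^ 2 * F.haa + cu j ^ 2 * F.hbb - 2 * cu j * su j * F.hab + cs j
      + F.hcc - 2 * su j * F.hac + 2 * cu j * F.hbc
  have bp1 : |p1| ≤ 1 := by apply abs_le_of_sq (by norm_num); nlinarith [sq_nonneg p2, sq_nonneg p3]
  have bp2 : |p2| ≤ 1 := by apply abs_le_of_sq (by norm_num); nlinarith [sq_nonneg p1, sq_nonneg p3]
  have bp3 : |p3| ≤ 1 := by apply abs_le_of_sq (by norm_num); nlinarith [sq_nonneg p1, sq_nonneg p2]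
  have bq1 : |q1'| ≤ 3 / 2 := by
    apply abs_le_of_sq (by norm_num); nlinarith [sq_nonneg q2', sq_nonneg q3']
  have bq2 : |q2'| ≤ 3 / 2 := by
    apply abs_le_of_sq (by norm_num); nlinarith [sq_nonneg q1', sq_nonneg q3']
  have bq3 : |q3'| ≤ 3 / 2 := by
    apply abs_le_of_sq (by norm_num); nlinarith [sq_nonneg q1', sq_nonneg q2']
  have G0 : g0 F j σ = (1 - (1 + 1 / 10 ^ 8) * σ ^ 2) * p1 + σ * q1' := by rw [hp1, hq1]; rfl
  have G1 : g1 F j σ = (1 - (1 + 1 / 10 ^ 8) * σ ^ 2) * p2 + σ * q2' := by rw [hp2, hq2]; rfl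
  have G2 : g2 F j σ = (1 - (1 + 1 / 10 ^ 8) * σ ^ 2) * p3 + σ * q3' := by rw [hp3, hq3]; rfl
  have hL1 : L1 F k j σ = cu k * g0 F j σ + su k * g1 F j σ := rfl
  have hL2 : L2 F k j σ = -su k * g0 F j σ + cu k * g1 F j σ := rfl
  -- g0 close to cu k
  have hc := cs k
  have bcu := cu_abs k
  have bsu := su_abs k
  have aux1 : g0 F j σ - cu k = cu k * ((L1 F k j σ - a) + (a - 1))
      - su k * ((L2 F k j σ - v) + v) := by
    rw [hL1, hL2]; linear_combination -(g0 F j σ) * hc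
  have aux2 : g1 F j σ - su k = su k * ((L1 F k j σ - a) + (a - 1))
      + cu k * ((L2 F k j σ - v) + v) := by
    rw [hL1, hL2]; linear_combination -(g1 F j σ) * hc
  have m1 : |(L1 F k j σ - a) + (a - 1)| ≤ 2 / 10 ^ 10 := by
    refine (abs_add_le _ _).trans ?_
    have : |a - 1| ≤ 1 / 10 ^ 10 := by rw [abs_le]; constructor <;> linarith
    linarith
  have m2 : |(L2 F k j σ - v) + v| ≤ 2 / 10 ^ 10 := by
    refine (abs_add_le _ _).trans ?_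
    linarith
  have n0 : |g0 F j σ - cu k| ≤ 4 / 10 ^ 10 := by
    rw [aux1]
    calc _ ≤ |cu k * ((L1 F k j σ - a) + (a - 1))| + |su k * ((L2 F k j σ - v) + v)| := abs_sub _ _
      _ = |cu k| * |(L1 F k j σ - a) + (a - 1)| + |su k| * |(L2 F k j σ - v) + v| := by
          rw [abs_mul, abs_mul]
      _ ≤ 1 * (2 / 10 ^ 10) + 1 * (2 / 10 ^ 10) := by gcongr
      _ = _ := by norm_num
  have n1 : |g1 F j σ - su k| ≤ 4 / 10 ^ 10 := by
    rw [aux2]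
    calc _ ≤ |su k * ((L1 F k j σ - a) + (a - 1))| + |cu k * ((L2 F k j σ - v) + v)| :=
          abs_add_le _ _
      _ = |su k| * |(L1 F k j σ - a) + (a - 1)| + |cu k| * |(L2 F k j σ - v) + v| := by
          rw [abs_mul, abs_mul]
      _ ≤ 1 * (2 / 10 ^ 10) + 1 * (2 / 10 ^ 10) := by gcongr
      _ = _ := by norm_num
  have key : ∀ (p q G t : ℝ), |p| ≤ 1 → |q| ≤ 3 / 2 →
      G = (1 - (1 + 1 / 10 ^ 8) * σ ^ 2) * p + σ * q → |G - t| ≤ 4 / 10 ^ 10 →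
      |p - t| ≤ 1 / 10 ^ 6 := by
    intro p q G t hp hq hG hGt
    have e : p - t = (G - t) + (1 + 1 / 10 ^ 8) * σ ^ 2 * p - σ * q := by rw [hG]; ring
    rw [e]
    calc _ ≤ |(G - t) + (1 + 1 / 10 ^ 8) * σ ^ 2 * p| + |σ * q| := abs_sub _ _
      _ ≤ (|G - t| + |(1 + 1 / 10 ^ 8) * σ ^ 2 * p|) + |σ * q| := by
          gcongr; exact abs_add_le _ _
      _ = |G - t| + (1 + 1 / 10 ^ 8) * σ ^ 2 * |p| + |σ| * |q| := by
          rw [abs_mul σ q, abs_mul ((1 + 1 / 10 ^ 8) * σ ^ 2) p,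
            abs_of_nonneg (by positivity : (0:ℝ) ≤ (1 + 1 / 10 ^ 8) * σ ^ 2)]
      _ ≤ 4 / 10 ^ 10 + (1 + 1 / 10 ^ 8) * (1 / 10 ^ 12) * 1 + (25 / 10 ^ 8) * (3 / 2) := by gcongr
      _ ≤ _ := by norm_num
  refine ⟨key p1 q1' _ _ bp1 bq1 G0 n0, key p2 q2' _ _ bp2 bq2 G1 n1, ?_⟩
  have := key p3 q3' _ 0 bp3 bq3 G2 (by rw [sub_zero]; linarith)
  rwa [sub_zero] at this

lemma dot_close (F : Frame) {j j' k k' : Fin 3}
    (h : |cu j * F.a1 + su j * F.b1 - cu k| ≤ 1 / 10 ^ 6 ∧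
      |cu j * F.a2 + su j * F.b2 - su k| ≤ 1 / 10 ^ 6 ∧
      |cu j * F.a3 + su j * F.b3| ≤ 1 / 10 ^ 6)
    (h' : |cu j' * F.a1 + su j' * F.b1 - cu k'| ≤ 1 / 10 ^ 6 ∧
      |cu j' * F.a2 + su j' * F.b2 - su k'| ≤ 1 / 10 ^ 6 ∧
      |cu j' * F.a3 + su j' * F.b3| ≤ 1 / 10 ^ 6) :
    |(cu j * cu j' + su j * su j') - (cu k * cu k' + su k * su k')| ≤ 1 / 10 ^ 5 := by
  obtain ⟨x1, x2, x3⟩ := h
  obtain ⟨y1, y2, y3⟩ := h'
  set p1 := cu j * F.a1 + su j * F.b1 with hp1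
  set p2 := cu j * F.a2 + su j * F.b2 with hp2
  set p3 := cu j * F.a3 + su j * F.b3 with hp3
  set q1 := cu j' * F.a1 + su j' * F.b1 with hq1
  set q2 := cu j' * F.a2 + su j' * F.b2 with hq2
  set q3 := cu j' * F.a3 + su j' * F.b3 with hq3
  have e : cu j * cu j' + su j * su j' = p1 * q1 + p2 * q2 + p3 * q3 := by
    rw [hp1, hp2, hp3, hq1, hq2, hq3]
    linear_combination -(cu j * cu j') * F.haa - (su j * su j') * F.hbb
      - (cu j * su j' + su j * cu j') * F.hab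
  rw [e]
  have e2 : p1 * q1 + p2 * q2 + p3 * q3 - (cu k * cu k' + su k * su k')
      = (p1 - cu k) * (q1 - cu k') + (p1 - cu k) * cu k' + cu k * (q1 - cu k')
        + ((p2 - su k) * (q2 - su k') + (p2 - su k) * su k' + su k * (q2 - su k')) + p3 * q3 := by
    ring
  rw [e2]
  have b1 := cu_abs k
  have b2 := cu_abs k'
  have b3 := su_abs k
  have b4 := su_abs k'
  have gen : ∀ x y a b : ℝ, |x| ≤ a → |y| ≤ b → |x * y| ≤ a * b := by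
    intro x y a b hx hy
    rw [abs_mul]
    have := abs_nonneg x
    have := abs_nonneg y
    gcongr
    linarith
  have t1 := abs_le.mp (gen _ _ _ _ x1 y1)
  have t2 := abs_le.mp (gen _ _ _ _ x1 b2)
  have t3 := abs_le.mp (gen _ _ _ _ b1 y1)
  have t4 := abs_le.mp (gen _ _ _ _ x2 y2)
  have t5 := abs_le.mp (gen _ _ _ _ x2 b4)
  have t6 := abs_le.mp (gen _ _ _ _ b3 y2)
  have t7 := abs_le.mp (gen _ _ _ _ x3 y3)
  rw [abs_le]
  constructor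
  · linarith [t1.1, t2.1, t3.1, t4.1, t5.1, t6.1, t7.1]
  · linarith [t1.2, t2.2, t3.2, t4.2, t5.2, t6.2, t7.2]

lemma dot01 {j0 j1 : Fin 3}
    (h : |(cu j0 * cu j1 + su j0 * su j1) - (cu 0 * cu 1 + su 0 * su 1)| ≤ 1 / 10 ^ 5) :
    (j0 = 0 ∧ j1 = 1) ∨ (j0 = 1 ∧ j1 = 0) := by
  rw [abs_le] at h
  revert h
  fin_cases j0 <;> fin_cases j1 <;> simp [cu, su] <;> norm_num

lemma dot02 {j0 j1 : Fin 3}
    (h : |(cu j0 * cu j1 + su j0 * su j1) - (cu 0 * cu 2 + su 0 * su 2)| ≤ 1 / 10 ^ 5) :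
    (j0 = 0 ∧ j1 = 2) ∨ (j0 = 2 ∧ j1 = 0) := by
  rw [abs_le] at h
  revert h
  fin_cases j0 <;> fin_cases j1 <;> simp [cu, su] <;> norm_num

lemma near_of_unsafe (F : Frame) (h : ∀ k, ¬ Safe F k) : Near F := by
  obtain ⟨j0, h0⟩ := unsafe_near F 0 (h 0)
  obtain ⟨j1, h1⟩ := unsafe_near F 1 (h 1)
  obtain ⟨j2, h2⟩ := unsafe_near F 2 (h 2)
  have d01 := dot01 (dot_close F h0 h1)
  have d02 := dot02 (dot_close F h0 h2)
  have hj : j0 = 0 ∧ j1 = 1 := by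
    rcases d01 with d | d
    · exact d
    · exfalso
      rcases d02 with e | e
      · rw [d.1] at e; exact absurd e.1 (by decide)
      · rw [d.1] at e; exact absurd e.1 (by decide)
  obtain ⟨rfl, rfl⟩ := hj
  obtain ⟨x1, x2, x3⟩ := h0
  obtain ⟨y1, y2, y3⟩ := h1
  have c0 : cu 0 = 1 := by simp [cu]
  have s0 : su 0 = 0 := by simp [su]
  have c1 : cu 1 = -3/5 := by simp [cu]
  have s1 : su 1 = 4/5 := by simp [su]
  rw [c0, s0] at x1 x2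
  rw [c0, s0] at x3
  rw [c1, s1] at y1 y2 y3
  simp only [one_mul, zero_mul, add_zero, sub_zero] at x1 x2 x3
  have A1 := abs_le.mp x1
  have A2 := abs_le.mp x2
  have A3 := abs_le.mp x3
  have B1 := abs_le.mp y1
  have B2 := abs_le.mp y2
  have B3 := abs_le.mp y3
  have b1 : |F.b1| ≤ 2 / 10 ^ 6 := by rw [abs_le]; constructor <;> linarith [A1.1, A1.2, B1.1, B1.2]
  have b2 : |F.b2 - 1| ≤ 2 / 10 ^ 6 := by
    rw [abs_le]; constructor <;> linarith [A2.1, A2.2, B2.1, B2.2]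
  have b3 : |F.b3| ≤ 2 / 10 ^ 6 := by rw [abs_le]; constructor <;> linarith [A3.1, A3.2, B3.1, B3.2]
  have gen : ∀ x y a b : ℝ, |x| ≤ a → |y| ≤ b → |x * y| ≤ a * b := by
    intro x y a b hx hy
    rw [abs_mul]
    have := abs_nonneg x
    have := abs_nonneg y
    gcongr
    linarith
  refine ⟨x1, x2, x3, b1, b2, b3, ?_, ?_, ?_⟩
  · rw [F.hc1]
    have e : F.a2 * F.b3 - F.a3 * F.b2 = F.a2 * F.b3 - F.a3 * (F.b2 - 1) - F.a3 := by ring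
    rw [e]
    have t1 := abs_le.mp (gen _ _ _ _ x2 b3)
    have t2 := abs_le.mp (gen _ _ _ _ x3 b2)
    rw [abs_le]; constructor <;> linarith [t1.1, t1.2, t2.1, t2.2, A3.1, A3.2]
  · rw [F.hc2]
    have e : F.a3 * F.b1 - F.a1 * F.b3 = F.a3 * F.b1 - (F.a1 - 1) * F.b3 - F.b3 := by ring
    rw [e]
    have t1 := abs_le.mp (gen _ _ _ _ x3 b1)
    have t2 := abs_le.mp (gen _ _ _ _ x1 b3)
    have t3 := abs_le.mp b3
    rw [abs_le]; constructor <;> linarith [t1.1, t1.2, t2.1, t2.2, t3.1, t3.2]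
  · rw [F.hc3]
    have e : F.a1 * F.b2 - F.a2 * F.b1 - 1
        = (F.a1 - 1) * (F.b2 - 1) + (F.a1 - 1) + (F.b2 - 1) - F.a2 * F.b1 := by ring
    rw [e]
    have t1 := abs_le.mp (gen _ _ _ _ x1 b2)
    have t2 := abs_le.mp (gen _ _ _ _ x2 b1)
    have t3 := abs_le.mp b2
    rw [abs_le]; constructor <;> linarith [t1.1, t1.2, t2.1, t2.2, t3.1, t3.2, A1.1, A1.2]

end Pool.Agent.Helper797.Rot
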