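import Pool.Agent.Helper797.RotNear

set_option autoImplicit false

namespace Pool.Agent.Helper797.Rot

lemma psi {t v z g B : ℝ} (hz : |z| ≤ 1) (hB : |t * z - GG t| ≤ B) :
    (v * (g + z) - GG v) ^ 2 ≤ 2 * (v ^ 2 * g ^ 2) + 4 * B ^ 2 + 36 * (v - t) ^ 2 := by
  have h1 : |(v - t) * z - (GG v - GG t)| ≤ 3 * |v - t| := by
    calc _ ≤ |(v - t) * z| + |GG v - GG t| := abs_sub _ _
      _ = |v - t| * |z| + |GG v - GG t| := by rw [abs_mul]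
      _ ≤ |v - t| * 1 + 2 * |v - t| := by
          gcongr
          exact GG_lip v t
      _ = _ := by ring
  have h2 : ((v - t) * z - (GG v - GG t)) ^ 2 ≤ 9 * (v - t) ^ 2 := by
    calc ((v - t) * z - (GG v - GG t)) ^ 2 = |(v - t) * z - (GG v - GG t)| ^ 2 := (sq_abs _).symm
      _ ≤ (3 * |v - t|) ^ 2 := by gcongr
      _ = 9 * (v - t) ^ 2 := by rw [mul_pow, sq_abs]; norm_num
  have h3 : (t * z - GG t) ^ 2 ≤ B ^ 2 := by
    calc (t * z - GG t) ^ 2 = |t * z - GG t| ^ 2 := (sq_abs _).symm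
      _ ≤ B ^ 2 := by gcongr
  have e : v * (g + z) - GG v = v * g + ((t * z - GG t) + ((v - t) * z - (GG v - GG t))) := by ring
  rw [e]
  nlinarith [sq_nonneg (v * g - ((t * z - GG t) + ((v - t) * z - (GG v - GG t)))),
    sq_nonneg ((t * z - GG t) - ((v - t) * z - (GG v - GG t)))]

lemma near_img {F : Frame} (hF : Near F) (j : Fin 3) {σ : ℝ} (hσ : |σ| ≤ 1 / 20000) :
    |g0 F j σ - cu j| ≤ 1 / 1000 ∧ |g1 F j σ - su j| ≤ 1 / 1000 ∧ |g2 F j σ| ≤ 1 / 1000 := by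
  have hσ2 : σ ^ 2 ≤ (1 / 20000) ^ 2 := by rw [← sq_abs]; gcongr
  have bc := cu_abs j
  have bs := su_abs j
  have gen : ∀ x y a b : ℝ, |x| ≤ a → |y| ≤ b → |x * y| ≤ a * b := by
    intro x y a b hx hy
    rw [abs_mul]
    have := abs_nonneg x
    have := abs_nonneg y
    gcongr
    linarith
  have hT : |(1 - (1 + 1 / 10 ^ 8) * σ ^ 2)| ≤ 1 := by
    rw [abs_le]; constructor <;> nlinarith [sq_nonneg σ]
  have hT2 : |(1 + 1 / 10 ^ 8) * σ ^ 2| ≤ 1 / 10 ^ 8 := by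
    rw [abs_of_nonneg (by positivity)]; nlinarith [sq_nonneg σ]
  have key : ∀ (p q u : ℝ), |p - u| ≤ 5 / 10 ^ 6 → |u| ≤ 1 → |q| ≤ 2 →
      |(1 - (1 + 1 / 10 ^ 8) * σ ^ 2) * p + σ * q - u| ≤ 1 / 1000 := by
    intro p q u hp hu hq
    have e : (1 - (1 + 1 / 10 ^ 8) * σ ^ 2) * p + σ * q - u
      = (1 - (1 + 1 / 10 ^ 8) * σ ^ 2) * (p - u) - ((1 + 1 / 10 ^ 8) * σ ^ 2) * u + σ * q := by ring
    rw [e]
    have t1 := abs_le.mp (gen _ _ _ _ hT hp)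
    have t2 := abs_le.mp (gen _ _ _ _ hT2 hu)
    have t3 := abs_le.mp (gen _ _ _ _ hσ hq)
    rw [abs_le]; constructor <;> linarith [t1.1, t1.2, t2.1, t2.2, t3.1, t3.2]
  have A1 := abs_le.mp (gen _ _ _ _ bc hF.a1)
  have A1' := abs_le.mp (gen _ _ _ _ bs hF.a1)
  have A2 := abs_le.mp (gen _ _ _ _ bc hF.a2)
  have A2' := abs_le.mp (gen _ _ _ _ bs hF.a2)
  have A3 := abs_le.mp (gen _ _ _ _ bc hF.a3)
  have A3' := abs_le.mp (gen _ _ _ _ bs hF.a3)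
  have B1 := abs_le.mp (gen _ _ _ _ bc hF.b1)
  have B1' := abs_le.mp (gen _ _ _ _ bs hF.b1)
  have B2 := abs_le.mp (gen _ _ _ _ bc hF.b2)
  have B2' := abs_le.mp (gen _ _ _ _ bs hF.b2)
  have B3 := abs_le.mp (gen _ _ _ _ bc hF.b3)
  have B3' := abs_le.mp (gen _ _ _ _ bs hF.b3)
  have C1 := abs_le.mp hF.c1
  have C2 := abs_le.mp hF.c2
  have C3 := abs_le.mp hF.c3
  have c0 := abs_le.mp bc
  have s0 := abs_le.mp bs
  refine ⟨?_, ?_, ?_⟩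
  · unfold g0
    apply key _ _ _ _ bc
    · rw [abs_le]; constructor <;> linarith [A1'.1, A1'.2, B1.1, B1.2, C1.1, C1.2, s0.1, s0.2]
    · rw [abs_le]; constructor <;> linarith [A1.1, A1.2, B1'.1, B1'.2]
  · unfold g1
    apply key _ _ _ _ bs
    · rw [abs_le]; constructor <;> linarith [A2'.1, A2'.2, B2.1, B2.2, C2.1, C2.2, c0.1, c0.2]
    · rw [abs_le]; constructor <;> linarith [A2.1, A2.2, B2'.1, B2'.2]
  · have h := key (cu j * F.a3 + su j * F.b3) (-su j * F.a3 + cu j * F.b3 + F.c3) 0 ?_ ?_ ?_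
    · rw [sub_zero] at h; exact h
    · rw [sub_zero, abs_le]; constructor <;> linarith [A3.1, A3.2, B3'.1, B3'.2]
    · norm_num
    · rw [abs_le]; constructor <;> linarith [A3'.1, A3'.2, B3.1, B3.2, C3.1, C3.2]

noncomputable def lam (F : Frame) (i : Fin 3) : ℝ := cu i * F.a3 + su i * F.b3

noncomputable def p2 (F : Frame) (i : Fin 3) : ℝ :=
  -su i * (cu i * F.a1 + su i * F.b1) + cu i * (cu i * F.a2 + su i * F.b2)

noncomputable def ee1 (F : Frame) (i : Fin 3) : ℝ :=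
  -su i * (-su i * F.a1 + cu i * F.b1 + F.c1) + cu i * (-su i * F.a2 + cu i * F.b2 + F.c2) - 1

noncomputable def ee2 (F : Frame) (i : Fin 3) : ℝ :=
  -su i * F.a3 + cu i * F.b3 + F.c3 - 1

lemma L2_eq (F : Frame) (i : Fin 3) (σ : ℝ) :
    L2 F i i σ = (1 - (1 + 1 / 10 ^ 8) * σ ^ 2) * p2 F i + σ * (1 + ee1 F i) := by
  unfold L2 g0 g1 p2 ee1; ring

lemma g2_eq (F : Frame) (i : Fin 3) (σ : ℝ) :
    g2 F i σ = (1 - (1 + 1 / 10 ^ 8) * σ ^ 2) * lam F i + σ * (1 + ee2 F i) := by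
  unfold g2 lam ee2; ring

lemma lam_sq_le (F : Frame) (i : Fin 3) : lam F i ^ 2 ≤ F.a3 ^ 2 + F.b3 ^ 2 := by
  unfold lam
  have h := cs i
  nlinarith [sq_nonneg (cu i * F.b3 - su i * F.a3), sq_nonneg F.a3, sq_nonneg F.b3]

lemma p2_sub (F : Frame) (i : Fin 3) : (p2 F i - F.a2) ^ 2 ≤ (1 - F.c3) ^ 2 := by
  have h := cs i
  have e : p2 F i - F.a2 = su i * (-su i * (F.a2 + F.b1) + cu i * (F.b2 - F.a1)) := by
    unfold p2
    linear_combination F.a2 * h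
  have e2 : (-su i * (F.a2 + F.b1) + cu i * (F.b2 - F.a1)) ^ 2
      + (cu i * (F.a2 + F.b1) + su i * (F.b2 - F.a1)) ^ 2 = (1 - F.c3) ^ 2 := by
    linear_combination ((F.a2 + F.b1) ^ 2 + (F.b2 - F.a1) ^ 2) * h + F.hE
  rw [e, mul_pow]
  have h3 : su i ^ 2 ≤ 1 := by nlinarith [sq_nonneg (cu i)]
  nlinarith [sq_nonneg (cu i * (F.a2 + F.b1) + su i * (F.b2 - F.a1)),
    sq_nonneg (-su i * (F.a2 + F.b1) + cu i * (F.b2 - F.a1))]

lemma near_pe {F : Frame} (hF : Near F) (i : Fin 3) :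
    |p2 F i| ≤ 10 / 10 ^ 6 ∧ |lam F i| ≤ 10 / 10 ^ 6 ∧ |ee1 F i| ≤ 20 / 10 ^ 6 ∧
      |ee2 F i| ≤ 20 / 10 ^ 6 := by
  have bc := cu_abs i
  have bs := su_abs i
  have gen : ∀ x y a b : ℝ, |x| ≤ a → |y| ≤ b → |x * y| ≤ a * b := by
    intro x y a b hx hy
    rw [abs_mul]
    have := abs_nonneg x
    have := abs_nonneg y
    gcongr
    linarith
  have C3 := abs_le.mp hF.c3
  have A2 := abs_le.mp hF.a2
  have A3 := abs_le.mp (gen _ _ _ _ bc hF.a3)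
  have A3' := abs_le.mp (gen _ _ _ _ bs hF.a3)
  have B3 := abs_le.mp (gen _ _ _ _ bc hF.b3)
  have B3' := abs_le.mp (gen _ _ _ _ bs hF.b3)
  have C1 := abs_le.mp (gen _ _ _ _ bs hF.c1)
  have C2 := abs_le.mp (gen _ _ _ _ bc hF.c2)
  have hcs : |cu i * su i| ≤ 1 := by simpa using gen _ _ _ _ bc bs
  have hss : |su i * su i| ≤ 1 := by simpa using gen _ _ _ _ bs bs
  have hcc : |cu i * cu i| ≤ 1 := by simpa using gen _ _ _ _ bc bc
  have X1 := abs_le.mp (gen _ _ _ _ hss hF.a1)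
  have X2 := abs_le.mp (gen _ _ _ _ hcs hF.b1)
  have X3 := abs_le.mp (gen _ _ _ _ hcs hF.a2)
  have X4 := abs_le.mp (gen _ _ _ _ hcc hF.b2)
  have h1 := p2_sub F i
  have h2 : |p2 F i - F.a2| ≤ 4 / 10 ^ 6 := by
    apply abs_le_of_sq (by norm_num)
    refine h1.trans ?_
    rw [← sq_abs]
    have : |1 - F.c3| ≤ 4 / 10 ^ 6 := by rw [abs_sub_comm]; exact hF.c3
    gcongr
  refine ⟨?_, ?_, ?_, ?_⟩
  · have := abs_le.mp h2
    rw [abs_le]; constructor <;> linarith [this.1, this.2, A2.1, A2.2]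
  · unfold lam
    rw [abs_le]; constructor <;> linarith [A3.1, A3.2, B3'.1, B3'.2]
  · have e : ee1 F i = su i * su i * (F.a1 - 1) - cu i * su i * F.b1 - su i * F.c1
        - cu i * su i * F.a2 + cu i * cu i * (F.b2 - 1) + cu i * F.c2 := by
      unfold ee1
      linear_combination (1:ℝ) * cs i
    rw [e, abs_le]
    constructor <;>
      linarith [X1.1, X1.2, X2.1, X2.2, X3.1, X3.2, X4.1, X4.2, C1.1, C1.2, C2.1, C2.2]
  · unfold ee2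
    rw [abs_le]; constructor <;> linarith [A3'.1, A3'.2, B3.1, B3.2, C3.1, C3.2]

/-- the weighted mean of the `λ_i ^ 2` -/
noncomputable def mm (F : Frame) : ℝ := (33 * F.a3 ^ 2 + 32 * F.b3 ^ 2 - 8 * F.a3 * F.b3) / 65

noncomputable def yy1 (F : Frame) : ℝ := 1 / 32 / 10 ^ 8 * (F.a3 ^ 2 - mm F)

noncomputable def yy2 (F : Frame) : ℝ :=
  5 / 128 / 10 ^ 8 * ((lam F 1 ^ 2 - mm F) + 3 / 5 * (F.a3 ^ 2 - mm F))

lemma lam0 (F : Frame) : lam F 0 = F.a3 := by simp [lam, cu, su]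
lemma lam1 (F : Frame) : lam F 1 = -3 / 5 * F.a3 + 4 / 5 * F.b3 := by simp [lam, cu, su]
lemma lam2 (F : Frame) : lam F 2 = -5 / 13 * F.a3 - 12 / 13 * F.b3 := by
  simp [lam, cu, su]; ring

lemma yy_eq (F : Frame) (i : Fin 3) :
    2 * (cu i * yy1 F + su i * yy2 F) = 1 / 16 / 10 ^ 8 * (lam F i ^ 2 - mm F) := by
  have l0 := lam0 F
  have l1 := lam1 F
  have l2 := lam2 F
  fin_cases i
  · change 2 * (cu 0 * yy1 F + su 0 * yy2 F) = 1 / 16 / 10 ^ 8 * (lam F 0 ^ 2 - mm F)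
    rw [l0]; unfold yy1 yy2; rw [l1]; simp [cu, su, mm]; ring
  · change 2 * (cu 1 * yy1 F + su 1 * yy2 F) = 1 / 16 / 10 ^ 8 * (lam F 1 ^ 2 - mm F)
    unfold yy1 yy2; rw [l1]; simp [cu, su, mm]; ring
  · change 2 * (cu 2 * yy1 F + su 2 * yy2 F) = 1 / 16 / 10 ^ 8 * (lam F 2 ^ 2 - mm F)
    rw [l2]; unfold yy1 yy2; rw [l1]; simp [cu, su, mm]; ring

lemma mm_lb (F : Frame) : 43 / 100 * (F.a3 ^ 2 + F.b3 ^ 2) ≤ mm F := by
  unfold mm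
  nlinarith [sq_nonneg (F.a3 - F.b3), sq_nonneg (F.a3 + F.b3), sq_nonneg F.a3, sq_nonneg F.b3]

lemma mm_ub (F : Frame) : mm F ≤ F.a3 ^ 2 + F.b3 ^ 2 := by
  unfold mm
  nlinarith [sq_nonneg (F.a3 - F.b3), sq_nonneg (F.a3 + F.b3), sq_nonneg F.a3, sq_nonneg F.b3]

lemma mm_nonneg (F : Frame) : 0 ≤ mm F := by
  have := mm_lb F
  nlinarith [sq_nonneg F.a3, sq_nonneg F.b3]

lemma yy1_abs (F : Frame) : |yy1 F| ≤ 1 / 32 / 10 ^ 8 * (F.a3 ^ 2 + F.b3 ^ 2) := by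
  unfold yy1
  rw [abs_mul, abs_of_pos (by norm_num : (0:ℝ) < 1 / 32 / 10 ^ 8)]
  gcongr
  rw [abs_le]
  constructor <;> nlinarith [mm_nonneg F, mm_ub F, sq_nonneg F.a3, sq_nonneg F.b3]

lemma yy2_abs (F : Frame) : |yy2 F| ≤ 1 / 16 / 10 ^ 8 * (F.a3 ^ 2 + F.b3 ^ 2) := by
  unfold yy2
  rw [abs_mul, abs_of_pos (by norm_num : (0:ℝ) < 5 / 128 / 10 ^ 8)]
  have h : |(lam F 1 ^ 2 - mm F) + 3 / 5 * (F.a3 ^ 2 - mm F)| ≤ 8 / 5 * (F.a3 ^ 2 + F.b3 ^ 2) := by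
    have h1 := lam_sq_le F 1
    rw [abs_le]
    constructor <;> nlinarith [mm_nonneg F, mm_ub F, sq_nonneg F.a3, sq_nonneg F.b3,
      sq_nonneg (lam F 1)]
  nlinarith [abs_nonneg ((lam F 1 ^ 2 - mm F) + 3 / 5 * (F.a3 ^ 2 - mm F))]

end Pool.Agent.Helper797.Rot
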