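import Pool.Agent.Helper797.RotPlace

set_option autoImplicit false

namespace Pool.Agent.Helper797.Rot

noncomputable def rr (F : Frame) : ℝ := Real.sqrt (F.a2 ^ 2 + (F.a3 ^ 2 + F.b3 ^ 2))

lemma W_facts {F : Frame} (hF : Near F) :
    1 - F.c3 ≤ F.a3 ^ 2 + F.b3 ^ 2 ∧ 0 ≤ 1 - F.c3 ∧ F.a3 ^ 2 + F.b3 ^ 2 ≤ 1 / 10 ^ 11 := by
  have h1 := F.hw
  have h2 := abs_le.mp hF.c3
  have h3 : |F.a3| ^ 2 ≤ (1 / 10 ^ 6) ^ 2 := by have := hF.a3; gcongr
  have h4 : |F.b3| ^ 2 ≤ (2 / 10 ^ 6) ^ 2 := by have := hF.b3; gcongr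
  rw [sq_abs] at h3 h4
  have h5 : F.c3 ≤ 1 := by nlinarith [sq_nonneg F.a3, sq_nonneg F.b3, sq_nonneg (F.c3 - 1)]
  refine ⟨?_, by linarith, ?_⟩
  · nlinarith [h2.1, h2.2]
  · nlinarith

/-- `t_i` against `r` -/
lemma t_facts {F : Frame} (hF : Near F) (i : Fin 3) :
    |p2 F i - lam F i| ≤ 3 * rr F ∧
    |rr F - (|p2 F i - lam F i|)| ≤ 3 * Real.sqrt (F.a3 ^ 2 + F.b3 ^ 2) := by
  obtain ⟨w1, w2, w3⟩ := W_facts hF
  set w := Real.sqrt (F.a3 ^ 2 + F.b3 ^ 2) with hw
  have hw0 : 0 ≤ w := Real.sqrt_nonneg _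
  have hww : w ^ 2 = F.a3 ^ 2 + F.b3 ^ 2 := Real.sq_sqrt (by positivity)
  have hw1 : w ≤ 1 := by
    rw [hw]; apply Real.sqrt_le_one.mpr; linarith
  have hwr : w ≤ rr F := by
    apply Real.sqrt_le_sqrt; nlinarith [sq_nonneg F.a2]
  have har : |F.a2| ≤ rr F := by
    apply Real.abs_le_sqrt; nlinarith [sq_nonneg F.a3, sq_nonneg F.b3]
  have hr0 : 0 ≤ rr F := Real.sqrt_nonneg _
  have hra : rr F ≤ |F.a2| + w := by
    unfold rr
    apply Real.sqrt_le_iff.mpr
    refine ⟨by positivity, ?_⟩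
    have := sq_abs F.a2
    nlinarith [abs_nonneg F.a2]
  have hl : |lam F i| ≤ w := by
    apply abs_le_of_sq hw0
    rw [hww]; exact lam_sq_le F i
  have hp : |p2 F i - F.a2| ≤ w := by
    apply abs_le_of_sq hw0
    refine (p2_sub F i).trans ?_
    have : 1 - F.c3 ≤ w := by nlinarith
    gcongr
  have ht : |(p2 F i - lam F i) - F.a2| ≤ 2 * w := by
    have e : (p2 F i - lam F i) - F.a2 = (p2 F i - F.a2) - lam F i := by ring
    rw [e]
    refine (abs_sub _ _).trans ?_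
    linarith
  have ht1 : |p2 F i - lam F i| ≤ |F.a2| + 2 * w := by
    have : |p2 F i - lam F i| = |((p2 F i - lam F i) - F.a2) + F.a2| := by congr 1; ring
    rw [this]
    refine (abs_add_le _ _).trans ?_
    linarith
  have ht2 : |F.a2| ≤ |p2 F i - lam F i| + 2 * w := by
    have : |F.a2| = |(p2 F i - lam F i) - ((p2 F i - lam F i) - F.a2)| := by congr 1; ring
    rw [this]
    refine (abs_sub _ _).trans ?_
    linarith
  refine ⟨by linarith, ?_⟩
  rw [abs_le]
  constructor <;> linarith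

theorem near_place {F : Frame} (hF : Near F) :
    ∃ x : Fin 3 → ℝ, ∀ (j : Fin 3) (σ : ℝ), |σ| ≤ 1 / 20000 → InK (img F j σ + x) := by
  obtain ⟨w1, w2, w3⟩ := W_facts hF
  have hy1 := yy1_abs F
  have hy2 := yy2_abs F
  have hWpos : 0 ≤ F.a3 ^ 2 + F.b3 ^ 2 := by positivity
  set W2 := F.a3 ^ 2 + F.b3 ^ 2 with hW2
  have hz : |ff (rr F)| ≤ 1 := ff_abs_le _
  refine ⟨![yy1 F, yy2 F, ff (rr F)], ?_⟩
  intro j σ hσ
  have hy1' : |yy1 F| ≤ 1 / 10 ^ 19 := by nlinarith
  have hy2' : |yy2 F| ≤ 1 / 10 ^ 19 := by nlinarith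
  apply inK_iff F _ _ _ _ _ hz j hσ
  · intro i a v hav ha hv
    have ha1 : a ≤ 1 := by nlinarith [sq_nonneg v]
    have hv2 : v ^ 2 ≤ 1 / 10 ^ 20 := by
      rw [← sq_abs]
      calc |v| ^ 2 ≤ (1 / 10 ^ 10) ^ 2 := by gcongr
        _ = _ := by norm_num
    have hv0 := sq_nonneg v
    have ha2 : 1 - 1 / 10 ^ 20 ≤ a := by nlinarith
    have bc := cu_abs i
    have bs := su_abs i
    -- the term v * y·u_perp
    have hZ : |v * (-su i * yy1 F + cu i * yy2 F)| ≤ 1 / 10 ^ 10 * (|yy1 F| + |yy2 F|) := by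
      rw [abs_mul]
      have : |-su i * yy1 F + cu i * yy2 F| ≤ |yy1 F| + |yy2 F| := by
        refine (abs_add_le _ _).trans ?_
        rw [abs_mul, abs_mul, abs_neg]
        calc |su i| * |yy1 F| + |cu i| * |yy2 F| ≤ 1 * |yy1 F| + 1 * |yy2 F| := by gcongr
          _ = _ := by ring
      gcongr
    have hZ' := abs_le.mp hZ
    unfold Cell
    have hcell := two_sub F i j (σ := σ) (a := a) (v := v) hσ hav
    by_cases hij : i = j
    · subst hij
      obtain ⟨n1, n2, n3, n4⟩ := near_pe hF i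
      have hr := ridge (p2 := p2 F i) (p3 := lam F i) (e1 := ee1 F i) (e2 := ee2 F i) (v := v)
        hσ n1 n2 n3 n4
      rw [← L2_eq, ← g2_eq] at hr
      obtain ⟨t1, t2⟩ := t_facts hF i
      have hkey := GG_key (r := rr F) (Real.sqrt_nonneg _) t1
      rw [← hW2] at t2
      have hB : |(p2 F i - lam F i) * ff (rr F) - GG (p2 F i - lam F i)|
          ≤ 9 / 10 ^ 5 * Real.sqrt W2 := by
        refine hkey.trans ?_
        linarith
      have hpsi := psi (v := v) (g := g2 F i σ) hz hB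
      rw [mul_pow, Real.sq_sqrt hWpos] at hpsi
      have hy := yy_eq F i
      have hm := mm_lb F
      have hla := sq_nonneg (lam F i)
      have e1 : 2 * (a * (cu i * yy1 F + su i * yy2 F))
          = a * (1 / 16 / 10 ^ 8 * (lam F i ^ 2 - mm F)) := by rw [← hy]; ring
      have hla2 : a * lam F i ^ 2 ≤ lam F i ^ 2 := by nlinarith
      have hmm : (1 - 1 / 10 ^ 20) * (43 / 100 * W2) ≤ a * mm F := by
        have h0 : 0 ≤ 43 / 100 * W2 := by positivity
        calc (1 - 1 / 10 ^ 20) * (43 / 100 * W2) ≤ a * (43 / 100 * W2) := by gcongr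
          _ ≤ a * mm F := by gcongr
      have hg : v ^ 2 * g2 F i σ ^ 2 ≤ 1 / 10 ^ 20 * g2 F i σ ^ 2 := by gcongr
      have hg0 := sq_nonneg (g2 F i σ)
      have q1 := sq_nonneg (L1 F i i σ - a)
      have q2 := sq_nonneg (v - (p2 F i - lam F i))
      have e2 : 2 * (a * (cu i * yy1 F + su i * yy2 F) + v * (-su i * yy1 F + cu i * yy2 F))
          = a * (1 / 16 / 10 ^ 8 * (lam F i ^ 2 - mm F))
            + 2 * (v * (-su i * yy1 F + cu i * yy2 F)) := by rw [← e1]; ring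
      rw [e2]
      nlinarith
    · obtain ⟨m1, m2, m3⟩ := near_img hF j hσ
      have gen : ∀ x y a b : ℝ, |x| ≤ a → |y| ≤ b → |x * y| ≤ a * b := by
        intro x y a b hx hy
        rw [abs_mul]
        have := abs_nonneg x
        have := abs_nonneg y
        gcongr
        linarith
      have hd := dot_ne hij
      have k1 := abs_le.mp (gen _ _ _ _ bc m1)
      have k2 := abs_le.mp (gen _ _ _ _ bs m2)
      have hL1 : L1 F i j σ ≤ 0 := by
        unfold L1
        linarith [k1.1, k1.2, k2.1, k2.2]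
      have k3 := g_abs F j hσ 0
      have k4 := g_abs F j hσ 1
      have k3' : |g0 F j σ| ≤ 1 := by simpa [img] using k3
      have k4' : |g1 F j σ| ≤ 1 := by simpa [img] using k4
      have k5 := abs_le.mp (gen _ _ _ _ bs k3')
      have k6 := abs_le.mp (gen _ _ _ _ bc k4')
      have hL2 : |L2 F i j σ| ≤ 2 := by
        unfold L2
        rw [abs_le]; constructor <;> linarith [k5.1, k5.2, k6.1, k6.2]
      have k7 := abs_le.mp (gen _ _ _ _ hv hL2)
      have k8 : a * L1 F i j σ ≤ 0 := mul_nonpos_of_nonneg_of_nonpos ha.le hL1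
      have hsum : |g2 F j σ + ff (rr F)| ≤ 2 := by
        refine (abs_add_le _ _).trans ?_; linarith
      have hGG : |v * (g2 F j σ + ff (rr F)) - GG v| ≤ 1 := by
        refine (abs_sub _ _).trans ?_
        have := gen _ _ _ _ hv hsum
        have := GG_abs_le v
        linarith
      have hsq : (v * (g2 F j σ + ff (rr F)) - GG v) ^ 2 ≤ 1 := by
        rw [← sq_abs]
        calc _ ≤ (1:ℝ) ^ 2 := by gcongr
          _ = 1 := by norm_num
      have hY : |cu i * yy1 F + su i * yy2 F| ≤ |yy1 F| + |yy2 F| := by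
        refine (abs_add_le _ _).trans ?_
        rw [abs_mul, abs_mul]
        calc |cu i| * |yy1 F| + |su i| * |yy2 F| ≤ 1 * |yy1 F| + 1 * |yy2 F| := by gcongr
          _ = _ := by ring
      have hY' : |cu i * yy1 F + su i * yy2 F| ≤ 1 / 10 ^ 10 := by
        refine hY.trans ?_
        linarith
      have hYa := abs_le.mp (gen _ _ _ _ (abs_le.mpr ⟨by linarith, ha1⟩ : |a| ≤ 1) hY')
      linarith [k7.1, k7.2, hYa.1, hYa.2, hZ'.1, hZ'.2]
  · linarith
  · linarith

theorem kakeya (F : Frame) :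
    ∃ x : Fin 3 → ℝ, ∀ (j : Fin 3) (σ : ℝ), |σ| ≤ 1 / 20000 → InK (img F j σ + x) := by
  by_cases h : ∃ k, Safe F k
  · obtain ⟨k, hk⟩ := h
    exact safe_place F k hk
  · push Not at h
    exact near_place (near_of_unsafe F h)

end Pool.Agent.Helper797.Rot
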