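import Mathlib
set_option autoImplicit false
open MeasureTheory Real Filter Topology
open scoped RealInnerProductSpace Gradient ContDiff

/-! Weighted Hardy inequalities with weight `(1+|x|^2)^α` on Euclidean space:
integration by parts, truncation, averaging over the orthogonal group, a sharp spherical
Poincare inequality, and the one-dimensional inequalities used for the lower bounds. -/

namespace Pool.Agent.Helper797.WeightedHardy

abbrev E (n : ℕ) := EuclideanSpace ℝ (Fin n)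

variable {n : ℕ}

lemma one_add_pos (x : E n) : 0 < 1 + ‖x‖ ^ 2 := by positivity

lemma contDiff_weight (γ : ℝ) {k : WithTop ℕ∞} : ContDiff ℝ k (fun x : E n => (1 + ‖x‖ ^ 2) ^ γ) := by
  apply ContDiff.rpow_const_of_ne
  · exact contDiff_const.add (contDiff_norm_sq ℝ)
  · intro x; exact (one_add_pos x).ne'

lemma fderiv_weight (γ : ℝ) (x v : E n) :
    fderiv ℝ (fun x : E n => (1 + ‖x‖ ^ 2) ^ γ) x v = 2 * γ * (1 + ‖x‖ ^ 2) ^ (γ - 1) * ⟪x, v⟫ := by
  have h1 : HasFDerivAt (fun x : E n => 1 + ‖x‖ ^ 2) (2 • (innerSL ℝ x)) x := by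
    have := (hasStrictFDerivAt_norm_sq x).hasFDerivAt
    simpa using this.const_add 1
  have h2 := h1.rpow_const (p := γ) (Or.inl (one_add_pos x).ne')
  rw [h2.fderiv]
  simp
  ring

/-- integration by parts for C^1 compactly supported ψ against a C^1 function -/
lemma ibp (f ψ : E n → ℝ) (hf : ContDiff ℝ 1 f) (hψ : ContDiff ℝ 1 ψ) (hc : HasCompactSupport ψ)
    (v : E n) : ∫ x, f x * fderiv ℝ ψ x v = - ∫ x, fderiv ℝ f x v * ψ x := by
  have hfd : Continuous (fun x => fderiv ℝ f x v) := (hf.continuous_fderiv one_ne_zero).clm_apply continuous_const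
  have hpd : Continuous (fun x => fderiv ℝ ψ x v) := (hψ.continuous_fderiv one_ne_zero).clm_apply continuous_const
  apply integral_mul_fderiv_eq_neg_fderiv_mul_of_integrable
  · exact (hfd.mul hψ.continuous).integrable_of_hasCompactSupport hc.mul_left
  · refine (hf.continuous.mul hpd).integrable_of_hasCompactSupport ?_
    exact (hc.fderiv_apply (𝕜 := ℝ) v).mul_left
  · exact (hf.continuous.mul hψ.continuous).integrable_of_hasCompactSupport hc.mul_left
  · intro x _; exact hf.differentiable (by norm_num) x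
  · intro x _; exact hψ.differentiable (by norm_num) x

lemma sum_fderiv (ψ : E n → ℝ) (x : E n) :
    fderiv ℝ ψ x x = ∑ i, x i * fderiv ℝ ψ x (EuclideanSpace.single i 1) := by
  have h : x = ∑ i, x i • (EuclideanSpace.single i (1:ℝ) : E n) := by
    have := (EuclideanSpace.basisFun (Fin n) ℝ).sum_repr x
    simpa using this.symm
  have h2 := congrArg (fun y => fderiv ℝ ψ x y) h
  simp only [map_sum, map_smul, smul_eq_mul] at h2
  exact h2

lemma ibp_euler (γ : ℝ) (ψ : E n → ℝ) (hψ : ContDiff ℝ 1 ψ) (hc : HasCompactSupport ψ) :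
    ∫ x, (1 + ‖x‖ ^ 2) ^ γ * fderiv ℝ ψ x x =
      - ∫ x, (n * (1 + ‖x‖ ^ 2) ^ γ + 2 * γ * ‖x‖ ^ 2 * (1 + ‖x‖ ^ 2) ^ (γ - 1)) * ψ x := by
  have hcoord : ∀ i : Fin n, ContDiff ℝ 1 (fun x : E n => x i) := by
    intro i
    exact (EuclideanSpace.proj i : E n →L[ℝ] ℝ).contDiff
  have hw : ContDiff ℝ 1 (fun x : E n => (1 + ‖x‖ ^ 2) ^ γ) := contDiff_weight γ
  have hpd : ∀ v : E n, Continuous (fun x => fderiv ℝ ψ x v) := fun v =>
    (hψ.continuous_fderiv one_ne_zero).clm_apply continuous_const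
  have key : ∀ i : Fin n, ∫ x : E n, ((1 + ‖x‖ ^ 2) ^ γ * x i) * fderiv ℝ ψ x (EuclideanSpace.single i 1)
      = - ∫ x : E n, ((1 + ‖x‖ ^ 2) ^ γ + 2 * γ * (1 + ‖x‖ ^ 2) ^ (γ - 1) * (x i) ^ 2) * ψ x := by
    intro i
    rw [ibp (fun x : E n => (1 + ‖x‖ ^ 2) ^ γ * x i) ψ (hw.mul (hcoord i)) hψ hc]
    congr 1
    apply integral_congr_ae
    filter_upwards with x
    congr 1
    have h1 : HasFDerivAt (fun x : E n => (1 + ‖x‖ ^ 2) ^ γ) (fderiv ℝ (fun x : E n => (1 + ‖x‖ ^ 2) ^ γ) x) x :=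
      (hw.differentiable one_ne_zero x).hasFDerivAt
    have h2 : HasFDerivAt (fun x : E n => x i) (EuclideanSpace.proj i : E n →L[ℝ] ℝ) x :=
      (EuclideanSpace.proj i : E n →L[ℝ] ℝ).hasFDerivAt
    rw [(h1.fun_mul h2).fderiv]
    simp only [add_apply, smul_apply, smul_eq_mul,
      fderiv_weight]
    simp [EuclideanSpace.inner_single_right]
    ring
  have hint : ∀ i ∈ (Finset.univ : Finset (Fin n)), Integrable (fun x : E n => ((1 + ‖x‖ ^ 2) ^ γ * x i) * fderiv ℝ ψ x (EuclideanSpace.single i 1)) := by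
    intro i _
    refine ((hw.continuous.mul (hcoord i).continuous).mul (hpd _)).integrable_of_hasCompactSupport ?_
    exact (hc.fderiv_apply (𝕜 := ℝ) _).mul_left
  have hint2 : ∀ i ∈ (Finset.univ : Finset (Fin n)), Integrable (fun x : E n => ((1 + ‖x‖ ^ 2) ^ γ + 2 * γ * (1 + ‖x‖ ^ 2) ^ (γ - 1) * (x i) ^ 2) * ψ x) := by
    intro i _
    refine Continuous.integrable_of_hasCompactSupport ?_ hc.mul_left
    refine (hw.continuous.add ?_).mul hψ.continuous
    exact (continuous_const.mul (contDiff_weight (k := 1) (γ - 1)).continuous).mul ((hcoord i).continuous.pow 2)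
  calc ∫ x, (1 + ‖x‖ ^ 2) ^ γ * fderiv ℝ ψ x x
      = ∫ x : E n, ∑ i, ((1 + ‖x‖ ^ 2) ^ γ * x i) * fderiv ℝ ψ x (EuclideanSpace.single i 1) := by
        apply integral_congr_ae
        filter_upwards with x
        rw [sum_fderiv, Finset.mul_sum]
        apply Finset.sum_congr rfl
        intro i _
        ring
    _ = ∑ i, ∫ x : E n, ((1 + ‖x‖ ^ 2) ^ γ * x i) * fderiv ℝ ψ x (EuclideanSpace.single i 1) :=
        integral_finsetSum _ hint
    _ = ∑ i, - ∫ x : E n, ((1 + ‖x‖ ^ 2) ^ γ + 2 * γ * (1 + ‖x‖ ^ 2) ^ (γ - 1) * (x i) ^ 2) * ψ x := by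
        apply Finset.sum_congr rfl
        intro i _
        exact key i
    _ = - ∫ x : E n, ∑ i, ((1 + ‖x‖ ^ 2) ^ γ + 2 * γ * (1 + ‖x‖ ^ 2) ^ (γ - 1) * (x i) ^ 2) * ψ x := by
        rw [integral_finsetSum _ hint2, Finset.sum_neg_distrib]
    _ = _ := by
        congr 1
        apply integral_congr_ae
        filter_upwards with x
        rw [← Finset.sum_mul, Finset.sum_add_distrib, ← Finset.mul_sum]
        simp only [Finset.sum_const, Finset.card_univ, Fintype.card_fin, nsmul_eq_mul]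
        have : ‖x‖ ^ 2 = ∑ i, (x i) ^ 2 := by
          rw [EuclideanSpace.norm_sq_eq]
          simp
        rw [← this]
        ring

noncomputable def energy (α : ℝ) (u : E n → ℝ) : ℝ := ∫ x, (1 + ‖x‖ ^ 2) ^ α * ‖∇ u x‖ ^ 2
noncomputable def mass (α : ℝ) (u : E n → ℝ) : ℝ := ∫ x, (1 + ‖x‖ ^ 2) ^ (α - 1) * (u x) ^ 2

lemma rpow_sub_one' (x : E n) (γ : ℝ) : (1 + ‖x‖ ^ 2) ^ γ = (1 + ‖x‖ ^ 2) ^ (γ - 1) * (1 + ‖x‖ ^ 2) := by
  have h := Real.rpow_add_one (one_add_pos x).ne' (γ - 1)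
  rw [sub_add_cancel] at h
  exact h

lemma inner_gradient (u : E n → ℝ) (x v : E n) : ⟪∇ u x, v⟫ = fderiv ℝ u x v := by
  rw [gradient, InnerProductSpace.toDual_symm_apply]

lemma continuous_gradient {u : E n → ℝ} (hu : ContDiff ℝ 1 u) : Continuous (fun x => ∇ u x) := by
  unfold gradient
  exact (InnerProductSpace.toDual ℝ (E n)).symm.continuous.comp (hu.continuous_fderiv one_ne_zero)

lemma hasCompactSupport_gradient {u : E n → ℝ} (hc : HasCompactSupport u) :
    HasCompactSupport (fun x => ∇ u x) := by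
  have := hc.fderiv (𝕜 := ℝ)
  exact this.comp_left (g := fun l => (InnerProductSpace.toDual ℝ (E n)).symm l) (by simp)

lemma fderiv_sq (u : E n → ℝ) (hu : ContDiff ℝ 1 u) (x v : E n) :
    fderiv ℝ (fun y => u y ^ 2) x v = 2 * u x * fderiv ℝ u x v := by
  have h1 : HasFDerivAt u (fderiv ℝ u x) x := (hu.differentiable one_ne_zero x).hasFDerivAt
  rw [(h1.pow 2).fderiv]
  simp

lemma hcs_sq {f : E n → ℝ} (hc : HasCompactSupport f) : HasCompactSupport (fun x => f x ^ 2) := by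
  refine hc.mono ?_
  intro x hx
  simp only [Function.mem_support] at hx ⊢
  intro h0
  apply hx
  rw [h0]; simp

lemma hcs_grad_sq {u : E n → ℝ} (hc : HasCompactSupport u) : HasCompactSupport (fun x => ‖∇ u x‖ ^ 2) :=
  hcs_sq (hasCompactSupport_gradient hc).norm

lemma hcs_fderiv_self {u : E n → ℝ} (hc : HasCompactSupport u) :
    HasCompactSupport (fun x => fderiv ℝ u x x) := by
  have := hc.fderiv (𝕜 := ℝ)
  refine this.mono ?_
  intro x hx
  simp only [Function.mem_support] at hx ⊢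
  intro h0
  apply hx
  rw [h0]; simp

lemma identityA (α β : ℝ) (u : E n → ℝ) (hu : ContDiff ℝ 1 u) (hc : HasCompactSupport u) :
    energy α u = (∫ x, (1 + ‖x‖ ^ 2) ^ (α - 1) * (2 * β * n + 4 * β * (α - 1 - β) * (‖x‖ ^ 2 / (1 + ‖x‖ ^ 2))) * (u x) ^ 2)
      + ∫ x, (1 + ‖x‖ ^ 2) ^ α * ‖∇ u x + (2 * β * u x / (1 + ‖x‖ ^ 2)) • x‖ ^ 2 := by
  have hcu2 : HasCompactSupport (fun x => u x ^ 2) := hcs_sq hc
  have hw : ∀ γ : ℝ, Continuous (fun x : E n => (1 + ‖x‖ ^ 2) ^ γ) := fun γ => (contDiff_weight (k := 1) γ).continuous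
  have hnorm : Continuous (fun x : E n => ‖x‖ ^ 2) := continuous_norm.pow 2
  have hI := ibp_euler (α - 1) (fun x => u x ^ 2) (hu.pow 2) hcu2
  have i1 : Integrable (fun x : E n => (1 + ‖x‖ ^ 2) ^ α * ‖∇ u x‖ ^ 2) := by
    refine ((hw α).mul ((continuous_gradient hu).norm.pow 2)).integrable_of_hasCompactSupport ?_
    exact (hcs_grad_sq hc).mul_left
  have i2 : Integrable (fun x : E n => (1 + ‖x‖ ^ 2) ^ (α - 1) * fderiv ℝ (fun x => u x ^ 2) x x) := by
    refine ((hw (α-1)).mul ?_).integrable_of_hasCompactSupport ?_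
    · exact ((hu.pow 2).continuous_fderiv one_ne_zero).clm_apply continuous_id
    · exact (hcs_fderiv_self hcu2).mul_left
  have i3 : Integrable (fun x : E n => 4 * β ^ 2 * ((1 + ‖x‖ ^ 2) ^ (α - 1 - 1) * ‖x‖ ^ 2 * u x ^ 2)) := by
    refine Continuous.integrable_of_hasCompactSupport ?_ ?_
    · exact continuous_const.mul (((hw _).mul hnorm).mul (hu.continuous.pow 2))
    · exact (hcu2.mul_left).mul_left
  have i4 : Integrable (fun x : E n => (n * (1 + ‖x‖ ^ 2) ^ (α - 1) + 2 * (α - 1) * ‖x‖ ^ 2 * (1 + ‖x‖ ^ 2) ^ (α - 1 - 1)) * u x ^ 2) := by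
    refine Continuous.integrable_of_hasCompactSupport ?_ ?_
    · exact ((continuous_const.mul (hw _)).add ((continuous_const.mul hnorm).mul (hw _))).mul (hu.continuous.pow 2)
    · exact hcu2.mul_left
  have e1 : (∫ x, (1 + ‖x‖ ^ 2) ^ α * ‖∇ u x + (2 * β * u x / (1 + ‖x‖ ^ 2)) • x‖ ^ 2)
      = (∫ x : E n, (1 + ‖x‖ ^ 2) ^ α * ‖∇ u x‖ ^ 2) + 2 * β * (∫ x : E n, (1 + ‖x‖ ^ 2) ^ (α - 1) * fderiv ℝ (fun x => u x ^ 2) x x)
        + ∫ x : E n, 4 * β ^ 2 * ((1 + ‖x‖ ^ 2) ^ (α - 1 - 1) * ‖x‖ ^ 2 * u x ^ 2) := by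
    have i12 : Integrable (fun x : E n => (1 + ‖x‖ ^ 2) ^ α * ‖∇ u x‖ ^ 2 + 2 * β * ((1 + ‖x‖ ^ 2) ^ (α - 1) * fderiv ℝ (fun x => u x ^ 2) x x)) :=
      i1.add (i2.const_mul _)
    rw [← integral_const_mul, ← integral_add i1 (i2.const_mul _), ← integral_add i12 i3]
    apply integral_congr_ae
    filter_upwards with x
    rw [norm_add_sq_real, inner_smul_right, inner_gradient, norm_smul, fderiv_sq u hu]
    rw [rpow_sub_one' x α, rpow_sub_one' x (α - 1)]
    have hx := (one_add_pos x).ne'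
    rw [Real.norm_eq_abs, mul_pow, sq_abs]
    field_simp
    ring
  rw [e1, hI]
  have e2 : (∫ x : E n, (1 + ‖x‖ ^ 2) ^ (α - 1) * (2 * β * n + 4 * β * (α - 1 - β) * (‖x‖ ^ 2 / (1 + ‖x‖ ^ 2))) * (u x) ^ 2)
      = 2 * β * (∫ x : E n, (n * (1 + ‖x‖ ^ 2) ^ (α - 1) + 2 * (α - 1) * ‖x‖ ^ 2 * (1 + ‖x‖ ^ 2) ^ (α - 1 - 1)) * u x ^ 2)
        - ∫ x : E n, 4 * β ^ 2 * ((1 + ‖x‖ ^ 2) ^ (α - 1 - 1) * ‖x‖ ^ 2 * u x ^ 2) := by
    rw [← integral_const_mul, ← integral_sub (i4.const_mul _) i3]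
    apply integral_congr_ae
    filter_upwards with x
    rw [rpow_sub_one' x (α - 1)]
    have hx := (one_add_pos x).ne'
    field_simp
    ring
  rw [e2]
  unfold energy
  ring

lemma exists_bound_deriv_smoothTransition : ∃ K : ℝ, 0 ≤ K ∧ ∀ t, |deriv Real.smoothTransition t| ≤ K := by
  have hc : Continuous (deriv Real.smoothTransition) :=
    (Real.smoothTransition.contDiff (n := 1)).continuous_deriv le_rfl
  have hcs : HasCompactSupport (deriv Real.smoothTransition) := by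
    apply HasCompactSupport.intro (K := Set.Icc 0 1) isCompact_Icc
    intro x hx
    simp only [Set.mem_Icc, not_and_or, not_le] at hx
    rcases hx with h | h
    · have : Real.smoothTransition =ᶠ[𝓝 x] fun _ => 0 := by
        filter_upwards [Iio_mem_nhds h] with y hy
        exact Real.smoothTransition.zero_of_nonpos (le_of_lt hy)
      rw [this.deriv_eq]; simp
    · have : Real.smoothTransition =ᶠ[𝓝 x] fun _ => 1 := by
        filter_upwards [Ioi_mem_nhds h] with y hy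
        exact Real.smoothTransition.one_of_one_le (le_of_lt hy)
      rw [this.deriv_eq]; simp
  obtain ⟨K, hK⟩ := hc.bounded_above_of_compact_support hcs
  exact ⟨|K|, abs_nonneg _, fun t => (hK t).trans (le_abs_self K)⟩

/-- cutoff function -/
noncomputable def chi (m : ℕ) (x : E n) : ℝ := Real.smoothTransition (2 - ‖x‖ ^ 2 / ((m : ℝ) + 1) ^ 2)

lemma chi_contDiff (m : ℕ) {k : ℕ∞} : ContDiff ℝ k (chi m : E n → ℝ) := by
  unfold chi
  apply Real.smoothTransition.contDiff.comp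
  exact contDiff_const.sub ((contDiff_norm_sq ℝ).div_const _)

lemma chi_nonneg (m : ℕ) (x : E n) : 0 ≤ chi m x := Real.smoothTransition.nonneg _
lemma chi_le_one (m : ℕ) (x : E n) : chi m x ≤ 1 := Real.smoothTransition.le_one _

lemma chi_eq_one {m : ℕ} {x : E n} (h : ‖x‖ ^ 2 ≤ ((m : ℝ) + 1) ^ 2) : chi m x = 1 := by
  apply Real.smoothTransition.one_of_one_le
  have : ‖x‖ ^ 2 / ((m : ℝ) + 1) ^ 2 ≤ 1 := by
    rw [div_le_one (by positivity)]; exact h
  linarith

lemma chi_eq_zero {m : ℕ} {x : E n} (h : 2 * ((m : ℝ) + 1) ^ 2 ≤ ‖x‖ ^ 2) : chi m x = 0 := by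
  apply Real.smoothTransition.zero_of_nonpos
  have : 2 ≤ ‖x‖ ^ 2 / ((m : ℝ) + 1) ^ 2 := by
    rw [le_div_iff₀ (by positivity)]; exact h
  linarith

lemma chi_hcs (m : ℕ) : HasCompactSupport (chi m : E n → ℝ) := by
  apply HasCompactSupport.intro (K := Metric.closedBall 0 (2 * ((m : ℝ) + 1))) (isCompact_closedBall _ _)
  intro x hx
  simp only [Metric.mem_closedBall, dist_zero_right, not_le] at hx
  apply chi_eq_zero
  have h0 : (0 : ℝ) < m + 1 := by positivity
  nlinarith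

lemma chi_eventually (x : E n) : ∀ᶠ m : ℕ in atTop, (chi m : E n → ℝ) =ᶠ[𝓝 x] fun _ => 1 := by
  filter_upwards [eventually_ge_atTop (Nat.ceil (‖x‖ + 1))] with m hm
  have h1 : ‖x‖ + 1 ≤ m := by
    have := Nat.le_ceil (‖x‖ + 1)
    have h2 : ((Nat.ceil (‖x‖ + 1) : ℕ) : ℝ) ≤ m := by exact_mod_cast hm
    linarith
  filter_upwards [Metric.ball_mem_nhds x one_pos] with y hy
  apply chi_eq_one
  have : ‖y‖ ≤ ‖x‖ + 1 := by
    have h3 : ‖y - x‖ < 1 := by simpa [dist_eq_norm] using hy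
    calc ‖y‖ = ‖x + (y - x)‖ := by congr 1; abel
      _ ≤ ‖x‖ + ‖y - x‖ := norm_add_le _ _
      _ ≤ ‖x‖ + 1 := by linarith
  have h4 : ‖y‖ ≤ m + 1 := by linarith
  have h5 : 0 ≤ ‖y‖ := norm_nonneg _
  nlinarith

lemma fderiv_chi (m : ℕ) (x v : E n) :
    fderiv ℝ (chi m) x v = deriv Real.smoothTransition (2 - ‖x‖ ^ 2 / ((m : ℝ) + 1) ^ 2) * (-(2 / ((m : ℝ) + 1) ^ 2) * ⟪x, v⟫) := by
  have h1 : HasFDerivAt (fun x : E n => 2 - ‖x‖ ^ 2 / ((m : ℝ) + 1) ^ 2) (-((((m : ℝ) + 1) ^ 2)⁻¹ • (2 • (innerSL ℝ x)))) x := by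
    have := ((hasStrictFDerivAt_norm_sq x).hasFDerivAt).mul_const (((m : ℝ) + 1) ^ 2)⁻¹
    have h2 := this.const_sub 2
    simpa [div_eq_mul_inv] using h2
  have h3 : HasDerivAt Real.smoothTransition (deriv Real.smoothTransition (2 - ‖x‖ ^ 2 / ((m : ℝ) + 1) ^ 2)) (2 - ‖x‖ ^ 2 / ((m : ℝ) + 1) ^ 2) :=
    ((Real.smoothTransition.contDiff (n := 1)).differentiable one_ne_zero _).hasDerivAt
  have h4 := h3.comp_hasFDerivAt x h1
  have : fderiv ℝ (chi m) x = _ := h4.fderiv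
  rw [this]
  simp
  left
  ring

lemma gradient_chi_bound {K : ℝ} (hK : ∀ t, |deriv Real.smoothTransition t| ≤ K) (hK0 : 0 ≤ K) (m : ℕ) (x : E n) :
    (1 + ‖x‖ ^ 2) * ‖∇ (chi m) x‖ ^ 2 ≤ 24 * K ^ 2 := by
  have hm : (1 : ℝ) ≤ m + 1 := by
    have : (0 : ℝ) ≤ m := Nat.cast_nonneg m
    linarith
  by_cases h : 2 * ((m : ℝ) + 1) ^ 2 < ‖x‖ ^ 2
  · have : (chi m : E n → ℝ) =ᶠ[𝓝 x] fun _ => 0 := by
      have ho : IsOpen {y : E n | 2 * ((m : ℝ) + 1) ^ 2 < ‖y‖ ^ 2} :=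
        isOpen_lt continuous_const (continuous_norm.pow 2)
      filter_upwards [ho.mem_nhds h] with y hy
      exact chi_eq_zero (le_of_lt hy)
    have h2 : ∇ (chi m) x = 0 := by
      unfold gradient
      rw [this.fderiv_eq]
      simp
    rw [h2]; simp; positivity
  · push Not at h
    have hg : ∇ (chi m) x = (deriv Real.smoothTransition (2 - ‖x‖ ^ 2 / ((m : ℝ) + 1) ^ 2) * (-(2 / ((m : ℝ) + 1) ^ 2))) • x := by
      apply ext_inner_right ℝ
      intro v
      rw [inner_gradient, fderiv_chi, inner_smul_left]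
      simp
      ring
    rw [hg, norm_smul, mul_pow, Real.norm_eq_abs, sq_abs, mul_pow]
    have h3 : deriv Real.smoothTransition (2 - ‖x‖ ^ 2 / ((m : ℝ) + 1) ^ 2) ^ 2 ≤ K ^ 2 := by
      have := hK (2 - ‖x‖ ^ 2 / ((m : ℝ) + 1) ^ 2)
      rw [← sq_abs]
      exact pow_le_pow_left₀ (abs_nonneg _) this 2
    set D := deriv Real.smoothTransition (2 - ‖x‖ ^ 2 / ((m : ℝ) + 1) ^ 2) ^ 2
    set A := ((m : ℝ) + 1) ^ 2 with hA
    have hA1 : 1 ≤ A := by rw [hA]; nlinarith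
    have h4 : (-(2 / A)) ^ 2 = 4 / A ^ 2 := by field_simp; norm_num
    rw [h4]
    have h5 : (1 + ‖x‖ ^ 2) * ‖x‖ ^ 2 ≤ 6 * A ^ 2 := by
      have h6 : 1 + ‖x‖ ^ 2 ≤ 3 * A := by linarith
      have h7 : 0 ≤ ‖x‖ ^ 2 := by positivity
      calc (1 + ‖x‖ ^ 2) * ‖x‖ ^ 2 ≤ (3 * A) * (2 * A) := by
            apply mul_le_mul h6 h h7; linarith
        _ = 6 * A ^ 2 := by ring
    calc (1 + ‖x‖ ^ 2) * (D * (4 / A ^ 2) * ‖x‖ ^ 2) = D * (4 * ((1 + ‖x‖ ^ 2) * ‖x‖ ^ 2) / A ^ 2) := by ring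
      _ ≤ K ^ 2 * 24 := by
          apply mul_le_mul h3 _ (by positivity) (by positivity)
          rw [div_le_iff₀ (by positivity)]
          linarith
      _ = 24 * K ^ 2 := by ring

lemma gradient_mul {f g : E n → ℝ} {x : E n} (hf : DifferentiableAt ℝ f x) (hg : DifferentiableAt ℝ g x) :
    ∇ (fun y => f y * g y) x = f x • ∇ g x + g x • ∇ f x := by
  apply ext_inner_right ℝ
  intro v
  rw [inner_gradient, inner_add_left, inner_smul_left, inner_smul_left, inner_gradient, inner_gradient]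
  rw [(hf.hasFDerivAt.fun_mul hg.hasFDerivAt).fderiv]
  simp

lemma gradient_sub_const (f : E n → ℝ) (c : ℝ) (x : E n) : ∇ (fun y => f y - c) x = ∇ f x := by
  unfold gradient
  rw [fderiv_sub_const]

/-- truncated function -/
noncomputable def trunc (w : E n → ℝ) (c : ℕ → ℝ) (m : ℕ) (x : E n) : ℝ := (w x - c m) * chi m x

lemma trunc_contDiff {w : E n → ℝ} (hw : ContDiff ℝ ∞ w) (c : ℕ → ℝ) (m : ℕ) :
    ContDiff ℝ ∞ (trunc w c m) := by
  unfold trunc
  exact (hw.sub contDiff_const).mul (chi_contDiff m)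

lemma trunc_hcs (w : E n → ℝ) (c : ℕ → ℝ) (m : ℕ) : HasCompactSupport (trunc w c m) :=
  (chi_hcs m).mul_left

lemma trunc_energy {α : ℝ} {w : E n → ℝ} (hw : ContDiff ℝ ∞ w)
    (hM : Integrable (fun x : E n => (1 + ‖x‖ ^ 2) ^ (α - 1) * (w x) ^ 2))
    (hE : Integrable (fun x : E n => (1 + ‖x‖ ^ 2) ^ α * ‖∇ w x‖ ^ 2))
    {c : ℕ → ℝ} (hc : Tendsto c atTop (𝓝 0)) {B : ℝ} (hB : ∀ m, |c m| ≤ B)
    (hint : Integrable (fun x : E n => B ^ 2 * (1 + ‖x‖ ^ 2) ^ (α - 1))) :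
    Tendsto (fun m => energy α (trunc w c m)) atTop (𝓝 (energy α w)) := by
  obtain ⟨K, hK0, hK⟩ := exists_bound_deriv_smoothTransition
  have hdw : ∀ x, DifferentiableAt ℝ w x := fun x => hw.differentiable (by simp) x
  have hdc : ∀ m (x : E n), DifferentiableAt ℝ (chi m) x := fun m x =>
    (chi_contDiff m (k := 1)).differentiable one_ne_zero x
  apply tendsto_integral_of_dominated_convergence
    (fun x => 2 * ((1 + ‖x‖ ^ 2) ^ α * ‖∇ w x‖ ^ 2) + 96 * K ^ 2 * ((1 + ‖x‖ ^ 2) ^ (α - 1) * (w x) ^ 2)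
      + 96 * K ^ 2 * (B ^ 2 * (1 + ‖x‖ ^ 2) ^ (α - 1)))
  · intro m
    refine Continuous.aestronglyMeasurable ?_
    have h1 : ContDiff ℝ 1 (trunc w c m) := (trunc_contDiff hw c m).of_le (by simp)
    exact (contDiff_weight (k := 1) α).continuous.mul ((continuous_gradient h1).norm.pow 2)
  · exact ((hE.const_mul _).add (hM.const_mul _)).add (hint.const_mul _)
  · intro m
    filter_upwards with x
    rw [Real.norm_eq_abs, abs_of_nonneg (mul_nonneg (by positivity) (by positivity))]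
    have hg : ∇ (trunc w c m) x = (w x - c m) • ∇ (chi m) x + chi m x • ∇ w x := by
      have := gradient_mul (f := fun y => w y - c m) (g := chi m) (x := x) ((hdw x).sub_const _) (hdc m x)
      unfold trunc
      rw [this, gradient_sub_const]
    rw [hg]
    have h1 : ‖(w x - c m) • ∇ (chi m) x + chi m x • ∇ w x‖ ^ 2 ≤
        2 * ((w x - c m) ^ 2 * ‖∇ (chi m) x‖ ^ 2) + 2 * ‖∇ w x‖ ^ 2 := by
      have h2 := norm_add_le ((w x - c m) • ∇ (chi m) x) (chi m x • ∇ w x)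
      have h3 : ‖(w x - c m) • ∇ (chi m) x‖ ^ 2 = (w x - c m) ^ 2 * ‖∇ (chi m) x‖ ^ 2 := by
        rw [norm_smul, mul_pow, Real.norm_eq_abs, sq_abs]
      have h4 : ‖chi m x • ∇ w x‖ ≤ ‖∇ w x‖ := by
        rw [norm_smul, Real.norm_eq_abs, abs_of_nonneg (chi_nonneg m x)]
        exact mul_le_of_le_one_left (norm_nonneg _) (chi_le_one m x)
      have h5 : 0 ≤ ‖(w x - c m) • ∇ (chi m) x‖ := norm_nonneg _
      have h6 : 0 ≤ ‖chi m x • ∇ w x‖ := norm_nonneg _
      have h7 : 0 ≤ ‖(w x - c m) • ∇ (chi m) x + chi m x • ∇ w x‖ := norm_nonneg _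
      nlinarith [sq_nonneg (‖(w x - c m) • ∇ (chi m) x‖ - ‖chi m x • ∇ w x‖)]
    have h8 := gradient_chi_bound hK hK0 m x
    have h9 : (w x - c m) ^ 2 ≤ 2 * (w x) ^ 2 + 2 * B ^ 2 := by
      have h10 : (c m) ^ 2 ≤ B ^ 2 := by
        rw [← sq_abs]; exact pow_le_pow_left₀ (abs_nonneg _) (hB m) 2
      nlinarith [sq_nonneg (w x + c m)]
    have hP : 0 < (1 + ‖x‖ ^ 2) ^ (α - 1) := Real.rpow_pos_of_pos (one_add_pos x) _
    have hQ : 0 < (1 + ‖x‖ ^ 2) ^ α := Real.rpow_pos_of_pos (one_add_pos x) _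
    calc (1 + ‖x‖ ^ 2) ^ α * ‖(w x - c m) • ∇ (chi m) x + chi m x • ∇ w x‖ ^ 2
        ≤ (1 + ‖x‖ ^ 2) ^ α * (2 * ((w x - c m) ^ 2 * ‖∇ (chi m) x‖ ^ 2) + 2 * ‖∇ w x‖ ^ 2) := by
          apply mul_le_mul_of_nonneg_left h1 hQ.le
      _ = 2 * ((1 + ‖x‖ ^ 2) ^ α * ‖∇ w x‖ ^ 2) + 2 * (1 + ‖x‖ ^ 2) ^ (α - 1) * ((w x - c m) ^ 2 * ((1 + ‖x‖ ^ 2) * ‖∇ (chi m) x‖ ^ 2)) := by
          rw [rpow_sub_one' x α]; ring
      _ ≤ 2 * ((1 + ‖x‖ ^ 2) ^ α * ‖∇ w x‖ ^ 2) + 2 * (1 + ‖x‖ ^ 2) ^ (α - 1) * ((2 * (w x) ^ 2 + 2 * B ^ 2) * (24 * K ^ 2)) := by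
          gcongr
      _ = _ := by ring
  · filter_upwards with x
    apply tendsto_const_nhds.congr'
    filter_upwards [chi_eventually x] with m hm
    have : ∇ (trunc w c m) x = ∇ w x := by
      have h1 : trunc w c m =ᶠ[𝓝 x] fun y => w y - c m := by
        filter_upwards [hm] with y hy
        unfold trunc
        rw [hy]; simp
      unfold gradient
      rw [h1.fderiv_eq, fderiv_sub_const]
    rw [this]

lemma trunc_mass {α : ℝ} {w : E n → ℝ} (hw : ContDiff ℝ ∞ w)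
    (hM : Integrable (fun x : E n => (1 + ‖x‖ ^ 2) ^ (α - 1) * (w x) ^ 2))
    {c : ℕ → ℝ} (hc : Tendsto c atTop (𝓝 0)) {B : ℝ} (hB : ∀ m, |c m| ≤ B)
    (hint : Integrable (fun x : E n => B ^ 2 * (1 + ‖x‖ ^ 2) ^ (α - 1))) :
    Tendsto (fun m => mass α (trunc w c m)) atTop (𝓝 (mass α w)) := by
  apply tendsto_integral_of_dominated_convergence
    (fun x => 2 * ((1 + ‖x‖ ^ 2) ^ (α - 1) * (w x) ^ 2) + 2 * (B ^ 2 * (1 + ‖x‖ ^ 2) ^ (α - 1)))
  · intro m
    refine Continuous.aestronglyMeasurable ?_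
    exact (contDiff_weight (k := 1) (α - 1)).continuous.mul ((trunc_contDiff hw c m).continuous.pow 2)
  · exact (hM.const_mul _).add (hint.const_mul _)
  · intro m
    filter_upwards with x
    rw [Real.norm_eq_abs, abs_of_nonneg (mul_nonneg (by positivity) (by positivity))]
    have h9 : (trunc w c m x) ^ 2 ≤ 2 * (w x) ^ 2 + 2 * B ^ 2 := by
      have h10 : (c m) ^ 2 ≤ B ^ 2 := by
        rw [← sq_abs]; exact pow_le_pow_left₀ (abs_nonneg _) (hB m) 2
      unfold trunc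
      have h11 : chi m x ^ 2 ≤ 1 := by
        have := chi_le_one m x
        have := chi_nonneg m x
        nlinarith
      rw [mul_pow]
      have h12 : (w x - c m) ^ 2 ≤ 2 * (w x) ^ 2 + 2 * B ^ 2 := by nlinarith [sq_nonneg (w x + c m)]
      have h13 : 0 ≤ (w x - c m) ^ 2 := sq_nonneg _
      nlinarith
    have hP : 0 < (1 + ‖x‖ ^ 2) ^ (α - 1) := Real.rpow_pos_of_pos (one_add_pos x) _
    calc (1 + ‖x‖ ^ 2) ^ (α - 1) * (trunc w c m x) ^ 2 ≤ (1 + ‖x‖ ^ 2) ^ (α - 1) * (2 * (w x) ^ 2 + 2 * B ^ 2) := by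
          apply mul_le_mul_of_nonneg_left h9 hP.le
      _ = _ := by ring
  · filter_upwards with x
    have h1 : Tendsto (fun m => (1 + ‖x‖ ^ 2) ^ (α - 1) * (w x - c m) ^ 2) atTop (𝓝 ((1 + ‖x‖ ^ 2) ^ (α - 1) * (w x - 0) ^ 2)) :=
      tendsto_const_nhds.mul ((tendsto_const_nhds.sub hc).pow 2)
    rw [sub_zero] at h1
    apply h1.congr'
    filter_upwards [chi_eventually x] with m hm
    have : chi m x = 1 := hm.self_of_nhds
    unfold trunc
    rw [this]; simp

lemma mass_ne_zero_imp {α : ℝ} {u : E n → ℝ} (h : mass α u ≠ 0) : u ≠ 0 := by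
  rintro rfl
  apply h
  simp [mass]

lemma mass_pos {α : ℝ} {u : E n → ℝ} (hu : ContDiff ℝ ∞ u) (hc : HasCompactSupport u) (h0 : u ≠ 0) :
    0 < mass α u := by
  obtain ⟨x, hx⟩ := Function.ne_iff.mp h0
  have hw := (contDiff_weight (n := n) (k := 1) (α - 1)).continuous
  unfold mass
  apply Continuous.integral_pos_of_hasCompactSupport_nonneg_nonzero (x := x)
  · exact hw.mul (hu.continuous.pow 2)
  · exact (hcs_sq hc).mul_left
  · intro y; exact mul_nonneg (Real.rpow_nonneg (one_add_pos y).le _) (sq_nonneg _)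
  · have h1 := Real.rpow_pos_of_pos (one_add_pos x) (α - 1)
    have h2 : u x ^ 2 ≠ 0 := pow_ne_zero 2 hx
    exact mul_ne_zero h1.ne' h2

/-- approximation without constraint -/
lemma approx_free {α : ℝ} {w : E n → ℝ} (hw : ContDiff ℝ ∞ w)
    (hM : Integrable (fun x : E n => (1 + ‖x‖ ^ 2) ^ (α - 1) * (w x) ^ 2))
    (hE : Integrable (fun x : E n => (1 + ‖x‖ ^ 2) ^ α * ‖∇ w x‖ ^ 2))
    (hpos : 0 < mass α w) {b : ℝ} (hb : energy α w / mass α w < b) :
    ∃ u : E n → ℝ, ContDiff ℝ ∞ u ∧ HasCompactSupport u ∧ u ≠ 0 ∧ energy α u / mass α u < b := by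
  have h1 := trunc_energy hw hM hE (c := fun _ => 0) tendsto_const_nhds (B := 0) (by simp) (by simp)
  have h2 := trunc_mass hw hM (c := fun _ => 0) tendsto_const_nhds (B := 0) (by simp) (by simp)
  have h3 := h1.div h2 hpos.ne'
  have h4 := (h3.eventually_lt_const hb).and (h2.eventually_const_lt hpos)
  obtain ⟨m, hm1, hm2⟩ := h4.exists
  exact ⟨_, trunc_contDiff hw _ m, trunc_hcs w _ m, mass_ne_zero_imp hm2.ne', hm1⟩

lemma tendsto_integral_chi {f : E n → ℝ} (hf : Integrable f) :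
    Tendsto (fun m => ∫ x, f x * chi m x) atTop (𝓝 (∫ x, f x)) := by
  apply tendsto_integral_of_dominated_convergence (fun x => ‖f x‖)
  · intro m
    exact hf.aestronglyMeasurable.mul (chi_contDiff m (k := 1)).continuous.aestronglyMeasurable
  · exact hf.norm
  · intro m
    filter_upwards with x
    rw [norm_mul, Real.norm_eq_abs (chi m x), abs_of_nonneg (chi_nonneg m x)]
    exact mul_le_of_le_one_right (norm_nonneg _) (chi_le_one m x)
  · filter_upwards with x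
    apply tendsto_const_nhds.congr'
    filter_upwards [chi_eventually x] with m hm
    rw [hm.self_of_nhds]; simp

lemma integrable_weight_mul {α : ℝ} {w : E n → ℝ} (hw : Continuous w)
    (h1 : Integrable (fun x : E n => (1 + ‖x‖ ^ 2) ^ (α - 1)))
    (hM : Integrable (fun x : E n => (1 + ‖x‖ ^ 2) ^ (α - 1) * (w x) ^ 2)) :
    Integrable (fun x : E n => (1 + ‖x‖ ^ 2) ^ (α - 1) * w x) := by
  refine (h1.add hM).mono' ((contDiff_weight (k := 1) (α - 1)).continuous.mul hw).aestronglyMeasurable ?_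
  filter_upwards with x
  have hP : 0 < (1 + ‖x‖ ^ 2) ^ (α - 1) := Real.rpow_pos_of_pos (one_add_pos x) _
  rw [norm_mul, Real.norm_eq_abs, abs_of_pos hP, Real.norm_eq_abs]
  have : |w x| ≤ 1 + w x ^ 2 := by
    rw [← sq_abs]; nlinarith [abs_nonneg (w x), sq_nonneg (|w x| - 1)]
  calc (1 + ‖x‖ ^ 2) ^ (α - 1) * |w x| ≤ (1 + ‖x‖ ^ 2) ^ (α - 1) * (1 + w x ^ 2) := mul_le_mul_of_nonneg_left this hP.le
    _ = _ := by simp only [Pi.add_apply]; ring

/-- approximation with zero weighted mean -/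
lemma approx_mean {α : ℝ} {w : E n → ℝ} (hw : ContDiff ℝ ∞ w)
    (hJ : Integrable (fun x : E n => (1 + ‖x‖ ^ 2) ^ (α - 1)))
    (hM : Integrable (fun x : E n => (1 + ‖x‖ ^ 2) ^ (α - 1) * (w x) ^ 2))
    (hE : Integrable (fun x : E n => (1 + ‖x‖ ^ 2) ^ α * ‖∇ w x‖ ^ 2))
    (hmean : ∫ x : E n, (1 + ‖x‖ ^ 2) ^ (α - 1) * w x = 0)
    (hpos : 0 < mass α w) {b : ℝ} (hb : energy α w / mass α w < b) :
    ∃ u : E n → ℝ, ContDiff ℝ ∞ u ∧ HasCompactSupport u ∧ u ≠ 0 ∧
      (∫ x : E n, (1 + ‖x‖ ^ 2) ^ (α - 1) * u x = 0) ∧ energy α u / mass α u < b := by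
  have hwt := fun γ => (contDiff_weight (n := n) (k := 1) γ).continuous
  have hJw := integrable_weight_mul hw.continuous hJ hM
  set Nn : ℕ → ℝ := fun m => ∫ x : E n, ((1 + ‖x‖ ^ 2) ^ (α - 1) * w x) * chi m x
  set Dn : ℕ → ℝ := fun m => ∫ x : E n, (1 + ‖x‖ ^ 2) ^ (α - 1) * chi m x
  have hN : Tendsto Nn atTop (𝓝 0) := by
    have := tendsto_integral_chi hJw
    rwa [hmean] at this
  have hD : Tendsto Dn atTop (𝓝 (∫ x : E n, (1 + ‖x‖ ^ 2) ^ (α - 1))) := tendsto_integral_chi hJ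
  have hJpos : 0 < ∫ x : E n, (1 + ‖x‖ ^ 2) ^ (α - 1) := by
    apply integral_pos_of_integrable_nonneg_nonzero (x := 0) (hwt _) hJ
    · intro y; exact Real.rpow_nonneg (one_add_pos y).le _
    · exact (Real.rpow_pos_of_pos (one_add_pos _) _).ne'
  have hDpos : ∀ m, 0 < Dn m := by
    intro m
    apply Continuous.integral_pos_of_hasCompactSupport_nonneg_nonzero (x := 0)
    · exact (hwt _).mul (chi_contDiff m (k := 1)).continuous
    · exact (chi_hcs m).mul_left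
    · intro y; exact mul_nonneg (Real.rpow_nonneg (one_add_pos y).le _) (chi_nonneg m y)
    · rw [chi_eq_one (by simp; positivity)]
      simp
  set c : ℕ → ℝ := fun m => Nn m / Dn m
  have hc : Tendsto c atTop (𝓝 0) := by
    have h := hN.div hD hJpos.ne'
    rw [zero_div] at h
    exact h
  obtain ⟨B, hB⟩ : ∃ B, ∀ m, |c m| ≤ B := by
    obtain ⟨B, hB⟩ := (hc.norm.bddAbove_range)
    exact ⟨B, fun m => hB ⟨m, rfl⟩⟩
  have h1 := trunc_energy hw hM hE hc hB (hJ.const_mul _)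
  have h2 := trunc_mass hw hM hc hB (hJ.const_mul _)
  have h3 := h1.div h2 hpos.ne'
  have h4 := (h3.eventually_lt_const hb).and (h2.eventually_const_lt hpos)
  obtain ⟨m, hm1, hm2⟩ := h4.exists
  refine ⟨_, trunc_contDiff hw _ m, trunc_hcs w _ m, mass_ne_zero_imp hm2.ne', ?_, hm1⟩
  have hi1 : Integrable (fun x : E n => ((1 + ‖x‖ ^ 2) ^ (α - 1) * w x) * chi m x) :=
    (((hwt _).mul hw.continuous).mul (chi_contDiff m (k := 1)).continuous).integrable_of_hasCompactSupport (chi_hcs m).mul_left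
  have hi2 : Integrable (fun x : E n => (1 + ‖x‖ ^ 2) ^ (α - 1) * chi m x) :=
    ((hwt _).mul (chi_contDiff m (k := 1)).continuous).integrable_of_hasCompactSupport (chi_hcs m).mul_left
  have : ∫ x : E n, (1 + ‖x‖ ^ 2) ^ (α - 1) * trunc w c m x = Nn m - c m * Dn m := by
    simp only [Nn, Dn]
    rw [← integral_const_mul, ← integral_sub hi1 (hi2.const_mul _)]
    apply integral_congr_ae
    filter_upwards with x
    unfold trunc
    ring
  rw [this]
  simp only [c]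
  rw [div_mul_cancel₀ _ (hDpos m).ne']
  ring

lemma integrable_weight {γ : ℝ} (h : γ < -(n : ℝ) / 2) : Integrable (fun x : E n => (1 + ‖x‖ ^ 2) ^ γ) := by
  have := integrable_rpow_neg_one_add_norm_sq (E := E n) (μ := volume) (r := -2 * γ) (by
    rw [finrank_euclideanSpace_fin]; linarith)
  convert this using 2
  congr 1
  ring

noncomputable def J (n : ℕ) (γ : ℝ) : ℝ := ∫ x : E n, (1 + ‖x‖ ^ 2) ^ γ

lemma J_pos {γ : ℝ} (h : γ < -(n : ℝ) / 2) : 0 < J n γ := by
  unfold J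
  apply integral_pos_of_integrable_nonneg_nonzero (x := 0) (contDiff_weight (k := 1) _).continuous (integrable_weight h)
  · intro y; exact Real.rpow_nonneg (one_add_pos y).le _
  · exact (Real.rpow_pos_of_pos (one_add_pos _) _).ne'

lemma weight_le {a b : ℝ} (h : a ≤ b) (x : E n) : (1 + ‖x‖ ^ 2) ^ a ≤ (1 + ‖x‖ ^ 2) ^ b := by
  apply Real.rpow_le_rpow_of_exponent_le _ h
  nlinarith [sq_nonneg ‖x‖]

lemma norm_sq_weight (γ : ℝ) (x : E n) : ‖x‖ ^ 2 * (1 + ‖x‖ ^ 2) ^ (γ - 1) = (1 + ‖x‖ ^ 2) ^ γ - (1 + ‖x‖ ^ 2) ^ (γ - 1) := by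
  rw [rpow_sub_one' x γ]; ring

/-- the recursion J -/
lemma J_rec {γ : ℝ} (h : γ < -(n : ℝ) / 2) : ((n : ℝ) + 2 * γ) * J n γ = 2 * γ * J n (γ - 1) := by
  obtain ⟨K, hK0, hK⟩ := exists_bound_deriv_smoothTransition
  have hi := integrable_weight h
  have hi1 : Integrable (fun x : E n => (1 + ‖x‖ ^ 2) ^ (γ - 1)) := integrable_weight (by linarith)
  have hwt := fun γ => (contDiff_weight (n := n) (k := 1) γ).continuous
  have hF : Integrable (fun x : E n => (n * (1 + ‖x‖ ^ 2) ^ γ + 2 * γ * ‖x‖ ^ 2 * (1 + ‖x‖ ^ 2) ^ (γ - 1))) := by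
    have : (fun x : E n => (n * (1 + ‖x‖ ^ 2) ^ γ + 2 * γ * ‖x‖ ^ 2 * (1 + ‖x‖ ^ 2) ^ (γ - 1)))
        = fun x : E n => ((n : ℝ) + 2 * γ) * (1 + ‖x‖ ^ 2) ^ γ - 2 * γ * (1 + ‖x‖ ^ 2) ^ (γ - 1) := by
      funext x
      rw [mul_assoc (2 * γ), norm_sq_weight]; ring
    rw [this]
    exact (hi.const_mul _).sub (hi1.const_mul _)
  have h1 := fun m => ibp_euler (n := n) γ (chi m) (chi_contDiff m (k := 1)) (chi_hcs m)
  have hR : Tendsto (fun m : ℕ => ∫ x : E n, (n * (1 + ‖x‖ ^ 2) ^ γ + 2 * γ * ‖x‖ ^ 2 * (1 + ‖x‖ ^ 2) ^ (γ - 1)) * chi m x) atTop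
      (𝓝 (∫ x : E n, (n * (1 + ‖x‖ ^ 2) ^ γ + 2 * γ * ‖x‖ ^ 2 * (1 + ‖x‖ ^ 2) ^ (γ - 1)))) := tendsto_integral_chi hF
  have hL : Tendsto (fun m : ℕ => ∫ x : E n, (1 + ‖x‖ ^ 2) ^ γ * fderiv ℝ (chi m) x x) atTop (𝓝 (∫ x : E n, (0 : ℝ))) := by
    apply tendsto_integral_of_dominated_convergence (fun x => (24 * K ^ 2 + 1) * (1 + ‖x‖ ^ 2) ^ γ)
    · intro m
      refine Continuous.aestronglyMeasurable ?_
      exact (hwt γ).mul (((chi_contDiff m (k := 1)).continuous_fderiv one_ne_zero).clm_apply continuous_id)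
    · exact hi.const_mul _
    · intro m
      filter_upwards with x
      have hP : 0 < (1 + ‖x‖ ^ 2) ^ γ := Real.rpow_pos_of_pos (one_add_pos x) _
      rw [norm_mul, Real.norm_eq_abs, abs_of_pos hP, Real.norm_eq_abs, mul_comm]
      apply mul_le_mul_of_nonneg_right _ hP.le
      have h2 := gradient_chi_bound hK hK0 m x
      have h3 : |fderiv ℝ (chi m) x x| ≤ ‖∇ (chi m) x‖ * ‖x‖ := by
        rw [← inner_gradient]; exact abs_real_inner_le_norm _ _
      have h4 : ‖∇ (chi m) x‖ * ‖x‖ ≤ (1 + ‖x‖ ^ 2) * ‖∇ (chi m) x‖ ^ 2 + 1 := by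
        nlinarith [norm_nonneg x, norm_nonneg (∇ (chi m) x), sq_nonneg (‖∇ (chi m) x‖ * ‖x‖ - 1), sq_nonneg (‖∇ (chi m) x‖)]
      linarith
    · filter_upwards with x
      apply tendsto_const_nhds.congr'
      filter_upwards [chi_eventually x] with m hm
      rw [hm.fderiv_eq]; simp
  have h2 : Tendsto (fun m : ℕ => ∫ x : E n, (1 + ‖x‖ ^ 2) ^ γ * fderiv ℝ (chi m) x x) atTop
      (𝓝 (-(∫ x : E n, (n * (1 + ‖x‖ ^ 2) ^ γ + 2 * γ * ‖x‖ ^ 2 * (1 + ‖x‖ ^ 2) ^ (γ - 1))))) := by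
    simp_rw [h1]
    exact hR.neg
  have h3 := tendsto_nhds_unique hL h2
  simp only [integral_zero] at h3
  have h4 : ∫ x : E n, (n * (1 + ‖x‖ ^ 2) ^ γ + 2 * γ * ‖x‖ ^ 2 * (1 + ‖x‖ ^ 2) ^ (γ - 1)) = ((n : ℝ) + 2 * γ) * J n γ - 2 * γ * J n (γ - 1) := by
    unfold J
    rw [← integral_const_mul, ← integral_const_mul, ← integral_sub (hi.const_mul _) (hi1.const_mul _)]
    apply integral_congr_ae
    filter_upwards with x
    rw [mul_assoc (2 * γ), norm_sq_weight]; ring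
  rw [h4] at h3
  linarith

lemma gradient_weight (γ : ℝ) (x : E n) :
    ∇ (fun x : E n => (1 + ‖x‖ ^ 2) ^ γ) x = (2 * γ * (1 + ‖x‖ ^ 2) ^ (γ - 1)) • x := by
  apply ext_inner_right ℝ
  intro v
  rw [inner_gradient, fderiv_weight, inner_smul_left]
  simp

lemma weight_sq (γ : ℝ) (x : E n) : ((1 + ‖x‖ ^ 2) ^ γ) ^ 2 = (1 + ‖x‖ ^ 2) ^ (2 * γ) := by
  rw [two_mul, Real.rpow_add (one_add_pos x)]; ring

lemma weight_mul (γ δ : ℝ) (x : E n) : (1 + ‖x‖ ^ 2) ^ γ * (1 + ‖x‖ ^ 2) ^ δ = (1 + ‖x‖ ^ 2) ^ (γ + δ) := by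
  rw [Real.rpow_add (one_add_pos x)]

lemma pow_grad_term (α γ c : ℝ) (x : E n) :
    (1 + ‖x‖ ^ 2) ^ α * ‖∇ (fun x : E n => (1 + ‖x‖ ^ 2) ^ γ - c) x‖ ^ 2 =
      4 * γ ^ 2 * ((1 + ‖x‖ ^ 2) ^ (α - 1 + 2 * γ) - (1 + ‖x‖ ^ 2) ^ (α - 2 + 2 * γ)) := by
  rw [gradient_sub_const, gradient_weight, norm_smul, mul_pow, Real.norm_eq_abs, sq_abs, mul_pow, mul_pow, weight_sq]
  have h1 : (1 + ‖x‖ ^ 2) ^ α * (1 + ‖x‖ ^ 2) ^ (2 * (γ - 1)) = (1 + ‖x‖ ^ 2) ^ (α - 1 + 2 * γ - 1) := by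
    rw [weight_mul]; congr 1; ring
  have h2 := norm_sq_weight (n := n) (α - 1 + 2 * γ) x
  have h3 : α - 2 + 2 * γ = α - 1 + 2 * γ - 1 := by ring
  rw [h3, ← h2, ← h1]
  ring

lemma pow_energy_integrable {α γ : ℝ} (c : ℝ) (h : α - 1 + 2 * γ < -(n : ℝ) / 2) :
    Integrable (fun x : E n => (1 + ‖x‖ ^ 2) ^ α * ‖∇ (fun x : E n => (1 + ‖x‖ ^ 2) ^ γ - c) x‖ ^ 2) := by
  simp_rw [pow_grad_term]
  exact ((integrable_weight h).sub (integrable_weight (by linarith))).const_mul _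

lemma pow_energy {α γ : ℝ} (c : ℝ) (h : α - 1 + 2 * γ < -(n : ℝ) / 2) :
    energy α (fun x : E n => (1 + ‖x‖ ^ 2) ^ γ - c) = 4 * γ ^ 2 * (J n (α - 1 + 2 * γ) - J n (α - 2 + 2 * γ)) := by
  unfold energy J
  simp_rw [pow_grad_term]
  rw [integral_const_mul, integral_sub (integrable_weight h) (integrable_weight (by linarith))]

lemma pow_mass_term (α γ : ℝ) (x : E n) :
    (1 + ‖x‖ ^ 2) ^ (α - 1) * ((1 + ‖x‖ ^ 2) ^ γ) ^ 2 = (1 + ‖x‖ ^ 2) ^ (α - 1 + 2 * γ) := by
  rw [weight_sq, weight_mul]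

/-- existence of near-optimal functions, large weight at infinity -/
lemma exists_near_hardy {α : ℝ} (hk : 0 < (n : ℝ) + 2 * α - 2) {b : ℝ} (hb : ((n : ℝ) + 2 * α - 2) ^ 2 / 4 < b) :
    ∃ u : E n → ℝ, ContDiff ℝ ∞ u ∧ HasCompactSupport u ∧ u ≠ 0 ∧ energy α u / mass α u < b := by
  set κ : ℝ := (n : ℝ) + 2 * α - 2 with hκ
  have hb0 : 0 < b := lt_of_le_of_lt (by positivity) hb
  have hsq : κ / 2 < Real.sqrt b := by
    rw [Real.lt_sqrt (by positivity)]
    calc (κ / 2) ^ 2 = κ ^ 2 / 4 := by ring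
      _ < b := hb
  obtain ⟨t, ht1, ht2⟩ := exists_between hsq
  -- γ = - t / 2
  have h : α - 1 + 2 * (-t / 2) < -(n : ℝ) / 2 := by
    have : κ / 2 < t := ht1
    rw [hκ] at this
    linarith
  have hM : Integrable (fun x : E n => (1 + ‖x‖ ^ 2) ^ (α - 1) * ((1 + ‖x‖ ^ 2) ^ (-t / 2) - 0) ^ 2) := by
    simp_rw [sub_zero, pow_mass_term]
    exact integrable_weight h
  have hmass : mass α (fun x : E n => (1 + ‖x‖ ^ 2) ^ (-t / 2) - 0) = J n (α - 1 + 2 * (-t / 2)) := by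
    unfold mass J
    simp_rw [sub_zero, pow_mass_term]
  have hJ1 := J_pos (n := n) h
  have hJ2 : 0 < J n (α - 2 + 2 * (-t / 2)) := J_pos (by linarith)
  apply approx_free (w := fun x : E n => (1 + ‖x‖ ^ 2) ^ (-t / 2) - 0)
    ((contDiff_weight _).sub contDiff_const) hM (pow_energy_integrable 0 h)
  · rw [hmass]; exact hJ1
  · rw [pow_energy 0 h, hmass, div_lt_iff₀ hJ1]
    have h5 : t ^ 2 < b := by
      have ht0 : 0 < t := lt_trans (by positivity) ht1
      calc t ^ 2 < (Real.sqrt b) ^ 2 := by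
            apply pow_lt_pow_left₀ ht2 ht0.le (by norm_num)
        _ = b := Real.sq_sqrt hb0.le
    have h6 : 4 * (-t / 2) ^ 2 = t ^ 2 := by ring
    rw [h6]
    calc t ^ 2 * (J n (α - 1 + 2 * (-t / 2)) - J n (α - 2 + 2 * (-t / 2))) ≤ t ^ 2 * J n (α - 1 + 2 * (-t / 2)) := by
          apply mul_le_mul_of_nonneg_left _ (sq_nonneg _)
          linarith
      _ < b * J n (α - 1 + 2 * (-t / 2)) := by
          apply mul_lt_mul_of_pos_right h5 hJ1

lemma exists_near_ground {α : ℝ} (hα : 1 < α) (h2 : ((n : ℝ) + 2) / 2 < α) {b : ℝ} (hb : 2 * n * (α - 1) < b) :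
    ∃ u : E n → ℝ, ContDiff ℝ ∞ u ∧ HasCompactSupport u ∧ u ≠ 0 ∧ energy α u / mass α u < b := by
  have h : α - 1 + 2 * (1 - α) < -(n : ℝ) / 2 := by linarith
  have hM : Integrable (fun x : E n => (1 + ‖x‖ ^ 2) ^ (α - 1) * ((1 + ‖x‖ ^ 2) ^ (1 - α) - 0) ^ 2) := by
    simp_rw [sub_zero, pow_mass_term]
    exact integrable_weight h
  have hmass : mass α (fun x : E n => (1 + ‖x‖ ^ 2) ^ (1 - α) - 0) = J n (α - 1 + 2 * (1 - α)) := by
    unfold mass J
    simp_rw [sub_zero, pow_mass_term]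
  have hJ1 := J_pos (n := n) h
  have hrec := J_rec (n := n) h
  apply approx_free (w := fun x : E n => (1 + ‖x‖ ^ 2) ^ (1 - α) - 0)
    ((contDiff_weight _).sub contDiff_const) hM (pow_energy_integrable 0 h)
  · rw [hmass]; exact hJ1
  · rw [pow_energy 0 h, hmass, div_lt_iff₀ hJ1]
    have h3 : α - 2 + 2 * (1 - α) = α - 1 + 2 * (1 - α) - 1 := by ring
    rw [h3]
    have h4 : 4 * (1 - α) ^ 2 * (J n (α - 1 + 2 * (1 - α)) - J n (α - 1 + 2 * (1 - α) - 1)) =
        2 * n * (α - 1) * J n (α - 1 + 2 * (1 - α)) := by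
      have h5 : 2 * (1 - α) * J n (α - 1 + 2 * (1 - α) - 1) = ((n : ℝ) + 2 * (1 - α)) * J n (α - 1 + 2 * (1 - α)) := by
        have h6 : α - 1 + 2 * (1 - α) = 1 - α := by ring
        rw [h6] at hrec ⊢
        linarith
      linear_combination (-2 * (1 - α)) * h5
    rw [h4]
    exact mul_lt_mul_of_pos_right hb hJ1

lemma lower_hardy {α : ℝ} (hα : 0 ≤ (n : ℝ) + 2 * α - 2) (h2 : α ≤ ((n : ℝ) + 2) / 2) (u : E n → ℝ) (hu : ContDiff ℝ ∞ u) (hc : HasCompactSupport u) :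
    ((n : ℝ) + 2 * α - 2) ^ 2 / 4 * mass α u ≤ energy α u := by
  have hu1 : ContDiff ℝ 1 u := hu.of_le (by simp)
  have hwt := fun γ => (contDiff_weight (n := n) (k := 1) γ).continuous
  set β : ℝ := ((n : ℝ) + 2 * α - 2) / 4 with hβ
  rw [identityA α β u hu1 hc]
  have h3 : 0 ≤ ∫ x, (1 + ‖x‖ ^ 2) ^ α * ‖∇ u x + (2 * β * u x / (1 + ‖x‖ ^ 2)) • x‖ ^ 2 := by
    apply integral_nonneg
    intro x
    exact mul_nonneg (Real.rpow_nonneg (one_add_pos x).le _) (sq_nonneg _)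
  have h4 : ((n : ℝ) + 2 * α - 2) ^ 2 / 4 * mass α u ≤
      ∫ x, (1 + ‖x‖ ^ 2) ^ (α - 1) * (2 * β * n + 4 * β * (α - 1 - β) * (‖x‖ ^ 2 / (1 + ‖x‖ ^ 2))) * (u x) ^ 2 := by
    unfold mass
    rw [← integral_const_mul]
    apply integral_mono_ae
    · refine Integrable.const_mul ?_ _
      exact ((hwt _).mul (hu.continuous.pow 2)).integrable_of_hasCompactSupport (hcs_sq hc).mul_left
    · refine Continuous.integrable_of_hasCompactSupport ?_ (hcs_sq hc).mul_left
      refine Continuous.mul ((hwt _).mul (continuous_const.add (continuous_const.mul ?_))) (hu.continuous.pow 2)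
      exact (continuous_norm.pow 2).div (continuous_const.add (continuous_norm.pow 2)) (fun x => (one_add_pos x).ne')
    · filter_upwards with x
      have hP : 0 < (1 + ‖x‖ ^ 2) ^ (α - 1) := Real.rpow_pos_of_pos (one_add_pos x) _
      have hu2 : 0 ≤ u x ^ 2 := sq_nonneg _
      have hx := one_add_pos x
      have h5 : ((n : ℝ) + 2 * α - 2) ^ 2 / 4 ≤ 2 * β * n + 4 * β * (α - 1 - β) * (‖x‖ ^ 2 / (1 + ‖x‖ ^ 2)) := by
        have h6 : ‖x‖ ^ 2 / (1 + ‖x‖ ^ 2) = 1 - 1 / (1 + ‖x‖ ^ 2) := by field_simp; ring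
        rw [h6]
        have h7 : 0 ≤ 1 / (1 + ‖x‖ ^ 2) := by positivity
        have h8 : 0 ≤ β := by rw [hβ]; linarith
        have h9 : 0 ≤ -(4 * β * (α - 1 - β)) := by
          have : α - 1 - β ≤ 0 := by rw [hβ]; linarith
          nlinarith
        have h10 : 2 * β * n + 4 * β * (α - 1 - β) = ((n : ℝ) + 2 * α - 2) ^ 2 / 4 := by
          rw [hβ]; ring
        nlinarith [mul_nonneg h9 h7]
      calc ((n : ℝ) + 2 * α - 2) ^ 2 / 4 * ((1 + ‖x‖ ^ 2) ^ (α - 1) * u x ^ 2)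
          = (1 + ‖x‖ ^ 2) ^ (α - 1) * (((n : ℝ) + 2 * α - 2) ^ 2 / 4) * u x ^ 2 := by ring
        _ ≤ _ := by
          apply mul_le_mul_of_nonneg_right _ hu2
          exact mul_le_mul_of_nonneg_left h5 hP.le
  linarith

lemma lower_ground {α : ℝ} (u : E n → ℝ) (hu : ContDiff ℝ ∞ u) (hc : HasCompactSupport u) :
    2 * n * (α - 1) * mass α u ≤ energy α u := by
  have hu1 : ContDiff ℝ 1 u := hu.of_le (by simp)
  rw [identityA α (α - 1) u hu1 hc]
  have h3 : 0 ≤ ∫ x, (1 + ‖x‖ ^ 2) ^ α * ‖∇ u x + (2 * (α - 1) * u x / (1 + ‖x‖ ^ 2)) • x‖ ^ 2 := by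
    apply integral_nonneg
    intro x
    exact mul_nonneg (Real.rpow_nonneg (one_add_pos x).le _) (sq_nonneg _)
  have h4 : 2 * n * (α - 1) * mass α u =
      ∫ x, (1 + ‖x‖ ^ 2) ^ (α - 1) * (2 * (α - 1) * n + 4 * (α - 1) * (α - 1 - (α - 1)) * (‖x‖ ^ 2 / (1 + ‖x‖ ^ 2))) * (u x) ^ 2 := by
    unfold mass
    rw [← integral_const_mul]
    apply integral_congr_ae
    filter_upwards with x
    ring
  linarith

instance instContStarE : ContinuousStar (E n →L[ℝ] E n) :=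
  ⟨(ContinuousLinearMap.adjoint (𝕜 := ℝ) (E := E n) (F := E n)).continuous⟩

/-- the rotation group -/
noncomputable abbrev G (n : ℕ) := unitary (E n →L[ℝ] E n)

instance : CompactSpace (G n) := by
  apply isCompact_iff_compactSpace.mp
  apply Metric.isCompact_of_isClosed_isBounded
  · exact isClosed_unitary
  · rw [isBounded_iff_forall_norm_le]
    refine ⟨1, ?_⟩
    intro x hx
    apply ContinuousLinearMap.opNorm_le_bound _ zero_le_one
    intro v
    rw [x.norm_map_of_mem_unitary hx v, one_mul]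

noncomputable instance : MeasurableSpace (G n) := borel _
instance : BorelSpace (G n) := ⟨rfl⟩

noncomputable def μG (n : ℕ) : Measure (G n) := Measure.haarMeasure ⊤

instance : Measure.IsHaarMeasure (μG n) := by unfold μG; infer_instance

instance : IsProbabilityMeasure (μG n) := by
  constructor
  have := Measure.haarMeasure_self (G := G n) (K₀ := ⊤)
  simpa [μG] using this

instance : Measure.IsMulRightInvariant (μG n) := by
  constructor
  intro g
  have h1 : Measure.IsHaarMeasure (Measure.map (· * g) (μG n)) := by infer_instance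
  have h2 : IsProbabilityMeasure (Measure.map (· * g) (μG n)) :=
    Measure.isProbabilityMeasure_map (measurable_mul_const g).aemeasurable
  exact Measure.isHaarMeasure_eq_of_isProbabilityMeasure _ _

/-- action -/
noncomputable def act (Q : G n) (x : E n) : E n := (Q : E n →L[ℝ] E n) x

lemma act_mul (Q R : G n) (x : E n) : act (Q * R) x = act Q (act R x) := rfl

lemma act_norm (Q : G n) (x : E n) : ‖act Q x‖ = ‖x‖ := Unitary.norm_map Q x

lemma act_inner (Q : G n) (x y : E n) : ⟪act Q x, act Q y⟫ = ⟪x, y⟫ := Unitary.inner_map_map Q x y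

lemma act_smul (Q : G n) (r : ℝ) (x : E n) : act Q (r • x) = r • act Q x := by
  unfold act; rw [map_smul]

lemma act_add (Q : G n) (x y : E n) : act Q (x + y) = act Q x + act Q y := by
  unfold act; rw [map_add]

lemma continuous_act : Continuous (fun p : G n × E n => act p.1 p.2) := by
  unfold act
  exact (continuous_subtype_val.comp continuous_fst).clm_apply continuous_snd

lemma continuous_act_left (x : E n) : Continuous (fun Q : G n => act Q x) :=
  continuous_act.comp (continuous_id.prodMk continuous_const)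

lemma exists_act_eq {x y : E n} (h : ‖x‖ = ‖y‖) : ∃ k : G n, act k x = y ∧ ∀ z : E n, ⟪z, x⟫ = 0 → ⟪z, y⟫ = 0 → act k z = z := by
  set e : E n ≃ₗᵢ[ℝ] E n := Submodule.reflection (ℝ ∙ (x - y))ᗮ with he
  refine ⟨Unitary.linearIsometryEquiv.symm e, ?_, ?_⟩
  · unfold act
    rw [Unitary.coe_symm_linearIsometryEquiv_apply]
    exact Submodule.reflection_sub h
  · intro z hz1 hz2
    unfold act
    rw [Unitary.coe_symm_linearIsometryEquiv_apply]
    apply Submodule.reflection_mem_subspace_eq_self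
    rw [Submodule.mem_orthogonal_singleton_iff_inner_left, inner_sub_right, hz1, hz2, sub_zero]

lemma exists_act_pair {x y x' y' : E n} (hx : ‖x‖ = ‖x'‖) (hy : ‖y‖ = ‖y'‖) (h : ⟪x, y⟫ = 0) (h' : ⟪x', y'⟫ = 0) :
    ∃ k : G n, act k x = x' ∧ act k y = y' := by
  obtain ⟨k1, hk1, _⟩ := exists_act_eq hx
  have h1 : ‖act k1 y‖ = ‖y'‖ := by rw [act_norm, hy]
  obtain ⟨k2, hk2, hk2'⟩ := exists_act_eq h1
  refine ⟨k2 * k1, ?_, ?_⟩
  · rw [act_mul, hk1]
    apply hk2' _ _ h'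
    rw [← hk1, act_inner, h]
  · rw [act_mul, hk2]

/-- averaging over the group -/
noncomputable def avg (F : E n → ℝ) (x : E n) : ℝ := ∫ Q, F (act Q x) ∂(μG n)

lemma avg_act (F : E n → ℝ) (k : G n) (x : E n) : avg F (act k x) = avg F x := by
  unfold avg
  have := integral_mul_right_eq_self (μ := μG n) (fun Q => F (act Q x)) k
  simpa [act_mul] using this

lemma avg_eq_of_norm (F : E n → ℝ) {x y : E n} (h : ‖x‖ = ‖y‖) : avg F x = avg F y := by
  obtain ⟨k, hk, _⟩ := exists_act_eq h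
  rw [← hk, avg_act]

lemma integral_act (F : E n → ℝ) (Q : G n) : ∫ x, F (act Q x) = ∫ x, F x := by
  have := (Unitary.linearIsometryEquiv Q).measurePreserving.integral_comp
    (Unitary.linearIsometryEquiv Q).toHomeomorph.measurableEmbedding F
  exact this

lemma integral_avg {F : E n → ℝ} (hF : Continuous F) (hc : HasCompactSupport F) :
    ∫ x, F x = ∫ x, avg F x := by
  unfold avg
  have hint : Integrable (fun p : E n × G n => F (act p.2 p.1)) ((volume : Measure (E n)).prod (μG n)) := by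
    apply Continuous.integrable_of_hasCompactSupport
    · exact hF.comp (continuous_act.comp (continuous_snd.prodMk continuous_fst))
    · obtain ⟨R, hR⟩ := hc.isCompact.isBounded.subset_closedBall 0
      apply HasCompactSupport.intro (K := (Metric.closedBall (0 : E n) R) ×ˢ Set.univ)
        ((isCompact_closedBall _ _).prod isCompact_univ)
      intro p hp
      by_contra hne
      apply hp
      have h1 : act p.2 p.1 ∈ tsupport F := subset_tsupport _ hne
      have h2 := hR h1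
      rw [Metric.mem_closedBall, dist_zero_right, act_norm] at h2
      simp [h2]
  rw [integral_integral_swap hint]
  simp_rw [integral_act]
  simp

lemma norm_pow_sub_one_le {z : ℂ} (hz : ‖z‖ = 1) (k : ℕ) : ‖z ^ k - 1‖ ≤ k * ‖z - 1‖ := by
  induction k with
  | zero => simp
  | succ k ih =>
    have : z ^ (k + 1) - 1 = z * (z ^ k - 1) + (z - 1) := by ring
    rw [this]
    calc ‖z * (z ^ k - 1) + (z - 1)‖ ≤ ‖z * (z ^ k - 1)‖ + ‖z - 1‖ := norm_add_le _ _
      _ = ‖z ^ k - 1‖ + ‖z - 1‖ := by rw [norm_mul, hz, one_mul]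
      _ ≤ k * ‖z - 1‖ + ‖z - 1‖ := by linarith
      _ = ((k + 1 : ℕ) : ℝ) * ‖z - 1‖ := by push_cast; ring

lemma norm_zpow_sub_one_le {z : ℂ} (hz : ‖z‖ = 1) (k : ℤ) : ‖z ^ k - 1‖ ≤ |(k : ℝ)| * ‖z - 1‖ := by
  have hz0 : z ≠ 0 := by intro h; rw [h] at hz; simp at hz
  rcases Int.eq_nat_or_neg k with ⟨m, hm | hm⟩
  · subst hm
    simpa using norm_pow_sub_one_le hz m
  · subst hm
    have h1 : z ^ (-(m : ℤ)) - 1 = -(z ^ (-(m : ℤ)) * (z ^ m - 1)) := by
      rw [mul_sub, ← zpow_natCast z m, ← zpow_add₀ hz0]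
      simp
    rw [h1, norm_neg, norm_mul, norm_zpow, hz, one_zpow, one_mul]
    have := norm_pow_sub_one_le hz m
    simpa using this

lemma fourier_two_pi (k : ℤ) (x : ℝ) :
    fourier (-k) (x : AddCircle (2 * π - 0)) = Complex.exp (-(k * x * Complex.I)) := by
  rw [fourier_coe_apply]
  congr 1
  push_cast
  have : (π : ℂ) ≠ 0 := by exact_mod_cast Real.pi_ne_zero
  rw [sub_zero]
  field_simp

/-- sharp inequality for differences of periodic functions on the circle -/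
lemma circle_ineq (g g' : ℝ → ℝ) (hg : ∀ x, HasDerivAt g (g' x) x) (hg' : Continuous g')
    (hper : Function.Periodic g (2 * π)) (θ : ℝ) :
    ∫ s in (0:ℝ)..(2 * π), (g (s + θ) - g s) ^ 2 ≤ 2 * (1 - Real.cos θ) * ∫ s in (0:ℝ)..(2 * π), (g' s) ^ 2 := by
  have hab : (0:ℝ) < 2 * π := Real.two_pi_pos
  have hgc : Continuous g := continuous_iff_continuousAt.mpr (fun x => (hg x).continuousAt)
  have hmem : ∀ f : ℝ → ℝ, Continuous f → MemLp (fun s => (f s : ℂ)) 2 (volume.restrict (Set.Ioc 0 (2 * π))) := by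
    intro f hf
    obtain ⟨C, hC⟩ := isCompact_Icc.exists_bound_of_continuousOn (s := Set.Icc 0 (2 * π)) hf.continuousOn
    apply MemLp.of_bound (Complex.continuous_ofReal.comp hf).aestronglyMeasurable C
    rw [ae_restrict_iff' measurableSet_Ioc]
    filter_upwards with x hx
    simpa using hC x (Set.Ioc_subset_Icc_self hx)
  have hP1 := hasSum_sq_fourierCoeffOn hab (hmem (fun s => g (s + θ) - g s) ((hgc.comp (continuous_id.add continuous_const)).sub hgc))
  have hP2 := hasSum_sq_fourierCoeffOn hab (hmem g' hg')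
  set z : ℂ := Complex.exp (θ * Complex.I) with hz
  have hz1 : ‖z‖ = 1 := by rw [hz]; exact Complex.norm_exp_ofReal_mul_I θ
  have hzn : ‖z - 1‖ ^ 2 = 2 * (1 - Real.cos θ) := by
    rw [← Complex.normSq_eq_norm_sq, hz, Complex.exp_mul_I, Complex.normSq_apply]
    simp [Complex.cos_ofReal_re, Complex.sin_ofReal_re, Complex.cos_ofReal_im, Complex.sin_ofReal_im]
    nlinarith [Real.sin_sq_add_cos_sq θ]
  -- coefficient of the shifted function
  have hshift : ∀ k : ℤ, fourierCoeffOn hab (fun s => (((g (s + θ) - g s : ℝ)) : ℂ)) k =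
      (z ^ k - 1) * fourierCoeffOn hab (fun s => (g s : ℂ)) k := by
    intro k
    rw [fourierCoeffOn_eq_integral, fourierCoeffOn_eq_integral]
    simp only [fourier_two_pi, smul_eq_mul]
    have hF : Function.Periodic (fun s : ℝ => Complex.exp (-(k * s * Complex.I)) * (g s : ℂ)) (2 * π) := by
      intro s
      simp only
      rw [hper s]
      congr 1
      have : -(↑k * ((s + 2 * π : ℝ) : ℂ) * Complex.I) = -(↑k * (s:ℂ) * Complex.I) + ((-k : ℤ) : ℂ) * (2 * π * Complex.I) := by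
        push_cast; ring
      rw [this, Complex.exp_add, Complex.exp_int_mul_two_pi_mul_I, mul_one]
    have h1 : ∫ s in (0:ℝ)..(2 * π), Complex.exp (-(k * s * Complex.I)) * ((g (s + θ) : ℝ) : ℂ) =
        z ^ k * ∫ s in (0:ℝ)..(2 * π), Complex.exp (-(k * s * Complex.I)) * (g s : ℂ) := by
      have h2 : ∀ s : ℝ, Complex.exp (-(k * s * Complex.I)) * ((g (s + θ) : ℝ) : ℂ) =
          z ^ k * (Complex.exp (-(k * ((s + θ : ℝ) : ℂ) * Complex.I)) * ((g (s + θ) : ℝ) : ℂ)) := by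
        intro s
        rw [← mul_assoc, hz, ← Complex.exp_int_mul, ← Complex.exp_add]
        congr 2
        push_cast; ring
      simp_rw [h2]
      rw [intervalIntegral.integral_const_mul]
      congr 1
      rw [intervalIntegral.integral_comp_add_right (fun s => Complex.exp (-(k * (s:ℂ) * Complex.I)) * (g s : ℂ)) θ]
      have := hF.intervalIntegral_add_eq θ 0
      rw [zero_add] at this ⊢
      rw [add_comm (2 * π) θ]
      exact this
    have hc1 : Continuous (fun s : ℝ => Complex.exp (-(k * s * Complex.I))) := by fun_prop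
    have h3 : ∫ s in (0:ℝ)..(2 * π), Complex.exp (-(k * s * Complex.I)) * ((g (s + θ) - g s : ℝ) : ℂ) =
        (∫ s in (0:ℝ)..(2 * π), Complex.exp (-(k * s * Complex.I)) * ((g (s + θ) : ℝ) : ℂ)) -
        ∫ s in (0:ℝ)..(2 * π), Complex.exp (-(k * s * Complex.I)) * (g s : ℂ) := by
      rw [← intervalIntegral.integral_sub]
      · congr 1; funext s; push_cast; ring
      · exact (hc1.mul (Complex.continuous_ofReal.comp (hgc.comp (continuous_id.add continuous_const)))).intervalIntegrable _ _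
      · exact (hc1.mul (Complex.continuous_ofReal.comp hgc)).intervalIntegrable _ _
    rw [h3, h1, smul_sub]
    simp only [Complex.real_smul]
    ring
  have hderiv : ∀ k : ℤ, ‖(z ^ k - 1) * fourierCoeffOn hab (fun s => (g s : ℂ)) k‖ ^ 2 ≤
      ‖z - 1‖ ^ 2 * ‖fourierCoeffOn hab (fun s => (g' s : ℂ)) k‖ ^ 2 := by
    intro k
    by_cases hk : k = 0
    · subst hk; simp
      positivity
    · have h1 := fourierCoeffOn_of_hasDerivAt hab (f := fun s => (g s : ℂ)) (f' := fun s => (g' s : ℂ)) hk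
        (fun x _ => (hg x).ofReal_comp) ((Complex.continuous_ofReal.comp hg').intervalIntegrable _ _)
      have h2 : g (2 * π) = g 0 := by have := hper 0; rwa [zero_add] at this
      simp only [h2, sub_self, mul_zero, zero_sub] at h1
      have h3 : fourierCoeffOn hab (fun s => (g s : ℂ)) k = (1 / (Complex.I * k)) * fourierCoeffOn hab (fun s => (g' s : ℂ)) k := by
        rw [h1]
        have : (π : ℂ) ≠ 0 := by exact_mod_cast Real.pi_ne_zero
        have hk' : (k : ℂ) ≠ 0 := by exact_mod_cast hk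
        have hI := Complex.I_ne_zero
        push_cast
        field_simp
        ring
      have hk'' : (0:ℝ) < |(k : ℝ)| := abs_pos.mpr (by exact_mod_cast hk)
      rw [h3, norm_mul, norm_mul, norm_div, norm_one, norm_mul, Complex.norm_I, one_mul]
      have h4 : ‖(k : ℂ)‖ = |(k : ℝ)| := Complex.norm_intCast k
      rw [h4]
      have h5 := norm_zpow_sub_one_le hz1 k
      have h6 : ‖z ^ k - 1‖ * (1 / |(k : ℝ)| * ‖fourierCoeffOn hab (fun s => (g' s : ℂ)) k‖) ≤
          ‖z - 1‖ * ‖fourierCoeffOn hab (fun s => (g' s : ℂ)) k‖ := by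
        calc ‖z ^ k - 1‖ * (1 / |(k : ℝ)| * ‖fourierCoeffOn hab (fun s => (g' s : ℂ)) k‖)
            ≤ (|(k : ℝ)| * ‖z - 1‖) * (1 / |(k : ℝ)| * ‖fourierCoeffOn hab (fun s => (g' s : ℂ)) k‖) := by
              apply mul_le_mul_of_nonneg_right h5 (by positivity)
          _ = _ := by field_simp
      calc (‖z ^ k - 1‖ * (1 / |(k : ℝ)| * ‖fourierCoeffOn hab (fun s => (g' s : ℂ)) k‖)) ^ 2
          ≤ (‖z - 1‖ * ‖fourierCoeffOn hab (fun s => (g' s : ℂ)) k‖) ^ 2 := by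
            apply pow_le_pow_left₀ (by positivity) h6
        _ = _ := by ring
  have hle := hasSum_le (fun k => by
    have := hderiv k
    rw [← hshift k] at this
    exact this) hP1 (hP2.mul_left (‖z - 1‖ ^ 2))
  rw [hzn] at hle
  simp only [sub_zero, smul_eq_mul, Complex.norm_real, Real.norm_eq_abs, sq_abs] at hle
  have h2pi : (0:ℝ) < (2 * π)⁻¹ := by positivity
  have : (2 * π)⁻¹ * (∫ s in (0:ℝ)..(2 * π), (g (s + θ) - g s) ^ 2) ≤ (2 * π)⁻¹ * (2 * (1 - Real.cos θ) * ∫ s in (0:ℝ)..(2 * π), (g' s) ^ 2) := by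
    calc _ ≤ _ := hle
      _ = _ := by ring
  exact le_of_mul_le_mul_left this h2pi

lemma integrable_G {f : G n → ℝ} (hf : Continuous f) : Integrable f (μG n) :=
  hf.integrable_of_hasCompactSupport (HasCompactSupport.of_compactSpace f)

lemma integrable_strip {f : ℝ → G n → ℝ} (hf : Continuous (Function.uncurry f)) (a b : ℝ) :
    Integrable (Function.uncurry f) ((volume.restrict (Set.Ioc a b)).prod (μG n)) := by
  have h1 : IntegrableOn (Function.uncurry f) (Set.Icc a b ×ˢ Set.univ) (volume.prod (μG n)) :=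
    hf.continuousOn.integrableOn_compact (isCompact_Icc.prod isCompact_univ)
  have h2 := h1.mono_set (Set.prod_mono Set.Ioc_subset_Icc_self (subset_refl (Set.univ : Set (G n))))
  unfold IntegrableOn at h2
  rwa [← Measure.prod_restrict, Measure.restrict_univ] at h2

lemma swap_cont {f : ℝ → G n → ℝ} (hf : Continuous (Function.uncurry f)) {a b : ℝ} (hab : a ≤ b) :
    ∫ s in a..b, ∫ Q, f s Q ∂(μG n) = ∫ Q, (∫ s in a..b, f s Q) ∂(μG n) := by
  simp_rw [intervalIntegral.integral_of_le hab]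
  exact integral_integral_swap (integrable_strip hf a b)

lemma pair_inv (Φ : E n → E n → ℝ) {x y x' y' : E n} (hx : ‖x‖ = ‖x'‖) (hy : ‖y‖ = ‖y'‖)
    (h : ⟪x, y⟫ = 0) (h' : ⟪x', y'⟫ = 0) :
    ∫ Q, Φ (act Q x') (act Q y') ∂(μG n) = ∫ Q, Φ (act Q x) (act Q y) ∂(μG n) := by
  obtain ⟨k, hk1, hk2⟩ := exists_act_pair hx hy h h'
  have := integral_mul_right_eq_self (μ := μG n) (fun Q => Φ (act Q x) (act Q y)) k
  rw [← this]
  simp_rw [act_mul, hk1, hk2]

/-- rotated vector -/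
noncomputable def rotx (x y : E n) (s : ℝ) : E n := Real.cos s • x + Real.sin s • y
noncomputable def roty (x y : E n) (s : ℝ) : E n := -Real.sin s • x + Real.cos s • y

lemma rotx_norm {x y : E n} {r : ℝ} (hx : ‖x‖ = r) (hy : ‖y‖ = r) (h : ⟪x, y⟫ = 0) (s : ℝ) : ‖rotx x y s‖ = r := by
  have hr : 0 ≤ r := hx ▸ norm_nonneg x
  have : ‖rotx x y s‖ ^ 2 = r ^ 2 := by
    unfold rotx
    rw [norm_add_sq_real, inner_smul_left, inner_smul_right, h, norm_smul, norm_smul, mul_pow, mul_pow, hx, hy]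
    simp only [Real.norm_eq_abs, sq_abs]
    simp
    nlinarith [Real.sin_sq_add_cos_sq s]
  exact (pow_left_inj₀ (norm_nonneg _) hr two_ne_zero).mp this

lemma roty_norm {x y : E n} {r : ℝ} (hx : ‖x‖ = r) (hy : ‖y‖ = r) (h : ⟪x, y⟫ = 0) (s : ℝ) : ‖roty x y s‖ = r := by
  have hr : 0 ≤ r := hx ▸ norm_nonneg x
  have : ‖roty x y s‖ ^ 2 = r ^ 2 := by
    unfold roty
    rw [norm_add_sq_real, inner_smul_left, inner_smul_right, h, norm_smul, norm_smul, mul_pow, mul_pow, hx, hy]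
    simp only [Real.norm_eq_abs, sq_abs]
    simp
    nlinarith [Real.sin_sq_add_cos_sq s]
  exact (pow_left_inj₀ (norm_nonneg _) hr two_ne_zero).mp this

lemma rot_inner {x y : E n} {r : ℝ} (hx : ‖x‖ = r) (hy : ‖y‖ = r) (h : ⟪x, y⟫ = 0) (s : ℝ) :
    ⟪rotx x y s, roty x y s⟫ = 0 := by
  unfold rotx roty
  have h' : ⟪y, x⟫ = 0 := by rw [real_inner_comm]; exact h
  simp only [inner_add_left, inner_add_right, inner_smul_left, inner_smul_right, h, h', real_inner_self_eq_norm_sq, hx, hy]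
  simp
  ring

lemma rotx_add (x y : E n) (s t : ℝ) : rotx x y (s + t) = rotx (rotx x y s) (roty x y s) t := by
  unfold rotx roty
  rw [Real.cos_add, Real.sin_add]
  module

lemma hasDerivAt_rotx (x y : E n) (s : ℝ) : HasDerivAt (rotx x y) (roty x y s) s := by
  unfold rotx roty
  exact ((Real.hasDerivAt_cos s).smul_const x).add ((Real.hasDerivAt_sin s).smul_const y)

lemma continuous_rotx (x y : E n) : Continuous (rotx x y) := by unfold rotx; fun_prop
lemma continuous_roty (x y : E n) : Continuous (roty x y) := by unfold roty; fun_prop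

lemma hasDerivAt_comp_rot {u : E n → ℝ} (hu : ContDiff ℝ 1 u) (Q : G n) (x y : E n) (s : ℝ) :
    HasDerivAt (fun s => u (act Q (rotx x y s))) (fderiv ℝ u (act Q (rotx x y s)) (act Q (roty x y s))) s := by
  have h1 : HasFDerivAt u (fderiv ℝ u (act Q (rotx x y s))) (act Q (rotx x y s)) :=
    (hu.differentiable one_ne_zero _).hasFDerivAt
  have h2 : HasDerivAt (fun s => act Q (rotx x y s)) (act Q (roty x y s)) s := by
    unfold act
    exact (Q : E n →L[ℝ] E n).hasFDerivAt.comp_hasDerivAt s (hasDerivAt_rotx x y s)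
  exact h1.comp_hasDerivAt s h2

lemma continuous_uf {u : E n → ℝ} (hu : ContDiff ℝ 1 u) {X : Type*} [TopologicalSpace X] {f g : X → E n}
    (hf : Continuous f) (hg : Continuous g) : Continuous (fun p => fderiv ℝ u (f p) (g p)) :=
  ((hu.continuous_fderiv one_ne_zero).comp hf).clm_apply hg

lemma rot_ineq {u : E n → ℝ} (hu : ContDiff ℝ 1 u) {x y : E n} {r : ℝ} (hx : ‖x‖ = r) (hy : ‖y‖ = r)
    (h : ⟪x, y⟫ = 0) (θ : ℝ) :
    ∫ Q, (u (act Q (rotx x y θ)) - u (act Q x)) ^ 2 ∂(μG n) ≤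
      2 * (1 - Real.cos θ) * ∫ Q, (fderiv ℝ u (act Q x) (act Q y)) ^ 2 ∂(μG n) := by
  have hpi : (0:ℝ) ≤ 2 * π := Real.two_pi_pos.le
  set D := ∫ Q, (u (act Q (rotx x y θ)) - u (act Q x)) ^ 2 ∂(μG n) with hD
  set A := ∫ Q, (fderiv ℝ u (act Q x) (act Q y)) ^ 2 ∂(μG n) with hA
  have hD' : ∀ s : ℝ, ∫ Q, (u (act Q (rotx x y (s + θ))) - u (act Q (rotx x y s))) ^ 2 ∂(μG n) = D := by
    intro s
    have := pair_inv (n := n) (fun a b => (u (rotx a b θ) - u a) ^ 2) (x := x) (y := y) (x' := rotx x y s) (y' := roty x y s)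
      (by rw [rotx_norm hx hy h, hx]) (by rw [roty_norm hx hy h, hy]) h (rot_inner hx hy h s)
    rw [hD]
    have hact : ∀ (Q : G n) (a b : E n) (t : ℝ), rotx (act Q a) (act Q b) t = act Q (rotx a b t) := by
      intro Q a b t; unfold rotx; rw [act_add, act_smul, act_smul]
    simp only [hact] at this
    simp_rw [rotx_add]
    exact this
  have hA' : ∀ s : ℝ, ∫ Q, (fderiv ℝ u (act Q (rotx x y s)) (act Q (roty x y s))) ^ 2 ∂(μG n) = A := by
    intro s
    exact pair_inv (n := n) (fun a b => (fderiv ℝ u a b) ^ 2) (x := x) (y := y) (x' := rotx x y s) (y' := roty x y s)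
      (by rw [rotx_norm hx hy h, hx]) (by rw [roty_norm hx hy h, hy]) h (rot_inner hx hy h s)
  have hcu : Continuous u := hu.continuous
  have hc1 : Continuous (Function.uncurry (fun (s : ℝ) (Q : G n) => (u (act Q (rotx x y (s + θ))) - u (act Q (rotx x y s))) ^ 2)) := by
    have ha : Continuous (fun p : ℝ × G n => act p.2 (rotx x y (p.1 + θ))) :=
      continuous_act.comp (continuous_snd.prodMk ((continuous_rotx x y).comp (continuous_fst.add continuous_const)))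
    have hb : Continuous (fun p : ℝ × G n => act p.2 (rotx x y p.1)) :=
      continuous_act.comp (continuous_snd.prodMk ((continuous_rotx x y).comp continuous_fst))
    exact ((hcu.comp ha).sub (hcu.comp hb)).pow 2
  have hc2 : Continuous (Function.uncurry (fun (s : ℝ) (Q : G n) => (fderiv ℝ u (act Q (rotx x y s)) (act Q (roty x y s))) ^ 2)) := by
    have ha : Continuous (fun p : ℝ × G n => act p.2 (roty x y p.1)) :=
      continuous_act.comp (continuous_snd.prodMk ((continuous_roty x y).comp continuous_fst))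
    have hb : Continuous (fun p : ℝ × G n => act p.2 (rotx x y p.1)) :=
      continuous_act.comp (continuous_snd.prodMk ((continuous_rotx x y).comp continuous_fst))
    exact (continuous_uf hu hb ha).pow 2
  have e1 : 2 * π * D = ∫ Q, (∫ s in (0:ℝ)..(2 * π), (u (act Q (rotx x y (s + θ))) - u (act Q (rotx x y s))) ^ 2) ∂(μG n) := by
    rw [← swap_cont hc1 hpi]
    simp_rw [hD']
    simp
  have e2 : 2 * π * A = ∫ Q, (∫ s in (0:ℝ)..(2 * π), (fderiv ℝ u (act Q (rotx x y s)) (act Q (roty x y s))) ^ 2) ∂(μG n) := by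
    rw [← swap_cont hc2 hpi]
    simp_rw [hA']
    simp
  have i1 : Integrable (fun Q => ∫ s in (0:ℝ)..(2 * π), (u (act Q (rotx x y (s + θ))) - u (act Q (rotx x y s))) ^ 2) (μG n) := by
    simp_rw [intervalIntegral.integral_of_le hpi]
    exact (integrable_strip hc1 0 (2 * π)).integral_prod_right
  have i2 : Integrable (fun Q => ∫ s in (0:ℝ)..(2 * π), (fderiv ℝ u (act Q (rotx x y s)) (act Q (roty x y s))) ^ 2) (μG n) := by
    simp_rw [intervalIntegral.integral_of_le hpi]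
    exact (integrable_strip hc2 0 (2 * π)).integral_prod_right
  have hle : 2 * π * D ≤ 2 * (1 - Real.cos θ) * (2 * π * A) := by
    rw [e1, e2, ← integral_const_mul]
    apply integral_mono i1 (i2.const_mul _)
    intro Q
    apply circle_ineq (fun s => u (act Q (rotx x y s))) (fun s => fderiv ℝ u (act Q (rotx x y s)) (act Q (roty x y s)))
    · intro s; exact hasDerivAt_comp_rot hu Q x y s
    · exact continuous_uf hu (continuous_act.comp (continuous_const.prodMk (continuous_rotx x y)))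
        (continuous_act.comp (continuous_const.prodMk (continuous_roty x y)))
    · intro s
      simp only [rotx, Real.cos_add_two_pi, Real.sin_add_two_pi]
  have h2pi := Real.two_pi_pos
  nlinarith

lemma exists_rot {x y z : E n} {r : ℝ} (hr : 0 < r) (hx : ‖x‖ = r) (hy : ‖y‖ = r) (hz : ‖z‖ = r)
    (h : ⟪x, y⟫ = 0) : ∃ (θ : ℝ) (y' : E n), ‖y'‖ = r ∧ ⟪x, y'⟫ = 0 ∧ z = rotx x y' θ := by
  set c : ℝ := ⟪x, z⟫ / r ^ 2 with hc
  have hr2 : 0 < r ^ 2 := by positivity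
  have hcs : |⟪x, z⟫| ≤ r ^ 2 := by
    calc |⟪x, z⟫| ≤ ‖x‖ * ‖z‖ := abs_real_inner_le_norm x z
      _ = r ^ 2 := by rw [hx, hz]; ring
  have hc1 : -1 ≤ c := by
    rw [hc, le_div_iff₀ hr2]; linarith [(abs_le.mp hcs).1]
  have hc2 : c ≤ 1 := by
    rw [hc, div_le_iff₀ hr2]; linarith [(abs_le.mp hcs).2]
  set θ := Real.arccos c with hθ
  have hcos : Real.cos θ = c := Real.cos_arccos hc1 hc2
  have hin : ⟪x, z⟫ = c * r ^ 2 := by rw [hc]; field_simp
  set w : E n := z - c • x with hw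
  have hwx : ⟪x, w⟫ = 0 := by
    rw [hw, inner_sub_right, inner_smul_right, real_inner_self_eq_norm_sq, hx, hin]; ring
  have hwn : ‖w‖ ^ 2 = (r * Real.sin θ) ^ 2 := by
    rw [hw, norm_sub_sq_real, inner_smul_right, norm_smul, mul_pow, hx, hz, real_inner_comm, hin, Real.norm_eq_abs, sq_abs]
    have := Real.sin_sq_add_cos_sq θ
    rw [hcos] at this
    nlinarith
  by_cases hs : Real.sin θ = 0
  · refine ⟨θ, y, hy, h, ?_⟩
    rw [hs, mul_zero] at hwn
    have : w = 0 := by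
      rw [← norm_eq_zero]
      nlinarith [norm_nonneg w]
    unfold rotx
    rw [hs, hcos, zero_smul, add_zero]
    rw [hw] at this
    exact sub_eq_zero.mp this
  · refine ⟨θ, (Real.sin θ)⁻¹ • w, ?_, ?_, ?_⟩
    · have : ‖(Real.sin θ)⁻¹ • w‖ ^ 2 = r ^ 2 := by
        rw [norm_smul, mul_pow, hwn, Real.norm_eq_abs, sq_abs]
        field_simp
      exact (pow_left_inj₀ (norm_nonneg _) hr.le two_ne_zero).mp this
    · rw [inner_smul_right, hwx, mul_zero]
    · unfold rotx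
      rw [smul_smul, mul_inv_cancel₀ hs, one_smul, hcos, hw]
      module

lemma continuous_actG (x : E n) : Continuous (fun Q : G n => act Q x) := continuous_act_left x

lemma avg_inner_self (x : E n) : ∫ h, ⟪act h x, x⟫ ∂(μG n) = 0 := by
  have h1 := avg_eq_of_norm (fun v => ⟪v, x⟫) (x := x) (y := -x) (by simp)
  unfold avg at h1
  have h2 : ∀ Q : G n, ⟪act Q (-x), x⟫ = -⟪act Q x, x⟫ := by
    intro Q
    unfold act
    rw [map_neg, inner_neg_left]
  simp_rw [h2] at h1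
  rw [integral_neg] at h1
  linarith

lemma var_le {u : E n → ℝ} (hu : ContDiff ℝ 1 u) {x y : E n} {r : ℝ} (hr : 0 < r) (hx : ‖x‖ = r) (hy : ‖y‖ = r)
    (h : ⟪x, y⟫ = 0) :
    (∫ Q, (u (act Q x)) ^ 2 ∂(μG n)) - (∫ Q, u (act Q x) ∂(μG n)) ^ 2 ≤
      ∫ Q, (fderiv ℝ u (act Q x) (act Q y)) ^ 2 ∂(μG n) := by
  set A := ∫ Q, (fderiv ℝ u (act Q x) (act Q y)) ^ 2 ∂(μG n) with hA
  have hcu : Continuous u := hu.continuous
  -- pointwise bound
  have hD : ∀ k : G n, ∫ Q, (u (act (Q * k) x) - u (act Q x)) ^ 2 ∂(μG n) ≤ (2 - 2 * ⟪act k x, x⟫ / r ^ 2) * A := by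
    intro k
    obtain ⟨θ, y', hy', hxy', hz⟩ := exists_rot hr hx hy (z := act k x) (by rw [act_norm, hx]) h
    have h1 := rot_ineq hu hx hy' hxy' θ
    have h2 : ∫ Q, (fderiv ℝ u (act Q x) (act Q y')) ^ 2 ∂(μG n) = A :=
      pair_inv (n := n) (fun a b => (fderiv ℝ u a b) ^ 2) rfl (by rw [hy, hy']) h hxy'
    have h3 : ⟪act k x, x⟫ = Real.cos θ * r ^ 2 := by
      rw [hz]; unfold rotx
      rw [inner_add_left, inner_smul_left, inner_smul_left, real_inner_self_eq_norm_sq, hx, real_inner_comm, hxy']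
      simp
    rw [h2] at h1
    have h4 : 2 - 2 * (Real.cos θ * r ^ 2) / r ^ 2 = 2 * (1 - Real.cos θ) := by field_simp
    rw [h3, h4]
    simp_rw [act_mul, hz]
    exact h1
  -- integrate over k
  have hc2 : Continuous (fun p : G n × G n => u (act (p.2 * p.1) x)) :=
    hcu.comp (continuous_act.comp ((continuous_snd.mul continuous_fst).prodMk continuous_const))
  have hc3 : Continuous (fun p : G n × G n => u (act p.2 x)) :=
    hcu.comp (continuous_act.comp (continuous_snd.prodMk continuous_const))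
  have hint : Integrable (fun p : G n × G n => (u (act (p.2 * p.1) x) - u (act p.2 x)) ^ 2) ((μG n).prod (μG n)) :=
    ((hc2.sub hc3).pow 2).integrable_of_hasCompactSupport (HasCompactSupport.of_compactSpace _)
  have h5 : ∫ k, ∫ Q, (u (act (Q * k) x) - u (act Q x)) ^ 2 ∂(μG n) ∂(μG n) ≤ 2 * A := by
    have h6 : ∫ k, (2 - 2 * ⟪act k x, x⟫ / r ^ 2) * A ∂(μG n) = 2 * A := by
      rw [integral_mul_const]
      congr 1
      rw [integral_sub (integrable_const _)]
      · rw [integral_div, integral_const_mul, avg_inner_self]; simp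
      · apply Integrable.div_const
        apply Integrable.const_mul
        exact integrable_G ((continuous_actG x).inner continuous_const)
    rw [← h6]
    apply integral_mono hint.integral_prod_left
    · apply Integrable.mul_const
      apply Integrable.sub (integrable_const _)
      apply Integrable.div_const
      apply Integrable.const_mul
      exact integrable_G ((continuous_actG x).inner continuous_const)
    · intro k; exact hD k
  have hsq : Integrable (fun Q : G n => (u (act Q x)) ^ 2) (μG n) := integrable_G ((hcu.comp (continuous_actG x)).pow 2)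
  have h7 : ∫ k, ∫ Q, (u (act (Q * k) x) - u (act Q x)) ^ 2 ∂(μG n) ∂(μG n) =
      2 * ((∫ Q, (u (act Q x)) ^ 2 ∂(μG n)) - (∫ Q, u (act Q x) ∂(μG n)) ^ 2) := by
    rw [integral_integral_swap hint]
    have h8 : ∀ Q : G n, ∫ k, (u (act (Q * k) x) - u (act Q x)) ^ 2 ∂(μG n) =
        (∫ k, (u (act k x)) ^ 2 ∂(μG n)) - 2 * u (act Q x) * (∫ k, u (act k x) ∂(μG n)) + (u (act Q x)) ^ 2 := by
      intro Q
      have e1 : ∫ k, (u (act (Q * k) x)) ^ 2 ∂(μG n) = ∫ k, (u (act k x)) ^ 2 ∂(μG n) :=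
        integral_mul_left_eq_self (μ := μG n) (fun k => (u (act k x)) ^ 2) Q
      have e2 : ∫ k, u (act (Q * k) x) ∂(μG n) = ∫ k, u (act k x) ∂(μG n) :=
        integral_mul_left_eq_self (μ := μG n) (fun k => u (act k x)) Q
      have c1 : Continuous (fun k : G n => u (act (Q * k) x)) :=
        hcu.comp (continuous_act.comp ((continuous_const.mul continuous_id).prodMk continuous_const))
      have e3 : ∀ k : G n, (u (act (Q * k) x) - u (act Q x)) ^ 2 = (u (act (Q * k) x)) ^ 2 - 2 * u (act Q x) * u (act (Q * k) x) + (u (act Q x)) ^ 2 := by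
        intro k; ring
      simp_rw [e3]
      have i1 : Integrable (fun k : G n => (u (act (Q * k) x)) ^ 2) (μG n) := integrable_G (c1.pow 2)
      have i2 : Integrable (fun k : G n => 2 * u (act Q x) * u (act (Q * k) x)) (μG n) := (integrable_G c1).const_mul _
      have i12 : Integrable (fun k : G n => (u (act (Q * k) x)) ^ 2 - 2 * u (act Q x) * u (act (Q * k) x)) (μG n) := i1.sub i2
      rw [integral_add i12 (integrable_const _), integral_sub i1 i2, integral_const_mul, e1, e2]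
      simp
    simp_rw [h8]
    have i3 : Integrable (fun Q : G n => 2 * u (act Q x) * (∫ k, u (act k x) ∂(μG n))) (μG n) := by
      apply Integrable.mul_const
      apply Integrable.const_mul
      exact integrable_G (hcu.comp (continuous_actG x))
    have i4 : Integrable (fun Q : G n => (∫ k, (u (act k x)) ^ 2 ∂(μG n)) - 2 * u (act Q x) * (∫ k, u (act k x) ∂(μG n))) (μG n) :=
      (integrable_const _).sub i3
    rw [integral_add i4 hsq, integral_sub (integrable_const _) i3, integral_mul_const, integral_const_mul]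
    simp
    ring
  linarith

lemma sum_inner_act (g : E n) (Q : G n) : ∑ j, ⟪g, act Q (EuclideanSpace.single j 1)⟫ ^ 2 = ‖g‖ ^ 2 := by
  have := ((EuclideanSpace.basisFun (Fin n) ℝ).map (Unitary.linearIsometryEquiv Q)).sum_sq_norm_inner_left g
  rw [← this]
  apply Finset.sum_congr rfl
  intro j _
  rw [Real.norm_eq_abs, sq_abs]
  simp only [OrthonormalBasis.map_apply, EuclideanSpace.basisFun_apply]
  rfl

/-- spherical Poincare inequality -/
lemma sph_poincare {m : ℕ} {u : E (m + 2) → ℝ} (hu : ContDiff ℝ 1 u) {r : ℝ} (hr : 0 < r) :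
    ((m : ℝ) + 1) * ((∫ Q, (u (r • act Q (EuclideanSpace.single 0 1))) ^ 2 ∂(μG (m + 2))) -
      (∫ Q, u (r • act Q (EuclideanSpace.single 0 1)) ∂(μG (m + 2))) ^ 2) ≤
      r ^ 2 * ((∫ Q, ‖∇ u (r • act Q (EuclideanSpace.single 0 1))‖ ^ 2 ∂(μG (m + 2))) -
        ∫ Q, (fderiv ℝ u (r • act Q (EuclideanSpace.single 0 1)) (act Q (EuclideanSpace.single 0 1))) ^ 2 ∂(μG (m + 2))) := by
  set e : Fin (m + 2) → E (m + 2) := fun j => EuclideanSpace.single j 1 with he
  have hcu : Continuous u := hu.continuous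
  have hen : ∀ j, ‖r • e j‖ = r := by
    intro j; rw [norm_smul, he]; simp [abs_of_pos hr]
  have hort : ∀ j, j ≠ 0 → ⟪r • e 0, r • e j⟫ = 0 := by
    intro j hj
    rw [inner_smul_left, inner_smul_right, he]
    simp [EuclideanSpace.inner_single_left, hj]
  have h1 : ∀ j : Fin (m + 2), j ≠ 0 → (∫ Q, (u (r • act Q (e 0))) ^ 2 ∂(μG (m + 2))) -
      (∫ Q, u (r • act Q (e 0)) ∂(μG (m + 2))) ^ 2 ≤ ∫ Q, r ^ 2 * (fderiv ℝ u (r • act Q (e 0)) (act Q (e j))) ^ 2 ∂(μG (m + 2)) := by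
    intro j hj
    have := var_le hu hr (hen 0) (hen j) (hort j hj)
    simp_rw [act_smul] at this
    have h2 : ∀ Q : G (m + 2), (fderiv ℝ u (r • act Q (e 0)) (r • act Q (e j))) ^ 2 = r ^ 2 * (fderiv ℝ u (r • act Q (e 0)) (act Q (e j))) ^ 2 := by
      intro Q; rw [map_smul, smul_eq_mul]; ring
    simp_rw [h2] at this
    exact this
  have hcx : ∀ j, Continuous (fun Q : G (m + 2) => fderiv ℝ u (r • act Q (e 0)) (act Q (e j))) := fun j =>
    continuous_uf hu ((continuous_actG (e 0)).const_smul r) (continuous_actG (e j))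
  have hi : ∀ j, Integrable (fun Q : G (m + 2) => r ^ 2 * (fderiv ℝ u (r • act Q (e 0)) (act Q (e j))) ^ 2) (μG (m + 2)) := fun j =>
    (integrable_G ((hcx j).pow 2)).const_mul _
  have h3 := Finset.sum_le_sum (s := Finset.univ.erase (0 : Fin (m + 2))) (fun j hj => h1 j (Finset.ne_of_mem_erase hj))
  rw [Finset.sum_const, Finset.card_erase_of_mem (Finset.mem_univ _), Finset.card_univ, Fintype.card_fin, nsmul_eq_mul] at h3
  rw [← integral_finsetSum _ (fun j _ => hi j)] at h3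
  have h4 : ∫ Q, ∑ j ∈ Finset.univ.erase (0 : Fin (m + 2)), r ^ 2 * (fderiv ℝ u (r • act Q (e 0)) (act Q (e j))) ^ 2 ∂(μG (m + 2)) =
      r ^ 2 * ((∫ Q, ‖∇ u (r • act Q (e 0))‖ ^ 2 ∂(μG (m + 2))) -
        ∫ Q, (fderiv ℝ u (r • act Q (e 0)) (act Q (e 0))) ^ 2 ∂(μG (m + 2))) := by
    rw [← integral_sub, ← integral_const_mul]
    · apply integral_congr_ae
      filter_upwards with Q
      have h5 := sum_inner_act (∇ u (r • act Q (e 0))) Q
      rw [← Finset.add_sum_erase _ _ (Finset.mem_univ (0 : Fin (m + 2)))] at h5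
      simp_rw [inner_gradient] at h5
      rw [← Finset.mul_sum, ← h5]
      simp only [he]
      ring
    · exact integrable_G (((continuous_gradient hu).comp ((continuous_actG (e 0)).const_smul r)).norm.pow 2)
    · exact integrable_G ((hcx 0).pow 2)
  rw [h4] at h3
  have h6 : ((m + 2 - 1 : ℕ) : ℝ) = (m : ℝ) + 1 := by
    have : m + 2 - 1 = m + 1 := by omega
    rw [this]; push_cast; ring
  rw [h6] at h3
  exact h3

lemma rho_pos (r : ℝ) : 0 < 1 + r ^ 2 := by positivity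

lemma continuous_rho (γ : ℝ) : Continuous (fun r : ℝ => (1 + r ^ 2) ^ γ) := by
  apply Continuous.rpow_const (by fun_prop)
  intro x; left; exact (rho_pos x).ne'

lemma hasDerivAt_rho (γ r : ℝ) : HasDerivAt (fun r : ℝ => (1 + r ^ 2) ^ γ) (2 * γ * r * (1 + r ^ 2) ^ (γ - 1)) r := by
  have h1 : HasDerivAt (fun r : ℝ => 1 + r ^ 2) (2 * r) r := by
    have := (hasDerivAt_pow 2 r).const_add 1
    simpa using this
  have h2 := h1.rpow_const (p := γ) (Or.inl (rho_pos r).ne')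
  convert h2 using 1
  ring

lemma rho_sub_one (γ r : ℝ) : (1 + r ^ 2) ^ γ = (1 + r ^ 2) ^ (γ - 1) * (1 + r ^ 2) := by
  have h := Real.rpow_add_one (rho_pos r).ne' (γ - 1)
  rw [sub_add_cancel] at h
  exact h

/-- integrability of bounded functions vanishing far out -/
lemma intOn_of_bdd {f : ℝ → ℝ} (hf : AEStronglyMeasurable f (volume.restrict (Set.Ioi 0))) {C R : ℝ}
    (hC : ∀ r ∈ Set.Ioi (0:ℝ), |f r| ≤ C) (hR : ∀ r, R ≤ r → f r = 0) : IntegrableOn f (Set.Ioi 0) := by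
  have h1 : IntegrableOn f (Set.Ioo 0 R) := by
    apply Integrable.of_bound (C := C)
    · exact hf.mono_measure (Measure.restrict_mono Set.Ioo_subset_Ioi_self le_rfl)
    · rw [ae_restrict_iff' measurableSet_Ioo]
      filter_upwards with r hr
      exact hC r hr.1
  have h2 : IntegrableOn f (Set.Ici R) := by
    have : IntegrableOn (fun _ : ℝ => (0:ℝ)) (Set.Ici R) := integrableOn_zero
    exact this.congr_fun (fun r hr => (hR r hr).symm) measurableSet_Ici
  apply (h1.union h2).mono_set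
  intro r hr
  by_cases h : r < R
  · left; exact ⟨hr, h⟩
  · right; exact not_lt.mp h

lemma intOn_of_cont {f : ℝ → ℝ} (hf : Continuous f) {R : ℝ} (hR : ∀ r, R ≤ r → f r = 0) :
    IntegrableOn f (Set.Ioi 0) := by
  obtain ⟨C, hC⟩ := (isCompact_Icc (a := 0) (b := max R 0)).exists_bound_of_continuousOn hf.continuousOn
  apply intOn_of_bdd hf.aestronglyMeasurable (C := max C 0) (R := R) _ hR
  intro r hr
  by_cases h : r ≤ max R 0
  · exact (hC r ⟨le_of_lt hr, h⟩).trans (le_max_left _ _)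
  · have : R ≤ r := by push Not at h; exact (le_max_left _ _).trans h.le
    rw [hR r this]; simp

lemma integral_deriv_zero {h h' : ℝ → ℝ} (hcont : ContinuousWithinAt h (Set.Ici 0) 0)
    (hd : ∀ r ∈ Set.Ioi (0:ℝ), HasDerivAt h (h' r) r) (hint : IntegrableOn h' (Set.Ioi 0)) (h0 : h 0 = 0)
    {R : ℝ} (hR : ∀ r, R ≤ r → h r = 0) : ∫ r in Set.Ioi (0:ℝ), h' r = 0 := by
  have ht : Tendsto h atTop (𝓝 0) := by
    apply tendsto_const_nhds.congr'
    filter_upwards [eventually_ge_atTop R] with r hr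
    exact (hR r hr).symm
  rw [integral_Ioi_of_hasDerivAt_of_tendsto hcont hd hint ht, h0, sub_zero]

/-- one-dimensional inequality for the non-radial part -/
lemma angular_1d (m : ℕ) (α : ℝ) {v v' : ℝ → ℝ} (hv : ∀ r, HasDerivAt v (v' r) r) (hv' : Continuous v')
    {R : ℝ} (hR : ∀ r, R ≤ r → v r = 0) (hR' : ∀ r, R ≤ r → v' r = 0) :
    -2 * α * ∫ r in Set.Ioi (0:ℝ), r ^ (m + 2) * (1 + r ^ 2) ^ (α - 1) * v r ^ 2 ≤
      (∫ r in Set.Ioi (0:ℝ), r ^ (m + 2) * (1 + r ^ 2) ^ α * v' r ^ 2) +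
      ((m : ℝ) + 2) * ∫ r in Set.Ioi (0:ℝ), r ^ m * (1 + r ^ 2) ^ α * v r ^ 2 := by
  have hvc : Continuous v := continuous_iff_continuousAt.mpr (fun x => (hv x).continuousAt)
  have hw := continuous_rho
  set h : ℝ → ℝ := fun r => r ^ (m + 1) * (1 + r ^ 2) ^ α * v r ^ 2 with hh
  set h' : ℝ → ℝ := fun r => ((m : ℝ) + 1) * r ^ m * (1 + r ^ 2) ^ α * v r ^ 2 +
    2 * α * (r ^ (m + 2) * (1 + r ^ 2) ^ (α - 1) * v r ^ 2) + 2 * r ^ (m + 1) * (1 + r ^ 2) ^ α * v r * v' r with hh'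
  have hder : ∀ r, HasDerivAt h (h' r) r := by
    intro r
    have h1 := ((hasDerivAt_pow (m + 1) r).fun_mul (hasDerivAt_rho α r)).fun_mul ((hv r).fun_pow 2)
    refine h1.congr_deriv ?_
    simp only [h', Nat.add_sub_cancel]
    push_cast
    ring
  have hcont' : Continuous h' := by
    rw [hh']
    have := hw α
    have := hw (α - 1)
    fun_prop
  have hvan : ∀ r, R ≤ r → h' r = 0 := by
    intro r hr; rw [hh']; simp only; rw [hR r hr]; simp
  have hz : ∫ r in Set.Ioi (0:ℝ), h' r = 0 := by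
    apply integral_deriv_zero (h := h) (R := R)
    · exact (hder 0).continuousAt.continuousWithinAt
    · intro r _; exact hder r
    · exact intOn_of_cont hcont' hvan
    · rw [hh]; simp
    · intro r hr; rw [hh]; simp only; rw [hR r hr]; simp
  have i1 : IntegrableOn (fun r => r ^ (m + 2) * (1 + r ^ 2) ^ α * v' r ^ 2) (Set.Ioi 0) := by
    apply intOn_of_cont (R := R)
    · have := hw α; fun_prop
    · intro r hr; rw [hR' r hr]; simp
  have i2 : IntegrableOn (fun r => r ^ m * (1 + r ^ 2) ^ α * v r ^ 2) (Set.Ioi 0) := by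
    apply intOn_of_cont (R := R)
    · have := hw α; fun_prop
    · intro r hr; rw [hR r hr]; simp
  have i3 : IntegrableOn (fun r => r ^ (m + 2) * (1 + r ^ 2) ^ (α - 1) * v r ^ 2) (Set.Ioi 0) := by
    apply intOn_of_cont (R := R)
    · have := hw (α - 1); fun_prop
    · intro r hr; rw [hR r hr]; simp
  have i4 : IntegrableOn h' (Set.Ioi 0) := intOn_of_cont hcont' hvan
  have key : 0 ≤ ∫ r in Set.Ioi (0:ℝ), (r ^ (m + 2) * (1 + r ^ 2) ^ α * v' r ^ 2 + ((m : ℝ) + 2) * (r ^ m * (1 + r ^ 2) ^ α * v r ^ 2)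
      + 2 * α * (r ^ (m + 2) * (1 + r ^ 2) ^ (α - 1) * v r ^ 2) - h' r) := by
    apply setIntegral_nonneg measurableSet_Ioi
    intro r hr
    have hr0 : 0 < r := hr
    have : r ^ (m + 2) * (1 + r ^ 2) ^ α * v' r ^ 2 + ((m : ℝ) + 2) * (r ^ m * (1 + r ^ 2) ^ α * v r ^ 2)
      + 2 * α * (r ^ (m + 2) * (1 + r ^ 2) ^ (α - 1) * v r ^ 2) - h' r = r ^ m * (1 + r ^ 2) ^ α * (r * v' r - v r) ^ 2 := by
      rw [hh']; simp only; ring
    rw [this]
    have := Real.rpow_pos_of_pos (rho_pos r) α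
    positivity
  have i12 : IntegrableOn (fun r => r ^ (m + 2) * (1 + r ^ 2) ^ α * v' r ^ 2 + ((m : ℝ) + 2) * (r ^ m * (1 + r ^ 2) ^ α * v r ^ 2)) (Set.Ioi 0) :=
    i1.add (i2.const_mul _)
  have i123 : IntegrableOn (fun r => r ^ (m + 2) * (1 + r ^ 2) ^ α * v' r ^ 2 + ((m : ℝ) + 2) * (r ^ m * (1 + r ^ 2) ^ α * v r ^ 2)
      + 2 * α * (r ^ (m + 2) * (1 + r ^ 2) ^ (α - 1) * v r ^ 2)) (Set.Ioi 0) :=
    i12.add (i3.const_mul _)
  rw [integral_sub i123 i4, integral_add i12 (i3.const_mul _), integral_add i1 (i2.const_mul _), hz,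
    integral_const_mul, integral_const_mul] at key
  linarith

lemma intOn_mul_bdd {q φ : ℝ → ℝ} (hq : Continuous q) (hφ : ContinuousOn φ (Set.Ioi 0)) {C R : ℝ}
    (hC : ∀ r ∈ Set.Ioi (0:ℝ), |φ r| ≤ C) (hR : ∀ r, R ≤ r → φ r = 0) :
    IntegrableOn (fun r => q r * φ r) (Set.Ioi 0) := by
  obtain ⟨D, hD⟩ := (isCompact_Icc (a := 0) (b := max R 0)).exists_bound_of_continuousOn hq.continuousOn
  apply intOn_of_bdd (C := max (D * C) 0) (R := R)
  · exact (hq.continuousOn.mul hφ).aestronglyMeasurable measurableSet_Ioi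
  · intro r hr
    by_cases h : r ≤ max R 0
    · have h1 := hD r ⟨le_of_lt hr, h⟩
      have h2 := hC r hr
      rw [Real.norm_eq_abs] at h1
      rw [abs_mul]
      refine le_trans ?_ (le_max_left _ _)
      exact mul_le_mul h1 h2 (abs_nonneg _) ((abs_nonneg _).trans h1)
    · have : R ≤ r := by push Not at h; exact (le_max_left _ _).trans h.le
      rw [hR r this]; simp
  · intro r hr
    rw [hR r hr]; simp

/-- one-dimensional inequality for the radial part with vanishing mean -/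
lemma radial_1d (m : ℕ) {α γ l : ℝ} (hl : 0 < l)
    (hA : l ≤ -2 * (((m : ℝ) + 3) * (γ - α) + ((m : ℝ) + 3 + 2 * γ)))
    (hB : l ≤ -2 * (((m : ℝ) + 3 + 2 * γ) * (γ - α + 1)))
    {W W' : ℝ → ℝ} (hW : ∀ r, HasDerivAt W (W' r) r) (hW' : Continuous W')
    {R : ℝ} (hR : ∀ r, R ≤ r → W r = 0) (hR' : ∀ r, R ≤ r → W' r = 0)
    (hmean : ∫ r in Set.Ioi (0:ℝ), r ^ (m + 2) * (1 + r ^ 2) ^ (α - 1) * W r = 0) :
    l * ∫ r in Set.Ioi (0:ℝ), r ^ (m + 2) * (1 + r ^ 2) ^ (α - 1) * W r ^ 2 ≤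
      ∫ r in Set.Ioi (0:ℝ), r ^ (m + 2) * (1 + r ^ 2) ^ α * W' r ^ 2 := by
  have hWc : Continuous W := continuous_iff_continuousAt.mpr (fun x => (hW x).continuousAt)
  have hw := continuous_rho
  set R1 : ℝ := max R 1 with hR1
  have hR1pos : 0 < R1 := lt_of_lt_of_le one_pos (le_max_right _ _)
  have hRW : ∀ r, R1 ≤ r → W r = 0 := fun r hr => hR r ((le_max_left _ _).trans hr)
  have hRW' : ∀ r, R1 ≤ r → W' r = 0 := fun r hr => hR' r ((le_max_left _ _).trans hr)
  set f : ℝ → ℝ := fun r => (1 + r ^ 2) ^ (α - 1) * W r with hf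
  have hfc : Continuous f := by have := hw (α - 1); rw [hf]; fun_prop
  have hRf : ∀ r, R1 ≤ r → f r = 0 := by intro r hr; rw [hf]; simp only; rw [hRW r hr]; simp
  set F : ℝ → ℝ := fun r => ∫ s in (0:ℝ)..r, s ^ (m + 2) * f s with hF
  have hFc0 : Continuous (fun s : ℝ => s ^ (m + 2) * f s) := by fun_prop
  have hFd : ∀ r, HasDerivAt F (r ^ (m + 2) * f r) r := fun r =>
    (hFc0.integral_hasStrictDerivAt 0 r).hasDerivAt
  have hFc : Continuous F := continuous_iff_continuousAt.mpr (fun x => (hFd x).continuousAt)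
  have hF0 : F 0 = 0 := by rw [hF]; simp
  have hFR : ∀ r, R1 ≤ r → F r = 0 := by
    intro r hr
    have hr0 : 0 ≤ r := hR1pos.le.trans hr
    rw [hF]; simp only
    rw [intervalIntegral.integral_of_le hr0]
    have : ∫ s in Set.Ioi (0:ℝ), s ^ (m + 2) * f s = ∫ s in Set.Ioc 0 r, s ^ (m + 2) * f s := by
      apply setIntegral_eq_of_subset_of_forall_sdiff_eq_zero measurableSet_Ioi Set.Ioc_subset_Ioi_self
      intro s hs
      have : r ≤ s := by
        by_contra h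
        push Not at h
        exact hs.2 ⟨hs.1, h.le⟩
      rw [hRf s (hr.trans this)]; simp
    rw [← this]
    refine Eq.trans ?_ hmean
    apply setIntegral_congr_fun measurableSet_Ioi
    intro s _
    rw [hf]; simp only; ring
  obtain ⟨C, hC⟩ : ∃ C, ∀ r ∈ Set.Ici (0:ℝ), |f r| ≤ C := by
    obtain ⟨C, hC⟩ := (isCompact_Icc (a := 0) (b := R1)).exists_bound_of_continuousOn hfc.continuousOn
    refine ⟨max C 0, ?_⟩
    intro r hr
    by_cases h : r ≤ R1
    · exact (hC r ⟨hr, h⟩).trans (le_max_left _ _)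
    · push Not at h
      rw [hRf r h.le]; simp
  have hFb : ∀ r ∈ Set.Ioi (0:ℝ), |F r| ≤ C * r ^ (m + 3) := by
    intro r hr
    have hr0 : 0 < r := hr
    have h1 := intervalIntegral.norm_integral_le_of_norm_le_const (a := 0) (b := r) (C := r ^ (m + 2) * C)
      (f := fun s => s ^ (m + 2) * f s) (by
        intro s hs
        rw [Set.uIoc_of_le hr0.le] at hs
        rw [norm_mul, norm_pow, Real.norm_eq_abs, Real.norm_eq_abs, abs_of_pos hs.1]
        exact mul_le_mul (pow_le_pow_left₀ hs.1.le hs.2 _) (hC s hs.1.le) (abs_nonneg _) (by positivity))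
    rw [sub_zero, abs_of_pos hr0, Real.norm_eq_abs] at h1
    calc |F r| ≤ r ^ (m + 2) * C * r := h1
      _ = C * r ^ (m + 3) := by ring
  set k : ℝ → ℝ := fun r => F r / r ^ (m + 3) with hk
  have hkb : ∀ r ∈ Set.Ioi (0:ℝ), |k r| ≤ C := by
    intro r hr
    have hr0 : 0 < r := hr
    rw [hk]; simp only
    rw [abs_div, abs_of_pos (pow_pos hr0 _), div_le_iff₀ (pow_pos hr0 _)]
    exact hFb r hr
  have hkR : ∀ r, R1 ≤ r → k r = 0 := by intro r hr; rw [hk]; simp only; rw [hFR r hr]; simp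
  have hFk : ∀ r ∈ Set.Ioi (0:ℝ), F r = r ^ (m + 3) * k r := by
    intro r hr
    have hr0 : 0 < r := hr
    rw [hk]; simp only; field_simp
  have hkd : ∀ r ∈ Set.Ioi (0:ℝ), HasDerivAt k ((f r - ((m : ℝ) + 3) * k r) / r) r := by
    intro r hr
    have hr0 : 0 < r := hr
    have h1 := (hFd r).fun_div (hasDerivAt_pow (m + 3) r) (pow_pos hr0 _).ne'
    refine h1.congr_deriv ?_
    have h2 : (k r) = F r / r ^ (m + 3) := rfl
    rw [h2]
    have h3 : m + 3 - 1 = m + 2 := by omega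
    rw [h3]
    push_cast
    field_simp
    ring
  have hkc : ContinuousOn k (Set.Ioi 0) := fun r hr => (hkd r hr).continuousAt.continuousWithinAt
  have hk2c : ContinuousOn (fun r => k r ^ 2) (Set.Ioi 0) := hkc.pow 2
  have hk2b : ∀ r ∈ Set.Ioi (0:ℝ), |k r ^ 2| ≤ C ^ 2 := by
    intro r hr
    rw [abs_pow]
    exact pow_le_pow_left₀ (abs_nonneg _) (hkb r hr) 2
  have hk2R : ∀ r, R1 ≤ r → k r ^ 2 = 0 := by intro r hr; rw [hkR r hr]; simp
  -- the pieces
  set N : ℝ := (m : ℝ) + 3 with hN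
  set A0 : ℝ := N * (γ - α) + (N + 2 * γ) with hA0
  set B0 : ℝ := (N + 2 * γ) * (γ - α + 1) with hB0
  set P : ℝ → ℝ := fun r => (1 + r ^ 2) ^ (-α - 1) with hP
  have hPc : Continuous P := hw _
  have hP1 : ∀ r, (1 + r ^ 2) ^ (-α) = P r * (1 + r ^ 2) := fun r => rho_sub_one (-α) r
  set A : ℝ → ℝ := fun r => P r * r ^ (m + 2) * (1 + r ^ 2) ^ 2 * f r ^ 2 with hAdef
  set B : ℝ → ℝ := fun r => (-2 * (A0 + B0 * r ^ 2) * P r * r ^ (m + 4)) * k r ^ 2 with hBdef
  set S : ℝ → ℝ := fun r => A r - (2 * (P r * r ^ (m + 2) * (1 + r ^ 2) * f r * (N * (1 + r ^ 2) + 2 * γ * r ^ 2))) * k r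
      + (P r * r ^ (m + 2) * (N * (1 + r ^ 2) + 2 * γ * r ^ 2) ^ 2) * k r ^ 2 with hS
  have iA : IntegrableOn A (Set.Ioi 0) := by
    apply intOn_of_cont (R := R1)
    · rw [hAdef]; fun_prop
    · intro r hr; rw [hAdef]; simp only; rw [hRf r hr]; simp
  have iB : IntegrableOn B (Set.Ioi 0) := intOn_mul_bdd (by fun_prop) hk2c hk2b hk2R
  have iS : IntegrableOn S (Set.Ioi 0) := by
    apply IntegrableOn.add
    · apply IntegrableOn.sub iA
      exact intOn_mul_bdd (by fun_prop) hkc hkb hkR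
    · exact intOn_mul_bdd (by fun_prop) hk2c hk2b hk2R
  have hSnn : ∀ r ∈ Set.Ioi (0:ℝ), 0 ≤ S r := by
    intro r hr
    have hr0 : 0 < r := hr
    have : S r = P r * r ^ (m + 2) * ((1 + r ^ 2) * f r - (N * (1 + r ^ 2) + 2 * γ * r ^ 2) * k r) ^ 2 := by
      rw [hS, hAdef]; simp only; ring
    rw [this]
    have hPp : 0 < P r := Real.rpow_pos_of_pos (rho_pos r) _
    positivity
  -- total derivative
  set g : ℝ → ℝ := fun r => N * r ^ (m + 3) + (N + 2 * γ) * r ^ (m + 5) with hg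
  set h : ℝ → ℝ := fun r => (1 + r ^ 2) ^ (-α) * g r * k r ^ 2 with hh
  have hhd : ∀ r ∈ Set.Ioi (0:ℝ), HasDerivAt h (A r - B r - S r) r := by
    intro r hr
    have hr0 : 0 < r := hr
    have hgd : HasDerivAt g (N * (((m : ℝ) + 3) * r ^ (m + 2)) + (N + 2 * γ) * (((m : ℝ) + 5) * r ^ (m + 4))) r := by
      have h1 := ((hasDerivAt_pow (m + 3) r).const_mul N).fun_add ((hasDerivAt_pow (m + 5) r).const_mul (N + 2 * γ))
      refine h1.congr_deriv ?_
      have e1 : m + 3 - 1 = m + 2 := by omega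
      have e2 : m + 5 - 1 = m + 4 := by omega
      rw [e1, e2]
      push_cast
      ring
    have h1 := ((hasDerivAt_rho (-α) r).fun_mul hgd).fun_mul ((hkd r hr).fun_pow 2)
    refine h1.congr_deriv ?_
    rw [hP1 r]
    have hP2 : (1 + r ^ 2) ^ (-α - 1) = P r := rfl
    rw [hP2]
    simp only [hS, hAdef, hBdef, hg, hA0, hB0, hN]
    push_cast
    field_simp
    ring
  have hint' : IntegrableOn (fun r => A r - B r - S r) (Set.Ioi 0) := (iA.sub iB).sub iS
  have hz : ∫ r in Set.Ioi (0:ℝ), (A r - B r - S r) = 0 := by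
    apply integral_deriv_zero (h := h) (R := R1) _ hhd hint'
    · rw [hh]; simp only [hg]; simp
    · intro r hr; rw [hh]; simp only; rw [hkR r hr]; simp
    · -- continuity at 0
      have h0 : h 0 = 0 := by rw [hh]; simp only [hg]; simp
      rw [ContinuousWithinAt, h0]
      have hb : ∀ r ∈ Set.Ici (0:ℝ), |h r| ≤ |(1 + r ^ 2) ^ (-α) * g r| * C ^ 2 := by
        intro r hr
        rcases eq_or_lt_of_le (show (0:ℝ) ≤ r from hr) with h2 | h2
        · rw [← h2, h0]; simp; positivity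
        · rw [hh]; simp only
          rw [abs_mul]
          exact mul_le_mul_of_nonneg_left (hk2b r h2) (abs_nonneg _)
      have hlim : Tendsto (fun r => |(1 + r ^ 2) ^ (-α) * g r| * C ^ 2) (𝓝[Set.Ici 0] 0) (𝓝 0) := by
        have hcont : Continuous (fun r => |(1 + r ^ 2) ^ (-α) * g r| * C ^ 2) := by
          have := hw (-α); fun_prop
        have h3 := hcont.tendsto 0
        have h4 : |(1 + (0:ℝ) ^ 2) ^ (-α) * g 0| * C ^ 2 = 0 := by simp [hg]
        rw [h4] at h3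
        exact h3.mono_left nhdsWithin_le_nhds
      apply squeeze_zero_norm' _ hlim
      filter_upwards [self_mem_nhdsWithin] with r hr
      exact hb r hr
  have hAB : ∫ r in Set.Ioi (0:ℝ), B r ≤ ∫ r in Set.Ioi (0:ℝ), A r := by
    have h1 : 0 ≤ ∫ r in Set.Ioi (0:ℝ), S r := setIntegral_nonneg measurableSet_Ioi hSnn
    have iAB : IntegrableOn (fun r => A r - B r) (Set.Ioi 0) := iA.sub iB
    rw [integral_sub iAB iS, integral_sub iA iB] at hz
    linarith
  -- lower bound of B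
  set a : ℝ → ℝ := fun r => ((1 + r ^ 2) * P r * r ^ (m + 4)) * k r ^ 2 with ha
  have ia : IntegrableOn a (Set.Ioi 0) := intOn_mul_bdd (by fun_prop) hk2c hk2b hk2R
  have haB : l * ∫ r in Set.Ioi (0:ℝ), a r ≤ ∫ r in Set.Ioi (0:ℝ), B r := by
    rw [← integral_const_mul]
    apply setIntegral_mono_on (ia.const_mul _) iB measurableSet_Ioi
    intro r hr
    have hr0 : 0 < r := hr
    have hPp : 0 < P r := Real.rpow_pos_of_pos (rho_pos r) _
    have h1 : l * (1 + r ^ 2) ≤ -2 * (A0 + B0 * r ^ 2) := by nlinarith [sq_nonneg r]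
    have h2 : 0 ≤ P r * r ^ (m + 4) * k r ^ 2 := by positivity
    rw [ha, hBdef]; simp only
    nlinarith
  -- the pairing
  have iFW : IntegrableOn (fun r => F r * W' r) (Set.Ioi 0) := by
    apply intOn_of_cont (R := R1) (by fun_prop)
    intro r hr; rw [hRW' r hr]; simp
  have iA' : IntegrableOn (fun r => r ^ (m + 2) * f r * W r) (Set.Ioi 0) := by
    apply intOn_of_cont (R := R1) (by fun_prop)
    intro r hr; rw [hRW r hr]; simp
  have hpair : ∫ r in Set.Ioi (0:ℝ), (r ^ (m + 2) * f r * W r + F r * W' r) = 0 := by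
    apply integral_deriv_zero (h := fun r => F r * W r) (R := R1)
    · exact (hFc.mul hWc).continuousWithinAt
    · intro r _; exact (hFd r).fun_mul (hW r)
    · exact iA'.add iFW
    · rw [hF0]; simp
    · intro r hr; rw [hRW r hr]; simp
  rw [integral_add iA' iFW] at hpair
  have hAeq : ∀ r : ℝ, A r = r ^ (m + 2) * f r * W r := by
    intro r
    have e1 : P r * (1 + r ^ 2) ^ 2 * (1 + r ^ 2) ^ (α - 1) = 1 := by
      rw [hP]; simp only
      rw [← Real.rpow_natCast (1 + r ^ 2) 2, ← Real.rpow_add (rho_pos r), ← Real.rpow_add (rho_pos r)]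
      have : -α - 1 + ((2:ℕ):ℝ) + (α - 1) = 0 := by push_cast; ring
      rw [this, Real.rpow_zero]
    rw [hAdef]; simp only
    calc P r * r ^ (m + 2) * (1 + r ^ 2) ^ 2 * f r ^ 2 = (P r * (1 + r ^ 2) ^ 2 * (1 + r ^ 2) ^ (α - 1)) * (r ^ (m + 2) * f r * W r) := by
          rw [hf]; simp only; ring
      _ = _ := by rw [e1, one_mul]
  have hAint : ∫ r in Set.Ioi (0:ℝ), A r = ∫ r in Set.Ioi (0:ℝ), r ^ (m + 2) * f r * W r := by
    simp_rw [hAeq]
  have hgoal : ∫ r in Set.Ioi (0:ℝ), r ^ (m + 2) * (1 + r ^ 2) ^ (α - 1) * W r ^ 2 = ∫ r in Set.Ioi (0:ℝ), A r := by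
    rw [hAint]
    apply setIntegral_congr_fun measurableSet_Ioi
    intro r _
    rw [hf]; simp only; ring
  set b : ℝ → ℝ := fun r => r ^ (m + 2) * (1 + r ^ 2) ^ α * W' r ^ 2 with hb
  have ib : IntegrableOn b (Set.Ioi 0) := by
    apply intOn_of_cont (R := R1)
    · rw [hb]; have := hw α; fun_prop
    · intro r hr; rw [hb]; simp only; rw [hRW' r hr]; simp
  have hAM : -(2 * l) * ∫ r in Set.Ioi (0:ℝ), F r * W' r ≤ (l ^ 2 * ∫ r in Set.Ioi (0:ℝ), a r) + ∫ r in Set.Ioi (0:ℝ), b r := by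
    rw [← integral_const_mul, ← integral_const_mul, ← integral_add (ia.const_mul _) ib]
    apply setIntegral_mono_on (iFW.const_mul _) ((ia.const_mul _).add ib) measurableSet_Ioi
    intro r hr
    have hr0 : 0 < r := hr
    have hQp : 0 < (1 + r ^ 2) ^ (-α) := Real.rpow_pos_of_pos (rho_pos r) _
    have hQ : (1 + r ^ 2) ^ (-α) * (1 + r ^ 2) ^ α = 1 := by
      rw [← Real.rpow_add (rho_pos r)]; simp
    have h1 : 0 ≤ r ^ (m + 2) * (1 + r ^ 2) ^ (-α) * (l * r * k r + (1 + r ^ 2) ^ α * W' r) ^ 2 := by positivity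
    have h2 : r ^ (m + 2) * (1 + r ^ 2) ^ (-α) * (l * r * k r + (1 + r ^ 2) ^ α * W' r) ^ 2 =
        l ^ 2 * ((1 + r ^ 2) ^ (-α) * r ^ (m + 4) * k r ^ 2) + 2 * l * (r ^ (m + 3) * k r * W' r) * ((1 + r ^ 2) ^ (-α) * (1 + r ^ 2) ^ α)
        + r ^ (m + 2) * (1 + r ^ 2) ^ α * W' r ^ 2 * ((1 + r ^ 2) ^ (-α) * (1 + r ^ 2) ^ α) := by ring
    rw [hQ] at h2
    rw [h2, hP1 r] at h1
    rw [hFk r hr, ha, hb]
    simp only [Pi.add_apply]
    nlinarith
  rw [hgoal]
  have h5 : l * ∫ r in Set.Ioi (0:ℝ), a r ≤ ∫ r in Set.Ioi (0:ℝ), A r := haB.trans hAB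
  rw [hAint] at h5 ⊢
  have h6 : ∫ r in Set.Ioi (0:ℝ), F r * W' r = -∫ r in Set.Ioi (0:ℝ), r ^ (m + 2) * f r * W r := by linarith
  rw [h6] at hAM
  nlinarith

/-- unit vector -/
noncomputable def e0 (m : ℕ) : E (m + 3) := EuclideanSpace.single 0 1

lemma e0_norm (m : ℕ) : ‖e0 m‖ = 1 := by simp [e0]

lemma ray_norm_sq {m : ℕ} (r : ℝ) (Q : G (m + 3)) : ‖r • act Q (e0 m)‖ ^ 2 = r ^ 2 := by
  rw [norm_smul, act_norm, e0_norm, mul_one, Real.norm_eq_abs, sq_abs]

noncomputable def cn (m : ℕ) : ℝ := ((m : ℝ) + 3) * volume.real (Metric.ball (0 : E (m + 3)) 1)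

lemma cn_pos (m : ℕ) : 0 < cn m := by
  unfold cn
  have : 0 < volume.real (Metric.ball (0 : E (m + 3)) 1) := by
    rw [measureReal_def]
    exact ENNReal.toReal_pos (Metric.measure_ball_pos volume _ one_pos).ne' measure_ball_lt_top.ne
  positivity

lemma polar {m : ℕ} {F : E (m + 3) → ℝ} (hF : Continuous F) (hc : HasCompactSupport F) :
    ∫ x, F x = cn m * ∫ r in Set.Ioi (0:ℝ), r ^ (m + 2) * ∫ Q, F (r • act Q (e0 m)) ∂(μG (m + 3)) := by
  rw [integral_avg hF hc]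
  have h1 : ∀ x : E (m + 3), avg F x = (fun r : ℝ => ∫ Q, F (r • act Q (e0 m)) ∂(μG (m + 3))) ‖x‖ := by
    intro x
    have : avg F x = avg F (‖x‖ • e0 m) := by
      apply avg_eq_of_norm
      rw [norm_smul, e0_norm]; simp
    rw [this]
    unfold avg
    simp_rw [act_smul]
  simp_rw [h1]
  have h2 := integral_fun_norm_addHaar (volume : Measure (E (m + 3))) (fun r : ℝ => ∫ Q, F (r • act Q (e0 m)) ∂(μG (m + 3)))
  rw [h2, finrank_euclideanSpace_fin]
  have h3 : m + 3 - 1 = m + 2 := by omega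
  rw [h3]
  simp only [smul_eq_mul, nsmul_eq_mul]
  unfold cn
  push_cast
  ring

lemma swap_G {n : ℕ} {f : G n → ℝ → ℝ} (hf : Continuous (Function.uncurry f)) {R : ℝ} (hR : ∀ Q r, R < |r| → f Q r = 0) :
    ∫ r in Set.Ioi (0:ℝ), (∫ Q, f Q r ∂(μG n)) = ∫ Q, (∫ r in Set.Ioi (0:ℝ), f Q r) ∂(μG n) := by
  have hint : Integrable (Function.uncurry f) ((μG n).prod volume) := by
    apply hf.integrable_of_hasCompactSupport
    apply HasCompactSupport.intro (K := Set.univ ×ˢ Set.Icc (-R) R) (isCompact_univ.prod isCompact_Icc)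
    rintro ⟨Q, r⟩ h
    apply hR
    by_contra h2
    push Not at h2
    exact h ⟨trivial, abs_le.mp h2⟩
  have hint2 : Integrable (Function.uncurry f) ((μG n).prod (volume.restrict (Set.Ioi 0))) := by
    have h1 := hint.integrableOn (s := Set.univ ×ˢ Set.Ioi (0:ℝ))
    unfold IntegrableOn at h1
    rwa [← Measure.prod_restrict, Measure.restrict_univ] at h1
  exact (integral_integral_swap hint2).symm

lemma integrable_inner_G {n : ℕ} {f : G n → ℝ → ℝ} (hf : Continuous (Function.uncurry f)) {R : ℝ} (hR : ∀ Q r, R < |r| → f Q r = 0) :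
    Integrable (fun Q => ∫ r in Set.Ioi (0:ℝ), f Q r) (μG n) := by
  have hint : Integrable (Function.uncurry f) ((μG n).prod volume) := by
    apply hf.integrable_of_hasCompactSupport
    apply HasCompactSupport.intro (K := Set.univ ×ˢ Set.Icc (-R) R) (isCompact_univ.prod isCompact_Icc)
    rintro ⟨Q, r⟩ h
    apply hR
    by_contra h2
    push Not at h2
    exact h ⟨trivial, abs_le.mp h2⟩
  have hint2 : Integrable (Function.uncurry f) ((μG n).prod (volume.restrict (Set.Ioi 0))) := by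
    have h1 := hint.integrableOn (s := Set.univ ×ˢ Set.Ioi (0:ℝ))
    unfold IntegrableOn at h1
    rwa [← Measure.prod_restrict, Measure.restrict_univ] at h1
  exact hint2.integral_prod_left

lemma continuous_int_G {n : ℕ} {f : G n → ℝ → ℝ} (hf : Continuous (Function.uncurry f)) :
    Continuous (fun r => ∫ Q, f Q r ∂(μG n)) := by
  have hf' : Continuous (Function.uncurry (fun (r : ℝ) (Q : G n) => f Q r)) := hf.comp continuous_swap
  have := continuous_parametric_integral_of_continuous (μ := μG n) hf' (s := Set.univ) isCompact_univ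
  simpa using this

lemma poincare_ray {m : ℕ} {u : E (m + 3) → ℝ} (hu : ContDiff ℝ 1 u) {r : ℝ} (hr : 0 < r) :
    ((m : ℝ) + 2) * ((∫ Q, (u (r • act Q (e0 m))) ^ 2 ∂(μG (m + 3))) -
      (∫ Q, u (r • act Q (e0 m)) ∂(μG (m + 3))) ^ 2) ≤
      r ^ 2 * ((∫ Q, ‖∇ u (r • act Q (e0 m))‖ ^ 2 ∂(μG (m + 3))) -
        ∫ Q, (fderiv ℝ u (r • act Q (e0 m)) (act Q (e0 m))) ^ 2 ∂(μG (m + 3))) := by
  have h := sph_poincare (m := m + 1) hu hr
  have h2 : (((m + 1 : ℕ) : ℝ) + 1) = (m : ℝ) + 2 := by push_cast; ring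
  rw [h2] at h
  exact h

section ray
variable {m : ℕ}

noncomputable def rayU (u : E (m + 3) → ℝ) (Q : G (m + 3)) (r : ℝ) : ℝ := u (r • act Q (e0 m))
noncomputable def rayD (u : E (m + 3) → ℝ) (Q : G (m + 3)) (r : ℝ) : ℝ :=
  fderiv ℝ u (r • act Q (e0 m)) (act Q (e0 m))
noncomputable def rayG (u : E (m + 3) → ℝ) (Q : G (m + 3)) (r : ℝ) : ℝ := ‖∇ u (r • act Q (e0 m))‖ ^ 2

lemma cont_ray : Continuous (fun p : G (m + 3) × ℝ => p.2 • act p.1 (e0 m)) :=
  continuous_snd.smul ((continuous_actG (e0 m)).comp continuous_fst)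

lemma cont_rayU {u : E (m + 3) → ℝ} (hu : Continuous u) : Continuous (Function.uncurry (rayU u)) := by
  have : Function.uncurry (rayU u) = fun p : G (m + 3) × ℝ => u (p.2 • act p.1 (e0 m)) := rfl
  rw [this]
  exact hu.comp cont_ray

lemma cont_rayD {u : E (m + 3) → ℝ} (hu : ContDiff ℝ 1 u) : Continuous (Function.uncurry (rayD u)) := by
  have : Function.uncurry (rayD u) = fun p : G (m + 3) × ℝ => fderiv ℝ u (p.2 • act p.1 (e0 m)) (act p.1 (e0 m)) := rfl
  rw [this]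
  exact continuous_uf hu cont_ray ((continuous_actG (e0 m)).comp continuous_fst)

lemma cont_rayG {u : E (m + 3) → ℝ} (hu : ContDiff ℝ 1 u) : Continuous (Function.uncurry (rayG u)) := by
  have : Function.uncurry (rayG u) = fun p : G (m + 3) × ℝ => ‖∇ u (p.2 • act p.1 (e0 m))‖ ^ 2 := rfl
  rw [this]
  have h1 : Continuous (fun p : G (m + 3) × ℝ => ∇ u (p.2 • act p.1 (e0 m))) := (continuous_gradient hu).comp cont_ray
  exact h1.norm.pow 2

lemma rayU_deriv {u : E (m + 3) → ℝ} (hu : ContDiff ℝ 1 u) (Q : G (m + 3)) (r : ℝ) :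
    HasDerivAt (rayU u Q) (rayD u Q r) r := by
  have h1 : HasFDerivAt u (fderiv ℝ u (r • act Q (e0 m))) (r • act Q (e0 m)) := (hu.differentiable one_ne_zero _).hasFDerivAt
  have h2 : HasDerivAt (fun r : ℝ => r • act Q (e0 m)) (act Q (e0 m)) r := by
    have := (hasDerivAt_id r).smul_const (act Q (e0 m))
    simpa using this
  exact h1.comp_hasDerivAt r h2

lemma energy_polar (α : ℝ) {u : E (m + 3) → ℝ} (hu : ContDiff ℝ 1 u) (hc : HasCompactSupport u) :
    energy α u = cn m * ∫ r in Set.Ioi (0:ℝ), r ^ (m + 2) * (1 + r ^ 2) ^ α * ∫ Q, rayG u Q r ∂(μG (m + 3)) := by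
  unfold energy
  have h1 : Continuous (fun x : E (m + 3) => (1 + ‖x‖ ^ 2) ^ α * ‖∇ u x‖ ^ 2) :=
    (contDiff_weight (k := 1) α).continuous.mul ((continuous_gradient hu).norm.pow 2)
  have h2 : HasCompactSupport (fun x : E (m + 3) => (1 + ‖x‖ ^ 2) ^ α * ‖∇ u x‖ ^ 2) := (hcs_grad_sq hc).mul_left
  rw [polar h1 h2]
  congr 1
  apply setIntegral_congr_fun measurableSet_Ioi
  intro r _
  simp only [ray_norm_sq]
  rw [integral_const_mul]
  unfold rayG
  ring

lemma mass_polar (α : ℝ) {u : E (m + 3) → ℝ} (hu : Continuous u) (hc : HasCompactSupport u) :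
    mass α u = cn m * ∫ r in Set.Ioi (0:ℝ), r ^ (m + 2) * (1 + r ^ 2) ^ (α - 1) * ∫ Q, (rayU u Q r) ^ 2 ∂(μG (m + 3)) := by
  unfold mass
  have h1 : Continuous (fun x : E (m + 3) => (1 + ‖x‖ ^ 2) ^ (α - 1) * (u x) ^ 2) :=
    (contDiff_weight (k := 1) (α - 1)).continuous.mul (hu.pow 2)
  have h2 : HasCompactSupport (fun x : E (m + 3) => (1 + ‖x‖ ^ 2) ^ (α - 1) * (u x) ^ 2) := (hcs_sq hc).mul_left
  rw [polar h1 h2]
  congr 1
  apply setIntegral_congr_fun measurableSet_Ioi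
  intro r _
  simp only [ray_norm_sq]
  rw [integral_const_mul]
  unfold rayU
  ring

lemma mean_polar (α : ℝ) {u : E (m + 3) → ℝ} (hu : Continuous u) (hc : HasCompactSupport u)
    (hmean : ∫ x, (1 + ‖x‖ ^ 2) ^ (α - 1) * u x = 0) :
    ∫ r in Set.Ioi (0:ℝ), r ^ (m + 2) * (1 + r ^ 2) ^ (α - 1) * ∫ Q, rayU u Q r ∂(μG (m + 3)) = 0 := by
  have h1 : Continuous (fun x : E (m + 3) => (1 + ‖x‖ ^ 2) ^ (α - 1) * u x) :=
    (contDiff_weight (k := 1) (α - 1)).continuous.mul hu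
  have h2 : HasCompactSupport (fun x : E (m + 3) => (1 + ‖x‖ ^ 2) ^ (α - 1) * u x) := hc.mul_left
  have h3 := polar h1 h2
  rw [hmean] at h3
  have h4 := (mul_eq_zero.mp h3.symm).resolve_left (cn_pos m).ne'
  refine Eq.trans ?_ h4
  apply setIntegral_congr_fun measurableSet_Ioi
  intro r _
  simp only [ray_norm_sq]
  rw [integral_const_mul]
  unfold rayU
  ring

end ray

/-- the main lower bound for functions of vanishing weighted mean -/
lemma lower_mean {m : ℕ} {α γ l0 l : ℝ} (hl0 : 0 < l0)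
    (hA : l0 ≤ -2 * (((m : ℝ) + 3) * (γ - α) + ((m : ℝ) + 3 + 2 * γ)))
    (hB : l0 ≤ -2 * (((m : ℝ) + 3 + 2 * γ) * (γ - α + 1)))
    (hl1 : l ≤ l0) (hl2 : l ≤ -2 * α)
    (u : E (m + 3) → ℝ) (hu : ContDiff ℝ ∞ u) (hc : HasCompactSupport u)
    (hmean : ∫ x, (1 + ‖x‖ ^ 2) ^ (α - 1) * u x = 0) :
    l * mass α u ≤ energy α u := by
  have hu1 : ContDiff ℝ 1 u := hu.of_le (by simp)
  have hcu : Continuous u := hu.continuous
  have hwt := fun γ => (contDiff_weight (n := m + 3) (k := 1) γ).continuous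
  have hw := continuous_rho
  -- support radius
  obtain ⟨R0, hR0⟩ := hc.isCompact.isBounded.subset_closedBall 0
  have hsupp : ∀ (Q : G (m + 3)) (r : ℝ), R0 < |r| → r • act Q (e0 m) ∉ tsupport u := by
    intro Q r hr hmem
    have := hR0 hmem
    rw [Metric.mem_closedBall, dist_zero_right, norm_smul, act_norm, e0_norm, mul_one, Real.norm_eq_abs] at this
    linarith
  have hU0 : ∀ Q r, R0 < |r| → rayU u Q r = 0 := fun Q r hr => image_eq_zero_of_notMem_tsupport (f := u) (hsupp Q r hr)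
  have hfd0 : ∀ Q r, R0 < |r| → fderiv ℝ u (r • act Q (e0 m)) = 0 := by
    intro Q r hr
    have h1 : r • act Q (e0 m) ∉ tsupport (fderiv ℝ u) := fun h => hsupp Q r hr (tsupport_fderiv_subset ℝ h)
    exact image_eq_zero_of_notMem_tsupport (f := fderiv ℝ u) h1
  have hdU0 : ∀ Q r, R0 < |r| → rayD u Q r = 0 := by
    intro Q r hr; unfold rayD; rw [hfd0 Q r hr]; simp
  have hgU0 : ∀ Q r, R0 < |r| → rayG u Q r = 0 := by
    intro Q r hr; unfold rayG gradient; rw [hfd0 Q r hr]; simp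
  have cU : Continuous (Function.uncurry (rayU u)) := cont_rayU hcu
  have cdU : Continuous (Function.uncurry (rayD u)) := cont_rayD hu1
  have cgU : Continuous (Function.uncurry (rayG u)) := cont_rayG hu1
  have cUr : ∀ r, Continuous (fun Q => rayU u Q r) := fun r => cU.comp (continuous_id.prodMk continuous_const)
  have cdUr : ∀ r, Continuous (fun Q => rayD u Q r) := fun r => cdU.comp (continuous_id.prodMk continuous_const)
  have hUd : ∀ Q r, HasDerivAt (rayU u Q) (rayD u Q r) r := rayU_deriv hu1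
  -- bound of derivative
  obtain ⟨K, hK⟩ : ∃ K, ∀ Q r, |rayD u Q r| ≤ K := by
    obtain ⟨K, hK⟩ := (hc.fderiv (𝕜 := ℝ)).exists_bound_of_continuous (hu1.continuous_fderiv one_ne_zero)
    refine ⟨K, ?_⟩
    intro Q r
    have h1 := (fderiv ℝ u (r • act Q (e0 m))).le_opNorm (act Q (e0 m))
    rw [act_norm, e0_norm, mul_one, Real.norm_eq_abs] at h1
    unfold rayD
    exact h1.trans (hK _)
  set W : ℝ → ℝ := fun r => ∫ Q, rayU u Q r ∂(μG (m + 3)) with hW
  set W' : ℝ → ℝ := fun r => ∫ Q, rayD u Q r ∂(μG (m + 3)) with hW'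
  have hWd : ∀ r, HasDerivAt W (W' r) r := by
    intro r
    refine (hasDerivAt_integral_of_dominated_loc_of_deriv_le (s := Set.univ) (F := fun r Q => rayU u Q r) (F' := fun r Q => rayD u Q r)
      (bound := fun _ => K) Filter.univ_mem ?_ ?_ ?_ ?_ ?_ ?_).2
    · exact Filter.Eventually.of_forall (fun s => (cUr s).aestronglyMeasurable)
    · exact integrable_G (cUr r)
    · exact (cdUr r).aestronglyMeasurable
    · exact Filter.Eventually.of_forall (fun Q s _ => hK Q s)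
    · exact integrable_const _
    · exact Filter.Eventually.of_forall (fun Q s _ => hUd Q s)
  have cW : Continuous W := continuous_int_G cU
  have cW' : Continuous W' := continuous_int_G cdU
  have hW0 : ∀ r, R0 < |r| → W r = 0 := by
    intro r hr; rw [hW]; simp only; simp_rw [hU0 _ r hr]; simp
  have hW'0 : ∀ r, R0 < |r| → W' r = 0 := by
    intro r hr; rw [hW']; simp only; simp_rw [hdU0 _ r hr]; simp
  set R : ℝ := |R0| + 1 with hRdef
  have hRlt : ∀ r, R ≤ r → R0 < |r| := by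
    intro r hr
    have h1 : R0 ≤ |R0| := le_abs_self _
    have h2 : r ≤ |r| := le_abs_self _
    rw [hRdef] at hr
    linarith
  -- polar formulas
  have hpe := energy_polar α hu1 hc
  have hpm := mass_polar α hcu hc
  have hpmean : ∫ r in Set.Ioi (0:ℝ), r ^ (m + 2) * (1 + r ^ 2) ^ (α - 1) * W r = 0 := mean_polar α hcu hc hmean
  -- radial part
  have hrad := radial_1d m hl0 hA hB hWd cW' (R := R) (fun r hr => hW0 r (hRlt r hr)) (fun r hr => hW'0 r (hRlt r hr)) hpmean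
  -- angular part
  have hvd : ∀ Q r, HasDerivAt (fun r => rayU u Q r - W r) (rayD u Q r - W' r) r := fun Q r => (hUd Q r).sub (hWd r)
  have cdUQ : ∀ Q, Continuous (rayD u Q) := fun Q => cdU.comp (continuous_const.prodMk continuous_id)
  have hang : ∀ Q, -2 * α * ∫ r in Set.Ioi (0:ℝ), r ^ (m + 2) * (1 + r ^ 2) ^ (α - 1) * (rayU u Q r - W r) ^ 2 ≤
      (∫ r in Set.Ioi (0:ℝ), r ^ (m + 2) * (1 + r ^ 2) ^ α * (rayD u Q r - W' r) ^ 2) +
      ((m : ℝ) + 2) * ∫ r in Set.Ioi (0:ℝ), r ^ m * (1 + r ^ 2) ^ α * (rayU u Q r - W r) ^ 2 := by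
    intro Q
    apply angular_1d m α (hvd Q) ((cdUQ Q).sub cW') (R := R)
    · intro r hr; rw [hU0 Q r (hRlt r hr), hW0 r (hRlt r hr)]; simp
    · intro r hr; rw [hdU0 Q r (hRlt r hr), hW'0 r (hRlt r hr)]; simp
  -- variance identities
  have hvar1 : ∀ r, ∫ Q, (rayU u Q r - W r) ^ 2 ∂(μG (m + 3)) = (∫ Q, (rayU u Q r) ^ 2 ∂(μG (m + 3))) - W r ^ 2 := by
    intro r
    have e : ∀ Q, (rayU u Q r - W r) ^ 2 = (rayU u Q r) ^ 2 - 2 * W r * rayU u Q r + W r ^ 2 := by intro Q; ring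
    simp_rw [e]
    have i1 : Integrable (fun Q => (rayU u Q r) ^ 2) (μG (m + 3)) := integrable_G ((cUr r).pow 2)
    have i2 : Integrable (fun Q => 2 * W r * rayU u Q r) (μG (m + 3)) := (integrable_G (cUr r)).const_mul _
    have i12 : Integrable (fun Q => (rayU u Q r) ^ 2 - 2 * W r * rayU u Q r) (μG (m + 3)) := i1.sub i2
    rw [integral_add i12 (integrable_const _), integral_sub i1 i2, integral_const_mul]
    have : ∫ Q, rayU u Q r ∂(μG (m + 3)) = W r := rfl
    rw [this]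
    simp
    ring
  have hvar2 : ∀ r, ∫ Q, (rayD u Q r - W' r) ^ 2 ∂(μG (m + 3)) = (∫ Q, (rayD u Q r) ^ 2 ∂(μG (m + 3))) - W' r ^ 2 := by
    intro r
    have e : ∀ Q, (rayD u Q r - W' r) ^ 2 = (rayD u Q r) ^ 2 - 2 * W' r * rayD u Q r + W' r ^ 2 := by intro Q; ring
    simp_rw [e]
    have i1 : Integrable (fun Q => (rayD u Q r) ^ 2) (μG (m + 3)) := integrable_G ((cdUr r).pow 2)
    have i2 : Integrable (fun Q => 2 * W' r * rayD u Q r) (μG (m + 3)) := (integrable_G (cdUr r)).const_mul _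
    have i12 : Integrable (fun Q => (rayD u Q r) ^ 2 - 2 * W' r * rayD u Q r) (μG (m + 3)) := i1.sub i2
    rw [integral_add i12 (integrable_const _), integral_sub i1 i2, integral_const_mul]
    have : ∫ Q, rayD u Q r ∂(μG (m + 3)) = W' r := rfl
    rw [this]
    simp
    ring
  -- integrands on G x R
  have cWs : Continuous (fun p : G (m + 3) × ℝ => W p.2) := cW.comp continuous_snd
  have cWs' : Continuous (fun p : G (m + 3) × ℝ => W' p.2) := cW'.comp continuous_snd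
  have cr : ∀ (k : ℕ) (γ : ℝ), Continuous (fun p : G (m + 3) × ℝ => p.2 ^ k * (1 + p.2 ^ 2) ^ γ) := by
    intro k γ
    exact (continuous_snd.pow k).mul ((hw γ).comp continuous_snd)
  have cf1 : Continuous (Function.uncurry (fun (Q : G (m + 3)) (r : ℝ) => r ^ (m + 2) * (1 + r ^ 2) ^ (α - 1) * (rayU u Q r - W r) ^ 2)) :=
    (cr (m + 2) (α - 1)).mul ((cU.sub cWs).pow 2)
  have cf2 : Continuous (Function.uncurry (fun (Q : G (m + 3)) (r : ℝ) => r ^ (m + 2) * (1 + r ^ 2) ^ α * (rayD u Q r - W' r) ^ 2)) :=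
    (cr (m + 2) α).mul ((cdU.sub cWs').pow 2)
  have cf3 : Continuous (Function.uncurry (fun (Q : G (m + 3)) (r : ℝ) => r ^ m * (1 + r ^ 2) ^ α * (rayU u Q r - W r) ^ 2)) :=
    (cr m α).mul ((cU.sub cWs).pow 2)
  have z1 : ∀ (Q : G (m + 3)) (r : ℝ), R0 < |r| → r ^ (m + 2) * (1 + r ^ 2) ^ (α - 1) * (rayU u Q r - W r) ^ 2 = 0 := by
    intro Q r hr; rw [hU0 Q r hr, hW0 r hr]; simp
  have z2 : ∀ (Q : G (m + 3)) (r : ℝ), R0 < |r| → r ^ (m + 2) * (1 + r ^ 2) ^ α * (rayD u Q r - W' r) ^ 2 = 0 := by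
    intro Q r hr; rw [hdU0 Q r hr, hW'0 r hr]; simp
  have z3 : ∀ (Q : G (m + 3)) (r : ℝ), R0 < |r| → r ^ m * (1 + r ^ 2) ^ α * (rayU u Q r - W r) ^ 2 = 0 := by
    intro Q r hr; rw [hU0 Q r hr, hW0 r hr]; simp
  have hsum := integral_mono ((integrable_inner_G cf1 z1).const_mul (-2 * α))
    ((integrable_inner_G cf2 z2).add ((integrable_inner_G cf3 z3).const_mul ((m : ℝ) + 2))) hang
  have hsplit : ∫ Q, ((∫ r in Set.Ioi (0:ℝ), r ^ (m + 2) * (1 + r ^ 2) ^ α * (rayD u Q r - W' r) ^ 2) +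
      ((m : ℝ) + 2) * ∫ r in Set.Ioi (0:ℝ), r ^ m * (1 + r ^ 2) ^ α * (rayU u Q r - W r) ^ 2) ∂(μG (m + 3)) =
      (∫ Q, (∫ r in Set.Ioi (0:ℝ), r ^ (m + 2) * (1 + r ^ 2) ^ α * (rayD u Q r - W' r) ^ 2) ∂(μG (m + 3))) +
      ((m : ℝ) + 2) * ∫ Q, (∫ r in Set.Ioi (0:ℝ), r ^ m * (1 + r ^ 2) ^ α * (rayU u Q r - W r) ^ 2) ∂(μG (m + 3)) := by
    rw [integral_add (integrable_inner_G cf2 z2) ((integrable_inner_G cf3 z3).const_mul _), integral_const_mul]
  simp only [Pi.add_apply] at hsum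
  rw [hsplit, integral_const_mul, ← swap_G cf1 z1, ← swap_G cf2 z2, ← swap_G cf3 z3] at hsum
  simp_rw [integral_const_mul] at hsum
  simp_rw [hvar1, hvar2] at hsum
  -- abbreviations
  set V2 : ℝ → ℝ := fun r => ∫ Q, (rayU u Q r) ^ 2 ∂(μG (m + 3)) with hV2
  set T2 : ℝ → ℝ := fun r => ∫ Q, (rayD u Q r) ^ 2 ∂(μG (m + 3)) with hT2
  set S2 : ℝ → ℝ := fun r => ∫ Q, rayG u Q r ∂(μG (m + 3)) with hS2
  have cV2 : Continuous V2 := continuous_int_G (f := fun Q r => (rayU u Q r) ^ 2) (cU.pow 2)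
  have cT2 : Continuous T2 := continuous_int_G (f := fun Q r => (rayD u Q r) ^ 2) (cdU.pow 2)
  have cS2 : Continuous S2 := continuous_int_G cgU
  have zV2 : ∀ r, R ≤ r → V2 r = 0 := by
    intro r hr; rw [hV2]; simp only; simp_rw [hU0 _ r (hRlt r hr)]; simp
  have zT2 : ∀ r, R ≤ r → T2 r = 0 := by
    intro r hr; rw [hT2]; simp only; simp_rw [hdU0 _ r (hRlt r hr)]; simp
  have zS2 : ∀ r, R ≤ r → S2 r = 0 := by
    intro r hr; rw [hS2]; simp only; simp_rw [hgU0 _ r (hRlt r hr)]; simp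
  have zW : ∀ r, R ≤ r → W r = 0 := fun r hr => hW0 r (hRlt r hr)
  have zW' : ∀ r, R ≤ r → W' r = 0 := fun r hr => hW'0 r (hRlt r hr)
  have hwα := hw α
  have hwα1 := hw (α - 1)
  have iV : IntegrableOn (fun r => r ^ (m + 2) * (1 + r ^ 2) ^ (α - 1) * V2 r) (Set.Ioi 0) :=
    intOn_of_cont (R := R) (by fun_prop) (by intro r hr; rw [zV2 r hr]; simp)
  have iW : IntegrableOn (fun r => r ^ (m + 2) * (1 + r ^ 2) ^ (α - 1) * W r ^ 2) (Set.Ioi 0) :=
    intOn_of_cont (R := R) (by fun_prop) (by intro r hr; rw [zW r hr]; simp)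
  have iT : IntegrableOn (fun r => r ^ (m + 2) * (1 + r ^ 2) ^ α * T2 r) (Set.Ioi 0) :=
    intOn_of_cont (R := R) (by fun_prop) (by intro r hr; rw [zT2 r hr]; simp)
  have iW' : IntegrableOn (fun r => r ^ (m + 2) * (1 + r ^ 2) ^ α * W' r ^ 2) (Set.Ioi 0) :=
    intOn_of_cont (R := R) (by fun_prop) (by intro r hr; rw [zW' r hr]; simp)
  have iVm : IntegrableOn (fun r => r ^ m * (1 + r ^ 2) ^ α * (V2 r - W r ^ 2)) (Set.Ioi 0) :=
    intOn_of_cont (R := R) (by fun_prop) (by intro r hr; rw [zV2 r hr, zW r hr]; simp)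
  have iS : IntegrableOn (fun r => r ^ (m + 2) * (1 + r ^ 2) ^ α * S2 r) (Set.Ioi 0) :=
    intOn_of_cont (R := R) (by fun_prop) (by intro r hr; rw [zS2 r hr]; simp)
  have e1 : ∫ r in Set.Ioi (0:ℝ), r ^ (m + 2) * (1 + r ^ 2) ^ (α - 1) * (V2 r - W r ^ 2) =
      (∫ r in Set.Ioi (0:ℝ), r ^ (m + 2) * (1 + r ^ 2) ^ (α - 1) * V2 r) -
      ∫ r in Set.Ioi (0:ℝ), r ^ (m + 2) * (1 + r ^ 2) ^ (α - 1) * W r ^ 2 := by
    rw [← integral_sub iV iW]
    apply setIntegral_congr_fun measurableSet_Ioi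
    intro r _; ring
  have e2 : ∫ r in Set.Ioi (0:ℝ), r ^ (m + 2) * (1 + r ^ 2) ^ α * (T2 r - W' r ^ 2) =
      (∫ r in Set.Ioi (0:ℝ), r ^ (m + 2) * (1 + r ^ 2) ^ α * T2 r) -
      ∫ r in Set.Ioi (0:ℝ), r ^ (m + 2) * (1 + r ^ 2) ^ α * W' r ^ 2 := by
    rw [← integral_sub iT iW']
    apply setIntegral_congr_fun measurableSet_Ioi
    intro r _; ring
  have e3 : (∫ r in Set.Ioi (0:ℝ), r ^ (m + 2) * (1 + r ^ 2) ^ α * T2 r) +
      ((m : ℝ) + 2) * (∫ r in Set.Ioi (0:ℝ), r ^ m * (1 + r ^ 2) ^ α * (V2 r - W r ^ 2)) ≤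
      ∫ r in Set.Ioi (0:ℝ), r ^ (m + 2) * (1 + r ^ 2) ^ α * S2 r := by
    rw [← integral_const_mul, ← integral_add iT (iVm.const_mul _)]
    apply setIntegral_mono_on (iT.add (iVm.const_mul _)) iS measurableSet_Ioi
    intro r hr
    have hr0 : 0 < r := hr
    have hp := poincare_ray hu1 hr0
    have hp' : ((m : ℝ) + 2) * (V2 r - W r ^ 2) ≤ r ^ 2 * (S2 r - T2 r) := hp
    have hQp : 0 < r ^ m * (1 + r ^ 2) ^ α := mul_pos (pow_pos hr0 _) (Real.rpow_pos_of_pos (rho_pos r) _)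
    have := mul_le_mul_of_nonneg_left hp' hQp.le
    simp only [Pi.add_apply]
    calc r ^ (m + 2) * (1 + r ^ 2) ^ α * T2 r + ((m : ℝ) + 2) * (r ^ m * (1 + r ^ 2) ^ α * (V2 r - W r ^ 2))
        = r ^ (m + 2) * (1 + r ^ 2) ^ α * T2 r + r ^ m * (1 + r ^ 2) ^ α * (((m : ℝ) + 2) * (V2 r - W r ^ 2)) := by ring
      _ ≤ r ^ (m + 2) * (1 + r ^ 2) ^ α * T2 r + r ^ m * (1 + r ^ 2) ^ α * (r ^ 2 * (S2 r - T2 r)) := by linarith
      _ = r ^ (m + 2) * (1 + r ^ 2) ^ α * S2 r := by ring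
  have nW : 0 ≤ ∫ r in Set.Ioi (0:ℝ), r ^ (m + 2) * (1 + r ^ 2) ^ (α - 1) * W r ^ 2 := by
    apply setIntegral_nonneg measurableSet_Ioi
    intro r hr
    have hr0 : 0 < r := hr
    have := Real.rpow_pos_of_pos (rho_pos r) (α - 1)
    positivity
  have nV : 0 ≤ ∫ r in Set.Ioi (0:ℝ), r ^ (m + 2) * (1 + r ^ 2) ^ (α - 1) * (V2 r - W r ^ 2) := by
    apply setIntegral_nonneg measurableSet_Ioi
    intro r hr
    have hr0 : 0 < r := hr
    have h1 := Real.rpow_pos_of_pos (rho_pos r) (α - 1)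
    have h2 : 0 ≤ V2 r - W r ^ 2 := by
      have := hvar1 r
      rw [hV2]; simp only
      rw [← this]
      apply integral_nonneg
      intro Q; positivity
    positivity
  rw [e2] at hsum
  rw [hpe, hpm]
  have hfin : l * (∫ r in Set.Ioi (0:ℝ), r ^ (m + 2) * (1 + r ^ 2) ^ (α - 1) * V2 r) ≤
      ∫ r in Set.Ioi (0:ℝ), r ^ (m + 2) * (1 + r ^ 2) ^ α * S2 r := by
    have h1 : l * (∫ r in Set.Ioi (0:ℝ), r ^ (m + 2) * (1 + r ^ 2) ^ (α - 1) * W r ^ 2) ≤
        l0 * (∫ r in Set.Ioi (0:ℝ), r ^ (m + 2) * (1 + r ^ 2) ^ (α - 1) * W r ^ 2) := mul_le_mul_of_nonneg_right hl1 nW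
    have h2 : l * (∫ r in Set.Ioi (0:ℝ), r ^ (m + 2) * (1 + r ^ 2) ^ (α - 1) * (V2 r - W r ^ 2)) ≤
        -2 * α * (∫ r in Set.Ioi (0:ℝ), r ^ (m + 2) * (1 + r ^ 2) ^ (α - 1) * (V2 r - W r ^ 2)) := mul_le_mul_of_nonneg_right hl2 nV
    rw [e1] at h2 hsum
    nlinarith
  have := mul_le_mul_of_nonneg_left hfin (cn_pos m).le
  calc l * (cn m * ∫ r in Set.Ioi (0:ℝ), r ^ (m + 2) * (1 + r ^ 2) ^ (α - 1) * V2 r)
      = cn m * (l * ∫ r in Set.Ioi (0:ℝ), r ^ (m + 2) * (1 + r ^ 2) ^ (α - 1) * V2 r) := by ring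
    _ ≤ _ := this

lemma J_mono {a b : ℝ} (hab : a ≤ b) (hb : b < -(n : ℝ) / 2) : J n a ≤ J n b := by
  unfold J
  exact integral_mono (integrable_weight (by linarith)) (integrable_weight hb) (fun x => weight_le hab x)

lemma near_pow {α γ b : ℝ} (h0 : α - 1 < -(n : ℝ) / 2) (h2 : α - 1 + 2 * γ < -(n : ℝ) / 2) (hb0 : 0 < b)
    (hb : 4 * γ ^ 2 * (J n (α - 1 + 2 * γ) - J n (α - 2 + 2 * γ)) <
      b * (J n (α - 1 + 2 * γ) - J n (α - 1 + γ) ^ 2 / J n (α - 1))) :
    ∃ u : E n → ℝ, ContDiff ℝ ∞ u ∧ HasCompactSupport u ∧ u ≠ 0 ∧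
      (∫ x : E n, (1 + ‖x‖ ^ 2) ^ (α - 1) * u x = 0) ∧ energy α u / mass α u < b := by
  have h1 : α - 1 + γ < -(n : ℝ) / 2 := by linarith
  have hJ0 := J_pos (n := n) h0
  set c : ℝ := J n (α - 1 + γ) / J n (α - 1) with hc
  have i0 := integrable_weight (n := n) h0
  have i1 := integrable_weight (n := n) h1
  have i2 := integrable_weight (n := n) h2
  have hterm : ∀ x : E n, (1 + ‖x‖ ^ 2) ^ (α - 1) * ((1 + ‖x‖ ^ 2) ^ γ - c) ^ 2 =
      (1 + ‖x‖ ^ 2) ^ (α - 1 + 2 * γ) - 2 * c * (1 + ‖x‖ ^ 2) ^ (α - 1 + γ) + c ^ 2 * (1 + ‖x‖ ^ 2) ^ (α - 1) := by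
    intro x
    rw [← pow_mass_term α γ x, ← weight_mul (α - 1) γ x]
    ring
  have i12 : Integrable (fun x : E n => (1 + ‖x‖ ^ 2) ^ (α - 1 + 2 * γ) - 2 * c * (1 + ‖x‖ ^ 2) ^ (α - 1 + γ)) :=
    i2.sub (i1.const_mul _)
  have hM : Integrable (fun x : E n => (1 + ‖x‖ ^ 2) ^ (α - 1) * ((1 + ‖x‖ ^ 2) ^ γ - c) ^ 2) := by
    simp_rw [hterm]
    exact i12.add (i0.const_mul _)
  have hmass : mass α (fun x : E n => (1 + ‖x‖ ^ 2) ^ γ - c) = J n (α - 1 + 2 * γ) - J n (α - 1 + γ) ^ 2 / J n (α - 1) := by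
    unfold mass
    simp_rw [hterm]
    rw [integral_add i12 (i0.const_mul _), integral_sub i2 (i1.const_mul _), integral_const_mul, integral_const_mul]
    change J n (α - 1 + 2 * γ) - 2 * c * J n (α - 1 + γ) + c ^ 2 * J n (α - 1) = _
    rw [hc]
    field_simp
    ring
  have hJ32 : J n (α - 2 + 2 * γ) ≤ J n (α - 1 + 2 * γ) := J_mono (by linarith) h2
  have hpos : 0 < mass α (fun x : E n => (1 + ‖x‖ ^ 2) ^ γ - c) := by
    rw [hmass]
    have : 0 ≤ 4 * γ ^ 2 * (J n (α - 1 + 2 * γ) - J n (α - 2 + 2 * γ)) := by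
      apply mul_nonneg (by positivity); linarith
    by_contra h
    push Not at h
    have h3 : b * (J n (α - 1 + 2 * γ) - J n (α - 1 + γ) ^ 2 / J n (α - 1)) ≤ 0 :=
      mul_nonpos_of_nonneg_of_nonpos hb0.le h
    linarith
  apply approx_mean (w := fun x : E n => (1 + ‖x‖ ^ 2) ^ γ - c)
    ((contDiff_weight _).sub contDiff_const) i0 hM (pow_energy_integrable c h2) _ hpos
  · rw [div_lt_iff₀ hpos, pow_energy c h2, hmass]
    exact hb
  · have : ∀ x : E n, (1 + ‖x‖ ^ 2) ^ (α - 1) * ((1 + ‖x‖ ^ 2) ^ γ - c) = (1 + ‖x‖ ^ 2) ^ (α - 1 + γ) - c * (1 + ‖x‖ ^ 2) ^ (α - 1) := by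
      intro x
      rw [← weight_mul (α - 1) γ x]; ring
    simp_rw [this]
    rw [integral_sub i1 (i0.const_mul _), integral_const_mul]
    change J n (α - 1 + γ) - c * J n (α - 1) = 0
    rw [hc]
    field_simp
    ring

lemma near_B1 (hn : 3 ≤ n) {α b : ℝ} (hα : α < -((n : ℝ) - 2) / 2) (hb : ((n : ℝ) - 2 + 2 * α) ^ 2 / 4 < b) :
    ∃ u : E n → ℝ, ContDiff ℝ ∞ u ∧ HasCompactSupport u ∧ u ≠ 0 ∧
      (∫ x : E n, (1 + ‖x‖ ^ 2) ^ (α - 1) * u x = 0) ∧ energy α u / mass α u < b := by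
  have hn' : (3 : ℝ) ≤ n := by exact_mod_cast hn
  set K : ℝ := (n : ℝ) - 2 + 2 * α with hK
  have hK0 : K < 0 := by rw [hK]; linarith
  have hb0 : 0 < b := lt_of_le_of_lt (by positivity) hb
  set t : ℝ := -K / 4 with ht
  have ht0 : 0 < t := by rw [ht]; linarith
  have h0 : α - 1 < -(n : ℝ) / 2 := by linarith
  have hJ0 := J_pos (n := n) h0
  have h1t : α - 1 + t < -(n : ℝ) / 2 := by rw [ht, hK]; linarith
  set A : ℝ := J n (-(n : ℝ) / 2 - 3) with hA
  have hApos : 0 < A := J_pos (by linarith)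
  set D : ℝ := b * J n (α - 1 + t) ^ 2 / J n (α - 1) + 1 with hD
  have hDpos : 0 < D := by positivity
  have hbK : 0 < b - K ^ 2 / 4 := by linarith
  set e3 : ℝ := n * A * (b - K ^ 2 / 4) / (8 * D) with he3
  have he3pos : 0 < e3 := by positivity
  set ε : ℝ := min (min 1 t) e3 with hε
  have hε0 : 0 < ε := lt_min (lt_min one_pos ht0) he3pos
  have hε1 : ε ≤ 1 := (min_le_left _ _).trans (min_le_left _ _)
  have hεt : ε ≤ t := (min_le_left _ _).trans (min_le_right _ _)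
  have hεe : ε ≤ e3 := min_le_right _ _
  have hexp : α - 1 + 2 * (t - ε) = -(n : ℝ) / 2 - 2 * ε := by rw [ht, hK]; ring
  have h2 : α - 1 + 2 * (t - ε) < -(n : ℝ) / 2 := by rw [hexp]; linarith
  apply near_pow (γ := t - ε) h0 h2 hb0
  have hJ2 := J_pos (n := n) h2
  have hJ3 : 0 < J n (α - 2 + 2 * (t - ε)) := J_pos (by linarith)
  have hJ1 : J n (α - 1 + (t - ε)) ≤ J n (α - 1 + t) := J_mono (by linarith) h1t
  have hJ1p : 0 < J n (α - 1 + (t - ε)) := J_pos (by linarith)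
  -- blow up
  have hrec := J_rec (n := n) (γ := -(n : ℝ) / 2 - 2 * ε) (by linarith)
  have hA2 : A ≤ J n (-(n : ℝ) / 2 - 2 * ε - 1) := J_mono (by linarith) (by linarith)
  have hblow : n * A ≤ 4 * ε * J n (-(n : ℝ) / 2 - 2 * ε) := by
    have h3 : 4 * ε * J n (-(n : ℝ) / 2 - 2 * ε) = (n + 4 * ε) * J n (-(n : ℝ) / 2 - 2 * ε - 1) := by
      linear_combination (-1) * hrec
    rw [h3]
    have h4 : 0 < J n (-(n : ℝ) / 2 - 2 * ε - 1) := J_pos (by linarith)
    nlinarith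
  rw [hexp] at *
  set j2 := J n (-(n : ℝ) / 2 - 2 * ε) with hj2
  have hbig : D < (b - K ^ 2 / 4) * j2 := by
    have h5 : 8 * D * ε ≤ n * A * (b - K ^ 2 / 4) := by
      have := mul_le_mul_of_nonneg_left hεe (by positivity : (0:ℝ) ≤ 8 * D)
      rw [he3] at this
      calc 8 * D * ε ≤ 8 * D * (n * A * (b - K ^ 2 / 4) / (8 * D)) := this
        _ = _ := by field_simp
    have h6 : n * A * (b - K ^ 2 / 4) ≤ 4 * ε * j2 * (b - K ^ 2 / 4) := mul_le_mul_of_nonneg_right hblow hbK.le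
    have h7 : 8 * D * ε ≤ 4 * ε * j2 * (b - K ^ 2 / 4) := h5.trans h6
    have h8 : 2 * D ≤ (b - K ^ 2 / 4) * j2 := by
      have h9 : (4 * ε) * (2 * D) ≤ (4 * ε) * ((b - K ^ 2 / 4) * j2) := by linarith
      exact le_of_mul_le_mul_left h9 (by positivity)
    linarith
  have hg : 4 * (t - ε) ^ 2 ≤ K ^ 2 / 4 := by
    have : (t - ε) ^ 2 ≤ t ^ 2 := by
      apply pow_le_pow_left₀ (by linarith) (by linarith)
    calc 4 * (t - ε) ^ 2 ≤ 4 * t ^ 2 := by linarith
      _ = K ^ 2 / 4 := by rw [ht]; ring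
  have hq : J n (α - 1 + (t - ε)) ^ 2 / J n (α - 1) ≤ J n (α - 1 + t) ^ 2 / J n (α - 1) := by
    gcongr
  calc 4 * (t - ε) ^ 2 * (j2 - J n (α - 2 + 2 * (t - ε))) ≤ 4 * (t - ε) ^ 2 * j2 := by
        apply mul_le_mul_of_nonneg_left _ (by positivity); linarith
    _ ≤ K ^ 2 / 4 * j2 := mul_le_mul_of_nonneg_right hg hJ2.le
    _ < b * j2 - b * (J n (α - 1 + t) ^ 2 / J n (α - 1)) := by
        have : b * (J n (α - 1 + t) ^ 2 / J n (α - 1)) = D - 1 := by rw [hD]; ring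
        rw [this]
        linarith
    _ ≤ b * (j2 - J n (α - 1 + (t - ε)) ^ 2 / J n (α - 1)) := by
        have := mul_le_mul_of_nonneg_left hq hb0.le
        linarith

lemma near_B2 (hn : 3 ≤ n) {α b : ℝ} (hα : α < -((n : ℝ) + 2) / 2) (hb : -4 * α - 2 * n < b) :
    ∃ u : E n → ℝ, ContDiff ℝ ∞ u ∧ HasCompactSupport u ∧ u ≠ 0 ∧
      (∫ x : E n, (1 + ‖x‖ ^ 2) ^ (α - 1) * u x = 0) ∧ energy α u / mass α u < b := by
  have hn' : (3 : ℝ) ≤ n := by exact_mod_cast hn
  have h0 : α - 1 < -(n : ℝ) / 2 := by linarith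
  have h2 : α - 1 + 2 * 1 < -(n : ℝ) / 2 := by linarith
  have hb0 : 0 < b := by linarith
  apply near_pow (γ := 1) h0 h2 hb0
  have e1 : α - 1 + 2 * 1 = α + 1 := by ring
  have e2 : α - 2 + 2 * 1 = α := by ring
  have e3 : α - 1 + 1 = α := by ring
  rw [e1, e2, e3]
  have r1 := J_rec (n := n) (γ := α + 1) (by linarith)
  have r2 := J_rec (n := n) (γ := α) (by linarith)
  rw [show α + 1 - 1 = α by ring] at r1
  have p1 : 0 < J n (α + 1) := J_pos (by linarith)
  have p2 : 0 < J n α := J_pos (by linarith)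
  have p3 : 0 < J n (α - 1) := J_pos h0
  have hd1 : (n : ℝ) + 2 * (α + 1) < 0 := by linarith
  have hd2 : (n : ℝ) + 2 * α < 0 := by linarith
  have hα0 : α < 0 := by linarith
  have hne1 := hd1.ne
  have hne2 := hd2.ne
  have f1 : J n (α + 1) = 2 * (α + 1) / ((n : ℝ) + 2 * (α + 1)) * J n α := by
    rw [div_mul_eq_mul_div, eq_div_iff hne1]
    linarith
  have f2 : J n α ^ 2 / J n (α - 1) = 2 * α / ((n : ℝ) + 2 * α) * J n α := by
    rw [div_mul_eq_mul_div, div_eq_div_iff p3.ne' hne2]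
    linear_combination (J n α) * r2
  rw [f2, f1]
  have k1 : 4 * (1:ℝ) ^ 2 * (2 * (α + 1) / ((n : ℝ) + 2 * (α + 1)) * J n α - J n α) =
      (-4 * α - 2 * n) * (2 * (α + 1) / ((n : ℝ) + 2 * (α + 1)) * J n α - 2 * α / ((n : ℝ) + 2 * α) * J n α) := by
    field_simp
    ring
  rw [k1]
  apply mul_lt_mul_of_pos_right hb
  have k2 : 2 * (α + 1) / ((n : ℝ) + 2 * (α + 1)) * J n α - 2 * α / ((n : ℝ) + 2 * α) * J n α =
      2 * n / (((n : ℝ) + 2 * (α + 1)) * ((n : ℝ) + 2 * α)) * J n α := by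
    field_simp
    ring
  rw [k2]
  have k3 : 0 < ((n : ℝ) + 2 * (α + 1)) * ((n : ℝ) + 2 * α) := mul_pos_of_neg_of_neg hd1 hd2
  positivity

lemma near_B3 (hn : 3 ≤ n) {α b : ℝ} (hα : α < -(n : ℝ) / 2) (hb : -2 * α < b) :
    ∃ u : E n → ℝ, ContDiff ℝ ∞ u ∧ HasCompactSupport u ∧ u ≠ 0 ∧
      (∫ x : E n, (1 + ‖x‖ ^ 2) ^ (α - 1) * u x = 0) ∧ energy α u / mass α u < b := by
  have hn' : (3 : ℝ) ≤ n := by exact_mod_cast hn
  have h0 : α - 1 < -(n : ℝ) / 2 := by linarith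
  have hα0 : α < 0 := by linarith
  have iα := integrable_weight (n := n) hα
  have i0 := integrable_weight (n := n) h0
  have hw : ∀ i : Fin n, ContDiff ℝ ∞ (fun x : E n => x i) := fun i => (EuclideanSpace.proj i : E n →L[ℝ] ℝ).contDiff
  have hxi : ∀ (i : Fin n) (x : E n), (x i) ^ 2 ≤ ‖x‖ ^ 2 := by
    intro i x
    rw [EuclideanSpace.norm_sq_eq]
    have := Finset.single_le_sum (f := fun j => ‖x j‖ ^ 2) (fun j _ => sq_nonneg _) (Finset.mem_univ i)
    simpa using this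
  have hM : ∀ i : Fin n, Integrable (fun x : E n => (1 + ‖x‖ ^ 2) ^ (α - 1) * (x i) ^ 2) := by
    intro i
    refine iα.mono' ((contDiff_weight (k := 1) (α - 1)).continuous.mul ((hw i).continuous.pow 2)).aestronglyMeasurable ?_
    filter_upwards with x
    have hP : 0 < (1 + ‖x‖ ^ 2) ^ (α - 1) := Real.rpow_pos_of_pos (one_add_pos x) _
    rw [Real.norm_eq_abs, abs_of_nonneg (mul_nonneg hP.le (sq_nonneg _)), rpow_sub_one' x α]
    apply mul_le_mul_of_nonneg_left _ hP.le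
    have := hxi i x
    linarith
  have hgrad : ∀ (i : Fin n) (x : E n), ‖∇ (fun x : E n => x i) x‖ ^ 2 = 1 := by
    intro i x
    have : ∇ (fun x : E n => x i) x = EuclideanSpace.single i 1 := by
      apply ext_inner_right ℝ
      intro v
      rw [inner_gradient]
      have h2 : HasFDerivAt (fun x : E n => x i) (EuclideanSpace.proj i : E n →L[ℝ] ℝ) x :=
        (EuclideanSpace.proj i : E n →L[ℝ] ℝ).hasFDerivAt
      rw [h2.fderiv]
      simp [EuclideanSpace.inner_single_left]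
    rw [this]; simp
  have hE : ∀ i : Fin n, Integrable (fun x : E n => (1 + ‖x‖ ^ 2) ^ α * ‖∇ (fun x : E n => x i) x‖ ^ 2) := by
    intro i
    simp_rw [hgrad, mul_one]
    exact iα
  have hEe : ∀ i : Fin n, energy α (fun x : E n => x i) = J n α := by
    intro i
    unfold energy J
    simp_rw [hgrad, mul_one]
  -- the sum of the masses
  have hsum : ∑ i : Fin n, mass α (fun x : E n => x i) = J n α - J n (α - 1) := by
    unfold mass
    rw [← integral_finsetSum _ (fun i _ => hM i)]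
    unfold J
    rw [← integral_sub iα i0]
    apply integral_congr_ae
    filter_upwards with x
    rw [← Finset.mul_sum]
    have : ∑ i, (x i) ^ 2 = ‖x‖ ^ 2 := by
      rw [EuclideanSpace.norm_sq_eq]; simp
    rw [this, mul_comm, norm_sq_weight]
  have hrec := J_rec (n := n) hα
  have hJ : 0 < J n α := J_pos hα
  have hαne : α ≠ 0 := hα0.ne
  have hα2 : -2 * α ≠ 0 := by
    intro h; apply hαne; linarith
  have hsum2 : J n α - J n (α - 1) = n * (J n α / (-2 * α)) := by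
    rw [← mul_div_assoc, eq_div_iff hα2]
    linear_combination (-1) * hrec
  obtain ⟨i, hi⟩ : ∃ i : Fin n, J n α / (-2 * α) ≤ mass α (fun x : E n => x i) := by
    by_contra h
    push Not at h
    have hne : (Finset.univ : Finset (Fin n)).Nonempty := ⟨⟨0, by omega⟩, Finset.mem_univ _⟩
    have := Finset.sum_lt_sum_of_nonempty hne (fun i _ => h i)
    rw [hsum, hsum2] at this
    simp at this
  have hpos : 0 < mass α (fun x : E n => x i) := lt_of_lt_of_le (by apply div_pos hJ; linarith) hi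
  apply approx_mean (w := fun x : E n => x i) (hw i) i0 (hM i) (hE i) _ hpos
  · rw [div_lt_iff₀ hpos, hEe i]
    have h3 : J n α = (-2 * α) * (J n α / (-2 * α)) := by
      rw [mul_div_cancel₀ _ hα2]
    calc J n α = (-2 * α) * (J n α / (-2 * α)) := h3
      _ ≤ (-2 * α) * mass α (fun x : E n => x i) := by
          apply mul_le_mul_of_nonneg_left hi; linarith
      _ < b * mass α (fun x : E n => x i) := mul_lt_mul_of_pos_right hb hpos
  · have h3 := integral_neg_eq_self (fun x : E n => (1 + ‖x‖ ^ 2) ^ (α - 1) * x i) volume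
    have h4 : (fun x : E n => (1 + ‖-x‖ ^ 2) ^ (α - 1) * (-x) i) = fun x : E n => -((1 + ‖x‖ ^ 2) ^ (α - 1) * x i) := by
      funext x
      rw [norm_neg]
      simp
    rw [h4, integral_neg] at h3
    linarith

end Pool.Agent.Helper797.WeightedHardy
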