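import Mathlib
set_option autoImplicit false
open Finset
namespace MP_78a764_an_797

noncomputable def f (A : Finset ℤ) (θ : ℝ) : ℝ := ∑ a ∈ A, Real.cos (2 * Real.pi * a * θ)
def zeros (A : Finset ℤ) : Set ℝ := {θ | 0 ≤ θ ∧ θ < 1 ∧ f A θ = 0}
noncomputable def N (A : Finset ℤ) : ℕ∞ := (zeros A).encard
noncomputable def Z (n : ℕ) : ℕ∞ := ⨅ A : {A : Finset ℤ // A.card = n}, N A.1

lemma f_cont (A : Finset ℤ) : Continuous (f A) := by
  unfold f; fun_prop

lemma f_zero (A : Finset ℤ) : f A 0 = A.card := by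
  simp [f]

lemma f_symm (A : Finset ℤ) (θ : ℝ) : f A (1 - θ) = f A θ := by
  unfold f
  refine Finset.sum_congr rfl fun a _ => ?_
  have : 2 * Real.pi * (a:ℝ) * (1 - θ) = -(2 * Real.pi * a * θ) + a * (2 * Real.pi) := by ring
  rw [this, Real.cos_add_int_mul_two_pi, Real.cos_neg]

lemma sum_cos (M : ℕ) (hM : 0 < M) (a : ℤ) (h : ¬ (M : ℤ) ∣ a) :
    ∑ j ∈ range M, Real.cos (2 * Real.pi * a * ((2 * j + 1) / (2 * M))) = 0 := by
  have hM' : (M : ℝ) ≠ 0 := by positivity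
  set y : ℝ := Real.pi * a / M with hy
  have hs : Real.sin y ≠ 0 := by
    intro h0
    rw [Real.sin_eq_zero_iff] at h0
    obtain ⟨k, hk⟩ := h0
    apply h
    have : (a : ℝ) = M * k := by
      have hpi := Real.pi_ne_zero
      rw [hy] at hk
      field_simp at hk
      linarith
    exact ⟨k, by exact_mod_cast this⟩
  have key : ∀ n : ℕ, Real.sin y * ∑ j ∈ range n, Real.cos ((2 * j + 1) * y) = Real.sin (2 * n * y) / 2 := by
    intro n
    induction n with
    | zero => simp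
    | succ n ih =>
      rw [Finset.sum_range_succ, mul_add, ih]
      have h1 : (2 * ((n + 1 : ℕ) : ℝ) * y) = (2 * n + 1) * y + y := by push_cast; ring
      have h2 : (2 * (n : ℝ) * y) = (2 * n + 1) * y - y := by ring
      rw [h1, h2, Real.sin_add, Real.sin_sub]; ring
  have hk := key M
  have h3 : Real.sin (2 * M * y) = 0 := by
    rw [hy]
    have : 2 * (M:ℝ) * (Real.pi * a / M) = ((2 * a : ℤ) : ℝ) * Real.pi := by
      push_cast; field_simp
    rw [this]; exact Real.sin_int_mul_pi _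
  rw [h3] at hk
  have h4 : ∑ j ∈ range M, Real.cos ((2 * j + 1) * y) = 0 := by
    have : Real.sin y * ∑ j ∈ range M, Real.cos ((2 * j + 1) * y) = 0 := by rw [hk]; simp
    exact (mul_eq_zero.mp this).resolve_left hs
  rw [← h4]
  refine Finset.sum_congr rfl fun j _ => ?_
  congr 1
  rw [hy]; field_simp

lemma sum_cos' (M : ℕ) (hM : 0 < M) (b : ℤ) (hb : Odd b) :
    ∑ j ∈ range M, Real.cos (2 * Real.pi * ((M * b : ℤ) : ℝ) * ((2 * j + 1) / (2 * M))) = -M := by
  have hM' : (M : ℝ) ≠ 0 := by positivity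
  obtain ⟨c, rfl⟩ := hb
  have : ∀ j ∈ range M, Real.cos (2 * Real.pi * ((M * (2 * c + 1) : ℤ) : ℝ) * ((2 * j + 1) / (2 * M))) = -1 := by
    intro j _
    have e : 2 * Real.pi * ((M * (2 * c + 1) : ℤ) : ℝ) * ((2 * j + 1) / (2 * M))
        = Real.pi + ((2 * c * j + c + j : ℤ) : ℝ) * (2 * Real.pi) := by
      push_cast; field_simp; ring
    rw [e, Real.cos_add_int_mul_two_pi, Real.cos_pi]
  rw [Finset.sum_congr rfl this]; simp

/-- the dyadic average -/
lemma avg (A : Finset ℤ) (hB : ∃ a ∈ A, a ≠ 0) :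
    ∃ k : ℕ, ∃ c : ℕ, 1 ≤ c ∧ (k = 0 → c = (A.erase 0).card) ∧
      ∑ j ∈ range (2 ^ k), f A ((2 * j + 1) / (2 * (2 ^ k : ℕ))) =
        (2 ^ k : ℕ) * ((if (0:ℤ) ∈ A then 1 else 0) - (c : ℝ)) := by
  classical
  set B := A.erase 0 with hBdef
  have hBne : B.Nonempty := by
    obtain ⟨a, ha, h0⟩ := hB
    exact ⟨a, by simp [hBdef, ha, h0]⟩
  obtain ⟨a0, ha0, hmax⟩ := Finset.exists_max_image B (fun a => padicValNat 2 a.natAbs) hBne
  set k := padicValNat 2 a0.natAbs with hk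
  have hno : ∀ a ∈ B, ¬ ((2 ^ (k+1) : ℕ) : ℤ) ∣ a := by
    intro a ha hd
    have hane : a.natAbs ≠ 0 := by
      have : a ≠ 0 := (Finset.mem_erase.mp ha).1
      simpa using this
    have hd' : 2 ^ (k+1) ∣ a.natAbs := by
      have := Int.natAbs_dvd_natAbs.mpr hd
      simpa using this
    have hle := hmax a ha
    have h2 : 2 ^ (padicValNat 2 a.natAbs + 1) ∣ a.natAbs :=
      dvd_trans (pow_dvd_pow 2 (by simpa using Nat.succ_le_succ hle)) hd'
    exact pow_succ_padicValNat_not_dvd hane h2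
  have hd0 : ((2 ^ k : ℕ) : ℤ) ∣ a0 := by
    have : 2 ^ k ∣ a0.natAbs := pow_padicValNat_dvd
    exact Int.natCast_dvd.mpr this
  refine ⟨k, (B.filter fun a => ((2 ^ k : ℕ) : ℤ) ∣ a).card, ?_, ?_, ?_⟩
  · exact Finset.card_pos.mpr ⟨a0, by simp only [Finset.mem_filter]; exact ⟨ha0, hd0⟩⟩
  · intro h0
    rw [h0]; simp
  · unfold f
    rw [Finset.sum_comm]
    have hterm : ∀ a ∈ B, ∑ j ∈ range (2 ^ k), Real.cos (2 * Real.pi * a * ((2 * j + 1) / (2 * ((2 ^ k : ℕ) : ℝ)))) =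
        if ((2 ^ k : ℕ) : ℤ) ∣ a then -((2 ^ k : ℕ) : ℝ) else 0 := by
      intro a ha
      split_ifs with h
      · obtain ⟨b, rfl⟩ := h
        refine sum_cos' (2 ^ k) (by positivity) b ?_
        by_contra hev
        rw [Int.not_odd_iff_even] at hev
        obtain ⟨c, rfl⟩ := hev
        apply hno _ ha
        refine ⟨c, ?_⟩
        push_cast; ring
      · exact sum_cos (2 ^ k) (by positivity) a h
    have hsumB : ∑ a ∈ B, ∑ j ∈ range (2 ^ k), Real.cos (2 * Real.pi * a * ((2 * j + 1) / (2 * ((2 ^ k : ℕ) : ℝ)))) =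
        -((2 ^ k : ℕ) : ℝ) * ((B.filter fun a => ((2 ^ k : ℕ) : ℤ) ∣ a).card : ℝ) := by
      rw [Finset.sum_congr rfl hterm, ← Finset.sum_filter, Finset.sum_const, nsmul_eq_mul]; ring
    by_cases h0 : (0:ℤ) ∈ A
    · rw [← Finset.insert_erase h0, Finset.sum_insert (by simp), ← hBdef, hsumB]
      simp
      ring
    · have hAB : A = B := by rw [hBdef, Finset.erase_eq_of_notMem h0]
      rw [if_neg h0]
      conv_lhs => rw [hAB]
      rw [hsumB]; ring

lemma exists_zero_of_neg (A : Finset ℤ) (hA : 0 < A.card) (t : ℝ) (ht0 : 0 < t) (ht : t < 1) (hneg : f A t < 0) :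
    ∃ θ, 0 < θ ∧ θ < 1/2 ∧ f A θ = 0 := by
  -- wlog t ≤ 1/2
  obtain ⟨s, hs0, hs1, hs⟩ : ∃ s, 0 < s ∧ s ≤ 1/2 ∧ f A s < 0 := by
    by_cases h : t ≤ 1/2
    · exact ⟨t, ht0, h, hneg⟩
    · exact ⟨1 - t, by linarith, by linarith, by rw [f_symm]; exact hneg⟩
  have h0 : (0:ℝ) < f A 0 := by rw [f_zero]; exact_mod_cast hA
  have := intermediate_value_Ioo' hs0.le (f_cont A).continuousOn (show (0:ℝ) ∈ Set.Ioo (f A s) (f A 0) from ⟨hs, h0⟩)
  obtain ⟨θ, ⟨h1, h2⟩, h3⟩ := this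
  exact ⟨θ, h1, by linarith, h3⟩

lemma pt_mem (k : ℕ) (j : ℕ) (hj : j < 2 ^ k) :
    0 < ((2 * (j:ℝ) + 1) / (2 * ((2 ^ k : ℕ) : ℝ))) ∧ ((2 * (j:ℝ) + 1) / (2 * ((2 ^ k : ℕ) : ℝ))) < 1 := by
  have hp : (0:ℝ) < ((2 ^ k : ℕ) : ℝ) := by positivity
  have hj' : (j:ℝ) + 1 ≤ ((2 ^ k : ℕ) : ℝ) := by exact_mod_cast hj
  constructor
  · positivity
  · rw [div_lt_one (by positivity)]; linarith

lemma lower2 (A : Finset ℤ) (hA : 2 ≤ A.card) : ∃ θ, 0 ≤ θ ∧ θ < 1 ∧ f A θ = 0 := by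
  have hB : ∃ a ∈ A, a ≠ 0 := by
    by_contra h
    push Not at h
    have : A ⊆ {0} := fun a ha => by simp [h a ha]
    have := Finset.card_le_card this
    simp at this; omega
  obtain ⟨k, c, hc1, _, hsum⟩ := avg A hB
  have hle : ∑ j ∈ range (2 ^ k), f A ((2 * j + 1) / (2 * (2 ^ k : ℕ))) ≤ ∑ j ∈ range (2 ^ k), (0:ℝ) := by
    rw [hsum]
    have hc : (1:ℝ) ≤ c := by exact_mod_cast hc1
    have : ((if (0:ℤ) ∈ A then (1:ℝ) else 0) - (c : ℝ)) ≤ 0 := by split_ifs <;> linarith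
    simp only [Finset.sum_const_zero]
    exact mul_nonpos_of_nonneg_of_nonpos (by positivity) this
  obtain ⟨j, hj, hjle⟩ := Finset.exists_le_of_sum_le (by simp) hle
  obtain ⟨h1, h2⟩ := pt_mem k j (Finset.mem_range.mp hj)
  rcases lt_or_eq_of_le hjle with h | h
  · obtain ⟨θ, a, b, c⟩ := exists_zero_of_neg A (by omega) _ h1 h2 h
    exact ⟨θ, a.le, by linarith, c⟩
  · exact ⟨_, h1.le, h2, h⟩

lemma lower3 (A : Finset ℤ) (hA : 3 ≤ A.card) : ∃ θ, 0 < θ ∧ θ < 1/2 ∧ f A θ = 0 := by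
  have hB : ∃ a ∈ A, a ≠ 0 := by
    by_contra h
    push Not at h
    have : A ⊆ {0} := fun a ha => by simp [h a ha]
    have := Finset.card_le_card this
    simp at this; omega
  obtain ⟨k, c, hc1, hk0, hsum⟩ := avg A hB
  by_cases hex : ∃ j : ℕ, j < 2 ^ k ∧ f A ((2 * (j:ℝ) + 1) / (2 * (2 ^ k : ℕ))) < 0
  · obtain ⟨j, hj, hneg⟩ := hex
    obtain ⟨h1, h2⟩ := pt_mem k j hj
    exact exists_zero_of_neg A (by omega) _ h1 h2 hneg
  · push Not at hex
    have hnn : ∀ j ∈ range (2 ^ k), 0 ≤ f A ((2 * (j:ℝ) + 1) / (2 * (2 ^ k : ℕ))) :=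
      fun j hj => hex j (Finset.mem_range.mp hj)
    have hge := Finset.sum_nonneg hnn
    rw [hsum] at hge
    have hc : (1:ℝ) ≤ c := by exact_mod_cast hc1
    have hp : (0:ℝ) < ((2 ^ k : ℕ) : ℝ) := by positivity
    have hge2 : 0 ≤ ((if (0:ℤ) ∈ A then (1:ℝ) else 0) - (c : ℝ)) := by
      by_contra h
      push Not at h
      have := mul_neg_of_pos_of_neg hp h
      linarith
    have hce : (c:ℝ) = 1 := by
      split_ifs at hge2 <;> linarith
    have h0A : (0:ℤ) ∈ A := by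
      by_contra h
      rw [if_neg h] at hge2; linarith
    have hc' : c = 1 := by exact_mod_cast hce
    have hkne : k ≠ 0 := by
      intro h
      have := hk0 h
      rw [Finset.card_erase_of_mem h0A] at this
      omega
    have hzero : ∑ j ∈ range (2 ^ k), f A ((2 * j + 1) / (2 * (2 ^ k : ℕ))) = 0 := by
      rw [hsum, if_pos h0A, hce]; simp
    have hall := (Finset.sum_eq_zero_iff_of_nonneg hnn).mp hzero 0 (Finset.mem_range.mpr (by positivity))
    refine ⟨_, ?_, ?_, hall⟩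
    · positivity
    · obtain ⟨m, rfl⟩ : ∃ m, k = m + 1 := ⟨k - 1, by omega⟩
      have h2 : (2:ℝ) ≤ ((2 ^ (m+1) : ℕ) : ℝ) := by
        have : 2 ≤ 2 ^ (m+1) := by
          calc 2 = 2 ^ 1 := by norm_num
            _ ≤ 2 ^ (m+1) := Nat.pow_le_pow_right (by norm_num) (by omega)
        exact_mod_cast this
      rw [div_lt_div_iff₀ (by positivity) (by norm_num)]
      push_cast at h2 ⊢
      nlinarith

lemma two_le_N (A : Finset ℤ) (hA : 3 ≤ A.card) : 2 ≤ N A := by
  obtain ⟨θ, h1, h2, h3⟩ := lower3 A hA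
  have hsub : ({θ, 1 - θ} : Set ℝ) ⊆ zeros A := by
    intro x hx
    rcases hx with rfl | hx
    · exact ⟨h1.le, by linarith, h3⟩
    · rw [Set.mem_singleton_iff] at hx
      subst hx
      exact ⟨by linarith, by linarith, by rw [f_symm]; exact h3⟩
  have hne : θ ≠ 1 - θ := by intro h; linarith
  calc (2 : ℕ∞) = ({θ, 1 - θ} : Set ℝ).encard := (Set.encard_pair hne).symm
    _ ≤ (zeros A).encard := Set.encard_le_encard hsub

lemma one_le_N (A : Finset ℤ) (hA : 2 ≤ A.card) : 1 ≤ N A := by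
  obtain ⟨θ, h1, h2, h3⟩ := lower2 A hA
  have : (zeros A).Nonempty := ⟨θ, h1, h2, h3⟩
  exact Set.one_le_encard_iff_nonempty.mpr this

lemma N_le_two (A : Finset ℤ) (P : ℝ → ℝ) (hf : ∀ θ, f A θ = P (Real.cos (2 * Real.pi * θ)))
    (hu : ∀ c c', -1 ≤ c → c ≤ 1 → -1 ≤ c' → c' ≤ 1 → P c = 0 → P c' = 0 → c = c') : N A ≤ 2 := by
  rcases Set.eq_empty_or_nonempty (zeros A) with h | ⟨t, ht0, ht1, htf⟩
  · unfold N; rw [h]; simp
  · have hsub : zeros A ⊆ {t, 1 - t} := by
      rintro x ⟨hx0, hx1, hxf⟩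
      rw [hf] at hxf htf
      have hc := hu _ _ (Real.neg_one_le_cos _) (Real.cos_le_one _) (Real.neg_one_le_cos _) (Real.cos_le_one _) hxf htf
      rw [Real.cos_eq_cos_iff] at hc
      obtain ⟨k, hk | hk⟩ := hc
      · left
        have hpi := Real.pi_pos
        have e : t = k + x := by
          have : 2 * Real.pi * t = 2 * Real.pi * (k + x) := by rw [hk]; ring
          exact mul_left_cancel₀ (by positivity) this
        have hk1 : (k:ℝ) < 1 := by linarith
        have hk2 : (-1:ℝ) < k := by linarith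
        have hk1' : k < 1 := by exact_mod_cast hk1
        have hk2' : -1 < k := by exact_mod_cast hk2
        have : k = 0 := by omega
        subst this; simp at e; exact e.symm
      · have hpi := Real.pi_pos
        have e : t = k - x := by
          have : 2 * Real.pi * t = 2 * Real.pi * (k - x) := by rw [hk]; ring
          exact mul_left_cancel₀ (by positivity) this
        have hk1 : (k:ℝ) < 2 := by linarith
        have hk2 : (0:ℝ) ≤ k := by linarith
        have hk1' : k < 2 := by exact_mod_cast hk1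
        have hk2' : 0 ≤ k := by exact_mod_cast hk2
        interval_cases k
        · left; push_cast at e; linarith
        · right; rw [Set.mem_singleton_iff]; push_cast at e; linarith
    refine (Set.encard_le_encard hsub).trans ?_
    refine (Set.encard_insert_le _ _).trans ?_
    rw [Set.encard_singleton]; norm_num

end MP_78a764_an_797
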