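import Mathlib
import Pool.Agent.Helper797.ZnLow
set_option autoImplicit false
open Finset
namespace MP_78a764_an_797

lemma rc (θ k : ℝ) : Real.cos (2 * Real.pi * (k + 2) * θ) = 2 * Real.cos (2 * Real.pi * θ) * Real.cos (2 * Real.pi * (k + 1) * θ) - Real.cos (2 * Real.pi * k * θ) := by
  have h1 : 2 * Real.pi * (k + 2) * θ = 2 * Real.pi * (k + 1) * θ + 2 * Real.pi * θ := by ring
  have h2 : 2 * Real.pi * k * θ = 2 * Real.pi * (k + 1) * θ - 2 * Real.pi * θ := by ring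
  rw [h1, h2, Real.cos_add, Real.cos_sub]; ring

lemma Tneg (θ k : ℝ) : Real.cos (2 * Real.pi * (-k) * θ) = Real.cos (2 * Real.pi * k * θ) := by
  rw [show 2 * Real.pi * (-k) * θ = -(2 * Real.pi * k * θ) by ring, Real.cos_neg]

lemma T_0 (θ : ℝ) : Real.cos (2 * Real.pi * 0 * θ) = 1 := by simp

lemma T_1 (θ : ℝ) : Real.cos (2 * Real.pi * 1 * θ) = Real.cos (2 * Real.pi * θ) := by rw [mul_one]

lemma T_2 (θ : ℝ) : Real.cos (2 * Real.pi * 2 * θ) = (-1:ℝ) + (0:ℝ) * Real.cos (2 * Real.pi * θ) ^ 1 + (2:ℝ) * Real.cos (2 * Real.pi * θ) ^ 2 := by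
  have h := rc θ 0
  rw [show (0:ℝ) + 2 = 2 by norm_num, show (0:ℝ) + 1 = 1 by norm_num, T_1, T_0] at h
  rw [h]; ring

lemma T_3 (θ : ℝ) : Real.cos (2 * Real.pi * 3 * θ) = (0:ℝ) + (-3:ℝ) * Real.cos (2 * Real.pi * θ) ^ 1 + (0:ℝ) * Real.cos (2 * Real.pi * θ) ^ 2 + (4:ℝ) * Real.cos (2 * Real.pi * θ) ^ 3 := by
  have h := rc θ 1
  rw [show (1:ℝ) + 2 = 3 by norm_num, show (1:ℝ) + 1 = 2 by norm_num, T_2, T_1] at h
  rw [h]; ring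

lemma T_4 (θ : ℝ) : Real.cos (2 * Real.pi * 4 * θ) = (1:ℝ) + (0:ℝ) * Real.cos (2 * Real.pi * θ) ^ 1 + (-8:ℝ) * Real.cos (2 * Real.pi * θ) ^ 2 + (0:ℝ) * Real.cos (2 * Real.pi * θ) ^ 3 + (8:ℝ) * Real.cos (2 * Real.pi * θ) ^ 4 := by
  have h := rc θ 2
  rw [show (2:ℝ) + 2 = 4 by norm_num, show (2:ℝ) + 1 = 3 by norm_num, T_3, T_2] at h
  rw [h]; ring

lemma T_5 (θ : ℝ) : Real.cos (2 * Real.pi * 5 * θ) = (0:ℝ) + (5:ℝ) * Real.cos (2 * Real.pi * θ) ^ 1 + (0:ℝ) * Real.cos (2 * Real.pi * θ) ^ 2 + (-20:ℝ) * Real.cos (2 * Real.pi * θ) ^ 3 + (0:ℝ) * Real.cos (2 * Real.pi * θ) ^ 4 + (16:ℝ) * Real.cos (2 * Real.pi * θ) ^ 5 := by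
  have h := rc θ 3
  rw [show (3:ℝ) + 2 = 5 by norm_num, show (3:ℝ) + 1 = 4 by norm_num, T_4, T_3] at h
  rw [h]; ring

lemma T_6 (θ : ℝ) : Real.cos (2 * Real.pi * 6 * θ) = (-1:ℝ) + (0:ℝ) * Real.cos (2 * Real.pi * θ) ^ 1 + (18:ℝ) * Real.cos (2 * Real.pi * θ) ^ 2 + (0:ℝ) * Real.cos (2 * Real.pi * θ) ^ 3 + (-48:ℝ) * Real.cos (2 * Real.pi * θ) ^ 4 + (0:ℝ) * Real.cos (2 * Real.pi * θ) ^ 5 + (32:ℝ) * Real.cos (2 * Real.pi * θ) ^ 6 := by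
  have h := rc θ 4
  rw [show (4:ℝ) + 2 = 6 by norm_num, show (4:ℝ) + 1 = 5 by norm_num, T_5, T_4] at h
  rw [h]; ring

lemma T_7 (θ : ℝ) : Real.cos (2 * Real.pi * 7 * θ) = (0:ℝ) + (-7:ℝ) * Real.cos (2 * Real.pi * θ) ^ 1 + (0:ℝ) * Real.cos (2 * Real.pi * θ) ^ 2 + (56:ℝ) * Real.cos (2 * Real.pi * θ) ^ 3 + (0:ℝ) * Real.cos (2 * Real.pi * θ) ^ 4 + (-112:ℝ) * Real.cos (2 * Real.pi * θ) ^ 5 + (0:ℝ) * Real.cos (2 * Real.pi * θ) ^ 6 + (64:ℝ) * Real.cos (2 * Real.pi * θ) ^ 7 := by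
  have h := rc θ 5
  rw [show (5:ℝ) + 2 = 7 by norm_num, show (5:ℝ) + 1 = 6 by norm_num, T_6, T_5] at h
  rw [h]; ring

lemma T_8 (θ : ℝ) : Real.cos (2 * Real.pi * 8 * θ) = (1:ℝ) + (0:ℝ) * Real.cos (2 * Real.pi * θ) ^ 1 + (-32:ℝ) * Real.cos (2 * Real.pi * θ) ^ 2 + (0:ℝ) * Real.cos (2 * Real.pi * θ) ^ 3 + (160:ℝ) * Real.cos (2 * Real.pi * θ) ^ 4 + (0:ℝ) * Real.cos (2 * Real.pi * θ) ^ 5 + (-256:ℝ) * Real.cos (2 * Real.pi * θ) ^ 6 + (0:ℝ) * Real.cos (2 * Real.pi * θ) ^ 7 + (128:ℝ) * Real.cos (2 * Real.pi * θ) ^ 8 := by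
  have h := rc θ 6
  rw [show (6:ℝ) + 2 = 8 by norm_num, show (6:ℝ) + 1 = 7 by norm_num, T_7, T_6] at h
  rw [h]; ring

lemma T_9 (θ : ℝ) : Real.cos (2 * Real.pi * 9 * θ) = (0:ℝ) + (9:ℝ) * Real.cos (2 * Real.pi * θ) ^ 1 + (0:ℝ) * Real.cos (2 * Real.pi * θ) ^ 2 + (-120:ℝ) * Real.cos (2 * Real.pi * θ) ^ 3 + (0:ℝ) * Real.cos (2 * Real.pi * θ) ^ 4 + (432:ℝ) * Real.cos (2 * Real.pi * θ) ^ 5 + (0:ℝ) * Real.cos (2 * Real.pi * θ) ^ 6 + (-576:ℝ) * Real.cos (2 * Real.pi * θ) ^ 7 + (0:ℝ) * Real.cos (2 * Real.pi * θ) ^ 8 + (256:ℝ) * Real.cos (2 * Real.pi * θ) ^ 9 := by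
  have h := rc θ 7
  rw [show (7:ℝ) + 2 = 9 by norm_num, show (7:ℝ) + 1 = 8 by norm_num, T_8, T_7] at h
  rw [h]; ring

lemma T_10 (θ : ℝ) : Real.cos (2 * Real.pi * 10 * θ) = (-1:ℝ) + (0:ℝ) * Real.cos (2 * Real.pi * θ) ^ 1 + (50:ℝ) * Real.cos (2 * Real.pi * θ) ^ 2 + (0:ℝ) * Real.cos (2 * Real.pi * θ) ^ 3 + (-400:ℝ) * Real.cos (2 * Real.pi * θ) ^ 4 + (0:ℝ) * Real.cos (2 * Real.pi * θ) ^ 5 + (1120:ℝ) * Real.cos (2 * Real.pi * θ) ^ 6 + (0:ℝ) * Real.cos (2 * Real.pi * θ) ^ 7 + (-1280:ℝ) * Real.cos (2 * Real.pi * θ) ^ 8 + (0:ℝ) * Real.cos (2 * Real.pi * θ) ^ 9 + (512:ℝ) * Real.cos (2 * Real.pi * θ) ^ 10 := by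
  have h := rc θ 8
  rw [show (8:ℝ) + 2 = 10 by norm_num, show (8:ℝ) + 1 = 9 by norm_num, T_9, T_8] at h
  rw [h]; ring

lemma T_11 (θ : ℝ) : Real.cos (2 * Real.pi * 11 * θ) = (0:ℝ) + (-11:ℝ) * Real.cos (2 * Real.pi * θ) ^ 1 + (0:ℝ) * Real.cos (2 * Real.pi * θ) ^ 2 + (220:ℝ) * Real.cos (2 * Real.pi * θ) ^ 3 + (0:ℝ) * Real.cos (2 * Real.pi * θ) ^ 4 + (-1232:ℝ) * Real.cos (2 * Real.pi * θ) ^ 5 + (0:ℝ) * Real.cos (2 * Real.pi * θ) ^ 6 + (2816:ℝ) * Real.cos (2 * Real.pi * θ) ^ 7 + (0:ℝ) * Real.cos (2 * Real.pi * θ) ^ 8 + (-2816:ℝ) * Real.cos (2 * Real.pi * θ) ^ 9 + (0:ℝ) * Real.cos (2 * Real.pi * θ) ^ 10 + (1024:ℝ) * Real.cos (2 * Real.pi * θ) ^ 11 := by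
  have h := rc θ 9
  rw [show (9:ℝ) + 2 = 11 by norm_num, show (9:ℝ) + 1 = 10 by norm_num, T_10, T_9] at h
  rw [h]; ring

lemma T_12 (θ : ℝ) : Real.cos (2 * Real.pi * 12 * θ) = (1:ℝ) + (0:ℝ) * Real.cos (2 * Real.pi * θ) ^ 1 + (-72:ℝ) * Real.cos (2 * Real.pi * θ) ^ 2 + (0:ℝ) * Real.cos (2 * Real.pi * θ) ^ 3 + (840:ℝ) * Real.cos (2 * Real.pi * θ) ^ 4 + (0:ℝ) * Real.cos (2 * Real.pi * θ) ^ 5 + (-3584:ℝ) * Real.cos (2 * Real.pi * θ) ^ 6 + (0:ℝ) * Real.cos (2 * Real.pi * θ) ^ 7 + (6912:ℝ) * Real.cos (2 * Real.pi * θ) ^ 8 + (0:ℝ) * Real.cos (2 * Real.pi * θ) ^ 9 + (-6144:ℝ) * Real.cos (2 * Real.pi * θ) ^ 10 + (0:ℝ) * Real.cos (2 * Real.pi * θ) ^ 11 + (2048:ℝ) * Real.cos (2 * Real.pi * θ) ^ 12 := by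
  have h := rc θ 10
  rw [show (10:ℝ) + 2 = 12 by norm_num, show (10:ℝ) + 1 = 11 by norm_num, T_11, T_10] at h
  rw [h]; ring

lemma T_13 (θ : ℝ) : Real.cos (2 * Real.pi * 13 * θ) = (0:ℝ) + (13:ℝ) * Real.cos (2 * Real.pi * θ) ^ 1 + (0:ℝ) * Real.cos (2 * Real.pi * θ) ^ 2 + (-364:ℝ) * Real.cos (2 * Real.pi * θ) ^ 3 + (0:ℝ) * Real.cos (2 * Real.pi * θ) ^ 4 + (2912:ℝ) * Real.cos (2 * Real.pi * θ) ^ 5 + (0:ℝ) * Real.cos (2 * Real.pi * θ) ^ 6 + (-9984:ℝ) * Real.cos (2 * Real.pi * θ) ^ 7 + (0:ℝ) * Real.cos (2 * Real.pi * θ) ^ 8 + (16640:ℝ) * Real.cos (2 * Real.pi * θ) ^ 9 + (0:ℝ) * Real.cos (2 * Real.pi * θ) ^ 10 + (-13312:ℝ) * Real.cos (2 * Real.pi * θ) ^ 11 + (0:ℝ) * Real.cos (2 * Real.pi * θ) ^ 12 + (4096:ℝ) * Real.cos (2 * Real.pi * θ) ^ 13 := by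
  have h := rc θ 11
  rw [show (11:ℝ) + 2 = 13 by norm_num, show (11:ℝ) + 1 = 12 by norm_num, T_12, T_11] at h
  rw [h]; ring

lemma T_14 (θ : ℝ) : Real.cos (2 * Real.pi * 14 * θ) = (-1:ℝ) + (0:ℝ) * Real.cos (2 * Real.pi * θ) ^ 1 + (98:ℝ) * Real.cos (2 * Real.pi * θ) ^ 2 + (0:ℝ) * Real.cos (2 * Real.pi * θ) ^ 3 + (-1568:ℝ) * Real.cos (2 * Real.pi * θ) ^ 4 + (0:ℝ) * Real.cos (2 * Real.pi * θ) ^ 5 + (9408:ℝ) * Real.cos (2 * Real.pi * θ) ^ 6 + (0:ℝ) * Real.cos (2 * Real.pi * θ) ^ 7 + (-26880:ℝ) * Real.cos (2 * Real.pi * θ) ^ 8 + (0:ℝ) * Real.cos (2 * Real.pi * θ) ^ 9 + (39424:ℝ) * Real.cos (2 * Real.pi * θ) ^ 10 + (0:ℝ) * Real.cos (2 * Real.pi * θ) ^ 11 + (-28672:ℝ) * Real.cos (2 * Real.pi * θ) ^ 12 + (0:ℝ) * Real.cos (2 * Real.pi * θ) ^ 13 + (8192:ℝ) * Real.cos (2 * Real.pi * θ) ^ 14 := by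
  have h := rc θ 12
  rw [show (12:ℝ) + 2 = 14 by norm_num, show (12:ℝ) + 1 = 13 by norm_num, T_13, T_12] at h
  rw [h]; ring

lemma T_15 (θ : ℝ) : Real.cos (2 * Real.pi * 15 * θ) = (0:ℝ) + (-15:ℝ) * Real.cos (2 * Real.pi * θ) ^ 1 + (0:ℝ) * Real.cos (2 * Real.pi * θ) ^ 2 + (560:ℝ) * Real.cos (2 * Real.pi * θ) ^ 3 + (0:ℝ) * Real.cos (2 * Real.pi * θ) ^ 4 + (-6048:ℝ) * Real.cos (2 * Real.pi * θ) ^ 5 + (0:ℝ) * Real.cos (2 * Real.pi * θ) ^ 6 + (28800:ℝ) * Real.cos (2 * Real.pi * θ) ^ 7 + (0:ℝ) * Real.cos (2 * Real.pi * θ) ^ 8 + (-70400:ℝ) * Real.cos (2 * Real.pi * θ) ^ 9 + (0:ℝ) * Real.cos (2 * Real.pi * θ) ^ 10 + (92160:ℝ) * Real.cos (2 * Real.pi * θ) ^ 11 + (0:ℝ) * Real.cos (2 * Real.pi * θ) ^ 12 + (-61440:ℝ) * Real.cos (2 * Real.pi * θ) ^ 13 + (0:ℝ) * Real.cos (2 * Real.pi * θ) ^ 14 + (16384:ℝ) * Real.cos (2 * Real.pi * θ)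 ^ 15 := by
  have h := rc θ 13
  rw [show (13:ℝ) + 2 = 15 by norm_num, show (13:ℝ) + 1 = 14 by norm_num, T_14, T_13] at h
  rw [h]; ring

def A3 : Finset ℤ := {0, 1, -1}
noncomputable def P3 (c : ℝ) : ℝ := (1:ℝ) + (2:ℝ) * c ^ 1
noncomputable def D3 (c : ℝ) : ℝ := (2:ℝ)

lemma card3 : A3.card = 3 := by decide

lemma fA3 (θ : ℝ) : f A3 θ = P3 (Real.cos (2 * Real.pi * θ)) := by
  unfold f A3 P3
  rw [Finset.sum_insert (by decide), Finset.sum_insert (by decide), Finset.sum_singleton]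
  push_cast
  simp only [Tneg, T_0, T_1]
  ring

lemma hd3 (c : ℝ) : HasDerivAt P3 (D3 c) c := by
  have h := ((hasDerivAt_const c (1:ℝ)).fun_add ((hasDerivAt_pow 1 c).const_mul (2:ℝ)))
  exact h.congr_deriv (by unfold D3; norm_num; try ring)

lemma dp3 (c : ℝ) (h1 : (-3/4:ℝ) ≤ c) (h2 : c ≤ (-1/4:ℝ)) : 0 < D3 c := by
  unfold D3; norm_num

lemma neg3_0 (c : ℝ) (h1 : (-1:ℝ) ≤ c) (h2 : c ≤ (-3/4:ℝ)) : 0 < -(P3 c) := by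
  obtain ⟨s, hs⟩ : ∃ s, s = c - (-1:ℝ) := ⟨_, rfl⟩
  obtain ⟨t, ht⟩ : ∃ t, t = (-3/4:ℝ) - c := ⟨_, rfl⟩
  have hs0 : 0 ≤ s := by rw [hs]; linarith
  have ht0 : 0 ≤ t := by rw [ht]; linarith
  have key : -(P3 c) = (1/2:ℝ) + (2:ℝ) * (s ^ 0 * t ^ 1) := by
    rw [hs, ht]; unfold P3; ring
  rw [key]; positivity

lemma pos3_0 (c : ℝ) (h1 : (-1/4:ℝ) ≤ c) (h2 : c ≤ (1:ℝ)) : 0 < P3 c := by
  obtain ⟨s, hs⟩ : ∃ s, s = c - (-1/4:ℝ) := ⟨_, rfl⟩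
  obtain ⟨t, ht⟩ : ∃ t, t = (1:ℝ) - c := ⟨_, rfl⟩
  have hs0 : 0 ≤ s := by rw [hs]; linarith
  have ht0 : 0 ≤ t := by rw [ht]; linarith
  have key : P3 c = (1/2:ℝ) + (2:ℝ) * (s ^ 1 * t ^ 0) := by
    rw [hs, ht]; unfold P3; ring
  rw [key]; positivity

lemma loc3 (c : ℝ) (h1 : -1 ≤ c) (h2 : c ≤ 1) (h : P3 c = 0) : (-3/4:ℝ) ≤ c ∧ c ≤ (-1/4:ℝ) := by
  constructor
  · by_contra hc; push Not at hc
    have := neg3_0 c (by linarith) (by linarith)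
    linarith
  · by_contra hc; push Not at hc
    have := pos3_0 c (by linarith) (by linarith)
    linarith

lemma uq3 (c c' : ℝ) (h1 : -1 ≤ c) (h2 : c ≤ 1) (h1' : -1 ≤ c') (h2' : c' ≤ 1) (h : P3 c = 0) (h' : P3 c' = 0) : c = c' := by
  have hm : StrictMonoOn P3 (Set.Icc (-3/4:ℝ) (-1/4:ℝ)) := by
    refine strictMonoOn_of_deriv_pos (convex_Icc _ _) (fun x _ => (hd3 x).continuousAt.continuousWithinAt) ?_
    intro x hx; rw [interior_Icc] at hx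
    rw [(hd3 x).deriv]; exact dp3 x hx.1.le hx.2.le
  have a := loc3 c h1 h2 h
  have b := loc3 c' h1' h2' h'
  exact hm.injOn ⟨a.1, a.2⟩ ⟨b.1, b.2⟩ (by rw [h, h'])

lemma N3 : N A3 ≤ 2 := N_le_two A3 P3 fA3 uq3

def A4 : Finset ℤ := {0, 1, -1, 3}
noncomputable def P4 (c : ℝ) : ℝ := (1:ℝ) + (-1:ℝ) * c ^ 1 + (0:ℝ) * c ^ 2 + (4:ℝ) * c ^ 3
noncomputable def D4 (c : ℝ) : ℝ := (-1:ℝ) + (0:ℝ) * c ^ 1 + (12:ℝ) * c ^ 2

lemma card4 : A4.card = 4 := by decide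

lemma fA4 (θ : ℝ) : f A4 θ = P4 (Real.cos (2 * Real.pi * θ)) := by
  unfold f A4 P4
  rw [Finset.sum_insert (by decide), Finset.sum_insert (by decide), Finset.sum_insert (by decide), Finset.sum_singleton]
  push_cast
  simp only [Tneg, T_0, T_1, T_3]
  ring

lemma hd4 (c : ℝ) : HasDerivAt P4 (D4 c) c := by
  have h := ((((hasDerivAt_const c (1:ℝ)).fun_add ((hasDerivAt_pow 1 c).const_mul (-1:ℝ))).fun_add ((hasDerivAt_pow 2 c).const_mul (0:ℝ))).fun_add ((hasDerivAt_pow 3 c).const_mul (4:ℝ)))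
  exact h.congr_deriv (by unfold D4; norm_num; try ring)

lemma dp4 (c : ℝ) (h1 : (-1:ℝ) ≤ c) (h2 : c ≤ (-3/4:ℝ)) : 0 < D4 c := by
  obtain ⟨s, hs⟩ : ∃ s, s = c - (-1:ℝ) := ⟨_, rfl⟩
  obtain ⟨t, ht⟩ : ∃ t, t = (-3/4:ℝ) - c := ⟨_, rfl⟩
  have hs0 : 0 ≤ s := by rw [hs]; linarith
  have ht0 : 0 ≤ t := by rw [ht]; linarith
  have key : D4 c = (5:ℝ) + (96:ℝ) * (s ^ 0 * t ^ 2) + (96:ℝ) * (s ^ 1 * t ^ 1) + (12:ℝ) * (s ^ 2 * t ^ 0) := by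
    rw [hs, ht]; unfold D4; ring
  rw [key]; positivity

lemma pos4_0 (c : ℝ) (h1 : (-3/4:ℝ) ≤ c) (h2 : c ≤ (1/8:ℝ)) : 0 < P4 c := by
  obtain ⟨s, hs⟩ : ∃ s, s = c - (-3/4:ℝ) := ⟨_, rfl⟩
  obtain ⟨t, ht⟩ : ∃ t, t = (1/8:ℝ) - c := ⟨_, rfl⟩
  have hs0 : 0 ≤ s := by rw [hs]; linarith
  have ht0 : 0 ≤ t := by rw [ht]; linarith
  have key : P4 c = (1/16:ℝ) + (368/49:ℝ) * (s ^ 1 * t ^ 2) + (232/49:ℝ) * (s ^ 2 * t ^ 1) + (60/49:ℝ) * (s ^ 3 * t ^ 0) := by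
    rw [hs, ht]; unfold P4; ring
  rw [key]; positivity

lemma pos4_1 (c : ℝ) (h1 : (1/8:ℝ) ≤ c) (h2 : c ≤ (1:ℝ)) : 0 < P4 c := by
  obtain ⟨s, hs⟩ : ∃ s, s = c - (1/8:ℝ) := ⟨_, rfl⟩
  obtain ⟨t, ht⟩ : ∃ t, t = (1:ℝ) - c := ⟨_, rfl⟩
  have hs0 : 0 ≤ s := by rw [hs]; linarith
  have ht0 : 0 ≤ t := by rw [ht]; linarith
  have key : P4 c = (1/2:ℝ) + (4/7:ℝ) * (s ^ 0 * t ^ 3) + (32/49:ℝ) * (s ^ 1 * t ^ 2) + (64/49:ℝ) * (s ^ 2 * t ^ 1) + (256/49:ℝ) * (s ^ 3 * t ^ 0) := by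
    rw [hs, ht]; unfold P4; ring
  rw [key]; positivity

lemma loc4 (c : ℝ) (h1 : -1 ≤ c) (h2 : c ≤ 1) (h : P4 c = 0) : (-1:ℝ) ≤ c ∧ c ≤ (-3/4:ℝ) := by
  constructor
  · linarith
  · by_contra hc; push Not at hc
    rcases le_or_gt c (1/8:ℝ) with hx | hx
    · have := pos4_0 c (by linarith) hx; linarith
    have := pos4_1 c (by linarith) (by linarith)
    linarith

lemma uq4 (c c' : ℝ) (h1 : -1 ≤ c) (h2 : c ≤ 1) (h1' : -1 ≤ c') (h2' : c' ≤ 1) (h : P4 c = 0) (h' : P4 c' = 0) : c = c' := by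
  have hm : StrictMonoOn P4 (Set.Icc (-1:ℝ) (-3/4:ℝ)) := by
    refine strictMonoOn_of_deriv_pos (convex_Icc _ _) (fun x _ => (hd4 x).continuousAt.continuousWithinAt) ?_
    intro x hx; rw [interior_Icc] at hx
    rw [(hd4 x).deriv]; exact dp4 x hx.1.le hx.2.le
  have a := loc4 c h1 h2 h
  have b := loc4 c' h1' h2' h'
  exact hm.injOn ⟨a.1, a.2⟩ ⟨b.1, b.2⟩ (by rw [h, h'])

lemma N4 : N A4 ≤ 2 := N_le_two A4 P4 fA4 uq4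

def A5 : Finset ℤ := {0, 1, -1, 3, 4}
noncomputable def P5 (c : ℝ) : ℝ := (2:ℝ) + (-1:ℝ) * c ^ 1 + (-8:ℝ) * c ^ 2 + (4:ℝ) * c ^ 3 + (8:ℝ) * c ^ 4
noncomputable def D5 (c : ℝ) : ℝ := (-1:ℝ) + (-16:ℝ) * c ^ 1 + (12:ℝ) * c ^ 2 + (32:ℝ) * c ^ 3

lemma card5 : A5.card = 5 := by decide

lemma fA5 (θ : ℝ) : f A5 θ = P5 (Real.cos (2 * Real.pi * θ)) := by
  unfold f A5 P5
  rw [Finset.sum_insert (by decide), Finset.sum_insert (by decide), Finset.sum_insert (by decide), Finset.sum_insert (by decide), Finset.sum_singleton]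
  push_cast
  simp only [Tneg, T_0, T_1, T_3, T_4]
  ring

lemma hd5 (c : ℝ) : HasDerivAt P5 (D5 c) c := by
  have h := (((((hasDerivAt_const c (2:ℝ)).fun_add ((hasDerivAt_pow 1 c).const_mul (-1:ℝ))).fun_add ((hasDerivAt_pow 2 c).const_mul (-8:ℝ))).fun_add ((hasDerivAt_pow 3 c).const_mul (4:ℝ))).fun_add ((hasDerivAt_pow 4 c).const_mul (8:ℝ)))
  exact h.congr_deriv (by unfold D5; norm_num; try ring)

lemma dp5 (c : ℝ) (h1 : (-3/4:ℝ) ≤ c) (h2 : c ≤ (-1/2:ℝ)) : 0 < D5 c := by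
  obtain ⟨s, hs⟩ : ∃ s, s = c - (-3/4:ℝ) := ⟨_, rfl⟩
  obtain ⟨t, ht⟩ : ∃ t, t = (-1/2:ℝ) - c := ⟨_, rfl⟩
  have hs0 : 0 ≤ s := by rw [hs]; linarith
  have ht0 : 0 ≤ t := by rw [ht]; linarith
  have key : D5 c = (4:ℝ) + (16:ℝ) * (s ^ 0 * t ^ 3) + (368:ℝ) * (s ^ 1 * t ^ 2) + (448:ℝ) * (s ^ 2 * t ^ 1) + (128:ℝ) * (s ^ 3 * t ^ 0) := by
    rw [hs, ht]; unfold D5; ring
  rw [key]; positivity

lemma neg5_0 (c : ℝ) (h1 : (-1:ℝ) ≤ c) (h2 : c ≤ (-3/4:ℝ)) : 0 < -(P5 c) := by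
  obtain ⟨s, hs⟩ : ∃ s, s = c - (-1:ℝ) := ⟨_, rfl⟩
  obtain ⟨t, ht⟩ : ∃ t, t = (-3/4:ℝ) - c := ⟨_, rfl⟩
  have hs0 : 0 ≤ s := by rw [hs]; linarith
  have ht0 : 0 ≤ t := by rw [ht]; linarith
  have key : -(P5 c) = (1/2:ℝ) + (128:ℝ) * (s ^ 0 * t ^ 4) + (832:ℝ) * (s ^ 1 * t ^ 3) + (1280:ℝ) * (s ^ 2 * t ^ 2) + (688:ℝ) * (s ^ 3 * t ^ 1) + (104:ℝ) * (s ^ 4 * t ^ 0) := by
    rw [hs, ht]; unfold P5; ring
  rw [key]; positivity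

lemma pos5_0 (c : ℝ) (h1 : (-1/2:ℝ) ≤ c) (h2 : c ≤ (1/4:ℝ)) : 0 < P5 c := by
  obtain ⟨s, hs⟩ : ∃ s, s = c - (-1/2:ℝ) := ⟨_, rfl⟩
  obtain ⟨t, ht⟩ : ∃ t, t = (1/4:ℝ) - c := ⟨_, rfl⟩
  have hs0 : 0 ≤ s := by rw [hs]; linarith
  have ht0 : 0 ≤ t := by rw [ht]; linarith
  have key : P5 c = (1/2:ℝ) + (128/9:ℝ) * (s ^ 1 * t ^ 3) + (352/9:ℝ) * (s ^ 2 * t ^ 2) + (176/9:ℝ) * (s ^ 3 * t ^ 1) + (8/3:ℝ) * (s ^ 4 * t ^ 0) := by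
    rw [hs, ht]; unfold P5; ring
  rw [key]; positivity

lemma pos5_1 (c : ℝ) (h1 : (1/4:ℝ) ≤ c) (h2 : c ≤ (5/8:ℝ)) : 0 < P5 c := by
  obtain ⟨s, hs⟩ : ∃ s, s = c - (1/4:ℝ) := ⟨_, rfl⟩
  obtain ⟨t, ht⟩ : ∃ t, t = (5/8:ℝ) - c := ⟨_, rfl⟩
  have hs0 : 0 ≤ s := by rw [hs]; linarith
  have ht0 : 0 ≤ t := by rw [ht]; linarith
  have key : P5 c = (1/4:ℝ) + (4480/81:ℝ) * (s ^ 0 * t ^ 4) + (12160/81:ℝ) * (s ^ 1 * t ^ 3) + (2816/27:ℝ) * (s ^ 2 * t ^ 2) + (928/81:ℝ) * (s ^ 3 * t ^ 1) + (808/81:ℝ) * (s ^ 4 * t ^ 0) := by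
    rw [hs, ht]; unfold P5; ring
  rw [key]; positivity

lemma pos5_2 (c : ℝ) (h1 : (5/8:ℝ) ≤ c) (h2 : c ≤ (1:ℝ)) : 0 < P5 c := by
  obtain ⟨s, hs⟩ : ∃ s, s = c - (5/8:ℝ) := ⟨_, rfl⟩
  obtain ⟨t, ht⟩ : ∃ t, t = (1:ℝ) - c := ⟨_, rfl⟩
  have hs0 : 0 ≤ s := by rw [hs]; linarith
  have ht0 : 0 ≤ t := by rw [ht]; linarith
  have key : P5 c = (1/4:ℝ) + (808/81:ℝ) * (s ^ 0 * t ^ 4) + (5536/81:ℝ) * (s ^ 1 * t ^ 3) + (7424/27:ℝ) * (s ^ 2 * t ^ 2) + (36352/81:ℝ) * (s ^ 3 * t ^ 1) + (19456/81:ℝ) * (s ^ 4 * t ^ 0) := by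
    rw [hs, ht]; unfold P5; ring
  rw [key]; positivity

lemma loc5 (c : ℝ) (h1 : -1 ≤ c) (h2 : c ≤ 1) (h : P5 c = 0) : (-3/4:ℝ) ≤ c ∧ c ≤ (-1/2:ℝ) := by
  constructor
  · by_contra hc; push Not at hc
    have := neg5_0 c (by linarith) (by linarith)
    linarith
  · by_contra hc; push Not at hc
    rcases le_or_gt c (1/4:ℝ) with hx | hx
    · have := pos5_0 c (by linarith) hx; linarith
    rcases le_or_gt c (5/8:ℝ) with hx | hx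
    · have := pos5_1 c (by linarith) hx; linarith
    have := pos5_2 c (by linarith) (by linarith)
    linarith

lemma uq5 (c c' : ℝ) (h1 : -1 ≤ c) (h2 : c ≤ 1) (h1' : -1 ≤ c') (h2' : c' ≤ 1) (h : P5 c = 0) (h' : P5 c' = 0) : c = c' := by
  have hm : StrictMonoOn P5 (Set.Icc (-3/4:ℝ) (-1/2:ℝ)) := by
    refine strictMonoOn_of_deriv_pos (convex_Icc _ _) (fun x _ => (hd5 x).continuousAt.continuousWithinAt) ?_
    intro x hx; rw [interior_Icc] at hx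
    rw [(hd5 x).deriv]; exact dp5 x hx.1.le hx.2.le
  have a := loc5 c h1 h2 h
  have b := loc5 c' h1' h2' h'
  exact hm.injOn ⟨a.1, a.2⟩ ⟨b.1, b.2⟩ (by rw [h, h'])

lemma N5 : N A5 ≤ 2 := N_le_two A5 P5 fA5 uq5

def A6 : Finset ℤ := {0, 1, -1, 3, -3, 5}
noncomputable def P6 (c : ℝ) : ℝ := (1:ℝ) + (1:ℝ) * c ^ 1 + (0:ℝ) * c ^ 2 + (-12:ℝ) * c ^ 3 + (0:ℝ) * c ^ 4 + (16:ℝ) * c ^ 5
noncomputable def D6 (c : ℝ) : ℝ := (1:ℝ) + (0:ℝ) * c ^ 1 + (-36:ℝ) * c ^ 2 + (0:ℝ) * c ^ 3 + (80:ℝ) * c ^ 4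

lemma card6 : A6.card = 6 := by decide

lemma fA6 (θ : ℝ) : f A6 θ = P6 (Real.cos (2 * Real.pi * θ)) := by
  unfold f A6 P6
  rw [Finset.sum_insert (by decide), Finset.sum_insert (by decide), Finset.sum_insert (by decide), Finset.sum_insert (by decide), Finset.sum_insert (by decide), Finset.sum_singleton]
  push_cast
  simp only [Tneg, T_0, T_1, T_3, T_5]
  ring

lemma hd6 (c : ℝ) : HasDerivAt P6 (D6 c) c := by
  have h := ((((((hasDerivAt_const c (1:ℝ)).fun_add ((hasDerivAt_pow 1 c).const_mul (1:ℝ))).fun_add ((hasDerivAt_pow 2 c).const_mul (0:ℝ))).fun_add ((hasDerivAt_pow 3 c).const_mul (-12:ℝ))).fun_add ((hasDerivAt_pow 4 c).const_mul (0:ℝ))).fun_add ((hasDerivAt_pow 5 c).const_mul (16:ℝ)))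
  exact h.congr_deriv (by unfold D6; norm_num; try ring)

lemma dp6 (c : ℝ) (h1 : (-1:ℝ) ≤ c) (h2 : c ≤ (-3/4:ℝ)) : 0 < D6 c := by
  obtain ⟨s, hs⟩ : ∃ s, s = c - (-1:ℝ) := ⟨_, rfl⟩
  obtain ⟨t, ht⟩ : ∃ t, t = (-3/4:ℝ) - c := ⟨_, rfl⟩
  have hs0 : 0 ≤ s := by rw [hs]; linarith
  have ht0 : 0 ≤ t := by rw [ht]; linarith
  have key : D6 c = (6:ℝ) + (9984:ℝ) * (s ^ 0 * t ^ 4) + (24064:ℝ) * (s ^ 1 * t ^ 3) + (19392:ℝ) * (s ^ 2 * t ^ 2) + (5248:ℝ) * (s ^ 3 * t ^ 1) + (16:ℝ) * (s ^ 4 * t ^ 0) := by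
    rw [hs, ht]; unfold D6; ring
  rw [key]; positivity

lemma pos6_0 (c : ℝ) (h1 : (-3/4:ℝ) ≤ c) (h2 : c ≤ (1/8:ℝ)) : 0 < P6 c := by
  obtain ⟨s, hs⟩ : ∃ s, s = c - (-3/4:ℝ) := ⟨_, rfl⟩
  obtain ⟨t, ht⟩ : ∃ t, t = (1/8:ℝ) - c := ⟨_, rfl⟩
  have hs0 : 0 ≤ s := by rw [hs]; linarith
  have ht0 : 0 ≤ t := by rw [ht]; linarith
  have key : P6 c = (1/2:ℝ) + (33280/16807:ℝ) * (s ^ 0 * t ^ 5) + (340224/16807:ℝ) * (s ^ 1 * t ^ 4) + (12032/16807:ℝ) * (s ^ 2 * t ^ 3) + (39808/16807:ℝ) * (s ^ 3 * t ^ 2) + (85536/16807:ℝ) * (s ^ 4 * t ^ 1) + (19728/16807:ℝ) * (s ^ 5 * t ^ 0) := by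
    rw [hs, ht]; unfold P6; ring
  rw [key]; positivity

lemma pos6_1 (c : ℝ) (h1 : (1/8:ℝ) ≤ c) (h2 : c ≤ (9/16:ℝ)) : 0 < P6 c := by
  obtain ⟨s, hs⟩ : ∃ s, s = c - (1/8:ℝ) := ⟨_, rfl⟩
  obtain ⟨t, ht⟩ : ∃ t, t = (9/16:ℝ) - c := ⟨_, rfl⟩
  have hs0 : 0 ≤ s := by rw [hs]; linarith
  have ht0 : 0 ≤ t := by rw [ht]; linarith
  have key : P6 c = (1/4:ℝ) + (893440/16807:ℝ) * (s ^ 0 * t ^ 5) + (4676864/16807:ℝ) * (s ^ 1 * t ^ 4) + (8932608/16807:ℝ) * (s ^ 2 * t ^ 3) + (6836864/16807:ℝ) * (s ^ 3 * t ^ 2) + (1500320/16807:ℝ) * (s ^ 4 * t ^ 1) + (81552/16807:ℝ) * (s ^ 5 * t ^ 0) := by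
    rw [hs, ht]; unfold P6; ring
  rw [key]; positivity

lemma pos6_2 (c : ℝ) (h1 : (9/16:ℝ) ≤ c) (h2 : c ≤ (1:ℝ)) : 0 < P6 c := by
  obtain ⟨s, hs⟩ : ∃ s, s = c - (9/16:ℝ) := ⟨_, rfl⟩
  obtain ⟨t, ht⟩ : ∃ t, t = (1:ℝ) - c := ⟨_, rfl⟩
  have hs0 : 0 ≤ s := by rw [hs]; linarith
  have ht0 : 0 ≤ t := by rw [ht]; linarith
  have key : P6 c = (1/16:ℝ) + (278160/16807:ℝ) * (s ^ 0 * t ^ 5) + (298240/16807:ℝ) * (s ^ 1 * t ^ 4) + (62464/16807:ℝ) * (s ^ 2 * t ^ 3) + (4571136/16807:ℝ) * (s ^ 3 * t ^ 2) + (10485760/16807:ℝ) * (s ^ 4 * t ^ 1) + (6225920/16807:ℝ) * (s ^ 5 * t ^ 0) := by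
    rw [hs, ht]; unfold P6; ring
  rw [key]; positivity

lemma loc6 (c : ℝ) (h1 : -1 ≤ c) (h2 : c ≤ 1) (h : P6 c = 0) : (-1:ℝ) ≤ c ∧ c ≤ (-3/4:ℝ) := by
  constructor
  · linarith
  · by_contra hc; push Not at hc
    rcases le_or_gt c (1/8:ℝ) with hx | hx
    · have := pos6_0 c (by linarith) hx; linarith
    rcases le_or_gt c (9/16:ℝ) with hx | hx
    · have := pos6_1 c (by linarith) hx; linarith
    have := pos6_2 c (by linarith) (by linarith)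
    linarith

lemma uq6 (c c' : ℝ) (h1 : -1 ≤ c) (h2 : c ≤ 1) (h1' : -1 ≤ c') (h2' : c' ≤ 1) (h : P6 c = 0) (h' : P6 c' = 0) : c = c' := by
  have hm : StrictMonoOn P6 (Set.Icc (-1:ℝ) (-3/4:ℝ)) := by
    refine strictMonoOn_of_deriv_pos (convex_Icc _ _) (fun x _ => (hd6 x).continuousAt.continuousWithinAt) ?_
    intro x hx; rw [interior_Icc] at hx
    rw [(hd6 x).deriv]; exact dp6 x hx.1.le hx.2.le
  have a := loc6 c h1 h2 h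
  have b := loc6 c' h1' h2' h'
  exact hm.injOn ⟨a.1, a.2⟩ ⟨b.1, b.2⟩ (by rw [h, h'])

lemma N6 : N A6 ≤ 2 := N_le_two A6 P6 fA6 uq6

def A7 : Finset ℤ := {0, 1, -1, 3, 4, -4, 7}
noncomputable def P7 (c : ℝ) : ℝ := (3:ℝ) + (-8:ℝ) * c ^ 1 + (-16:ℝ) * c ^ 2 + (60:ℝ) * c ^ 3 + (16:ℝ) * c ^ 4 + (-112:ℝ) * c ^ 5 + (0:ℝ) * c ^ 6 + (64:ℝ) * c ^ 7
noncomputable def D7 (c : ℝ) : ℝ := (-8:ℝ) + (-32:ℝ) * c ^ 1 + (180:ℝ) * c ^ 2 + (64:ℝ) * c ^ 3 + (-560:ℝ) * c ^ 4 + (0:ℝ) * c ^ 5 + (448:ℝ) * c ^ 6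

lemma card7 : A7.card = 7 := by decide

lemma fA7 (θ : ℝ) : f A7 θ = P7 (Real.cos (2 * Real.pi * θ)) := by
  unfold f A7 P7
  rw [Finset.sum_insert (by decide), Finset.sum_insert (by decide), Finset.sum_insert (by decide), Finset.sum_insert (by decide), Finset.sum_insert (by decide), Finset.sum_insert (by decide), Finset.sum_singleton]
  push_cast
  simp only [Tneg, T_0, T_1, T_3, T_4, T_7]
  ring

lemma hd7 (c : ℝ) : HasDerivAt P7 (D7 c) c := by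
  have h := ((((((((hasDerivAt_const c (3:ℝ)).fun_add ((hasDerivAt_pow 1 c).const_mul (-8:ℝ))).fun_add ((hasDerivAt_pow 2 c).const_mul (-16:ℝ))).fun_add ((hasDerivAt_pow 3 c).const_mul (60:ℝ))).fun_add ((hasDerivAt_pow 4 c).const_mul (16:ℝ))).fun_add ((hasDerivAt_pow 5 c).const_mul (-112:ℝ))).fun_add ((hasDerivAt_pow 6 c).const_mul (0:ℝ))).fun_add ((hasDerivAt_pow 7 c).const_mul (64:ℝ)))
  exact h.congr_deriv (by unfold D7; norm_num; try ring)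

lemma dp7 (c : ℝ) (h1 : (-1/2:ℝ) ≤ c) (h2 : c ≤ (-1/4:ℝ)) : 0 < D7 c := by
  obtain ⟨s, hs⟩ : ∃ s, s = c - (-1/2:ℝ) := ⟨_, rfl⟩
  obtain ⟨t, ht⟩ : ∃ t, t = (-1/4:ℝ) - c := ⟨_, rfl⟩
  have hs0 : 0 ≤ s := by rw [hs]; linarith
  have ht0 : 0 ≤ t := by rw [ht]; linarith
  have key : D7 c = (8:ℝ) + (36864:ℝ) * (s ^ 0 * t ^ 6) + (253952:ℝ) * (s ^ 1 * t ^ 5) + (630784:ℝ) * (s ^ 2 * t ^ 4) + (724992:ℝ) * (s ^ 3 * t ^ 3) + (394752:ℝ) * (s ^ 4 * t ^ 2) + (83712:ℝ) * (s ^ 5 * t ^ 1) + (704:ℝ) * (s ^ 6 * t ^ 0) := by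
    rw [hs, ht]; unfold D7; ring
  rw [key]; positivity

lemma neg7_0 (c : ℝ) (h1 : (-1:ℝ) ≤ c) (h2 : c ≤ (-7/8:ℝ)) : 0 < -(P7 c) := by
  obtain ⟨s, hs⟩ : ∃ s, s = c - (-1:ℝ) := ⟨_, rfl⟩
  obtain ⟨t, ht⟩ : ∃ t, t = (-7/8:ℝ) - c := ⟨_, rfl⟩
  have hs0 : 0 ≤ s := by rw [hs]; linarith
  have ht0 : 0 ≤ t := by rw [ht]; linarith
  have key : -(P7 c) = (1/8:ℝ) + (1835008:ℝ) * (s ^ 0 * t ^ 7) + (5505024:ℝ) * (s ^ 1 * t ^ 6) + (5111808:ℝ) * (s ^ 2 * t ^ 5) + (2637824:ℝ) * (s ^ 3 * t ^ 4) + (6160384:ℝ) * (s ^ 4 * t ^ 3) + (9653248:ℝ) * (s ^ 5 * t ^ 2) + (6006272:ℝ) * (s ^ 6 * t ^ 1) + (1317312:ℝ) * (s ^ 7 * t ^ 0) := by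
    rw [hs, ht]; unfold P7; ring
  rw [key]; positivity

lemma neg7_1 (c : ℝ) (h1 : (-7/8:ℝ) ≤ c) (h2 : c ≤ (-3/4:ℝ)) : 0 < -(P7 c) := by
  obtain ⟨s, hs⟩ : ∃ s, s = c - (-7/8:ℝ) := ⟨_, rfl⟩
  obtain ⟨t, ht⟩ : ∃ t, t = (-3/4:ℝ) - c := ⟨_, rfl⟩
  have hs0 : 0 ≤ s := by rw [hs]; linarith
  have ht0 : 0 ≤ t := by rw [ht]; linarith
  have key : -(P7 c) = (1/2:ℝ) + (530880:ℝ) * (s ^ 0 * t ^ 7) + (6931072:ℝ) * (s ^ 1 * t ^ 6) + (31717120:ℝ) * (s ^ 2 * t ^ 5) + (71318016:ℝ) * (s ^ 3 * t ^ 4) + (88650752:ℝ) * (s ^ 4 * t ^ 3) + (62339072:ℝ) * (s ^ 5 * t ^ 2) + (23285760:ℝ) * (s ^ 6 * t ^ 1) + (3596288:ℝ) * (s ^ 7 * t ^ 0) := by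
    rw [hs, ht]; unfold P7; ring
  rw [key]; positivity

lemma neg7_2 (c : ℝ) (h1 : (-3/4:ℝ) ≤ c) (h2 : c ≤ (-1/2:ℝ)) : 0 < -(P7 c) := by
  obtain ⟨s, hs⟩ : ∃ s, s = c - (-3/4:ℝ) := ⟨_, rfl⟩
  obtain ⟨t, ht⟩ : ∃ t, t = (-1/2:ℝ) - c := ⟨_, rfl⟩
  have hs0 : 0 ≤ s := by rw [hs]; linarith
  have ht0 : 0 ≤ t := by rw [ht]; linarith
  have key : -(P7 c) = (1/2:ℝ) + (28096:ℝ) * (s ^ 0 * t ^ 7) + (226176:ℝ) * (s ^ 1 * t ^ 6) + (709120:ℝ) * (s ^ 2 * t ^ 5) + (1113088:ℝ) * (s ^ 3 * t ^ 4) + (933888:ℝ) * (s ^ 4 * t ^ 3) + (401408:ℝ) * (s ^ 5 * t ^ 2) + (69632:ℝ) * (s ^ 6 * t ^ 1) := by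
    rw [hs, ht]; unfold P7; ring
  rw [key]; positivity

lemma pos7_0 (c : ℝ) (h1 : (-1/4:ℝ) ≤ c) (h2 : c ≤ (3/8:ℝ)) : 0 < P7 c := by
  obtain ⟨s, hs⟩ : ∃ s, s = c - (-1/4:ℝ) := ⟨_, rfl⟩
  obtain ⟨t, ht⟩ : ∃ t, t = (3/8:ℝ) - c := ⟨_, rfl⟩
  have hs0 : 0 ≤ s := by rw [hs]; linarith
  have ht0 : 0 ≤ t := by rw [ht]; linarith
  have key : P7 c = (1/4:ℝ) + (6250496/78125:ℝ) * (s ^ 0 * t ^ 7) + (54464512/78125:ℝ) * (s ^ 1 * t ^ 6) + (163731456/78125:ℝ) * (s ^ 2 * t ^ 5) + (42324992/15625:ℝ) * (s ^ 3 * t ^ 4) + (23685632/15625:ℝ) * (s ^ 4 * t ^ 3) + (31542016/78125:ℝ) * (s ^ 5 * t ^ 2) + (4675712/78125:ℝ) * (s ^ 6 * t ^ 1) + (454336/78125:ℝ) * (s ^ 7 * t ^ 0) := by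
    rw [hs, ht]; unfold P7; ring
  rw [key]; positivity

lemma pos7_1 (c : ℝ) (h1 : (3/8:ℝ) ≤ c) (h2 : c ≤ (11/16:ℝ)) : 0 < P7 c := by
  obtain ⟨s, hs⟩ : ∃ s, s = c - (3/8:ℝ) := ⟨_, rfl⟩
  obtain ⟨t, ht⟩ : ∃ t, t = (11/16:ℝ) - c := ⟨_, rfl⟩
  have hs0 : 0 ≤ s := by rw [hs]; linarith
  have ht0 : 0 ≤ t := by rw [ht]; linarith
  have key : P7 c = (1/4:ℝ) + (58155008/78125:ℝ) * (s ^ 0 * t ^ 7) + (311382016/78125:ℝ) * (s ^ 1 * t ^ 6) + (1063958528/78125:ℝ) * (s ^ 2 * t ^ 5) + (489051136/15625:ℝ) * (s ^ 3 * t ^ 4) + (627882496/15625:ℝ) * (s ^ 4 * t ^ 3) + (1998413568/78125:ℝ) * (s ^ 5 * t ^ 2) + (543026816/78125:ℝ) * (s ^ 6 * t ^ 1) + (54501568/78125:ℝ) * (s ^ 7 * t ^ 0) := by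
    rw [hs, ht]; unfold P7; ring
  rw [key]; positivity

lemma pos7_2 (c : ℝ) (h1 : (11/16:ℝ) ≤ c) (h2 : c ≤ (1:ℝ)) : 0 < P7 c := by
  obtain ⟨s, hs⟩ : ∃ s, s = c - (11/16:ℝ) := ⟨_, rfl⟩
  obtain ⟨t, ht⟩ : ∃ t, t = (1:ℝ) - c := ⟨_, rfl⟩
  have hs0 : 0 ≤ s := by rw [hs]; linarith
  have ht0 : 0 ≤ t := by rw [ht]; linarith
  have key : P7 c = (1/8:ℝ) + (704448/625:ℝ) * (s ^ 0 * t ^ 7) + (90975232/15625:ℝ) * (s ^ 1 * t ^ 6) + (152973312/15625:ℝ) * (s ^ 2 * t ^ 5) + (27918336/3125:ℝ) * (s ^ 3 * t ^ 4) + (83099648/3125:ℝ) * (s ^ 4 * t ^ 3) + (205520896/3125:ℝ) * (s ^ 5 * t ^ 2) + (1040187392/15625:ℝ) * (s ^ 6 * t ^ 1) + (369098752/15625:ℝ) * (s ^ 7 * t ^ 0) := by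
    rw [hs, ht]; unfold P7; ring
  rw [key]; positivity

lemma loc7 (c : ℝ) (h1 : -1 ≤ c) (h2 : c ≤ 1) (h : P7 c = 0) : (-1/2:ℝ) ≤ c ∧ c ≤ (-1/4:ℝ) := by
  constructor
  · by_contra hc; push Not at hc
    rcases le_or_gt c (-7/8:ℝ) with hx | hx
    · have := neg7_0 c (by linarith) hx; linarith
    rcases le_or_gt c (-3/4:ℝ) with hx | hx
    · have := neg7_1 c (by linarith) hx; linarith
    have := neg7_2 c (by linarith) (by linarith)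
    linarith
  · by_contra hc; push Not at hc
    rcases le_or_gt c (3/8:ℝ) with hx | hx
    · have := pos7_0 c (by linarith) hx; linarith
    rcases le_or_gt c (11/16:ℝ) with hx | hx
    · have := pos7_1 c (by linarith) hx; linarith
    have := pos7_2 c (by linarith) (by linarith)
    linarith

lemma uq7 (c c' : ℝ) (h1 : -1 ≤ c) (h2 : c ≤ 1) (h1' : -1 ≤ c') (h2' : c' ≤ 1) (h : P7 c = 0) (h' : P7 c' = 0) : c = c' := by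
  have hm : StrictMonoOn P7 (Set.Icc (-1/2:ℝ) (-1/4:ℝ)) := by
    refine strictMonoOn_of_deriv_pos (convex_Icc _ _) (fun x _ => (hd7 x).continuousAt.continuousWithinAt) ?_
    intro x hx; rw [interior_Icc] at hx
    rw [(hd7 x).deriv]; exact dp7 x hx.1.le hx.2.le
  have a := loc7 c h1 h2 h
  have b := loc7 c' h1' h2' h'
  exact hm.injOn ⟨a.1, a.2⟩ ⟨b.1, b.2⟩ (by rw [h, h'])

lemma N7 : N A7 ≤ 2 := N_le_two A7 P7 fA7 uq7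

def A8 : Finset ℤ := {0, 1, -1, 3, -3, 5, 6, 8}
noncomputable def P8 (c : ℝ) : ℝ := (1:ℝ) + (1:ℝ) * c ^ 1 + (-14:ℝ) * c ^ 2 + (-12:ℝ) * c ^ 3 + (112:ℝ) * c ^ 4 + (16:ℝ) * c ^ 5 + (-224:ℝ) * c ^ 6 + (0:ℝ) * c ^ 7 + (128:ℝ) * c ^ 8
noncomputable def D8 (c : ℝ) : ℝ := (1:ℝ) + (-28:ℝ) * c ^ 1 + (-36:ℝ) * c ^ 2 + (448:ℝ) * c ^ 3 + (80:ℝ) * c ^ 4 + (-1344:ℝ) * c ^ 5 + (0:ℝ) * c ^ 6 + (1024:ℝ) * c ^ 7

lemma card8 : A8.card = 8 := by decide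

lemma fA8 (θ : ℝ) : f A8 θ = P8 (Real.cos (2 * Real.pi * θ)) := by
  unfold f A8 P8
  rw [Finset.sum_insert (by decide), Finset.sum_insert (by decide), Finset.sum_insert (by decide), Finset.sum_insert (by decide), Finset.sum_insert (by decide), Finset.sum_insert (by decide), Finset.sum_insert (by decide), Finset.sum_singleton]
  push_cast
  simp only [Tneg, T_0, T_1, T_3, T_5, T_6, T_8]
  ring

lemma hd8 (c : ℝ) : HasDerivAt P8 (D8 c) c := by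
  have h := (((((((((hasDerivAt_const c (1:ℝ)).fun_add ((hasDerivAt_pow 1 c).const_mul (1:ℝ))).fun_add ((hasDerivAt_pow 2 c).const_mul (-14:ℝ))).fun_add ((hasDerivAt_pow 3 c).const_mul (-12:ℝ))).fun_add ((hasDerivAt_pow 4 c).const_mul (112:ℝ))).fun_add ((hasDerivAt_pow 5 c).const_mul (16:ℝ))).fun_add ((hasDerivAt_pow 6 c).const_mul (-224:ℝ))).fun_add ((hasDerivAt_pow 7 c).const_mul (0:ℝ))).fun_add ((hasDerivAt_pow 8 c).const_mul (128:ℝ)))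
  exact h.congr_deriv (by unfold D8; norm_num; try ring)

lemma dp8 (c : ℝ) (h1 : (-7/8:ℝ) ≤ c) (h2 : c ≤ (-3/4:ℝ)) : 0 < D8 c := by
  obtain ⟨s, hs⟩ : ∃ s, s = c - (-7/8:ℝ) := ⟨_, rfl⟩
  obtain ⟨t, ht⟩ : ∃ t, t = (-3/4:ℝ) - c := ⟨_, rfl⟩
  have hs0 : 0 ≤ s := by rw [hs]; linarith
  have ht0 : 0 ≤ t := by rw [ht]; linarith
  have key : D8 c = (20:ℝ) + (25031680:ℝ) * (s ^ 0 * t ^ 7) + (208631808:ℝ) * (s ^ 1 * t ^ 6) + (632070144:ℝ) * (s ^ 2 * t ^ 5) + (951574528:ℝ) * (s ^ 3 * t ^ 4) + (772882432:ℝ) * (s ^ 4 * t ^ 3) + (327057408:ℝ) * (s ^ 5 * t ^ 2) + (57933824:ℝ) * (s ^ 6 * t ^ 1) + (655360:ℝ) * (s ^ 7 * t ^ 0) := by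
    rw [hs, ht]; unfold D8; ring
  rw [key]; positivity

lemma neg8_0 (c : ℝ) (h1 : (-1:ℝ) ≤ c) (h2 : c ≤ (-7/8:ℝ)) : 0 < -(P8 c) := by
  obtain ⟨s, hs⟩ : ∃ s, s = c - (-1:ℝ) := ⟨_, rfl⟩
  obtain ⟨t, ht⟩ : ∃ t, t = (-7/8:ℝ) - c := ⟨_, rfl⟩
  have hs0 : 0 ≤ s := by rw [hs]; linarith
  have ht0 : 0 ≤ t := by rw [ht]; linarith
  have key : -(P8 c) = (1:ℝ) + (16777216:ℝ) * (s ^ 0 * t ^ 8) + (249561088:ℝ) * (s ^ 1 * t ^ 7) + (1078460416:ℝ) * (s ^ 2 * t ^ 6) + (2267414528:ℝ) * (s ^ 3 * t ^ 5) + (2697330688:ℝ) * (s ^ 4 * t ^ 4) + (1892245504:ℝ) * (s ^ 5 * t ^ 3) + (760797184:ℝ) * (s ^ 6 * t ^ 2) + (155168768:ℝ) * (s ^ 7 * t ^ 1) + (11024256:ℝ) * (s ^ 8 * t ^ 0) := by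
    rw [hs, ht]; unfold P8; ring
  rw [key]; positivity

lemma pos8_0 (c : ℝ) (h1 : (-3/4:ℝ) ≤ c) (h2 : c ≤ (-5/16:ℝ)) : 0 < P8 c := by
  obtain ⟨s, hs⟩ : ∃ s, s = c - (-3/4:ℝ) := ⟨_, rfl⟩
  obtain ⟨t, ht⟩ : ∃ t, t = (-5/16:ℝ) - c := ⟨_, rfl⟩
  have hs0 : 0 ≤ s := by rw [hs]; linarith
  have ht0 : 0 ≤ t := by rw [ht]; linarith
  have key : P8 c = (1/2:ℝ) + (6551502848/5764801:ℝ) * (s ^ 0 * t ^ 8) + (90580189184/5764801:ℝ) * (s ^ 1 * t ^ 7) + (52424605696/823543:ℝ) * (s ^ 2 * t ^ 6) + (91673853952/823543:ℝ) * (s ^ 3 * t ^ 5) + (81797513216/823543:ℝ) * (s ^ 4 * t ^ 4) + (38785712128/823543:ℝ) * (s ^ 5 * t ^ 3) + (9186312192/823543:ℝ) * (s ^ 6 * t ^ 2) + (5918339072/5764801:ℝ) * (s ^ 7 * t ^ 1) + (42864768/5764801:ℝ) * (s ^ 8 * t ^ 0) := by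
    rw [hs, ht]; unfold P8; ring
  rw [key]; positivity

lemma pos8_1 (c : ℝ) (h1 : (-5/16:ℝ) ≤ c) (h2 : c ≤ (1/8:ℝ)) : 0 < P8 c := by
  obtain ⟨s, hs⟩ : ∃ s, s = c - (-5/16:ℝ) := ⟨_, rfl⟩
  obtain ⟨t, ht⟩ : ∃ t, t = (1/8:ℝ) - c := ⟨_, rfl⟩
  have hs0 : 0 ≤ s := by rw [hs]; linarith
  have ht0 : 0 ≤ t := by rw [ht]; linarith
  have key : P8 c = (1/4:ℝ) + (1116606592/5764801:ℝ) * (s ^ 0 * t ^ 8) + (3357431808/5764801:ℝ) * (s ^ 1 * t ^ 7) + (2330437632/823543:ℝ) * (s ^ 2 * t ^ 6) + (11763245056/823543:ℝ) * (s ^ 3 * t ^ 5) + (25981341696/823543:ℝ) * (s ^ 4 * t ^ 4) + (27183906816/823543:ℝ) * (s ^ 5 * t ^ 3) + (14487552000/823543:ℝ) * (s ^ 6 * t ^ 2) + (26820345856/5764801:ℝ) * (s ^ 7 * t ^ 1) + (2833809408/5764801:ℝ) * (s ^ 8 * t ^ 0) := by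
    rw [hs, ht]; unfold P8; ring
  rw [key]; positivity

lemma pos8_2 (c : ℝ) (h1 : (1/8:ℝ) ≤ c) (h2 : c ≤ (9/16:ℝ)) : 0 < P8 c := by
  obtain ⟨s, hs⟩ : ∃ s, s = c - (1/8:ℝ) := ⟨_, rfl⟩
  obtain ⟨t, ht⟩ : ∃ t, t = (9/16:ℝ) - c := ⟨_, rfl⟩
  have hs0 : 0 ≤ s := by rw [hs]; linarith
  have ht0 : 0 ≤ t := by rw [ht]; linarith
  have key : P8 c = (1/4:ℝ) + (2833809408/5764801:ℝ) * (s ^ 0 * t ^ 8) + (18520604672/5764801:ℝ) * (s ^ 1 * t ^ 7) + (6187810816/823543:ℝ) * (s ^ 2 * t ^ 6) + (6186369024/823543:ℝ) * (s ^ 3 * t ^ 5) + (3991064576/823543:ℝ) * (s ^ 4 * t ^ 4) + (6567075840/823543:ℝ) * (s ^ 5 * t ^ 3) + (8305108992/823543:ℝ) * (s ^ 6 * t ^ 2) + (28190738432/5764801:ℝ) * (s ^ 7 * t ^ 1) + (4501651584/5764801:ℝ) * (s ^ 8 * t ^ 0) := by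
    rw [hs, ht]; unfold P8; ring
  rw [key]; positivity

lemma pos8_3 (c : ℝ) (h1 : (9/16:ℝ) ≤ c) (h2 : c ≤ (25/32:ℝ)) : 0 < P8 c := by
  obtain ⟨s, hs⟩ : ∃ s, s = c - (9/16:ℝ) := ⟨_, rfl⟩
  obtain ⟨t, ht⟩ : ∃ t, t = (25/32:ℝ) - c := ⟨_, rfl⟩
  have hs0 : 0 ≤ s := by rw [hs]; linarith
  have ht0 : 0 ≤ t := by rw [ht]; linarith
  have key : P8 c = (1/2:ℝ) + (877544898560/5764801:ℝ) * (s ^ 0 * t ^ 8) + (8021635891200/5764801:ℝ) * (s ^ 1 * t ^ 7) + (4391198818304/823543:ℝ) * (s ^ 2 * t ^ 6) + (9133190840320/823543:ℝ) * (s ^ 3 * t ^ 5) + (11127424700416/823543:ℝ) * (s ^ 4 * t ^ 4) + (7956097146880/823543:ℝ) * (s ^ 5 * t ^ 3) + (3138058881024/823543:ℝ) * (s ^ 6 * t ^ 2) + (4075434313728/5764801:ℝ) * (s ^ 7 * t ^ 1) + (248502313088/5764801:ℝ) * (s ^ 8 * t ^ 0) := by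
    rw [hs, ht]; unfold P8; ring
  rw [key]; positivity

lemma pos8_4 (c : ℝ) (h1 : (25/32:ℝ) ≤ c) (h2 : c ≤ (1:ℝ)) : 0 < P8 c := by
  obtain ⟨s, hs⟩ : ∃ s, s = c - (25/32:ℝ) := ⟨_, rfl⟩
  obtain ⟨t, ht⟩ : ∃ t, t = (1:ℝ) - c := ⟨_, rfl⟩
  have hs0 : 0 ≤ s := by rw [hs]; linarith
  have ht0 : 0 ≤ t := by rw [ht]; linarith
  have key : P8 c = (1/16:ℝ) + (729538650240/5764801:ℝ) * (s ^ 0 * t ^ 8) + (3748893392896/5764801:ℝ) * (s ^ 1 * t ^ 7) + (887372611584/823543:ℝ) * (s ^ 2 * t ^ 6) + (547836395520/823543:ℝ) * (s ^ 3 * t ^ 5) + (1403347009536/823543:ℝ) * (s ^ 4 * t ^ 4) + (5161879601152/823543:ℝ) * (s ^ 5 * t ^ 3) + (7595649662976/823543:ℝ) * (s ^ 6 * t ^ 2) + (34943853920256/5764801:ℝ) * (s ^ 7 * t ^ 1) + (8727373545472/5764801:ℝ) * (s ^ 8 * t ^ 0) := by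
    rw [hs, ht]; unfold P8; ring
  rw [key]; positivity

lemma loc8 (c : ℝ) (h1 : -1 ≤ c) (h2 : c ≤ 1) (h : P8 c = 0) : (-7/8:ℝ) ≤ c ∧ c ≤ (-3/4:ℝ) := by
  constructor
  · by_contra hc; push Not at hc
    have := neg8_0 c (by linarith) (by linarith)
    linarith
  · by_contra hc; push Not at hc
    rcases le_or_gt c (-5/16:ℝ) with hx | hx
    · have := pos8_0 c (by linarith) hx; linarith
    rcases le_or_gt c (1/8:ℝ) with hx | hx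
    · have := pos8_1 c (by linarith) hx; linarith
    rcases le_or_gt c (9/16:ℝ) with hx | hx
    · have := pos8_2 c (by linarith) hx; linarith
    rcases le_or_gt c (25/32:ℝ) with hx | hx
    · have := pos8_3 c (by linarith) hx; linarith
    have := pos8_4 c (by linarith) (by linarith)
    linarith

lemma uq8 (c c' : ℝ) (h1 : -1 ≤ c) (h2 : c ≤ 1) (h1' : -1 ≤ c') (h2' : c' ≤ 1) (h : P8 c = 0) (h' : P8 c' = 0) : c = c' := by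
  have hm : StrictMonoOn P8 (Set.Icc (-7/8:ℝ) (-3/4:ℝ)) := by
    refine strictMonoOn_of_deriv_pos (convex_Icc _ _) (fun x _ => (hd8 x).continuousAt.continuousWithinAt) ?_
    intro x hx; rw [interior_Icc] at hx
    rw [(hd8 x).deriv]; exact dp8 x hx.1.le hx.2.le
  have a := loc8 c h1 h2 h
  have b := loc8 c' h1' h2' h'
  exact hm.injOn ⟨a.1, a.2⟩ ⟨b.1, b.2⟩ (by rw [h, h'])

lemma N8 : N A8 ≤ 2 := N_le_two A8 P8 fA8 uq8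

def A9 : Finset ℤ := {0, 1, -1, 3, -3, 5, -5, 7, 9}
noncomputable def P9 (c : ℝ) : ℝ := (1:ℝ) + (8:ℝ) * c ^ 1 + (0:ℝ) * c ^ 2 + (-96:ℝ) * c ^ 3 + (0:ℝ) * c ^ 4 + (352:ℝ) * c ^ 5 + (0:ℝ) * c ^ 6 + (-512:ℝ) * c ^ 7 + (0:ℝ) * c ^ 8 + (256:ℝ) * c ^ 9
noncomputable def D9 (c : ℝ) : ℝ := (8:ℝ) + (0:ℝ) * c ^ 1 + (-288:ℝ) * c ^ 2 + (0:ℝ) * c ^ 3 + (1760:ℝ) * c ^ 4 + (0:ℝ) * c ^ 5 + (-3584:ℝ) * c ^ 6 + (0:ℝ) * c ^ 7 + (2304:ℝ) * c ^ 8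

lemma card9 : A9.card = 9 := by decide

lemma fA9 (θ : ℝ) : f A9 θ = P9 (Real.cos (2 * Real.pi * θ)) := by
  unfold f A9 P9
  rw [Finset.sum_insert (by decide), Finset.sum_insert (by decide), Finset.sum_insert (by decide), Finset.sum_insert (by decide), Finset.sum_insert (by decide), Finset.sum_insert (by decide), Finset.sum_insert (by decide), Finset.sum_insert (by decide), Finset.sum_singleton]
  push_cast
  simp only [Tneg, T_0, T_1, T_3, T_5, T_7, T_9]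
  ring

lemma hd9 (c : ℝ) : HasDerivAt P9 (D9 c) c := by
  have h := ((((((((((hasDerivAt_const c (1:ℝ)).fun_add ((hasDerivAt_pow 1 c).const_mul (8:ℝ))).fun_add ((hasDerivAt_pow 2 c).const_mul (0:ℝ))).fun_add ((hasDerivAt_pow 3 c).const_mul (-96:ℝ))).fun_add ((hasDerivAt_pow 4 c).const_mul (0:ℝ))).fun_add ((hasDerivAt_pow 5 c).const_mul (352:ℝ))).fun_add ((hasDerivAt_pow 6 c).const_mul (0:ℝ))).fun_add ((hasDerivAt_pow 7 c).const_mul (-512:ℝ))).fun_add ((hasDerivAt_pow 8 c).const_mul (0:ℝ))).fun_add ((hasDerivAt_pow 9 c).const_mul (256:ℝ)))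
  exact h.congr_deriv (by unfold D9; norm_num; try ring)

lemma dp9 (c : ℝ) (h1 : (-1:ℝ) ≤ c) (h2 : c ≤ (-7/8:ℝ)) : 0 < D9 c := by
  obtain ⟨s, hs⟩ : ∃ s, s = c - (-1:ℝ) := ⟨_, rfl⟩
  obtain ⟨t, ht⟩ : ∃ t, t = (-7/8:ℝ) - c := ⟨_, rfl⟩
  have hs0 : 0 ≤ s := by rw [hs]; linarith
  have ht0 : 0 ≤ t := by rw [ht]; linarith
  have key : D9 c = (2:ℝ) + (3321888768:ℝ) * (s ^ 0 * t ^ 8) + (19461570560:ℝ) * (s ^ 1 * t ^ 7) + (48729423872:ℝ) * (s ^ 2 * t ^ 6) + (67599597568:ℝ) * (s ^ 3 * t ^ 5) + (56126996480:ℝ) * (s ^ 4 * t ^ 4) + (27916238848:ℝ) * (s ^ 5 * t ^ 3) + (7725350912:ℝ) * (s ^ 6 * t ^ 2) + (932495360:ℝ) * (s ^ 7 * t ^ 1) + (6244608:ℝ) * (s ^ 8 * t ^ 0) := by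
    rw [hs, ht]; unfold D9; ring
  rw [key]; positivity

lemma pos9_0 (c : ℝ) (h1 : (-7/8:ℝ) ≤ c) (h2 : c ≤ (-13/32:ℝ)) : 0 < P9 c := by
  obtain ⟨s, hs⟩ : ∃ s, s = c - (-7/8:ℝ) := ⟨_, rfl⟩
  obtain ⟨t, ht⟩ : ∃ t, t = (-13/32:ℝ) - c := ⟨_, rfl⟩
  have hs0 : 0 ≤ s := by rw [hs]; linarith
  have ht0 : 0 ≤ t := by rw [ht]; linarith
  have key : P9 c = (1/2:ℝ) + (47866940751872/38443359375:ℝ) * (s ^ 0 * t ^ 9) + (156642171682816/12814453125:ℝ) * (s ^ 1 * t ^ 8) + (136502432497664/12814453125:ℝ) * (s ^ 2 * t ^ 7) + (6109184131072/4271484375:ℝ) * (s ^ 3 * t ^ 6) + (562624658407424/12814453125:ℝ) * (s ^ 4 * t ^ 5) + (1288282042138624/12814453125:ℝ) * (s ^ 5 * t ^ 4) + (1145366448111616/12814453125:ℝ) * (s ^ 6 * t ^ 3) + (494360034033664/12814453125:ℝ) * (s ^ 7 * t ^ 2) + (101498038332416/12814453125:ℝ) * (s ^ 8 * t ^ 1) + (22847772054272/38443359375:ℝ)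 * (s ^ 9 * t ^ 0) := by
    rw [hs, ht]; unfold P9; ring
  rw [key]; positivity

lemma pos9_1 (c : ℝ) (h1 : (-13/32:ℝ) ≤ c) (h2 : c ≤ (-11/64:ℝ)) : 0 < P9 c := by
  obtain ⟨s, hs⟩ : ∃ s, s = c - (-13/32:ℝ) := ⟨_, rfl⟩
  obtain ⟨t, ht⟩ : ∃ t, t = (-11/64:ℝ) - c := ⟨_, rfl⟩
  have hs0 : 0 ≤ s := by rw [hs]; linarith
  have ht0 : 0 ≤ t := by rw [ht]; linarith
  have key : P9 c = (1/32:ℝ) + (20142308593106944/38443359375:ℝ) * (s ^ 0 * t ^ 9) + (51990516903903232/12814453125:ℝ) * (s ^ 1 * t ^ 8) + (168654703093219328/12814453125:ℝ) * (s ^ 2 * t ^ 7) + (296061654347743232/12814453125:ℝ) * (s ^ 3 * t ^ 6) + (302460677967822848/12814453125:ℝ) * (s ^ 4 * t ^ 5) + (178624100759707648/12814453125:ℝ) * (s ^ 5 * t ^ 4) + (18568853461458944/4271484375:ℝ) * (s ^ 6 * t ^ 3) + (7014415342563328/12814453125:ℝ) * (s ^ 7 * t ^ 2) + (335200817541632/12814453125:ℝ)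 * (s ^ 8 * t ^ 1) + (551514820236544/38443359375:ℝ) * (s ^ 9 * t ^ 0) := by
    rw [hs, ht]; unfold P9; ring
  rw [key]; positivity

lemma pos9_2 (c : ℝ) (h1 : (-11/64:ℝ) ≤ c) (h2 : c ≤ (1/16:ℝ)) : 0 < P9 c := by
  obtain ⟨s, hs⟩ : ∃ s, s = c - (-11/64:ℝ) := ⟨_, rfl⟩
  obtain ⟨t, ht⟩ : ∃ t, t = (1/16:ℝ) - c := ⟨_, rfl⟩
  have hs0 : 0 ≤ s := by rw [hs]; linarith
  have ht0 : 0 ≤ t := by rw [ht]; linarith
  have key : P9 c = (1/32:ℝ) + (551514820236544/38443359375:ℝ) * (s ^ 0 * t ^ 9) + (2973888103877632/12814453125:ℝ) * (s ^ 1 * t ^ 8) + (28123913633251328/12814453125:ℝ) * (s ^ 2 * t ^ 7) + (128492082579832832/12814453125:ℝ) * (s ^ 3 * t ^ 6) + (319804257862811648/12814453125:ℝ) * (s ^ 4 * t ^ 5) + (471234005235662848/12814453125:ℝ) * (s ^ 5 * t ^ 4) + (141332628052639744/4271484375:ℝ) * (s ^ 6 * t ^ 3) + (229146529342947328/12814453125:ℝ)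 * (s ^ 7 * t ^ 2) + (68414146957279232/12814453125:ℝ) * (s ^ 8 * t ^ 1) + (26042448367058944/38443359375:ℝ) * (s ^ 9 * t ^ 0) := by
    rw [hs, ht]; unfold P9; ring
  rw [key]; positivity

lemma pos9_3 (c : ℝ) (h1 : (1/16:ℝ) ≤ c) (h2 : c ≤ (17/32:ℝ)) : 0 < P9 c := by
  obtain ⟨s, hs⟩ : ∃ s, s = c - (1/16:ℝ) := ⟨_, rfl⟩
  obtain ⟨t, ht⟩ : ∃ t, t = (17/32:ℝ) - c := ⟨_, rfl⟩
  have hs0 : 0 ≤ s := by rw [hs]; linarith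
  have ht0 : 0 ≤ t := by rw [ht]; linarith
  have key : P9 c = (1/4:ℝ) + (8633515114496/7688671875:ℝ) * (s ^ 0 * t ^ 9) + (33488981393408/2562890625:ℝ) * (s ^ 1 * t ^ 8) + (155470191788032/2562890625:ℝ) * (s ^ 2 * t ^ 7) + (372401601445888/2562890625:ℝ) * (s ^ 3 * t ^ 6) + (494276018716672/2562890625:ℝ) * (s ^ 4 * t ^ 5) + (361673938706432/2562890625:ℝ) * (s ^ 5 * t ^ 4) + (46237406273536/854296875:ℝ) * (s ^ 6 * t ^ 3) + (28061855608832/2562890625:ℝ) * (s ^ 7 * t ^ 2) + (4219607961088/2562890625:ℝ) * (s ^ 8 * t ^ 1) + (1756795510016/7688671875:ℝ) * (s ^ 9 * t ^ 0) := by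
    rw [hs, ht]; unfold P9; ring
  rw [key]; positivity

lemma pos9_4 (c : ℝ) (h1 : (17/32:ℝ) ≤ c) (h2 : c ≤ (49/64:ℝ)) : 0 < P9 c := by
  obtain ⟨s, hs⟩ : ∃ s, s = c - (17/32:ℝ) := ⟨_, rfl⟩
  obtain ⟨t, ht⟩ : ∃ t, t = (49/64:ℝ) - c := ⟨_, rfl⟩
  have hs0 : 0 ≤ s := by rw [hs]; linarith
  have ht0 : 0 ≤ t := by rw [ht]; linarith
  have key : P9 c = (1/4:ℝ) + (899479301128192/7688671875:ℝ) * (s ^ 0 * t ^ 9) + (2967437217038336/2562890625:ℝ) * (s ^ 1 * t ^ 8) + (14915222991929344/2562890625:ℝ) * (s ^ 2 * t ^ 7) + (15261502897979392/854296875:ℝ) * (s ^ 3 * t ^ 6) + (88483705533251584/2562890625:ℝ) * (s ^ 4 * t ^ 5) + (107645038516772864/2562890625:ℝ) * (s ^ 5 * t ^ 4) + (80654329314369536/2562890625:ℝ) * (s ^ 6 * t ^ 3) + (35184838516895744/2562890625:ℝ) * (s ^ 7 * t ^ 2) + (7923250984562176/2562890625:ℝ) * (s ^ 8 * t ^ 1) +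 (2085505239530752/7688671875:ℝ) * (s ^ 9 * t ^ 0) := by
    rw [hs, ht]; unfold P9; ring
  rw [key]; positivity

lemma pos9_5 (c : ℝ) (h1 : (49/64:ℝ) ≤ c) (h2 : c ≤ (113/128:ℝ)) : 0 < P9 c := by
  obtain ⟨s, hs⟩ : ∃ s, s = c - (49/64:ℝ) := ⟨_, rfl⟩
  obtain ⟨t, ht⟩ : ∃ t, t = (113/128:ℝ) - c := ⟨_, rfl⟩
  have hs0 : 0 ≤ s := by rw [hs]; linarith
  have ht0 : 0 ≤ t := by rw [ht]; linarith
  have key : P9 c = (1/16:ℝ) + (7068275670108995584/38443359375:ℝ) * (s ^ 0 * t ^ 9) + (19071405869885489152/12814453125:ℝ) * (s ^ 1 * t ^ 8) + (65719870767227076608/12814453125:ℝ) * (s ^ 2 * t ^ 7) + (124649900798614372352/12814453125:ℝ) * (s ^ 3 * t ^ 6) + (139951643074555363328/12814453125:ℝ) * (s ^ 4 * t ^ 5) + (92423111224491286528/12814453125:ℝ) * (s ^ 5 * t ^ 4) + (11040186742148931584/4271484375:ℝ) * (s ^ 6 * t ^ 3) + (5532725085093572608/12814453125:ℝ)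 * (s ^ 7 * t ^ 2) + (864921279288714752/12814453125:ℝ) * (s ^ 8 * t ^ 1) + (1007842619908681984/38443359375:ℝ) * (s ^ 9 * t ^ 0) := by
    rw [hs, ht]; unfold P9; ring
  rw [key]; positivity

lemma pos9_6 (c : ℝ) (h1 : (113/128:ℝ) ≤ c) (h2 : c ≤ (1:ℝ)) : 0 < P9 c := by
  obtain ⟨s, hs⟩ : ∃ s, s = c - (113/128:ℝ) := ⟨_, rfl⟩
  obtain ⟨t, ht⟩ : ∃ t, t = (1:ℝ) - c := ⟨_, rfl⟩
  have hs0 : 0 ≤ s := by rw [hs]; linarith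
  have ht0 : 0 ≤ t := by rw [ht]; linarith
  have key : P9 c = (1/8:ℝ) + (431381867605258496/38443359375:ℝ) * (s ^ 0 * t ^ 9) + (3452752183253106688/12814453125:ℝ) * (s ^ 1 * t ^ 8) + (33152901344449789952/12814453125:ℝ) * (s ^ 2 * t ^ 7) + (52360751159858692096/4271484375:ℝ) * (s ^ 3 * t ^ 6) + (425299451515536146432/12814453125:ℝ) * (s ^ 4 * t ^ 5) + (707826176166914424832/12814453125:ℝ) * (s ^ 5 * t ^ 4) + (740971757929221849088/12814453125:ℝ) * (s ^ 6 * t ^ 3) + (477435603696801021952/12814453125:ℝ) * (s ^ 7 * t ^ 2) + (173514686443330469888/12814453125:ℝ) * (s ^ 8 * t ^ 1) + (81857426827086135296/38443359375:ℝ) * (s ^ 9 * t ^ 0) := by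
    rw [hs, ht]; unfold P9; ring
  rw [key]; positivity

lemma loc9 (c : ℝ) (h1 : -1 ≤ c) (h2 : c ≤ 1) (h : P9 c = 0) : (-1:ℝ) ≤ c ∧ c ≤ (-7/8:ℝ) := by
  constructor
  · linarith
  · by_contra hc; push Not at hc
    rcases le_or_gt c (-13/32:ℝ) with hx | hx
    · have := pos9_0 c (by linarith) hx; linarith
    rcases le_or_gt c (-11/64:ℝ) with hx | hx
    · have := pos9_1 c (by linarith) hx; linarith
    rcases le_or_gt c (1/16:ℝ) with hx | hx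
    · have := pos9_2 c (by linarith) hx; linarith
    rcases le_or_gt c (17/32:ℝ) with hx | hx
    · have := pos9_3 c (by linarith) hx; linarith
    rcases le_or_gt c (49/64:ℝ) with hx | hx
    · have := pos9_4 c (by linarith) hx; linarith
    rcases le_or_gt c (113/128:ℝ) with hx | hx
    · have := pos9_5 c (by linarith) hx; linarith
    have := pos9_6 c (by linarith) (by linarith)
    linarith

lemma uq9 (c c' : ℝ) (h1 : -1 ≤ c) (h2 : c ≤ 1) (h1' : -1 ≤ c') (h2' : c' ≤ 1) (h : P9 c = 0) (h' : P9 c' = 0) : c = c' := by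
  have hm : StrictMonoOn P9 (Set.Icc (-1:ℝ) (-7/8:ℝ)) := by
    refine strictMonoOn_of_deriv_pos (convex_Icc _ _) (fun x _ => (hd9 x).continuousAt.continuousWithinAt) ?_
    intro x hx; rw [interior_Icc] at hx
    rw [(hd9 x).deriv]; exact dp9 x hx.1.le hx.2.le
  have a := loc9 c h1 h2 h
  have b := loc9 c' h1' h2' h'
  exact hm.injOn ⟨a.1, a.2⟩ ⟨b.1, b.2⟩ (by rw [h, h'])

lemma N9 : N A9 ≤ 2 := N_le_two A9 P9 fA9 uq9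

def A10 : Finset ℤ := {0, 1, -1, 3, 4, 6, 7, 9, 12, 15}
noncomputable def P10 (c : ℝ) : ℝ := (2:ℝ) + (-14:ℝ) * c ^ 1 + (-62:ℝ) * c ^ 2 + (500:ℝ) * c ^ 3 + (800:ℝ) * c ^ 4 + (-5728:ℝ) * c ^ 5 + (-3552:ℝ) * c ^ 6 + (28288:ℝ) * c ^ 7 + (6912:ℝ) * c ^ 8 + (-70144:ℝ) * c ^ 9 + (-6144:ℝ) * c ^ 10 + (92160:ℝ) * c ^ 11 + (2048:ℝ) * c ^ 12 + (-61440:ℝ) * c ^ 13 + (0:ℝ) * c ^ 14 + (16384:ℝ) * c ^ 15
noncomputable def D10 (c : ℝ) : ℝ := (-14:ℝ) + (-124:ℝ) * c ^ 1 + (1500:ℝ) * c ^ 2 + (3200:ℝ) * c ^ 3 + (-28640:ℝ) * c ^ 4 + (-21312:ℝ) * c ^ 5 + (198016:ℝ) * c ^ 6 + (55296:ℝ) * c ^ 7 + (-631296:ℝ) * c ^ 8 + (-61440:ℝ) * c ^ 9 + (1013760:ℝ) * c ^ 10 + (24576:ℝ) * c ^ 11 + (-798720:ℝ) * c ^ 12 + (0:ℝ) * c ^ 13 + (245760:ℝ) * c ^ 14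

lemma card10 : A10.card = 10 := by decide

lemma fA10 (θ : ℝ) : f A10 θ = P10 (Real.cos (2 * Real.pi * θ)) := by
  unfold f A10 P10
  rw [Finset.sum_insert (by decide), Finset.sum_insert (by decide), Finset.sum_insert (by decide), Finset.sum_insert (by decide), Finset.sum_insert (by decide), Finset.sum_insert (by decide), Finset.sum_insert (by decide), Finset.sum_insert (by decide), Finset.sum_insert (by decide), Finset.sum_singleton]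
  push_cast
  simp only [Tneg, T_0, T_1, T_3, T_4, T_6, T_7, T_9, T_12, T_15]
  ring

lemma hd10 (c : ℝ) : HasDerivAt P10 (D10 c) c := by
  have h := ((((((((((((((((hasDerivAt_const c (2:ℝ)).fun_add ((hasDerivAt_pow 1 c).const_mul (-14:ℝ))).fun_add ((hasDerivAt_pow 2 c).const_mul (-62:ℝ))).fun_add ((hasDerivAt_pow 3 c).const_mul (500:ℝ))).fun_add ((hasDerivAt_pow 4 c).const_mul (800:ℝ))).fun_add ((hasDerivAt_pow 5 c).const_mul (-5728:ℝ))).fun_add ((hasDerivAt_pow 6 c).const_mul (-3552:ℝ))).fun_add ((hasDerivAt_pow 7 c).const_mul (28288:ℝ))).fun_add ((hasDerivAt_pow 8 c).const_mul (6912:ℝ))).fun_add ((hasDerivAt_pow 9 c).const_mul (-70144:ℝ))).fun_add ((hasDerivAt_pow 10 c).const_mul (-6144:ℝ))).fun_add ((hasDerivAt_pow 11 c).const_mul (92160:ℝ))).fun_add ((hasDerivAt_pow 12 c).const_mul (2048:ℝ))).fun_add ((hasDerivAt_pow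 13 c).const_mul (-61440:ℝ))).fun_add ((hasDerivAt_pow 14 c).const_mul (0:ℝ))).fun_add ((hasDerivAt_pow 15 c).const_mul (16384:ℝ)))
  exact h.congr_deriv (by unfold D10; norm_num; try ring)

lemma dp10 (c : ℝ) (h1 : (-5/8:ℝ) ≤ c) (h2 : c ≤ (-1/2:ℝ)) : 0 < D10 c := by
  obtain ⟨s, hs⟩ : ∃ s, s = c - (-5/8:ℝ) := ⟨_, rfl⟩
  obtain ⟨t, ht⟩ : ∃ t, t = (-1/2:ℝ) - c := ⟨_, rfl⟩
  have hs0 : 0 ≤ s := by rw [hs]; linarith
  have ht0 : 0 ≤ t := by rw [ht]; linarith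
  have key : D10 c = (13:ℝ) + (174489188810752:ℝ) * (s ^ 0 * t ^ 14) + (2592209679548416:ℝ) * (s ^ 1 * t ^ 13) + (17420890761854976:ℝ) * (s ^ 2 * t ^ 12) + (70328978707054592:ℝ) * (s ^ 3 * t ^ 11) + (190698778116751360:ℝ) * (s ^ 4 * t ^ 10) + (367368419365879808:ℝ) * (s ^ 5 * t ^ 9) + (517975803066056704:ℝ) * (s ^ 6 * t ^ 8) + (541800153623822336:ℝ) * (s ^ 7 * t ^ 7) + (420808340398931968:ℝ) * (s ^ 8 * t ^ 6) + (239873528344608768:ℝ) * (s ^ 9 * t ^ 5) + (97607495488372736:ℝ) * (s ^ 10 * t ^ 4) + (26863817845637120:ℝ) * (s ^ 11 * t ^ 3) + (4484358173884416:ℝ) * (s ^ 12 * t ^ 2) + (343047627866112:ℝ) * (s ^ 13 * t ^ 1) := by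
    rw [hs, ht]; unfold D10; ring
  rw [key]; positivity

lemma neg10_0 (c : ℝ) (h1 : (-1:ℝ) ≤ c) (h2 : c ≤ (-29/32:ℝ)) : 0 < -(P10 c) := by
  obtain ⟨s, hs⟩ : ∃ s, s = c - (-1:ℝ) := ⟨_, rfl⟩
  obtain ⟨t, ht⟩ : ∃ t, t = (-29/32:ℝ) - c := ⟨_, rfl⟩
  have hs0 : 0 ≤ s := by rw [hs]; linarith
  have ht0 : 0 ≤ t := by rw [ht]; linarith
  have key : -(P10 c) = (1/8:ℝ) + (23611832414348226068480/4782969:ℝ) * (s ^ 0 * t ^ 15) + (153476910693263469445120/4782969:ℝ) * (s ^ 1 * t ^ 14) + (355874586670004669775872/4782969:ℝ) * (s ^ 2 * t ^ 13) + (386768271307449741344768/4782969:ℝ) * (s ^ 3 * t ^ 12) + (1312014295949050397065216/4782969:ℝ) * (s ^ 4 * t ^ 11) + (7595233762015540706017280/4782969:ℝ) * (s ^ 5 * t ^ 10) + (7874019489644006172786688/1594323:ℝ) * (s ^ 6 * t ^ 9) + (14961673645044909341671424/1594323:ℝ) * (s ^ 7 * t ^ 8) +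 (19194237469515759008874496/1594323:ℝ) * (s ^ 8 * t ^ 7) + (52295492545135606123986944/4782969:ℝ) * (s ^ 9 * t ^ 6) + (34230445045680450234744832/4782969:ℝ) * (s ^ 10 * t ^ 5) + (16108098337756981659435008/4782969:ℝ) * (s ^ 11 * t ^ 4) + (5327912767769248601735168/4782969:ℝ) * (s ^ 12 * t ^ 3) + (1177312203793320084766720/4782969:ℝ) * (s ^ 13 * t ^ 2) + (156193155775117249740800/4782969:ℝ) * (s ^ 14 * t ^ 1) + (1046621766727416659968/531441:ℝ) * (s ^ 15 * t ^ 0) := by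
    rw [hs, ht]; unfold P10; ring
  rw [key]; positivity

lemma neg10_1 (c : ℝ) (h1 : (-29/32:ℝ) ≤ c) (h2 : c ≤ (-13/16:ℝ)) : 0 < -(P10 c) := by
  obtain ⟨s, hs⟩ : ∃ s, s = c - (-29/32:ℝ) := ⟨_, rfl⟩
  obtain ⟨t, ht⟩ : ∃ t, t = (-13/16:ℝ) - c := ⟨_, rfl⟩
  have hs0 : 0 ≤ s := by rw [hs]; linarith
  have ht0 : 0 ≤ t := by rw [ht]; linarith
  have key : -(P10 c) = (1/4:ℝ) + (23536421218770604605440/14348907:ℝ) * (s ^ 0 * t ^ 15) + (102782888826937022382080/4782969:ℝ) * (s ^ 1 * t ^ 14) + (198283764473078161408000/1594323:ℝ) * (s ^ 2 * t ^ 13) + (5996997970408004859068416/14348907:ℝ) * (s ^ 3 * t ^ 12) + (4300427595904780530876416/4782969:ℝ) * (s ^ 4 * t ^ 11) + (2045961962772654953332736/1594323:ℝ) * (s ^ 5 * t ^ 10) + (17524535790608177133780992/14348907:ℝ) * (s ^ 6 * t ^ 9) + (1276937279176988623372288/1594323:ℝ) * (s ^ 7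 * t ^ 8) + (91343655122821871304704/177147:ℝ) * (s ^ 8 * t ^ 7) + (8485865000188035454730240/14348907:ℝ) * (s ^ 9 * t ^ 6) + (3469778902001160002994176/4782969:ℝ) * (s ^ 10 * t ^ 5) + (978492400623859441598464/1594323:ℝ) * (s ^ 11 * t ^ 4) + (4820025973215871771869184/14348907:ℝ) * (s ^ 12 * t ^ 3) + (552807468977854663884800/4782969:ℝ) * (s ^ 13 * t ^ 2) + (36542835236648542797824/1594323:ℝ) * (s ^ 14 * t ^ 1) + (28834313924575395577856/14348907:ℝ) * (s ^ 15 * t ^ 0) := by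
    rw [hs, ht]; unfold P10; ring
  rw [key]; positivity

lemma neg10_2 (c : ℝ) (h1 : (-13/16:ℝ) ≤ c) (h2 : c ≤ (-5/8:ℝ)) : 0 < -(P10 c) := by
  obtain ⟨s, hs⟩ : ∃ s, s = c - (-13/16:ℝ) := ⟨_, rfl⟩
  obtain ⟨t, ht⟩ : ∃ t, t = (-5/8:ℝ) - c := ⟨_, rfl⟩
  have hs0 : 0 ≤ s := by rw [hs]; linarith
  have ht0 : 0 ≤ t := by rw [ht]; linarith
  have key : -(P10 c) = (1:ℝ) + (15262299418869760/14348907:ℝ) * (s ^ 0 * t ^ 15) + (728217600124616704/1594323:ℝ) * (s ^ 1 * t ^ 14) + (33372415805499572224/4782969:ℝ) * (s ^ 2 * t ^ 13) + (695089621045251276800/14348907:ℝ) * (s ^ 3 * t ^ 12) + (320100765465680543744/1594323:ℝ) * (s ^ 4 * t ^ 11) + (2651969722331697774592/4782969:ℝ) * (s ^ 5 * t ^ 10) + (15488716819115205984256/14348907:ℝ) * (s ^ 6 * t ^ 9) + (270619895674383106048/177147:ℝ) * (s ^ 7 * t ^ 8) + (2543283862646797893632/1594323:ℝ)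 * (s ^ 8 * t ^ 7) + (17681980860299984502784/14348907:ℝ) * (s ^ 9 * t ^ 6) + (1112300603465386688512/1594323:ℝ) * (s ^ 10 * t ^ 5) + (1351600995970771320832/4782969:ℝ) * (s ^ 11 * t ^ 4) + (1121343075680698499072/14348907:ℝ) * (s ^ 12 * t ^ 3) + (21497048285220700160/1594323:ℝ) * (s ^ 13 * t ^ 2) + (5679633732097540096/4782969:ℝ) * (s ^ 14 * t ^ 1) + (376810828025823232/14348907:ℝ) * (s ^ 15 * t ^ 0) := by
    rw [hs, ht]; unfold P10; ring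
  rw [key]; positivity

lemma pos10_0 (c : ℝ) (h1 : (-1/2:ℝ) ≤ c) (h2 : c ≤ (-5/16:ℝ)) : 0 < P10 c := by
  obtain ⟨s, hs⟩ : ∃ s, s = c - (-1/2:ℝ) := ⟨_, rfl⟩
  obtain ⟨t, ht⟩ : ∃ t, t = (-5/16:ℝ) - c := ⟨_, rfl⟩
  have hs0 : 0 ≤ s := by rw [hs]; linarith
  have ht0 : 0 ≤ t := by rw [ht]; linarith
  have key : P10 c = (1/2:ℝ) + (4035225266123964416/14348907:ℝ) * (s ^ 0 * t ^ 15) + (21112875053112885248/4782969:ℝ) * (s ^ 1 * t ^ 14) + (16681333019780317184/531441:ℝ) * (s ^ 2 * t ^ 13) + (1928272475454019993600/14348907:ℝ) * (s ^ 3 * t ^ 12) + (1854490284233785868288/4782969:ℝ) * (s ^ 4 * t ^ 11) + (1273261345824883867648/1594323:ℝ) * (s ^ 5 * t ^ 10) + (17395267738404015570944/14348907:ℝ) * (s ^ 6 * t ^ 9) + (2198391005304825315328/1594323:ℝ) * (s ^ 7 * t ^ 8) + (627972723527580123136/531441:ℝ) * (s ^ 8 * t ^ 7) + (10900460319943883227136/14348907:ℝ)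 * (s ^ 9 * t ^ 6) + (1726358124805813698560/4782969:ℝ) * (s ^ 10 * t ^ 5) + (21801368297735716864/177147:ℝ) * (s ^ 11 * t ^ 4) + (409943620870280839168/14348907:ℝ) * (s ^ 12 * t ^ 3) + (19561337961693839360/4782969:ℝ) * (s ^ 13 * t ^ 2) + (460494962841223168/1594323:ℝ) * (s ^ 14 * t ^ 1) + (58366612315357184/14348907:ℝ) * (s ^ 15 * t ^ 0) := by
    rw [hs, ht]; unfold P10; ring
  rw [key]; positivity

lemma pos10_1 (c : ℝ) (h1 : (-5/16:ℝ) ≤ c) (h2 : c ≤ (-1/8:ℝ)) : 0 < P10 c := by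
  obtain ⟨s, hs⟩ : ∃ s, s = c - (-5/16:ℝ) := ⟨_, rfl⟩
  obtain ⟨t, ht⟩ : ∃ t, t = (-1/8:ℝ) - c := ⟨_, rfl⟩
  have hs0 : 0 ≤ s := by rw [hs]; linarith
  have ht0 : 0 ≤ t := by rw [ht]; linarith
  have key : P10 c = (1/8:ℝ) + (490712176542924800/14348907:ℝ) * (s ^ 0 * t ^ 15) + (1363909055767740416/4782969:ℝ) * (s ^ 1 * t ^ 14) + (464797950571773952/531441:ℝ) * (s ^ 2 * t ^ 13) + (16430942425434947584/14348907:ℝ) * (s ^ 3 * t ^ 12) + (10967595123513491456/4782969:ℝ) * (s ^ 4 * t ^ 11) + (27157508234072817664/1594323:ℝ) * (s ^ 5 * t ^ 10) + (1013241121556925513728/14348907:ℝ) * (s ^ 6 * t ^ 9) + (270823069486246002688/1594323:ℝ) * (s ^ 7 * t ^ 8) + (142889098976312688640/531441:ℝ) * (s ^ 8 * t ^ 7) + (4265691261566204248064/14348907:ℝ) * (s ^ 9 * t ^ 6) + (1124897491125826224128/4782969:ℝ) * (s ^ 10 * t ^ 5) + (70813974483288719360/531441:ℝ)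 * (s ^ 11 * t ^ 4) + (760085586491427782656/14348907:ℝ) * (s ^ 12 * t ^ 3) + (67265660919354490880/4782969:ℝ) * (s ^ 13 * t ^ 2) + (3575408609229537280/1594323:ℝ) * (s ^ 14 * t ^ 1) + (2333149268283490304/14348907:ℝ) * (s ^ 15 * t ^ 0) := by
    rw [hs, ht]; unfold P10; ring
  rw [key]; positivity

lemma pos10_2 (c : ℝ) (h1 : (-1/8:ℝ) ≤ c) (h2 : c ≤ (1/16:ℝ)) : 0 < P10 c := by
  obtain ⟨s, hs⟩ : ∃ s, s = c - (-1/8:ℝ) := ⟨_, rfl⟩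
  obtain ⟨t, ht⟩ : ∃ t, t = (1/16:ℝ) - c := ⟨_, rfl⟩
  have hs0 : 0 ≤ s := by rw [hs]; linarith
  have ht0 : 0 ≤ t := by rw [ht]; linarith
  have key : P10 c = (1:ℝ) + (147149216861388800/1594323:ℝ) * (s ^ 0 * t ^ 15) + (7561235272491335680/4782969:ℝ) * (s ^ 1 * t ^ 14) + (58264014225177313280/4782969:ℝ) * (s ^ 2 * t ^ 13) + (269084607970854043648/4782969:ℝ) * (s ^ 3 * t ^ 12) + (835077474109748150272/4782969:ℝ) * (s ^ 4 * t ^ 11) + (1846959411351202562048/4782969:ℝ) * (s ^ 5 * t ^ 10) + (3008068159761723424768/4782969:ℝ) * (s ^ 6 * t ^ 9) + (1223474792861372776448/1594323:ℝ) * (s ^ 7 * t ^ 8) + (1125313684771591684096/1594323:ℝ) * (s ^ 8 * t ^ 7) + (777224689076921171968/1594323:ℝ) * (s ^ 9 * t ^ 6) + (1191584859982386429952/4782969:ℝ) * (s ^ 10 * t ^ 5) + (437390730845333749760/4782969:ℝ) * (s ^ 11 * t ^ 4) + (109181388640246693888/4782969:ℝ)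 * (s ^ 12 * t ^ 3) + (16646801420427919360/4782969:ℝ) * (s ^ 13 * t ^ 2) + (1187261688324128768/4782969:ℝ) * (s ^ 14 * t ^ 1) + (4427776138067968/4782969:ℝ) * (s ^ 15 * t ^ 0) := by
    rw [hs, ht]; unfold P10; ring
  rw [key]; positivity

lemma pos10_3 (c : ℝ) (h1 : (1/16:ℝ) ≤ c) (h2 : c ≤ (1/4:ℝ)) : 0 < P10 c := by
  obtain ⟨s, hs⟩ : ∃ s, s = c - (1/16:ℝ) := ⟨_, rfl⟩
  obtain ⟨t, ht⟩ : ∃ t, t = (1/4:ℝ) - c := ⟨_, rfl⟩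
  have hs0 : 0 ≤ s := by rw [hs]; linarith
  have ht0 : 0 ≤ t := by rw [ht]; linarith
  have key : P10 c = (1/16:ℝ) + (121571915442569216/1594323:ℝ) * (s ^ 0 * t ^ 15) + (4349891148662505472/4782969:ℝ) * (s ^ 1 * t ^ 14) + (23093376995253026816/4782969:ℝ) * (s ^ 2 * t ^ 13) + (71520325319749795840/4782969:ℝ) * (s ^ 3 * t ^ 12) + (142029120417323548672/4782969:ℝ) * (s ^ 4 * t ^ 11) + (187259417572929437696/4782969:ℝ) * (s ^ 5 * t ^ 10) + (166915638965768814592/4782969:ℝ) * (s ^ 6 * t ^ 9) + (37759692727591632896/1594323:ℝ) * (s ^ 7 * t ^ 8) + (32171907551334498304/1594323:ℝ) * (s ^ 8 * t ^ 7) + (41270992985292537856/1594323:ℝ) * (s ^ 9 * t ^ 6) + (136388420087899488256/4782969:ℝ) * (s ^ 10 * t ^ 5) + (102564557006940667904/4782969:ℝ) * (s ^ 11 * t ^ 4) + (50803688201733013504/4782969:ℝ) * (s ^ 12 * t ^ 3) + (16017046577185030144/4782969:ℝ)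 * (s ^ 13 * t ^ 2) + (2930440380581150720/4782969:ℝ) * (s ^ 14 * t ^ 1) + (237828763134459904/4782969:ℝ) * (s ^ 15 * t ^ 0) := by
    rw [hs, ht]; unfold P10; ring
  rw [key]; positivity

lemma pos10_4 (c : ℝ) (h1 : (1/4:ℝ) ≤ c) (h2 : c ≤ (5/8:ℝ)) : 0 < P10 c := by
  obtain ⟨s, hs⟩ : ∃ s, s = c - (1/4:ℝ) := ⟨_, rfl⟩
  obtain ⟨t, ht⟩ : ∃ t, t = (5/8:ℝ) - c := ⟨_, rfl⟩
  have hs0 : 0 ≤ s := by rw [hs]; linarith
  have ht0 : 0 ≤ t := by rw [ht]; linarith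
  have key : P10 c = (1/2:ℝ) + (6380710789120/14348907:ℝ) * (s ^ 0 * t ^ 15) + (23594134405120/1594323:ℝ) * (s ^ 1 * t ^ 14) + (763100127035392/4782969:ℝ) * (s ^ 2 * t ^ 13) + (12578762189176832/14348907:ℝ) * (s ^ 3 * t ^ 12) + (4585114918977536/1594323:ℝ) * (s ^ 4 * t ^ 11) + (28827817823174656/4782969:ℝ) * (s ^ 5 * t ^ 10) + (118557355741806592/14348907:ℝ) * (s ^ 6 * t ^ 9) + (1311645393485824/177147:ℝ) * (s ^ 7 * t ^ 8) + (7088445027516416/1594323:ℝ) * (s ^ 8 * t ^ 7) + (34328391143391232/14348907:ℝ) * (s ^ 9 * t ^ 6) + (3181980369289216/1594323:ℝ) * (s ^ 10 * t ^ 5) + (8338981759221760/4782969:ℝ) * (s ^ 11 * t ^ 4) + (14278423520608256/14348907:ℝ) * (s ^ 12 * t ^ 3) + (527757096845312/1594323:ℝ) * (s ^ 13 * t ^ 2) + (281081777913856/4782969:ℝ) * (s ^ 14 * t ^ 1) + (61813589229568/14348907:ℝ) * (s ^ 15 * t ^ 0) := by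
    rw [hs, ht]; unfold P10; ring
  rw [key]; positivity

lemma pos10_5 (c : ℝ) (h1 : (5/8:ℝ) ≤ c) (h2 : c ≤ (13/16:ℝ)) : 0 < P10 c := by
  obtain ⟨s, hs⟩ : ∃ s, s = c - (5/8:ℝ) := ⟨_, rfl⟩
  obtain ⟨t, ht⟩ : ∃ t, t = (13/16:ℝ) - c := ⟨_, rfl⟩
  have hs0 : 0 ≤ s := by rw [hs]; linarith
  have ht0 : 0 ≤ t := by rw [ht]; linarith
  have key : P10 c = (1/4:ℝ) + (771246022675398656/4782969:ℝ) * (s ^ 0 * t ^ 15) + (12027215720476573696/4782969:ℝ) * (s ^ 1 * t ^ 14) + (85856831476342980608/4782969:ℝ) * (s ^ 2 * t ^ 13) + (371021293464005378048/4782969:ℝ) * (s ^ 3 * t ^ 12) + (1081667625754984185856/4782969:ℝ) * (s ^ 4 * t ^ 11) + (2244220115974482821120/4782969:ℝ) * (s ^ 5 * t ^ 10) + (1135307356525404618752/1594323:ℝ) * (s ^ 6 * t ^ 9) + (1275187275721896624128/1594323:ℝ) * (s ^ 7 * t ^ 8) + (1060077782210015395840/1594323:ℝ)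 * (s ^ 8 * t ^ 7) + (1936598317295587033088/4782969:ℝ) * (s ^ 9 * t ^ 6) + (846576026406751830016/4782969:ℝ) * (s ^ 10 * t ^ 5) + (258626017382963609600/4782969:ℝ) * (s ^ 11 * t ^ 4) + (54428465200654057472/4782969:ℝ) * (s ^ 12 * t ^ 3) + (8424388359609057280/4782969:ℝ) * (s ^ 13 * t ^ 2) + (1126109598501601280/4782969:ℝ) * (s ^ 14 * t ^ 1) + (34181793906638848/1594323:ℝ) * (s ^ 15 * t ^ 0) := by
    rw [hs, ht]; unfold P10; ring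
  rw [key]; positivity

lemma pos10_6 (c : ℝ) (h1 : (13/16:ℝ) ≤ c) (h2 : c ≤ (1:ℝ)) : 0 < P10 c := by
  obtain ⟨s, hs⟩ : ∃ s, s = c - (13/16:ℝ) := ⟨_, rfl⟩
  obtain ⟨t, ht⟩ : ∃ t, t = (1:ℝ) - c := ⟨_, rfl⟩
  have hs0 : 0 ≤ s := by rw [hs]; linarith
  have ht0 : 0 ≤ t := by rw [ht]; linarith
  have key : P10 c = (1/8:ℝ) + (451751333235605504/14348907:ℝ) * (s ^ 0 * t ^ 15) + (2670827793475174400/4782969:ℝ) * (s ^ 1 * t ^ 14) + (2778490167398236160/531441:ℝ) * (s ^ 2 * t ^ 13) + (449473193839798779904/14348907:ℝ) * (s ^ 3 * t ^ 12) + (606684417266120916992/4782969:ℝ) * (s ^ 4 * t ^ 11) + (570590361750228434944/1594323:ℝ) * (s ^ 5 * t ^ 10) + (10285167661237963587584/14348907:ℝ) * (s ^ 6 * t ^ 9) + (1634070502736750706688/1594323:ℝ) * (s ^ 7 * t ^ 8) + (550246943192139169792/531441:ℝ) * (s ^ 8 * t ^ 7) + (10235724632428088655872/14348907:ℝ)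 * (s ^ 9 * t ^ 6) + (1472341876637261889536/4782969:ℝ) * (s ^ 10 * t ^ 5) + (11689655782793543680/177147:ℝ) * (s ^ 11 * t ^ 4) + (34183447071648907264/14348907:ℝ) * (s ^ 12 * t ^ 3) + (14816842774048931840/4782969:ℝ) * (s ^ 13 * t ^ 2) + (5476377146882523136/1594323:ℝ) * (s ^ 14 * t ^ 1) + (11385099857992613888/14348907:ℝ) * (s ^ 15 * t ^ 0) := by
    rw [hs, ht]; unfold P10; ring
  rw [key]; positivity

lemma loc10 (c : ℝ) (h1 : -1 ≤ c) (h2 : c ≤ 1) (h : P10 c = 0) : (-5/8:ℝ) ≤ c ∧ c ≤ (-1/2:ℝ) := by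
  constructor
  · by_contra hc; push Not at hc
    rcases le_or_gt c (-29/32:ℝ) with hx | hx
    · have := neg10_0 c (by linarith) hx; linarith
    rcases le_or_gt c (-13/16:ℝ) with hx | hx
    · have := neg10_1 c (by linarith) hx; linarith
    have := neg10_2 c (by linarith) (by linarith)
    linarith
  · by_contra hc; push Not at hc
    rcases le_or_gt c (-5/16:ℝ) with hx | hx
    · have := pos10_0 c (by linarith) hx; linarith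
    rcases le_or_gt c (-1/8:ℝ) with hx | hx
    · have := pos10_1 c (by linarith) hx; linarith
    rcases le_or_gt c (1/16:ℝ) with hx | hx
    · have := pos10_2 c (by linarith) hx; linarith
    rcases le_or_gt c (1/4:ℝ) with hx | hx
    · have := pos10_3 c (by linarith) hx; linarith
    rcases le_or_gt c (5/8:ℝ) with hx | hx
    · have := pos10_4 c (by linarith) hx; linarith
    rcases le_or_gt c (13/16:ℝ) with hx | hx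
    · have := pos10_5 c (by linarith) hx; linarith
    have := pos10_6 c (by linarith) (by linarith)
    linarith

lemma uq10 (c c' : ℝ) (h1 : -1 ≤ c) (h2 : c ≤ 1) (h1' : -1 ≤ c') (h2' : c' ≤ 1) (h : P10 c = 0) (h' : P10 c' = 0) : c = c' := by
  have hm : StrictMonoOn P10 (Set.Icc (-5/8:ℝ) (-1/2:ℝ)) := by
    refine strictMonoOn_of_deriv_pos (convex_Icc _ _) (fun x _ => (hd10 x).continuousAt.continuousWithinAt) ?_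
    intro x hx; rw [interior_Icc] at hx
    rw [(hd10 x).deriv]; exact dp10 x hx.1.le hx.2.le
  have a := loc10 c h1 h2 h
  have b := loc10 c' h1' h2' h'
  exact hm.injOn ⟨a.1, a.2⟩ ⟨b.1, b.2⟩ (by rw [h, h'])

lemma N10 : N A10 ≤ 2 := N_le_two A10 P10 fA10 uq10

def A11 : Finset ℤ := {0, 1, -1, 3, -3, 5, -5, 7, 8, 10, 12}
noncomputable def P11 (c : ℝ) : ℝ := (2:ℝ) + (-1:ℝ) * c ^ 1 + (-54:ℝ) * c ^ 2 + (24:ℝ) * c ^ 3 + (600:ℝ) * c ^ 4 + (-80:ℝ) * c ^ 5 + (-2720:ℝ) * c ^ 6 + (64:ℝ) * c ^ 7 + (5760:ℝ) * c ^ 8 + (0:ℝ) * c ^ 9 + (-5632:ℝ) * c ^ 10 + (0:ℝ) * c ^ 11 + (2048:ℝ) * c ^ 12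
noncomputable def D11 (c : ℝ) : ℝ := (-1:ℝ) + (-108:ℝ) * c ^ 1 + (72:ℝ) * c ^ 2 + (2400:ℝ) * c ^ 3 + (-400:ℝ) * c ^ 4 + (-16320:ℝ) * c ^ 5 + (448:ℝ) * c ^ 6 + (46080:ℝ) * c ^ 7 + (0:ℝ) * c ^ 8 + (-56320:ℝ) * c ^ 9 + (0:ℝ) * c ^ 10 + (24576:ℝ) * c ^ 11

lemma card11 : A11.card = 11 := by decide

lemma fA11 (θ : ℝ) : f A11 θ = P11 (Real.cos (2 * Real.pi * θ)) := by
  unfold f A11 P11
  rw [Finset.sum_insert (by decide), Finset.sum_insert (by decide), Finset.sum_insert (by decide), Finset.sum_insert (by decide), Finset.sum_insert (by decide), Finset.sum_insert (by decide), Finset.sum_insert (by decide), Finset.sum_insert (by decide), Finset.sum_insert (by decide), Finset.sum_insert (by decide), Finset.sum_singleton]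
  push_cast
  simp only [Tneg, T_0, T_1, T_3, T_5, T_7, T_8, T_10, T_12]
  ring

lemma hd11 (c : ℝ) : HasDerivAt P11 (D11 c) c := by
  have h := (((((((((((((hasDerivAt_const c (2:ℝ)).fun_add ((hasDerivAt_pow 1 c).const_mul (-1:ℝ))).fun_add ((hasDerivAt_pow 2 c).const_mul (-54:ℝ))).fun_add ((hasDerivAt_pow 3 c).const_mul (24:ℝ))).fun_add ((hasDerivAt_pow 4 c).const_mul (600:ℝ))).fun_add ((hasDerivAt_pow 5 c).const_mul (-80:ℝ))).fun_add ((hasDerivAt_pow 6 c).const_mul (-2720:ℝ))).fun_add ((hasDerivAt_pow 7 c).const_mul (64:ℝ))).fun_add ((hasDerivAt_pow 8 c).const_mul (5760:ℝ))).fun_add ((hasDerivAt_pow 9 c).const_mul (0:ℝ))).fun_add ((hasDerivAt_pow 10 c).const_mul (-5632:ℝ))).fun_add ((hasDerivAt_pow 11 c).const_mul (0:ℝ))).fun_add ((hasDerivAt_pow 12 c).const_mul (2048:ℝ)))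
  exact h.congr_deriv (by unfold D11; norm_num; try ring)

lemma dp11 (c : ℝ) (h1 : (-15/16:ℝ) ≤ c) (h2 : c ≤ (-7/8:ℝ)) : 0 < D11 c := by
  obtain ⟨s, hs⟩ : ∃ s, s = c - (-15/16:ℝ) := ⟨_, rfl⟩
  obtain ⟨t, ht⟩ : ∃ t, t = (-7/8:ℝ) - c := ⟨_, rfl⟩
  have hs0 : 0 ≤ s := by rw [hs]; linarith
  have ht0 : 0 ≤ t := by rw [ht]; linarith
  have key : D11 c = (58:ℝ) + (621238317899776:ℝ) * (s ^ 0 * t ^ 11) + (7641947786067968:ℝ) * (s ^ 1 * t ^ 10) + (39807777540308992:ℝ) * (s ^ 2 * t ^ 9) + (118203913253879808:ℝ) * (s ^ 3 * t ^ 8) + (224235533239058432:ℝ) * (s ^ 4 * t ^ 7) + (286046857810411520:ℝ) * (s ^ 5 * t ^ 6) + (249728009031909376:ℝ) * (s ^ 6 * t ^ 5) + (147886790317965312:ℝ) * (s ^ 7 * t ^ 4) + (57055792760619008:ℝ) * (s ^ 8 * t ^ 3) + (13020935300841472:ℝ) * (s ^ 9 * t ^ 2) + (1361187149185024:ℝ) * (s ^ 10 * t ^ 1) + (9093569839104:ℝ)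 * (s ^ 11 * t ^ 0) := by
    rw [hs, ht]; unfold D11; ring
  rw [key]; positivity

lemma neg11_0 (c : ℝ) (h1 : (-1:ℝ) ≤ c) (h2 : c ≤ (-15/16:ℝ)) : 0 < -(P11 c) := by
  obtain ⟨s, hs⟩ : ∃ s, s = c - (-1:ℝ) := ⟨_, rfl⟩
  obtain ⟨t, ht⟩ : ∃ t, t = (-15/16:ℝ) - c := ⟨_, rfl⟩
  have hs0 : 0 ≤ s := by rw [hs]; linarith
  have ht0 : 0 ≤ t := by rw [ht]; linarith
  have key : -(P11 c) = (2:ℝ) + (281474976710656:ℝ) * (s ^ 0 * t ^ 12) + (6702622882922496:ℝ) * (s ^ 1 * t ^ 11) + (49502212505731072:ℝ) * (s ^ 2 * t ^ 10) + (191313373965582336:ℝ) * (s ^ 3 * t ^ 9) + (459997972428488704:ℝ) * (s ^ 4 * t ^ 8) + (744166739742294016:ℝ) * (s ^ 5 * t ^ 7) + (840597072204791808:ℝ) * (s ^ 6 * t ^ 6) + (671357236450164736:ℝ) * (s ^ 7 * t ^ 5) + (376363801311707136:ℝ) * (s ^ 8 * t ^ 4) + (143808658243846144:ℝ) * (s ^ 9 * t ^ 3) + (35166564949295104:ℝ)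 * (s ^ 10 * t ^ 2) + (4825819999502336:ℝ) * (s ^ 11 * t ^ 1) + (265352907585536:ℝ) * (s ^ 12 * t ^ 0) := by
    rw [hs, ht]; unfold P11; ring
  rw [key]; positivity

lemma pos11_0 (c : ℝ) (h1 : (-7/8:ℝ) ≤ c) (h2 : c ≤ (-13/32:ℝ)) : 0 < P11 c := by
  obtain ⟨s, hs⟩ : ∃ s, s = c - (-7/8:ℝ) := ⟨_, rfl⟩
  obtain ⟨t, ht⟩ : ∃ t, t = (-13/32:ℝ) - c := ⟨_, rfl⟩
  have hs0 : 0 ≤ s := by rw [hs]; linarith
  have ht0 : 0 ≤ t := by rw [ht]; linarith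
  have key : P11 c = (1/256:ℝ) + (549557798715785216/25949267578125:ℝ) * (s ^ 0 * t ^ 12) + (34452200423948288/69198046875:ℝ) * (s ^ 1 * t ^ 11) + (8531937161816047616/2883251953125:ℝ) * (s ^ 2 * t ^ 10) + (33548287166667292672/5189853515625:ℝ) * (s ^ 3 * t ^ 9) + (3554341009334730752/576650390625:ℝ) * (s ^ 4 * t ^ 8) + (1993541591662329856/961083984375:ℝ) * (s ^ 5 * t ^ 7) + (19040540989325312/1729951171875:ℝ) * (s ^ 6 * t ^ 6) + (3199252311889149952/2883251953125:ℝ) * (s ^ 7 * t ^ 5) + (38758412353798144/21357421875:ℝ) * (s ^ 8 * t ^ 4) + (5788328874318757888/5189853515625:ℝ) * (s ^ 9 * t ^ 3) + (2970886831701164032/8649755859375:ℝ) * (s ^ 10 * t ^ 2) + (30829559210082304/576650390625:ℝ) * (s ^ 11 * t ^ 1) + (89946115318605824/25949267578125:ℝ) * (s ^ 12 * t ^ 0) := by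
    rw [hs, ht]; unfold P11; ring
  rw [key]; positivity

lemma pos11_1 (c : ℝ) (h1 : (-13/32:ℝ) ≤ c) (h2 : c ≤ (1/16:ℝ)) : 0 < P11 c := by
  obtain ⟨s, hs⟩ : ∃ s, s = c - (-13/32:ℝ) := ⟨_, rfl⟩
  obtain ⟨t, ht⟩ : ∃ t, t = (1/16:ℝ) - c := ⟨_, rfl⟩
  have hs0 : 0 ≤ s := by rw [hs]; linarith
  have ht0 : 0 ≤ t := by rw [ht]; linarith
  have key : P11 c = (1/32:ℝ) + (46467264355715072/14416259765625:ℝ) * (s ^ 0 * t ^ 12) + (1159526882421686272/43248779296875:ℝ) * (s ^ 1 * t ^ 11) + (2868397859441524736/43248779296875:ℝ) * (s ^ 2 * t ^ 10) + (338994542059126784/8649755859375:ℝ) * (s ^ 3 * t ^ 9) + (933020349167403008/2883251953125:ℝ) * (s ^ 4 * t ^ 8) + (34847243440579149824/14416259765625:ℝ) * (s ^ 5 * t ^ 7) + (95620713043287605248/14416259765625:ℝ) * (s ^ 6 * t ^ 6) + (136717006178294431744/14416259765625:ℝ) * (s ^ 7 * t ^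 5) + (22958760853530738688/2883251953125:ℝ) * (s ^ 8 * t ^ 4) + (3914086742298198016/961083984375:ℝ) * (s ^ 9 * t ^ 3) + (53996033066093510656/43248779296875:ℝ) * (s ^ 10 * t ^ 2) + (9130164498382979072/43248779296875:ℝ) * (s ^ 11 * t ^ 1) + (657199962202832896/43248779296875:ℝ) * (s ^ 12 * t ^ 0) := by
    rw [hs, ht]; unfold P11; ring
  rw [key]; positivity

lemma pos11_2 (c : ℝ) (h1 : (1/16:ℝ) ≤ c) (h2 : c ≤ (17/32:ℝ)) : 0 < P11 c := by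
  obtain ⟨s, hs⟩ : ∃ s, s = c - (1/16:ℝ) := ⟨_, rfl⟩
  obtain ⟨t, ht⟩ : ∃ t, t = (17/32:ℝ) - c := ⟨_, rfl⟩
  have hs0 : 0 ≤ s := by rw [hs]; linarith
  have ht0 : 0 ≤ t := by rw [ht]; linarith
  have key : P11 c = (1/16:ℝ) + (387114217917906944/25949267578125:ℝ) * (s ^ 0 * t ^ 12) + (1299703881281830912/8649755859375:ℝ) * (s ^ 1 * t ^ 11) + (574234901973303296/961083984375:ℝ) * (s ^ 2 * t ^ 10) + (5901646796374933504/5189853515625:ℝ) * (s ^ 3 * t ^ 9) + (108050439229407232/115330078125:ℝ) * (s ^ 4 * t ^ 8) + (270153952520044544/961083984375:ℝ) * (s ^ 5 * t ^ 7) + (10576455960149622784/8649755859375:ℝ) * (s ^ 6 * t ^ 6) + (10676038626132361216/2883251953125:ℝ) * (s ^ 7 * t ^ 5) + (872335254269100032/192216796875:ℝ) * (s ^ 8 * t ^ 4) + (2949079150437269504/1037970703125:ℝ) * (s ^ 9 * t ^ 3) + (8283903230149378048/8649755859375:ℝ)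 * (s ^ 10 * t ^ 2) + (158487921682628608/961083984375:ℝ) * (s ^ 11 * t ^ 1) + (296004430276093952/25949267578125:ℝ) * (s ^ 12 * t ^ 0) := by
    rw [hs, ht]; unfold P11; ring
  rw [key]; positivity

lemma pos11_3 (c : ℝ) (h1 : (17/32:ℝ) ≤ c) (h2 : c ≤ (49/64:ℝ)) : 0 < P11 c := by
  obtain ⟨s, hs⟩ : ∃ s, s = c - (17/32:ℝ) := ⟨_, rfl⟩
  obtain ⟨t, ht⟩ : ∃ t, t = (49/64:ℝ) - c := ⟨_, rfl⟩
  have hs0 : 0 ≤ s := by rw [hs]; linarith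
  have ht0 : 0 ≤ t := by rw [ht]; linarith
  have key : P11 c = (1/16:ℝ) + (1212434146410880827392/25949267578125:ℝ) * (s ^ 0 * t ^ 12) + (1451118502003691487232/2883251953125:ℝ) * (s ^ 1 * t ^ 11) + (20297592509517090783232/8649755859375:ℝ) * (s ^ 2 * t ^ 10) + (31938514381227931205632/5189853515625:ℝ) * (s ^ 3 * t ^ 9) + (377991482685694410752/38443359375:ℝ) * (s ^ 4 * t ^ 8) + (27701914031684400971776/2883251953125:ℝ) * (s ^ 5 * t ^ 7) + (46661593961984619446272/8649755859375:ℝ) * (s ^ 6 * t ^ 6) + (521467917931065638912/320361328125:ℝ) * (s ^ 7 * t ^ 5) + (466773214781241786368/576650390625:ℝ) * (s ^ 8 * t ^ 4) + (1126343229516057608192/1037970703125:ℝ) * (s ^ 9 * t ^ 3) + (2193661516617029337088/2883251953125:ℝ) * (s ^ 10 * t ^ 2) + (2087167504880261349376/8649755859375:ℝ) * (s ^ 11 * t ^ 1) + (746909769922145970176/25949267578125:ℝ)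 * (s ^ 12 * t ^ 0) := by
    rw [hs, ht]; unfold P11; ring
  rw [key]; positivity

lemma pos11_4 (c : ℝ) (h1 : (49/64:ℝ) ≤ c) (h2 : c ≤ (113/128:ℝ)) : 0 < P11 c := by
  obtain ⟨s, hs⟩ : ∃ s, s = c - (49/64:ℝ) := ⟨_, rfl⟩
  obtain ⟨t, ht⟩ : ∃ t, t = (113/128:ℝ) - c := ⟨_, rfl⟩
  have hs0 : 0 ≤ s := by rw [hs]; linarith
  have ht0 : 0 ≤ t := by rw [ht]; linarith
  have key : P11 c = (1/2:ℝ) + (84373226551890682052608/1601806640625:ℝ) * (s ^ 0 * t ^ 12) + (36557754328849803705843712/43248779296875:ℝ) * (s ^ 1 * t ^ 11) + (252059491406290418847973376/43248779296875:ℝ) * (s ^ 2 * t ^ 10) + (200377323345430199794663424/8649755859375:ℝ) * (s ^ 3 * t ^ 9) + (171701273386267720113717248/2883251953125:ℝ) * (s ^ 4 * t ^ 8) + (1508312916441633824675201024/14416259765625:ℝ) * (s ^ 5 * t ^ 7) + (1857291929503997535291179008/14416259765625:ℝ)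 * (s ^ 6 * t ^ 6) + (1610917995455780116330184704/14416259765625:ℝ) * (s ^ 7 * t ^ 5) + (194255378462982244946771968/2883251953125:ℝ) * (s ^ 8 * t ^ 4) + (78621798194110123794956288/2883251953125:ℝ) * (s ^ 9 * t ^ 3) + (299143525706350837426733056/43248779296875:ℝ) * (s ^ 10 * t ^ 2) + (41512199017923124582694912/43248779296875:ℝ) * (s ^ 11 * t ^ 1) + (2269618286106720731355136/43248779296875:ℝ) * (s ^ 12 * t ^ 0) := by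
    rw [hs, ht]; unfold P11; ring
  rw [key]; positivity

lemma pos11_5 (c : ℝ) (h1 : (113/128:ℝ) ≤ c) (h2 : c ≤ (1:ℝ)) : 0 < P11 c := by
  obtain ⟨s, hs⟩ : ∃ s, s = c - (113/128:ℝ) := ⟨_, rfl⟩
  obtain ⟨t, ht⟩ : ∃ t, t = (1:ℝ) - c := ⟨_, rfl⟩
  have hs0 : 0 ≤ s := by rw [hs]; linarith
  have ht0 : 0 ≤ t := by rw [ht]; linarith
  have key : P11 c = (1/256:ℝ) + (3280940710302256253659136/25949267578125:ℝ) * (s ^ 0 * t ^ 12) + (10268406924280529853349888/8649755859375:ℝ) * (s ^ 1 * t ^ 11) + (13077536406294732621217792/2883251953125:ℝ) * (s ^ 2 * t ^ 10) + (44290021398494564325523456/5189853515625:ℝ) * (s ^ 3 * t ^ 9) + (156996772459407667625984/23066015625:ℝ) * (s ^ 4 * t ^ 8) + (32929646973883519074304/106787109375:ℝ) * (s ^ 5 * t ^ 7) + (66438891524518628993007616/8649755859375:ℝ) * (s ^ 6 * t ^ 6) + (115867993382169640639135744/2883251953125:ℝ)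 * (s ^ 7 * t ^ 5) + (13842708265925982445109248/192216796875:ℝ) * (s ^ 8 * t ^ 4) + (72195465003134841188777984/1037970703125:ℝ) * (s ^ 9 * t ^ 3) + (338874657627484305712218112/8649755859375:ℝ) * (s ^ 10 * t ^ 2) + (35209964496276074713317376/2883251953125:ℝ) * (s ^ 11 * t ^ 1) + (42539077277689764084973568/25949267578125:ℝ) * (s ^ 12 * t ^ 0) := by
    rw [hs, ht]; unfold P11; ring
  rw [key]; positivity

lemma loc11 (c : ℝ) (h1 : -1 ≤ c) (h2 : c ≤ 1) (h : P11 c = 0) : (-15/16:ℝ) ≤ c ∧ c ≤ (-7/8:ℝ) := by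
  constructor
  · by_contra hc; push Not at hc
    have := neg11_0 c (by linarith) (by linarith)
    linarith
  · by_contra hc; push Not at hc
    rcases le_or_gt c (-13/32:ℝ) with hx | hx
    · have := pos11_0 c (by linarith) hx; linarith
    rcases le_or_gt c (1/16:ℝ) with hx | hx
    · have := pos11_1 c (by linarith) hx; linarith
    rcases le_or_gt c (17/32:ℝ) with hx | hx
    · have := pos11_2 c (by linarith) hx; linarith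
    rcases le_or_gt c (49/64:ℝ) with hx | hx
    · have := pos11_3 c (by linarith) hx; linarith
    rcases le_or_gt c (113/128:ℝ) with hx | hx
    · have := pos11_4 c (by linarith) hx; linarith
    have := pos11_5 c (by linarith) (by linarith)
    linarith

lemma uq11 (c c' : ℝ) (h1 : -1 ≤ c) (h2 : c ≤ 1) (h1' : -1 ≤ c') (h2' : c' ≤ 1) (h : P11 c = 0) (h' : P11 c' = 0) : c = c' := by
  have hm : StrictMonoOn P11 (Set.Icc (-15/16:ℝ) (-7/8:ℝ)) := by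
    refine strictMonoOn_of_deriv_pos (convex_Icc _ _) (fun x _ => (hd11 x).continuousAt.continuousWithinAt) ?_
    intro x hx; rw [interior_Icc] at hx
    rw [(hd11 x).deriv]; exact dp11 x hx.1.le hx.2.le
  have a := loc11 c h1 h2 h
  have b := loc11 c' h1' h2' h'
  exact hm.injOn ⟨a.1, a.2⟩ ⟨b.1, b.2⟩ (by rw [h, h'])

lemma N11 : N A11 ≤ 2 := N_le_two A11 P11 fA11 uq11

end MP_78a764_an_797
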